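import Mathlib

/-! Boomerang subgroups, function field case (MP_4c7af0_al), step 2: an elementary lemma on exponents. -/

namespace BoomFF

/-- Write `o = o' o''` with `o'' = gcd(o, q^o)`; then `o'` is prime to `q` (for a prime `l ∣ q`,
`v_l(o) < o ≤ v_l(q^o)`, so `v_l(o'') = v_l(o)`), `o''` divides `q^o` and `o', o''` are coprime. Take
`M = φ(o')` (Euler), so `q^(h M) ≡ 1 mod o'` and `q^(h d) ≡ q^h mod o'` for `d ≡ 1 mod M`, and `J = o`: for
`d ≥ J` (and for `d = 1 + M J`) `q^(h d)` is divisible by `q^o`, hence by `o''`. So `o = o' o''` divides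
the difference. Last statement: `g = gcd(q^(h (1 + M J)) - 1, o)` is prime to `q`, so prime to `o''`, so
`g ∣ o'`, and `q^(h (1 + M J)) ≡ q^h mod o'`. -/
theorem ff_exp {q h o : ℕ} (hq : 1 < q) (hh : 0 < h) (ho : 0 < o) :
    ∃ M J : ℕ, 0 < M ∧
      (∀ d : ℕ, J ≤ d → d ≡ 1 [MOD M] →
        (o : ℤ) ∣ (q : ℤ) ^ (h * d) - (q : ℤ) ^ (h * (1 + M * J))) ∧
      Nat.gcd (q ^ (h * (1 + M * J)) - 1) o ∣ q ^ h - 1 := by
  obtain ⟨o2, ho2⟩ : ∃ o2, o2 = Nat.gcd o (q ^ o) := ⟨_, rfl⟩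
  have ho2o : o2 ∣ o := ho2 ▸ Nat.gcd_dvd_left _ _
  have ho2q : o2 ∣ q ^ o := ho2 ▸ Nat.gcd_dvd_right _ _
  obtain ⟨o1, ho1⟩ := ho2o
  have ho1pos : 0 < o1 := Nat.pos_of_ne_zero fun h0 => by
    rw [h0, mul_zero] at ho1
    omega
  have hcop : Nat.Coprime q o1 := by
    refine Nat.coprime_of_dvd fun l hl hlq hlo => ?_
    obtain ⟨v, m, hm, hv⟩ := Nat.exists_eq_pow_mul_and_not_dvd ho.ne' l hl.ne_one
    have hvo : v ≤ o := by
      have h1 : v < l ^ v := Nat.lt_pow_self hl.one_lt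
      have h2 : l ^ v ≤ o := Nat.le_of_dvd ho ⟨m, hv⟩
      omega
    have h3 : l ^ v ∣ o2 := by
      rw [ho2]
      exact Nat.dvd_gcd ⟨m, hv⟩ ((pow_dvd_pow_of_dvd hlq v).trans (pow_dvd_pow q hvo))
    have h4 : l ^ v * l ∣ l ^ v * m := by
      rw [← hv, ho1]
      exact Nat.mul_dvd_mul h3 hlo
    exact hm ((Nat.mul_dvd_mul_iff_left (pow_pos hl.pos v)).1 h4)
  have hM : 0 < Nat.totient o1 := Nat.totient_pos.2 ho1pos
  have hmod : ∀ k, q ^ (h * (1 + Nat.totient o1 * k)) ≡ q ^ h [MOD o1] := by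
    intro k
    have h1 := (Nat.ModEq.pow_totient hcop).pow (h * k)
    rw [one_pow, ← pow_mul] at h1
    have h2 := h1.mul_left (q ^ h)
    rw [← pow_add, mul_one] at h2
    have h3 : h * (1 + Nat.totient o1 * k) = h + Nat.totient o1 * (h * k) := by ring
    rw [h3]
    exact h2
  have hbig : ∀ e, o ≤ e → o2 ∣ q ^ (h * e) := by
    intro e he
    refine ho2q.trans (pow_dvd_pow q ?_)
    calc o ≤ e := he
      _ = 1 * e := (one_mul e).symm
      _ ≤ h * e := Nat.mul_le_mul_right e hh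
  have hJ : o ≤ 1 + Nat.totient o1 * o := by
    have := Nat.mul_le_mul_right o hM
    omega
  have hc12 : Nat.Coprime o1 o2 :=
    (hcop.symm.pow_right o).coprime_dvd_right ho2q
  refine ⟨Nat.totient o1, o, hM, ?_, ?_⟩
  · intro d hd hd1
    have hd0 : 1 ≤ d := le_trans ho hd
    obtain ⟨k, hk⟩ : Nat.totient o1 ∣ d - 1 := (Nat.modEq_iff_dvd' hd0).1 hd1.symm
    have hdk : d = 1 + Nat.totient o1 * k := by omega
    have e1 : (o1 : ℤ) ∣ (q : ℤ) ^ (h * d) - (q : ℤ) ^ (h * (1 + Nat.totient o1 * o)) := by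
      have h1 : q ^ (h * (1 + Nat.totient o1 * o)) ≡ q ^ (h * d) [MOD o1] := by
        rw [hdk]
        exact (hmod o).trans (hmod k).symm
      have h2 := (Nat.modEq_iff_dvd.1 h1)
      exact_mod_cast h2
    have e2 : (o2 : ℤ) ∣ (q : ℤ) ^ (h * d) - (q : ℤ) ^ (h * (1 + Nat.totient o1 * o)) := by
      refine dvd_sub ?_ ?_
      · exact_mod_cast hbig d hd
      · exact_mod_cast hbig _ hJ
    have hc : IsCoprime (o2 : ℤ) (o1 : ℤ) := Nat.isCoprime_iff_coprime.2 hc12.symm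
    have h3 := hc.mul_dvd e2 e1
    have h4 : ((o2 : ℤ) * (o1 : ℤ)) = (o : ℤ) := by
      rw [ho1]
      push_cast
      ring
    rwa [h4] at h3
  · obtain ⟨g, hg⟩ : ∃ g, g = Nat.gcd (q ^ (h * (1 + Nat.totient o1 * o)) - 1) o := ⟨_, rfl⟩
    rw [← hg]
    have hg1 : g ∣ q ^ (h * (1 + Nat.totient o1 * o)) - 1 := hg ▸ Nat.gcd_dvd_left _ _
    have hg2 : g ∣ o := hg ▸ Nat.gcd_dvd_right _ _
    have hpos : ∀ e, 1 ≤ q ^ e := fun e => Nat.one_le_pow _ _ (by omega)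
    have hgq : Nat.Coprime g q := by
      refine Nat.coprime_of_dvd fun l hl hlg hlq => ?_
      have h1 : l ∣ q ^ (h * (1 + Nat.totient o1 * o)) - 1 := hlg.trans hg1
      have h2 : l ∣ q ^ (h * (1 + Nat.totient o1 * o)) :=
        hlq.trans (dvd_pow_self q (by positivity))
      have h3 := (Nat.dvd_sub h2 h1)
      rw [Nat.sub_sub_self (hpos _)] at h3
      exact hl.one_lt.ne' (Nat.dvd_one.1 h3)
    have hg3 : Nat.Coprime g o2 := (hgq.pow_right o).coprime_dvd_right ho2q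
    have hg4 : g ∣ o1 := by
      rw [ho1] at hg2
      exact hg3.dvd_of_dvd_mul_left hg2
    have h1 : q ^ (h * (1 + Nat.totient o1 * o)) ≡ q ^ h [MOD g] := (hmod o).of_dvd hg4
    have h2 : 1 ≡ q ^ (h * (1 + Nat.totient o1 * o)) [MOD g] :=
      (Nat.modEq_iff_dvd' (hpos _)).2 hg1
    exact (Nat.modEq_iff_dvd' (hpos h)).1 (h2.trans h1)

/-- `gcd(q^(h d₁) - 1, q^(h d₂) - 1) = q^h - 1` for coprime `d₁, d₂` (mathlib:
`Nat.pow_sub_one_gcd_pow_sub_one`), so `gcd(2 K (q^(h d₁) - 1), 2 K (q^(h d₂) - 1)) ∣ 2 K (q^h - 1)`. -/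
theorem ff_gcd (q h K d₁ d₂ : ℕ) (hd : Nat.Coprime d₁ d₂) :
    Nat.gcd (2 * K * (q ^ (h * d₁) - 1)) (2 * K * (q ^ (h * d₂) - 1)) ∣ 2 * K * (q ^ h - 1) := by
  rw [Nat.gcd_mul_left, Nat.pow_sub_one_gcd_pow_sub_one, Nat.gcd_mul_left, hd, mul_one]

end BoomFF
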