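import Pool.Agent.H.MP_4c7af0_al.FF.A9

/-! Boomerang subgroups, function field case (MP_4c7af0_al), step 2: `L(μ, 1)` for almost all `μ`. -/

namespace BoomFF

open BoomNF Polynomial

variable {Fq F : Type*} [Field Fq] [Field F] {io : Fq[X] →+* F} {A : Subring F} {n h : ℕ}
  {p : ℕ} [CharP Fq p] {m : ℕ}

/-- Sums of two units. If all irreducible divisors of `ψ ≠ 0` have degree `> B` (`B` from `FR.pig`), then
for every `x ∈ A` there is `j ∈ 𝔽_q[X]` coprime to `ψ` such that `x + j` is a unit modulo `ψ`. Proof: by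
induction on the factorisation of `ψ` (`WfDvdMonoid.induction_on_irreducible`). If `ψ` is a unit take
`j = 1`. Let `ψ = P ψ'`, `j'` for `ψ'`. If `P ∣ ψ'` then `j = j'` works. Otherwise `P, ψ'` are coprime. `FR.pig` for
`a = x`, `b = 1` (`x 0 + 1 · 1 + P 0 = 1`) gives `j₀ ≠ 0` of degree `≤ B < deg P`, so coprime to `P`, with `x + j₀`
coprime to `P`. Take `j ≡ j' mod ψ'`, `j ≡ j₀ mod P`. -/
theorem two_units (hA : FR io A n h) : ∃ B : ℕ, ∀ ψ : Fq[X], ψ ≠ 0 →
    (∀ P : Fq[X], Irreducible P → P ∣ ψ → B < P.natDegree) → ∀ x ∈ A, ∃ j : Fq[X],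
      IsCoprime j ψ ∧ Cop A (x + io j) (io ψ) := by
  obtain ⟨B, hB⟩ := hA.pig
  refine ⟨B, fun ψ hψ hdeg x hx => ?_⟩
  induction ψ using WfDvdMonoid.induction_on_irreducible with
  | zero => exact absurd rfl hψ
  | unit ψ hu =>
    obtain ⟨w, rfl⟩ := hu
    refine ⟨1, isCoprime_one_left, 0, A.zero_mem, io (↑w⁻¹ : Fq[X]), hA.mem _, ?_⟩
    rw [← map_mul, Units.mul_inv, map_one]
    ring
  | mul ψ' P hψ' hP ih =>
    have hdegP : B < P.natDegree := hdeg P hP (dvd_mul_right P ψ')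
    obtain ⟨j', hj', hc'⟩ := ih hψ' (fun Q hQ hQd => hdeg Q hQ (hQd.mul_left P))
    by_cases hd : P ∣ ψ'
    · refine ⟨j', ?_, ?_⟩
      · exact (hj'.of_isCoprime_of_dvd_right hd).mul_right hj'
      · obtain ⟨r, hr⟩ := hd
        have h1 : Cop A (x + io j') (io P) := by
          rw [hr, map_mul] at hc'
          exact hc'.of_mul_right_left (hA.mem r)
        rw [map_mul]
        exact h1.mul_right (A.add_mem hx (hA.mem _)) (hA.mem _) (hA.mem _) hc'
    · have hcop : IsCoprime P ψ' := (Irreducible.coprime_iff_not_dvd hP).2 hd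
      obtain ⟨j₀, hj₀, hdj₀, hc₀⟩ := hB P hP hdegP x hx 1 A.one_mem
        ⟨0, A.zero_mem, 1, A.one_mem, 0, A.zero_mem, by ring⟩
      rw [one_mul] at hc₀
      have hj₀P : IsCoprime P j₀ := by
        refine (Irreducible.coprime_iff_not_dvd hP).2 fun hdv => ?_
        have := natDegree_le_of_dvd hdv hj₀
        omega
      obtain ⟨a, b, hab⟩ := hcop
      have e1 : j' + (j₀ - j') * b * ψ' = j₀ + (j' - j₀) * a * P := by
        linear_combination (j₀ - j') * hab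
      refine ⟨j' + (j₀ - j') * b * ψ', ?_, ?_⟩
      · refine IsCoprime.mul_right ?_ ?_
        · rw [e1, mul_comm _ P]
          exact (IsCoprime.add_mul_left_left_iff.2 hj₀P.symm)
        · rw [mul_comm _ ψ']
          exact (IsCoprime.add_mul_left_left_iff.2 hj')
      · have h1 : Cop A (x + io (j' + (j₀ - j') * b * ψ')) (io P) := by
          have e2 : x + io (j' + (j₀ - j') * b * ψ') =
              (x + io j₀) + io P * io ((j' - j₀) * a) := by
            rw [e1, map_add, map_mul io _ P]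
            ring
          rw [e2]
          exact hc₀.add_mul (hA.mem _)
        have h2 : Cop A (x + io (j' + (j₀ - j') * b * ψ')) (io ψ') := by
          have e2 : x + io (j' + (j₀ - j') * b * ψ') =
              (x + io j') + io ψ' * io ((j₀ - j') * b) := by
            rw [map_add, map_mul io _ ψ']
            ring
          rw [e2]
          exact hc'.add_mul (hA.mem _)
        rw [map_mul]
        exact h1.mul_right (A.add_mem hx (hA.mem _)) (hA.mem _) (hA.mem _) h2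

/-- There is `W ≠ 0` in `𝔽_p[Z]` such that for `μ ∤ W` irreducible `ψ = φ(μ)` has no irreducible divisor of
degree `≤ B`. Proof: the product `f` of all nonzero polynomials of degree `≤ B` (finitely many since `𝔽_q` is
finite) divides some `φ(W)` (`phi_dvd`); `φ(μ)` is coprime to `φ(W)` (`phi_cop`). -/
theorem exists_W_deg [Finite Fq] [Fact p.Prime] (m B : ℕ) : ∃ W : (ZMod p)[X], W ≠ 0 ∧
    ∀ μ : (ZMod p)[X], Irreducible μ → ¬ μ ∣ W → ∀ P : Fq[X], Irreducible P →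
      P ∣ phi Fq p m μ → B < P.natDegree := by
  classical
  have hfin : {P : Fq[X] | P.natDegree ≤ B}.Finite := by
    have h1 : Set.Finite {P : Fq[X] | P ∈ degreeLT Fq (B + 1)} := by
      have : Finite (degreeLT Fq (B + 1)) :=
        Finite.of_equiv _ (degreeLTEquiv Fq (B + 1)).toEquiv.symm
      exact Set.finite_coe_iff.1 this
    refine h1.subset fun P hP => ?_
    rw [Set.mem_setOf_eq, mem_degreeLT]
    refine lt_of_le_of_lt degree_le_natDegree ?_
    have hP' : P.natDegree ≤ B := hP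
    exact_mod_cast Nat.lt_succ_of_le hP'
  set S : Finset Fq[X] := hfin.toFinset.filter (fun P => P ≠ 0) with hS
  have hf : (∏ P ∈ S, P) ≠ 0 := by
    rw [Finset.prod_ne_zero_iff]
    intro P hP
    exact (Finset.mem_filter.1 hP).2
  obtain ⟨W, hW, hd⟩ := phi_dvd (p := p) m hf
  refine ⟨W, hW, fun μ hμ hμW P hP hPd => ?_⟩
  by_contra hlt
  have hPS : P ∈ S := by
    rw [hS, Finset.mem_filter, Set.Finite.mem_toFinset]
    exact ⟨not_lt.1 hlt, hP.ne_zero⟩
  have hPW : P ∣ phi Fq p m W := (Finset.dvd_prod_of_mem (fun P => P) hPS).trans hd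
  have hc := phi_cop (Fq := Fq) (m := m) hμ hμW
  exact hP.not_isUnit (hc.isUnit_of_dvd' hPd hPW)

/-- `L(μ, 1)` for almost all `μ`. Proof: let `W` be the product of the `W` of `exists_W_deg` for the `B` of
`two_units`, of `W₁` with `1 + N² X ∣ φ(W₁)` (`1 + N² X ≠ 0`), of `N'` with `N ∣ φ(N')`, of `Z` and of `Z - 1`. Let
`μ ∤ W`, `ψ = φ(μ)`, STAR for `l = ψ`, `l₀ = X` (`1 + N² X` divides `φ(W₁)`, which is coprime to `ψ`). Let `x ∈ A`.
`τ² = κ² x₁² + ψ y₂`; `N X τ²` is a unit mod `ψ` (`τ = φ(Z - 1)`), so there is `x' ∈ A` with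
`N X τ² x' ≡ x mod ψ`; then `x ≡ N X κ² y mod ψ` with `y = x₁² x'`. By `two_units` `y = (y + j) - j` with units
`y + j` and `j` modulo `ψ`. For a unit `v` mod `ψ` choose `ν ∈ A` with `ν (1 + N² X) v ≡ 1 mod ψ`; `ν` is coprime
to `ψ` and STAR gives `Y_v ∈ I_g` with `Y_v ≡ -N X κ² v mod ψ`. So `x ≡ Y_j - Y_{y + j} mod ψ`. -/
theorem LL_large [Finite Fq] [Fact p.Prime] (hA : FR io A n h) {N : Fq[X]} (hN : N ≠ 0)
    (hm : 0 < m) (hst : Star io A N m) :
    ∃ W : (ZMod p)[X], W ≠ 0 ∧ ∀ μ : (ZMod p)[X], Irreducible μ → ¬ μ ∣ W →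
      LL io A (io N) m μ 1 := by
  obtain ⟨B, hB⟩ := two_units hA
  obtain ⟨W₀, hW₀, hWdeg⟩ := exists_W_deg (Fq := Fq) (p := p) m B
  have hne1 : (1 + N ^ 2 * X : Fq[X]) ≠ 0 := by
    intro h0
    have h1 := congrArg (eval 0) h0
    simp at h1
  obtain ⟨W₁, hW₁, hd₁⟩ := phi_dvd (p := p) m hne1
  obtain ⟨N', hN', hdN⟩ := phi_dvd (p := p) m hN
  have hX1 : (X - 1 : (ZMod p)[X]) ≠ 0 := by
    have := X_sub_C_ne_zero (1 : ZMod p)
    rwa [C_1] at this
  refine ⟨W₀ * W₁ * N' * X * (X - 1), ?_, ?_⟩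
  · exact mul_ne_zero (mul_ne_zero (mul_ne_zero (mul_ne_zero hW₀ hW₁) hN') X_ne_zero) hX1
  intro μ hμ hμW g hg x hx
  set ψ : Fq[X] := phi Fq p m μ with hψ
  have hψ0 : ψ ≠ 0 := phi_ne hm hμ.ne_zero
  have hnW₀ : ¬ μ ∣ W₀ := fun hd => hμW (by
    exact ((((hd.mul_right W₁).mul_right N').mul_right X).mul_right (X - 1)))
  have hnW₁ : ¬ μ ∣ W₁ := fun hd => hμW (by
    exact ((((hd.mul_left W₀).mul_right N').mul_right X).mul_right (X - 1)))
  have hnN' : ¬ μ ∣ N' := fun hd => hμW (by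
    exact (((hd.mul_left (W₀ * W₁)).mul_right X).mul_right (X - 1)))
  have hnX : ¬ μ ∣ X := fun hd => hμW (by
    exact ((hd.mul_left (W₀ * W₁ * N')).mul_right (X - 1)))
  have hnX1 : ¬ μ ∣ (X - 1) := fun hd => hμW (hd.mul_left _)
  have hc1 : IsCoprime (1 + N ^ 2 * X) ψ :=
    ((phi_cop (Fq := Fq) (m := m) hμ hnW₁).of_isCoprime_of_dvd_right hd₁).symm
  have hcN : IsCoprime ψ N :=
    (phi_cop (Fq := Fq) (m := m) hμ hnN').of_isCoprime_of_dvd_right hdN
  have hcX : IsCoprime ψ X := by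
    have h1 := phi_cop (Fq := Fq) (m := m) hμ hnX
    rw [phi_X] at h1
    exact h1.of_isCoprime_of_dvd_right (dvd_pow_self X hm.ne')
  have hcτ : IsCoprime ψ (X ^ m - 1) := by
    have h1 := phi_cop (Fq := Fq) (m := m) hμ hnX1
    rwa [map_sub, map_one, phi_X] at h1
  obtain ⟨κ, hκ, ⟨x1, hx1, y1, hy1, eτ⟩, hst'⟩ := hst ψ X hψ0 X_ne_zero hc1
  -- the elements `Y_v`
  have hioψ : io ψ ≠ 0 := hA.io_ne hψ0
  have hψA : io ψ ∈ A := hA.mem ψ
  have hNA : io N ∈ A := hA.mem N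
  have hXA : io X ∈ A := hA.mem X
  have hYv : ∀ v ∈ A, Cop A v (io ψ) → ∃ Y ∈ A, g * u Y * g⁻¹ ∈ E A (io N) ∧
      ∃ a ∈ A, Y = - (io N * io X * κ ^ 2 * v) + io ψ * a := by
    intro v hv hcv
    have hc2 : Cop A ((1 + io N ^ 2 * io X) * v) (io ψ) := by
      have h1 : Cop A (1 + io N ^ 2 * io X) (io ψ) := by
        have := hA.io_cop hc1
        rwa [map_add, map_mul, map_one, map_pow] at this
      have h2 := h1.symm.mul_right hψA (A.add_mem A.one_mem (A.mul_mem (A.pow_mem hNA 2) hXA)) hv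
        hcv.symm
      exact h2.symm
    obtain ⟨ν, hν, d, hd, hνd⟩ := hc2
    have hcν : Cop A ν (io ψ) := by
      refine ⟨(1 + io N ^ 2 * io X) * v, ?_, d, hd, by linear_combination hνd⟩
      exact A.mul_mem (A.add_mem A.one_mem (A.mul_mem (A.pow_mem hNA 2) hXA)) hv
    obtain ⟨Y, hY, hgY, hw⟩ := hst' g hg ν hν hcν
    set w : F := (ν * (1 + io N ^ 2 * io X) * Y + io N * io X * κ ^ 2) / io ψ with hw'
    have ew : ν * (1 + io N ^ 2 * io X) * Y + io N * io X * κ ^ 2 = io ψ * w := by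
      rw [hw']
      field_simp
    refine ⟨Y, hY, hgY, v * w + d * Y, A.add_mem (A.mul_mem hv hw) (A.mul_mem hd hY), ?_⟩
    linear_combination v * ew - Y * hνd
  -- the element `x'`
  obtain ⟨x', hx', z', hz', exz⟩ : ∃ x' ∈ A, ∃ z' ∈ A,
      io N * io X * (io X ^ m - 1) ^ 2 * x' + io ψ * z' = x := by
    have hc3 : IsCoprime (N * X * (X ^ m - 1) ^ 2) ψ :=
      ((hcN.mul_right hcX).mul_right (hcτ.pow_right)).symm
    obtain ⟨s, hs, r, hr, hsr⟩ := hA.io_cop hc3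
    refine ⟨s * x, A.mul_mem hs hx, r * x, A.mul_mem hr hx, ?_⟩
    have e3 : io (N * X * (X ^ m - 1) ^ 2) = io N * io X * (io X ^ m - 1) ^ 2 := by
      simp only [map_mul, map_sub, map_pow, map_one]
    rw [e3] at hsr
    linear_combination x * hsr
  set y : F := x1 ^ 2 * x' with hy
  have hyA : y ∈ A := A.mul_mem (A.pow_mem hx1 2) hx'
  obtain ⟨j, hj, hcj⟩ := hB ψ hψ0 (fun P hP hPd => hWdeg μ hμ hnW₀ P hP hPd) y hyA
  obtain ⟨Y1, hY1, hgY1, a1, ha1, e1⟩ := hYv (io j) (hA.mem j) (hA.io_cop hj)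
  obtain ⟨Y2, hY2, hgY2, a2, ha2, e2⟩ := hYv (y + io j) (A.add_mem hyA (hA.mem j)) hcj
  have hsub : Y1 - Y2 ∈ s2d_I A (io N) g :=
    (s2d_I A (io N) g).sub_mem ⟨hY1, hgY1⟩ ⟨hY2, hgY2⟩
  refine ⟨Y1 - Y2, hsub.1, hsub.2, ?_⟩
  have h2A : (2 : F) ∈ A := by
    have : (2 : F) = 1 + 1 := by norm_num
    rw [this]
    exact A.add_mem A.one_mem A.one_mem
  refine ⟨io N * io X * x' * (2 * κ * x1 * y1 + io ψ * y1 ^ 2) + z' - a1 + a2, ?_, ?_⟩
  · refine A.add_mem (A.sub_mem (A.add_mem (A.mul_mem (A.mul_mem (A.mul_mem hNA hXA) hx')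
      (A.add_mem (A.mul_mem (A.mul_mem (A.mul_mem h2A hκ) hx1) hy1)
        (A.mul_mem hψA (A.pow_mem hy1 2)))) hz') ha1) ha2
  · rw [map_one, map_one, one_mul, one_mul, ← hψ, e1, e2, hy, ← exz, eτ]
    ring

end BoomFF
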