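import Pool.Agent.H.MP_4c7af0_al.FF.A4
import Pool.Agent.H.MP_4c7af0_al.NF.S2a

/-! Boomerang subgroups, function field case (MP_4c7af0_al), step 2: `I_g` is stable under
multiplication by `σ = t^(2 K₀ (q^h - 1))` and `1/σ`, with `K₀` independent of `g`. -/

namespace BoomFF

open BoomNF Polynomial

variable {Fq F : Type*} [Field Fq] [Field F] {io : Fq[X] →+* F} {A : Subring F} {n h : ℕ}

theorem a5_pow_div {a b : F} (ha : a ∈ A) (h : (a - 1) / b ∈ A) (k : ℕ) :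
    (a ^ k - 1) / b ∈ A := by
  induction k with
  | zero => rw [pow_zero, sub_self, zero_div]; exact A.zero_mem
  | succ k ih =>
    have e : (a ^ (k + 1) - 1) / b = a ^ k * ((a - 1) / b) + (a ^ k - 1) / b := by ring
    rw [e]
    exact A.add_mem (A.mul_mem (A.pow_mem ha k) h) ih

/-- one prime: `g` with first column `(g 0 0, g 1 0)`, `g 0 0 + N y (g 1 0) = P ≠ 0`, and
`k = K₀ m`, `t^m ≡ 1 mod P`, `t^K₀ ≡ 1 mod N²`: `I_g` is stable under multiplication by `t^(2 k)` and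
its inverse. Proof: `exists_P` with `e = t^k` gives `Q` with `Q 1 0 = 0`, `Q 0 0 = e`, `g Q g⁻¹ ∈ E A N`;
`Q u(x) Q⁻¹ = u(e² x)` (`s3_conj_tri` in `NF/S3.lean` or `conj_u`), so
`g u(e² x) g⁻¹ = (g Q g⁻¹) (g u(x) g⁻¹) (g Q g⁻¹)⁻¹`, and the same with `Q⁻¹`. Template:
`SRing.I_stable` in `NF/S2a.lean`. -/
theorem stab_one {N y t : F} (hN : N ∈ A) (hN0 : N ≠ 0) (hy : y ∈ A) (ht0 : t ≠ 0) (ht : t ∈ A)
    (hti : t⁻¹ ∈ A) {K₀ m : ℕ} (hK : (t ^ K₀ - 1) / N ^ 2 ∈ A) {g : SL2 F} (hg : g ∈ GN A N)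
    (hP0 : g 0 0 + N * y * g 1 0 ≠ 0) (hm : (t ^ m - 1) / (g 0 0 + N * y * g 1 0) ∈ A) {x : F}
    (hx : g * u x * g⁻¹ ∈ E A N) :
    g * u (t ^ (2 * K₀ * m) * x) * g⁻¹ ∈ E A N ∧
      g * u ((t ^ (2 * K₀ * m))⁻¹ * x) * g⁻¹ ∈ E A N := by
  obtain ⟨η, hηd⟩ : ∃ η, η = t ^ (K₀ * m) := ⟨_, rfl⟩
  have hη0 : η ≠ 0 := by rw [hηd]; exact pow_ne_zero _ ht0
  have hη : η ∈ A := by rw [hηd]; exact A.pow_mem ht _
  have hηi : η⁻¹ ∈ A := by
    rw [hηd, ← inv_pow]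
    exact A.pow_mem hti _
  have h1 : (η - 1) / N ^ 2 ∈ A := by
    rw [hηd, pow_mul]
    exact a5_pow_div (A.pow_mem ht _) hK m
  have h2 : (η ^ 2 - 1) / (g 0 0 + N * y * g 1 0) ∈ A := by
    have e : η ^ 2 = (t ^ m) ^ (2 * K₀) := by
      rw [hηd, ← pow_mul, ← pow_mul]
      congr 1
      ring
    rw [e]
    exact a5_pow_div (A.pow_mem ht _) hm _
  obtain ⟨-, hm'⟩ := s2a_mem hN hN0 hy hη0 hη hηi h1 hg hP0 h2
  obtain ⟨P, hP⟩ : ∃ P, P = s2a_P η ((g 0 1 + N * y * g 1 1) / (g 0 0 + N * y * g 1 0)) :=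
    ⟨_, rfl⟩
  rw [← hP] at hm'
  have e : t ^ (2 * K₀ * m) = η ^ 2 := by
    rw [hηd, ← pow_mul]
    congr 1
    ring
  have hc : ∀ x : F, P * u x = u (t ^ (2 * K₀ * m) * x) * P := by
    intro x
    rw [e, hP]
    apply ext4 <;> simp only [mul_app, u_00, u_01, u_10, u_11, s2a_P_00 hη0, s2a_P_01 hη0,
      s2a_P_10 hη0, s2a_P_11 hη0] <;> field_simp <;> ring
  refine ⟨?_, ?_⟩
  · have e : g * u (t ^ (2 * K₀ * m) * x) * g⁻¹ =
        (g * P * g⁻¹) * (g * u x * g⁻¹) * (g * P * g⁻¹)⁻¹ := by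
      have e1 : u (t ^ (2 * K₀ * m) * x) = P * u x * P⁻¹ := by rw [hc]; group
      rw [e1]
      group
    rw [e]
    exact (E A N).mul_mem ((E A N).mul_mem hm' hx) ((E A N).inv_mem hm')
  · have e : g * u ((t ^ (2 * K₀ * m))⁻¹ * x) * g⁻¹ =
        (g * P * g⁻¹)⁻¹ * (g * u x * g⁻¹) * (g * P * g⁻¹) := by
      have e1 := hc ((t ^ (2 * K₀ * m))⁻¹ * x)
      rw [mul_inv_cancel_left₀ (pow_ne_zero _ ht0)] at e1
      have e2 : u ((t ^ (2 * K₀ * m))⁻¹ * x) = P⁻¹ * u x * P := by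
        rw [mul_assoc P⁻¹, ← e1, inv_mul_cancel_left]
      rw [e2]
      group
    rw [e]
    exact (E A N).mul_mem ((E A N).mul_mem ((E A N).inv_mem hm') hx) hm'

/-- if `I` is stable under `t^(±a)` and `t^(±b)` and `gcd(a, b) ∣ c` then it is stable under `t^(±c)`.
(The set of integers `k` such that `I` is stable under `t^k` and `t^(-k)` is a subgroup of `ℤ`.) -/
theorem stab_gcd (I : Set F) {t : F} (ht0 : t ≠ 0) {a b c : ℕ} (hc : Nat.gcd a b ∣ c)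
    (h1 : ∀ x ∈ I, t ^ a * x ∈ I ∧ (t ^ a)⁻¹ * x ∈ I)
    (h2 : ∀ x ∈ I, t ^ b * x ∈ I ∧ (t ^ b)⁻¹ * x ∈ I) :
    ∀ x ∈ I, t ^ c * x ∈ I ∧ (t ^ c)⁻¹ * x ∈ I := by
  let H : AddSubgroup ℤ :=
    { carrier := {k | ∀ x ∈ I, t ^ k * x ∈ I ∧ t ^ (-k) * x ∈ I}
      zero_mem' := by
        intro x hx
        rw [neg_zero, zpow_zero, one_mul]
        exact ⟨hx, hx⟩
      add_mem' := by
        intro k l hk hl x hx
        constructor
        · rw [zpow_add₀ ht0, mul_assoc]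
          exact (hk _ (hl x hx).1).1
        · rw [neg_add, zpow_add₀ ht0, mul_assoc]
          exact (hk _ (hl x hx).2).2
      neg_mem' := by
        intro k hk x hx
        rw [neg_neg]
        exact ⟨(hk x hx).2, (hk x hx).1⟩ }
  have hH : ∀ k : ℤ, k ∈ H ↔ ∀ x ∈ I, t ^ k * x ∈ I ∧ t ^ (-k) * x ∈ I := fun k => Iff.rfl
  have hn : ∀ k : ℕ, ((k : ℤ) ∈ H ↔ ∀ x ∈ I, t ^ k * x ∈ I ∧ (t ^ k)⁻¹ * x ∈ I) := by
    intro k
    rw [hH]
    simp only [zpow_neg, zpow_natCast]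
  have ha : (a : ℤ) ∈ H := (hn a).2 h1
  have hb : (b : ℤ) ∈ H := (hn b).2 h2
  rw [← hn]
  obtain ⟨k, rfl⟩ := hc
  have e : ((Nat.gcd a b * k : ℕ) : ℤ) =
      (k * Nat.gcdA a b) • (a : ℤ) + (k * Nat.gcdB a b) • (b : ℤ) := by
    rw [Nat.cast_mul, Nat.gcd_eq_gcd_ab, smul_eq_mul, smul_eq_mul]
    ring
  rw [e]
  exact H.add_mem (H.zsmul_mem ha _) (H.zsmul_mem hb _)

/-- uniform stability. Proof: `normal_form` with `l = r = 1`, `M = N²`; `prime_data` with `w = N²`,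
`v = 1` gives a prime `P₁` of degree `d₁ ≥ 1` larger than the bound of `unit_frob`, and a second one `P₂` with
degree `≡ 1 mod d₁`, so `d₁, d₂` are coprime; `stab_one` with `m = q^(h d_i) - 1`; `stab_gcd` and
`ff_gcd`; go back from `g'` to `g` by the equivalence in `normal_form`. -/
theorem FR.stab [Finite Fq] (hA : FR io A n h) {N : Fq[X]} (hN : N ≠ 0) {K₀ : ℕ}
    (hK : (io X ^ K₀ - 1) / io N ^ 2 ∈ A) {g : SL2 F} (hg : g ∈ GN A (io N ^ 2)) {x : F}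
    (hx : g * u x * g⁻¹ ∈ E A (io N)) :
    g * u (io X ^ (2 * K₀ * (Nat.card Fq ^ h - 1)) * x) * g⁻¹ ∈ E A (io N) ∧
      g * u ((io X ^ (2 * K₀ * (Nat.card Fq ^ h - 1)))⁻¹ * x) * g⁻¹ ∈ E A (io N) := by
  have hN0 : io N ≠ 0 := hA.io_ne hN
  have ht0 : io X ≠ 0 := hA.io_ne X_ne_zero
  obtain ⟨g', hg', h1, h00, c, hc, hc0, h10, hO, hcM, -, hac, hiff⟩ :=
    hA.normal_form (hA.mem N) hN0 hg (l := 1) (r := 1) (M := io N ^ 2) A.one_mem one_ne_zero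
      A.one_mem ⟨1, A.one_mem, 0, A.zero_mem, by ring⟩ (A.pow_mem (hA.mem N) 2)
      (pow_ne_zero 2 hN0)
  obtain ⟨B, hB⟩ := hA.unit_frob
  have key : ∀ M : ℕ, 0 < M → ∀ d : ℕ, ∃ P : Fq[X], Irreducible P ∧ B < P.natDegree ∧
      P.natDegree ≡ d [MOD M] ∧ ∃ y ∈ A, g' 0 0 + io N * y * g' 1 0 = io P := by
    intro M hM d
    obtain ⟨P, hP, hPB, hPd, -, y, hy, he⟩ := hA.prime_data hN (w := N ^ 2) (v := 1)
      (hg'.1 0 0) h1 hc hc0 hO hac (pow_ne_zero 2 hN) dvd_rfl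
      (by rw [map_pow]; exact hcM) isCoprime_one_left (by rw [sub_self]; exact dvd_zero _) hM d B
    exact ⟨P, hP, hPB, hPd, y, hy, by rw [h10]; exact he⟩
  obtain ⟨P₁, hP₁, hB₁, -, y₁, hy₁, he₁⟩ := key 1 one_pos 0
  obtain ⟨P₂, hP₂, hB₂, hd₂, y₂, hy₂, he₂⟩ := key P₁.natDegree (by omega) 1
  have hcop : Nat.Coprime P₁.natDegree P₂.natDegree := by
    have := hd₂.gcd_eq
    rw [Nat.gcd_one_left, Nat.gcd_comm] at this
    exact this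
  have hst : ∀ (P : Fq[X]) (y : F), Irreducible P → B < P.natDegree → y ∈ A →
      g' 0 0 + io N * y * g' 1 0 = io P → ∀ x : F, g' * u x * g'⁻¹ ∈ E A (io N) →
      g' * u (io X ^ (2 * K₀ * (Nat.card Fq ^ (h * P.natDegree) - 1)) * x) * g'⁻¹ ∈
          E A (io N) ∧
        g' * u ((io X ^ (2 * K₀ * (Nat.card Fq ^ (h * P.natDegree) - 1)))⁻¹ * x) * g'⁻¹ ∈
          E A (io N) := by
    intro P y hP hPB hy he x hx
    refine stab_one (hA.mem N) hN0 hy ht0 (hA.mem X) hA.tinv hK hg' ?_ ?_ hx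
    · rw [he]
      exact hA.io_ne hP.ne_zero
    · rw [he]
      exact hB P hP hPB
  have := stab_gcd {x : F | g' * u x * g'⁻¹ ∈ E A (io N)} ht0
    (ff_gcd (Nat.card Fq) h K₀ P₁.natDegree P₂.natDegree hcop)
    (hst P₁ y₁ hP₁ hB₁ hy₁ he₁) (hst P₂ y₂ hP₂ hB₂ hy₂ he₂) x ((hiff x).2 hx)
  exact ⟨(hiff _).1 this.1, (hiff _).1 this.2⟩

end BoomFF
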