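import Pool.Agent.H.MP_4c7af0_al.FF.A4
import Pool.Agent.H.MP_4c7af0_al.NF.S2c1

/-! Boomerang subgroups, function field case (MP_4c7af0_al), step 2: STAR. -/

namespace BoomFF

open BoomNF Polynomial

variable {Fq F : Type*} [Field Fq] [Field F] {io : Fq[X] →+* F} {A : Subring F} {n h : ℕ}

/-- The computation for two primes. `Y = (e₁² - 1)(e₂² - 1)(P₁ - P₂)/(N c P₁ P₂)`, `P₁ ≡ 1 mod l`,
`P₂ ≡ 1 + w mod l` and `P₁ - P₂ = -w (1 + l z)`, `w = N² l₀`, `e_i² - 1 ≡ κ mod l`, `c ≡ ν mod l`: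
`ν (1 + w) Y ≡ -N l₀ κ² mod l`. (Multiply out: `c P₁ P₂ Y = -N l₀ (1 + l z)(e₁² - 1)(e₂² - 1)`; work modulo
`l A`, i.e. write `P₁ = 1 + l p₁`, `P₂ = 1 + w + l p₂`, `e_i² - 1 = κ + l s_i`, `c = ν + l c'`, all of
`p_i, s_i, c', z ∈ A`. Then the numerator is `l` times an element of `A`.) -/
theorem star_calc {N c Y P₁ P₂ E₁ E₂ κ ν l l₀ p₁ p₂ s₁ s₂ c' z : F} (hl : l ∈ A) (hl0 : l ≠ 0)
    (hN : N ∈ A) (hN0 : N ≠ 0) (hl₀ : l₀ ∈ A) (hY : Y ∈ A) (hκ : κ ∈ A) (hν : ν ∈ A) (hp₁ : p₁ ∈ A)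
    (hp₂ : p₂ ∈ A) (hs₁ : s₁ ∈ A) (hs₂ : s₂ ∈ A) (hc' : c' ∈ A) (hz : z ∈ A)
    (e₁ : P₁ = 1 + l * p₁) (e₂ : P₂ = 1 + N ^ 2 * l₀ + l * p₂) (e₃ : E₁ = κ + l * s₁)
    (e₄ : E₂ = κ + l * s₂) (e₅ : c = ν + l * c')
    (e₆ : P₁ - P₂ = -(N ^ 2 * l₀ * (1 + l * z)))
    (hmain : N * c * P₁ * P₂ * Y = E₁ * E₂ * (P₁ - P₂)) :
    (ν * (1 + N ^ 2 * l₀) * Y + N * l₀ * κ ^ 2) / l ∈ A := by
  have hD : c * P₁ * P₂ * Y = -(E₁ * E₂ * (N * l₀ * (1 + l * z))) := by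
    apply mul_left_cancel₀ hN0
    rw [e₆] at hmain
    linear_combination hmain
  have hcA : c ∈ A := by rw [e₅]; exact A.add_mem hν (A.mul_mem hl hc')
  have hP₂A : P₂ ∈ A := by
    rw [e₂]
    exact A.add_mem (A.add_mem A.one_mem (A.mul_mem (A.pow_mem hN 2) hl₀)) (A.mul_mem hl hp₂)
  have hwA : 1 + N ^ 2 * l₀ ∈ A := A.add_mem A.one_mem (A.mul_mem (A.pow_mem hN 2) hl₀)
  obtain ⟨T, hT⟩ : ∃ T, T = κ * s₁ + κ * s₂ + l * s₁ * s₂ := ⟨_, rfl⟩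
  have hTA : T ∈ A := by
    rw [hT]
    exact A.add_mem (A.add_mem (A.mul_mem hκ hs₁) (A.mul_mem hκ hs₂))
      (A.mul_mem (A.mul_mem hl hs₁) hs₂)
  obtain ⟨D, hDD⟩ : ∃ D, D = c * P₂ * p₁ + c * p₂ + c' * (1 + N ^ 2 * l₀) := ⟨_, rfl⟩
  have hDA : D ∈ A := by
    rw [hDD]
    exact A.add_mem (A.add_mem (A.mul_mem (A.mul_mem hcA hP₂A) hp₁) (A.mul_mem hcA hp₂))
      (A.mul_mem hc' hwA)
  have e7 : E₁ * E₂ = κ ^ 2 + l * T := by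
    rw [e₃, e₄, hT]; ring
  have e8 : ν * (1 + N ^ 2 * l₀) = c * P₁ * P₂ - l * D := by
    have e9 : ν = c - l * c' := by rw [e₅]; ring
    have e10 : 1 + N ^ 2 * l₀ = P₂ - l * p₂ := by rw [e₂]; ring
    have e11 : P₁ = 1 + l * p₁ := e₁
    rw [hDD, e11, e9]
    linear_combination c * e10
  have e12 : (ν * (1 + N ^ 2 * l₀) * Y + N * l₀ * κ ^ 2) / l =
      -(N * l₀ * (κ ^ 2 * z + T * (1 + l * z))) - D * Y := by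
    rw [div_eq_iff hl0, e8]
    rw [e7] at hD
    linear_combination hD
  rw [e12]
  refine A.sub_mem (A.neg_mem (A.mul_mem (A.mul_mem hN hl₀) (A.add_mem
    (A.mul_mem (A.pow_mem hκ 2) hz) (A.mul_mem hTA (A.add_mem A.one_mem (A.mul_mem hl hz))))))
    (A.mul_mem hDA hY)

/-- STAR for one prime pair. `κ` is `t^(2 K₀ (q^(h (1 + M J)) - 1)) - 1`. Proof: `normal_form` for `g`
with residue `ν` mod `io l` and `M = io (w l)`, `w = N² l₀`, gives `g'` with first column `(a, N c)`.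
`prime_data` with modulus `w l` (and `N² ∣ w l`; `c` coprime to `io (w l)`) for `v = 1` and for `v = 1 + w`
(coprime to `w`, and to `l` by assumption), degrees `≡ 1 mod M` and larger than `J` and the bound of
`unit_frob`: primes `P₁, P₂` and `y₁, y₂ ∈ A`. Put `ε_i = t^(K₀ (q^(h d_i) - 1))`: `ε_i ≡ 1 mod N²`
(`s2b_pow_div` with `hK`), `ε_i² ≡ 1 mod P_i` (`unit_frob`, `s2b_pow_div`),
`ε_i² ≡ 1 + κ mod l` by `s2b_pow_sub` with `o` (`ho`, `hMJ`). `comm_mem` gives `Y`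
(`Y ∈ A` because `g' u(Y) g'⁻¹ ∈ E A N ≤ G A`, as in `SRing.star_gen` in `NF/S2b.lean`). `w l ∣ P₁ - 1`,
`w l ∣ P₂ - 1 - w` so `P₁ - P₂ = -w (1 + l z)`. Conclude by `star_calc`. Template for everything:
`SRing.star_gen` in `NF/S2b.lean`. -/
theorem FR.star_gen [Finite Fq] (hA : FR io A n h) {N : Fq[X]} (hN : N ≠ 0) {K₀ : ℕ}
    (hK : (io X ^ K₀ - 1) / io N ^ 2 ∈ A) {l l₀ : Fq[X]} (hl : l ≠ 0) (hl₀ : l₀ ≠ 0)
    (hco : IsCoprime (1 + N ^ 2 * l₀) l) {o M J : ℕ} (ho : (io X ^ o - 1) / io l ∈ A) (hM : 0 < M)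
    (hMJ : ∀ d : ℕ, J ≤ d → d ≡ 1 [MOD M] →
        (o : ℤ) ∣ (Nat.card Fq : ℤ) ^ (h * d) - (Nat.card Fq : ℤ) ^ (h * (1 + M * J)))
    {g : SL2 F} (hg : g ∈ GN A (io N ^ 2)) {ν : F} (hν : ν ∈ A) (hνl : Cop A ν (io l)) :
    ∃ Y ∈ A, g * u Y * g⁻¹ ∈ E A (io N) ∧
      (ν * (1 + io N ^ 2 * io l₀) * Y +
        io N * io l₀ * (io X ^ (2 * K₀ * (Nat.card Fq ^ (h * (1 + M * J)) - 1)) - 1) ^ 2) /
          io l ∈ A := by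
  have hNA : io N ∈ A := hA.mem N
  have hNF : io N ≠ 0 := hA.io_ne hN
  have hlA : io l ∈ A := hA.mem l
  have hlF : io l ≠ 0 := hA.io_ne hl
  have hE := hA.infUnit
  obtain ⟨w, hw⟩ : ∃ w, w = N ^ 2 * l₀ := ⟨_, rfl⟩
  obtain ⟨W, hW⟩ : ∃ W, W = w * l := ⟨_, rfl⟩
  have hw0 : w ≠ 0 := by rw [hw]; exact mul_ne_zero (pow_ne_zero 2 hN) hl₀
  have hW0 : W ≠ 0 := by rw [hW]; exact mul_ne_zero hw0 hl
  have hNW : N ^ 2 ∣ W := ⟨l₀ * l, by rw [hW, hw]; ring⟩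
  obtain ⟨g', hg', ha1, ha0, c, hc, hc0, hgc, hO, hcM, hcν, hac, himp⟩ :=
    hA.normal_form hNA hNF hg hlA hlF hν hνl (hA.mem W) (hA.io_ne hW0)
  obtain ⟨B, hB⟩ := hA.unit_frob
  have hcopv : IsCoprime (1 + w) W := by
    rw [hW]
    refine IsCoprime.mul_right ⟨1, -1, by ring⟩ ?_
    rw [hw]
    exact hco
  obtain ⟨P₁, hP₁, hd₁, hm₁, hW₁, y₁, hy₁, ey₁⟩ := hA.prime_data hN (hg'.1 0 0) ha1 hc hc0 hO hac
    hW0 hNW hcM (v := 1) isCoprime_one_left (by rw [sub_self]; exact dvd_zero _) hM 1 (max B J)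
  obtain ⟨P₂, hP₂, hd₂, hm₂, hW₂, y₂, hy₂, ey₂⟩ := hA.prime_data hN (hg'.1 0 0) ha1 hc hc0 hO hac
    hW0 hNW hcM (v := 1 + w) hcopv ⟨l₀, by rw [hw]; ring⟩ hM 1 (max B J)
  rw [← hgc] at ey₁ ey₂
  have hP₁F : io P₁ ≠ 0 := hA.io_ne hP₁.ne_zero
  have hP₂F : io P₂ ≠ 0 := hA.io_ne hP₂.ne_zero
  have hγ : g' 1 0 ≠ 0 := by rw [hgc]; exact mul_ne_zero hNF hc0
  obtain ⟨k₀, hk₀⟩ : ∃ k₀, k₀ = io X ^ (2 * K₀ * (Nat.card Fq ^ (h * (1 + M * J)) - 1)) := ⟨_, rfl⟩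
  have hk₀A : k₀ ∈ A := by rw [hk₀]; exact A.pow_mem hE.mem _
  -- the units
  have key : ∀ P : Fq[X], Irreducible P → max B J < P.natDegree → P.natDegree ≡ 1 [MOD M] →
      ∃ ε : F, ε ≠ 0 ∧ ε ∈ A ∧ ε⁻¹ ∈ A ∧ (ε - 1) / io N ^ 2 ∈ A ∧ (ε ^ 2 - 1) / io P ∈ A ∧
        (ε ^ 2 - k₀) / io l ∈ A := by
    intro P hP hd hm
    refine ⟨io X ^ (K₀ * (Nat.card Fq ^ (h * P.natDegree) - 1)), pow_ne_zero _ hE.ne,
      A.pow_mem hE.mem _, ?_, s2b_pow_div hE.mem hK ⟨_, rfl⟩, ?_, ?_⟩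
    · rw [← inv_pow]; exact A.pow_mem hE.inv_mem _
    · rw [← pow_mul]
      exact s2b_pow_div hE.mem (hB P hP (lt_of_le_of_lt (le_max_left _ _) hd)) ⟨K₀ * 2, by ring⟩
    · rw [← pow_mul, hk₀]
      refine s2b_pow_sub hE.mem ho ?_
      have hq : 0 < Nat.card Fq := Nat.card_pos
      have hq1 : 1 ≤ Nat.card Fq ^ (h * P.natDegree) := Nat.one_le_pow _ _ hq
      have hq2 : 1 ≤ Nat.card Fq ^ (h * (1 + M * J)) := Nat.one_le_pow _ _ hq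
      have e1 : ((K₀ * (Nat.card Fq ^ (h * P.natDegree) - 1) * 2 : ℕ) : ℤ) -
          ((2 * K₀ * (Nat.card Fq ^ (h * (1 + M * J)) - 1) : ℕ) : ℤ) =
          (2 * K₀) * ((Nat.card Fq : ℤ) ^ (h * P.natDegree) -
            (Nat.card Fq : ℤ) ^ (h * (1 + M * J))) := by
        push_cast [Nat.cast_sub hq1, Nat.cast_sub hq2]
        ring
      rw [e1]
      refine Dvd.dvd.mul_left ?_ _
      exact hMJ _ ((le_max_right B J).trans hd.le) hm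
  obtain ⟨ε₁, hε₁0, hε₁, hε₁i, eN₁, ed₁, eκ₁⟩ := key P₁ hP₁ hd₁ hm₁
  obtain ⟨ε₂, hε₂0, hε₂, hε₂i, eN₂, ed₂, eκ₂⟩ := key P₂ hP₂ hd₂ hm₂
  have hmem := comm_mem hNA hNF hy₁ hy₂ hε₁0 hε₁ hε₁i eN₁ hε₂0 hε₂ hε₂i eN₂ hg' hγ
    (by rw [ey₁]; exact hP₁F) (by rw [ey₁]; exact ed₁) (by rw [ey₂]; exact hP₂F)
    (by rw [ey₂]; exact ed₂)
  rw [ey₁, ey₂] at hmem
  obtain ⟨Y, hY⟩ : ∃ Y, Y = (ε₁ ^ 2 - 1) * (ε₂ ^ 2 - 1) * (io P₁ - io P₂) /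
    (g' 1 0 * io P₁ * io P₂) := ⟨_, rfl⟩
  rw [← hY] at hmem
  have hEG : ∀ x ∈ E A (io N), x ∈ G A := fun x hx =>
    GN_le (Es_le_GN (E_le_Es hNA hNF hx))
  have hYA : Y ∈ A := by
    have h3 : u Y ∈ G A := by
      have e1 : u Y = g'⁻¹ * (g' * u Y * g'⁻¹) * g' := by group
      rw [e1]
      exact (G A).mul_mem ((G A).mul_mem ((G A).inv_mem hg'.1) (hEG _ hmem)) hg'.1
    exact h3 0 1
  refine ⟨Y, hYA, (himp Y).1 hmem, ?_⟩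
  obtain ⟨k₁, hk₁⟩ := hW₁
  obtain ⟨k₂, hk₂⟩ := hW₂
  have eP₁ : P₁ = 1 + l * (w * k₁) := by
    rw [hW] at hk₁
    linear_combination hk₁
  have eP₂ : P₂ = 1 + N ^ 2 * l₀ + l * (w * k₂) := by
    rw [hW] at hk₂
    linear_combination hk₂ + hw
  rw [← hk₀]
  refine star_calc (c := c) (P₁ := io P₁) (P₂ := io P₂) (E₁ := ε₁ ^ 2 - 1) (E₂ := ε₂ ^ 2 - 1)
    (p₁ := io (w * k₁)) (p₂ := io (w * k₂)) (s₁ := (ε₁ ^ 2 - k₀) / io l)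
    (s₂ := (ε₂ ^ 2 - k₀) / io l) (c' := (c - ν) / io l) (z := io (k₂ - k₁)) hlA hlF hNA hNF
    (hA.mem l₀) hYA (A.sub_mem hk₀A A.one_mem) hν (hA.mem _) (hA.mem _) eκ₁ eκ₂ hcν (hA.mem _)
    ?_ ?_ ?_ ?_ ?_ ?_ ?_
  · have := congrArg io eP₁
    rw [map_add, map_mul, map_one] at this
    exact this
  · have := congrArg io eP₂
    rw [map_add, map_add, map_mul, map_mul io l, map_pow, map_one] at this
    exact this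
  · field_simp
    ring
  · field_simp
    ring
  · field_simp
    ring
  · have e1 : P₁ - P₂ = -(N ^ 2 * l₀ * (1 + l * (k₂ - k₁))) := by
      rw [eP₁, eP₂, hw]; ring
    have := congrArg io e1
    simp only [map_sub, map_neg, map_mul, map_add, map_one, map_pow] at this
    rw [map_sub]
    exact this
  · rw [hY, hgc]
    field_simp

/-- STAR. Proof: `o` from `GRing.unit_pow` (for `hA.gring`, `ε = t`, `α = io l`), `M, J` from `ff_exp` (with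
`q = Nat.card Fq > 1`), `κ = t^(2 K₀ (q^(h (1 + M J)) - 1)) - 1`, `star_gen`. The relation for
`t^(2 K₀ (q^h - 1)) - 1`: `tau_mem` (in `NF/S2b1.lean`) with `a = 2 K₀ (q^(h (1 + M J)) - 1)`, `b = o`:
`gcd(a, o) ∣ 2 K₀ gcd(q^(h(1 + M J)) - 1, o) ∣ 2 K₀ (q^h - 1)` (compare `s2c1_tau` in `NF/S2c1.lean`),
and `(t^o - 1) y = l ((t^o - 1) / l) y`. -/
theorem FR.star [Finite Fq] (hA : FR io A n h) {N : Fq[X]} (hN : N ≠ 0) {K₀ : ℕ}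
    (hK : (io X ^ K₀ - 1) / io N ^ 2 ∈ A) {l l₀ : Fq[X]} (hl : l ≠ 0) (hl₀ : l₀ ≠ 0)
    (hco : IsCoprime (1 + N ^ 2 * l₀) l) :
    ∃ κ ∈ A, (∃ x ∈ A, ∃ y ∈ A,
        io X ^ (2 * K₀ * (Nat.card Fq ^ h - 1)) - 1 = κ * x + io l * y) ∧
      ∀ g ∈ GN A (io N ^ 2), ∀ ν ∈ A, Cop A ν (io l) →
        ∃ Y ∈ A, g * u Y * g⁻¹ ∈ E A (io N) ∧
          (ν * (1 + io N ^ 2 * io l₀) * Y + io N * io l₀ * κ ^ 2) / io l ∈ A := by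
  have hE := hA.infUnit
  have hlA : io l ∈ A := hA.mem l
  have hlF : io l ≠ 0 := hA.io_ne hl
  obtain ⟨o, ho, heo⟩ := hA.gring.unit_pow hE.ne hE.mem hE.inv_mem hlA hlF
  have hq : 1 < Nat.card Fq := Finite.one_lt_card
  obtain ⟨M, J, hM, hMJ, hgcd⟩ := ff_exp hq hA.hpos ho
  refine ⟨io X ^ (2 * K₀ * (Nat.card Fq ^ (h * (1 + M * J)) - 1)) - 1,
    A.sub_mem (A.pow_mem hE.mem _) A.one_mem, ?_, ?_⟩
  · have h1 : Nat.gcd (2 * K₀ * (Nat.card Fq ^ (h * (1 + M * J)) - 1)) o ∣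
        2 * K₀ * (Nat.card Fq ^ h - 1) := by
      have h2 : Nat.gcd (2 * K₀ * (Nat.card Fq ^ (h * (1 + M * J)) - 1)) o ∣
          Nat.gcd (2 * K₀) o * Nat.gcd (Nat.card Fq ^ (h * (1 + M * J)) - 1) o := by
        have h3 := Nat.gcd_mul_right_dvd_mul_gcd o (2 * K₀) (Nat.card Fq ^ (h * (1 + M * J)) - 1)
        rw [Nat.gcd_comm (2 * K₀ * (Nat.card Fq ^ (h * (1 + M * J)) - 1)) o,
          Nat.gcd_comm (2 * K₀) o, Nat.gcd_comm (Nat.card Fq ^ (h * (1 + M * J)) - 1) o]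
        exact h3
      exact h2.trans (mul_dvd_mul (Nat.gcd_dvd_left _ _) hgcd)
    obtain ⟨x, hx, y, hy, hxy⟩ := tau_mem hE.ne hE.mem hE.inv_mem h1
    refine ⟨x, hx, (io X ^ o - 1) / io l * y, A.mul_mem heo hy, ?_⟩
    rw [hxy]
    field_simp
  · intro g hg ν hν hνl
    exact hA.star_gen hN hK hl hl₀ hco heo hM hMJ hg hν hνl

end BoomFF
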