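import Pool.Agent.H.MP_4c7af0_al.FF.D2

/-! Primes in arithmetic progressions in `𝔽_q[t]` (MP_4c7af0_al, function field case): counting
irreducible polynomials. -/

namespace BoomFF

open Polynomial

variable {k : Type*} [Field k] [Finite k]

/-- the constant function `1` -/
theorem CM_one : CM (fun _ : k[X] => (1 : ℂ)) := ⟨rfl, fun _ _ _ _ => by simp, fun _ => by simp⟩

theorem d2b_AA_one (N : ℕ) : AA (fun _ : k[X] => (1 : ℂ)) N = (Nat.card k : ℂ) ^ N := by
  rw [AA, Finset.sum_const, card_mon, nsmul_eq_mul, mul_one]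
  push_cast
  rfl

theorem d2b_CC_zero (ψ : k[X] → ℂ) : CC ψ 0 = 0 := by
  rw [CC, Nat.divisors_zero, Finset.sum_empty]

theorem d2b_CC_one {j : ℕ} (hj : 0 < j) :
    CC (fun _ : k[X] => (1 : ℂ)) j = (Nat.card k : ℂ) ^ j := by
  induction j using Nat.strong_induction_on with
  | _ j ih =>
    obtain ⟨i, rfl⟩ : ∃ i, j = i + 1 := ⟨j - 1, by omega⟩
    have h := newton (CM_one (k := k)) (i + 1)
    rw [Finset.Nat.sum_antidiagonal_eq_sum_range_succ
      (fun a b => CC (fun _ : k[X] => (1 : ℂ)) a * AA (fun _ : k[X] => (1 : ℂ)) b) (i + 1),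
      Finset.sum_range_succ, Finset.sum_range_succ', d2b_CC_zero, zero_mul, add_zero,
      Nat.sub_self, d2b_AA_one, d2b_AA_one, pow_zero, mul_one] at h
    have h1 : ∑ a ∈ Finset.range i, CC (fun _ : k[X] => (1 : ℂ)) (a + 1) *
        AA (fun _ : k[X] => (1 : ℂ)) (i + 1 - (a + 1)) = i * (Nat.card k : ℂ) ^ (i + 1) := by
      rw [Finset.sum_congr rfl (g := fun _ => (Nat.card k : ℂ) ^ (i + 1))]
      · rw [Finset.sum_const, Finset.card_range, nsmul_eq_mul]
      · intro a ha
        rw [Finset.mem_range] at ha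
        rw [ih (a + 1) (by omega) (by omega), d2b_AA_one, ← pow_add]
        congr 1
        omega
    rw [h1] at h
    push_cast at h
    linear_combination -h

/-- `∑_{m ∣ j} m |irr m| = q^j`. Proof: `newton` for `ψ = 1`, `A_N = q^N` (`card_mon`), `C_0 = 0`; strong
induction on `j`: `C_j = j q^j - ∑_{0 < i < j} q^i q^(j - i)`. -/
theorem sum_card_irr {j : ℕ} (hj : 0 < j) :
    ∑ m ∈ j.divisors, m * (irr k m).card = Nat.card k ^ j := by
  have h := d2b_CC_one (k := k) hj
  rw [CC] at h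
  simp only [one_pow, Finset.sum_const, nsmul_eq_mul, mul_one] at h
  exact_mod_cast h

/-- `|C_j(ψ)| ≤ q^j` -/
theorem CC_le {ψ : k[X] → ℂ} (hψ : CM ψ) (j : ℕ) : ‖CC ψ j‖ ≤ (Nat.card k : ℝ) ^ j := by
  rcases Nat.eq_zero_or_pos j with rfl | hj
  · rw [d2b_CC_zero, norm_zero]
    positivity
  · have h := sum_card_irr (k := k) hj
    have h' : ∑ m ∈ j.divisors, (m : ℝ) * ((irr k m).card : ℝ) = (Nat.card k : ℝ) ^ j := by
      exact_mod_cast h
    rw [← h', CC]
    refine (norm_sum_le _ _).trans (Finset.sum_le_sum fun m _ => ?_)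
    rw [norm_mul, Complex.norm_natCast]
    refine mul_le_mul_of_nonneg_left ?_ (Nat.cast_nonneg m)
    refine (norm_sum_le _ _).trans ?_
    refine (Finset.sum_le_sum (g := fun _ => (1 : ℝ)) fun P _ => ?_).trans ?_
    · rw [norm_pow]
      exact pow_le_one₀ (norm_nonneg _) (hψ.le P)
    · rw [Finset.sum_const, nsmul_eq_mul, mul_one]

theorem d2b_two_le : 2 ≤ Nat.card k := by
  have : Nontrivial k := inferInstance
  exact Finite.one_lt_card

theorem d2b_geom {q : ℕ} (hq : 2 ≤ q) (M : ℕ) : ∑ m ∈ Finset.range (M + 1), q ^ m ≤ 2 * q ^ M := by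
  induction M with
  | zero => simp
  | succ M ih =>
    rw [Finset.sum_range_succ]
    have h1 : 2 * q ^ M ≤ q ^ (M + 1) := by
      rw [pow_succ, mul_comm]
      exact Nat.mul_le_mul_left _ hq
    omega

theorem d2b_single {m : ℕ} (hm : 0 < m) : m * (irr k m).card ≤ Nat.card k ^ m := by
  rw [← sum_card_irr (k := k) hm]
  exact Finset.single_le_sum (f := fun m => m * (irr k m).card) (fun _ _ => Nat.zero_le _)
    (Nat.mem_divisors_self m hm.ne')

/-- the contribution of the higher prime powers (`m ≤ j / 2`): with `q ≥ 2`,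
`∑_{m ∣ j, m ≠ j} m |irr m| ≤ ∑_{m ≤ j / 2} q^m ≤ 2 q^(j / 2)` -/
theorem sum_card_irr_proper {j : ℕ} (hj : 0 < j) :
    ∑ m ∈ j.properDivisors, m * (irr k m).card ≤ 2 * Nat.card k ^ (j / 2) := by
  refine le_trans ?_ (d2b_geom (d2b_two_le (k := k)) (j / 2))
  have h1 : j.properDivisors ⊆ Finset.range (j / 2 + 1) := by
    intro m hm
    rw [Nat.mem_properDivisors] at hm
    obtain ⟨⟨c, hc⟩, hlt⟩ := hm
    rw [Finset.mem_range]
    have hc2 : 2 ≤ c := by
      by_contra hc'
      have : c = 0 ∨ c = 1 := by omega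
      rcases this with rfl | rfl
      · omega
      · omega
    have h2 : m * 2 ≤ j := by
      rw [hc]
      exact Nat.mul_le_mul_left _ hc2
    omega
  refine le_trans (Finset.sum_le_sum (g := fun m => Nat.card k ^ m) fun m hm => ?_)
    (Finset.sum_le_sum_of_subset h1)
  exact d2b_single (Nat.pos_of_mem_properDivisors hm)

/-- there are irreducible polynomials not dividing a given polynomial -/
theorem exists_irr_not_dvd {n : k[X]} (hn : n ≠ 0) :
    ∃ P : k[X], P.Monic ∧ Irreducible P ∧ ¬ P ∣ n := by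
  have h1 : ¬ IsUnit (n * X + 1 : k[X]) := by
    intro h
    have h2 := natDegree_eq_zero_of_isUnit h
    have h3 : (n * X + 1 : k[X]).natDegree = n.natDegree + 1 := by
      rw [← C_1, natDegree_add_C, natDegree_mul_X hn]
    omega
  obtain ⟨P, hP1, hP2, hP3⟩ := exists_monic_irreducible_factor _ h1
  refine ⟨P, hP1, hP2, fun hd => hP2.not_isUnit ?_⟩
  have h2 : P ∣ 1 := (dvd_add_right (Dvd.dvd.mul_right hd X)).1 hP3
  exact isUnit_of_dvd_one h2

end BoomFF
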