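import Pool.Agent.H.MP_4c7af0_al.FF.G4

/-! Step 1 (MP_4c7af0_al, function field case): the unipotents of `D` at a cusp. -/

namespace BoomFF

set_option linter.unusedSimpArgs false
set_option linter.unusedVariables false

open BoomNF Polynomial

section field

variable {F : Type*} [Field F]

/-- the additive group `{x | s u(x) s⁻¹ ∈ D}` -/
def g5_I (D : Subgroup (SL2 F)) (s : SL2 F) : AddSubgroup F where
  carrier := {x | s * u x * s⁻¹ ∈ D}
  add_mem' := by
    intro x y hx hy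
    change s * u (x + y) * s⁻¹ ∈ D
    have e : s * u (x + y) * s⁻¹ = (s * u x * s⁻¹) * (s * u y * s⁻¹) := by
      rw [← u_mul]
      group
    rw [e]
    exact D.mul_mem hx hy
  zero_mem' := by
    change s * u 0 * s⁻¹ ∈ D
    rw [u_zero, mul_one, mul_inv_cancel]
    exact D.one_mem
  neg_mem' := by
    intro x hx
    change s * u (-x) * s⁻¹ ∈ D
    have e : s * u (-x) * s⁻¹ = (s * u x * s⁻¹)⁻¹ := by
      rw [← u_inv]
      group
    rw [e]
    exact D.inv_mem hx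

theorem g5_mem {D : Subgroup (SL2 F)} {s : SL2 F} {x : F} :
    x ∈ g5_I D s ↔ s * u x * s⁻¹ ∈ D := Iff.rfl

/-- an additive group stable under `σ` and `σ⁻¹` is stable under the ring generated by them -/
theorem stab_closure (I : AddSubgroup F) {σ : F} (h1 : ∀ x ∈ I, σ * x ∈ I)
    (h2 : ∀ x ∈ I, σ⁻¹ * x ∈ I) {b : F} (hb : b ∈ Subring.closure ({σ, σ⁻¹} : Set F)) :
    ∀ x ∈ I, b * x ∈ I := by
  induction hb using Subring.closure_induction with
  | mem b hb =>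
    rcases hb with rfl | hb
    · exact h1
    · rw [Set.mem_singleton_iff] at hb
      rw [hb]
      exact h2
  | zero => intro x _; rw [zero_mul]; exact I.zero_mem
  | one => intro x hx; rw [one_mul]; exact hx
  | add a b _ _ ha hb => intro x hx; rw [add_mul]; exact I.add_mem (ha x hx) (hb x hx)
  | neg a _ ha => intro x hx; rw [neg_mul]; exact I.neg_mem (ha x hx)
  | mul a b _ _ ha hb => intro x hx; rw [mul_assoc]; exact ha _ (hb x hx)

end field

variable {Fq F : Type*} [Field Fq] [Field F] {io : Fq[X] →+* F} {A : Subring F} {n h : ℕ}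

/-- Step 1 (d): `s u(f A) s⁻¹ ⊆ D` for some polynomial `f ≠ 0`. -/
theorem FR.full (hA : FR io A n h) {D : Subgroup (SL2 F)}
    (hD : D ≤ G A) (hrec : Rec (G A) D) (hnc : NonCentral D) (s : SL2 F) :
    ∃ f : Fq[X], f ≠ 0 ∧ ∀ x ∈ A, s * u (io f * x) * s⁻¹ ∈ D := by
  classical
  have hG := hA.gring
  have hE := hA.infUnit
  set t : F := io X with ht
  obtain ⟨m, hm, hst⟩ := hG.unit_stable hE hD hrec hnc s
  have hE' : InfUnit A (t ^ m) :=
    { ne := pow_ne_zero _ hE.ne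
      mem := A.pow_mem hE.mem m
      inv_mem := by
        rw [← inv_pow]
        exact A.pow_mem hE.inv_mem m
      pow_ne := fun k hk => by
        rw [← pow_mul]
        exact hE.pow_ne _ (Nat.mul_pos hm hk) }
  obtain ⟨l, hl, y₀, hy⟩ := hG.many_u hE' hD hrec hnc s
  have hstab : ∀ b ∈ Subring.closure ({t ^ m, (t ^ m)⁻¹} : Set F), ∀ x ∈ g5_I D s,
      b * x ∈ g5_I D s := fun b hb =>
    stab_closure (g5_I D s) (fun x hx => (hst x hx).1) (fun x hx => (hst x hx).2) hb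
  have hmem : ∀ k : ℕ, 1 - ((t ^ m) ^ (2 * k))⁻¹ ∈ Subring.closure ({t ^ m, (t ^ m)⁻¹} : Set F) := by
    intro k
    have e : ((t ^ m) ^ (2 * k))⁻¹ = ((t ^ m)⁻¹) ^ (2 * k) := (inv_pow _ _).symm
    rw [e]
    have e2 : (t ^ m)⁻¹ ∈ Subring.closure ({t ^ m, (t ^ m)⁻¹} : Set F) :=
      Subring.subset_closure (Set.mem_insert_of_mem _ (Set.mem_singleton _))
    exact sub_mem (one_mem _) (pow_mem e2 _)
  have hne : ∀ k : ℕ, 0 < k → 1 - ((t ^ m) ^ (2 * k))⁻¹ ≠ 0 := by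
    intro k hk h1
    have h2 : ((t ^ m) ^ (2 * k))⁻¹ = 1 := (sub_eq_zero.1 h1).symm
    rw [inv_eq_one] at h2
    exact hE'.pow_ne (2 * k) (by omega) h2
  have hmul : ∀ x : F, ∃ β ∈ Subring.closure ({t ^ m, (t ^ m)⁻¹} : Set F), β ≠ 0 ∧
      β * x ∈ g5_I D s := by
    intro x
    obtain ⟨k, hk, h1⟩ := hy (y₀ - x)
    rw [sub_sub_cancel] at h1
    exact ⟨_, mul_mem (hmem l) (hmem k), mul_ne_zero (hne l hl) (hne k hk), h1⟩
  choose β hβ hβ0 hβI using hmul
  obtain ⟨Ω, -, hspan⟩ := hA.fg m hm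
  have hprod : ∏ ω ∈ Ω, β ω ≠ 0 := Finset.prod_ne_zero_iff.2 fun ω _ => hβ0 ω
  have key' : ∀ x ∈ Submodule.span (Subring.closure ({t ^ m, (t ^ m)⁻¹} : Set F)) (Ω : Set F),
      (∏ ω ∈ Ω, β ω) * x ∈ g5_I D s := by
    intro x h1
    induction h1 using Submodule.span_induction with
    | mem ω hω =>
      have h2 : (∏ ω ∈ Ω, β ω) * ω = (∏ ω' ∈ Ω.erase ω, β ω') * (β ω * ω) := by
        rw [← Finset.mul_prod_erase Ω β (Finset.mem_coe.1 hω)]
        ring
      rw [h2]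
      exact hstab _ (prod_mem fun ω' _ => hβ ω') _ (hβI ω)
    | zero => rw [mul_zero]; exact (g5_I D s).zero_mem
    | add x y _ _ h3 h4 => rw [mul_add]; exact (g5_I D s).add_mem h3 h4
    | smul c x _ h3 =>
      have e : (∏ ω ∈ Ω, β ω) * (c • x) = (c : F) * ((∏ ω ∈ Ω, β ω) * x) := by
        rw [Subring.smul_def, smul_eq_mul]
        ring
      rw [e]
      exact hstab _ c.2 _ h3
  have key : ∀ x ∈ A, (∏ ω ∈ Ω, β ω) * x ∈ g5_I D s := fun x hx => key' x (hspan x hx)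
  obtain ⟨f, hf, hfβ⟩ := hA.dvd _ hprod
  refine ⟨f, hf, fun x hx => ?_⟩
  have h1 := key _ (A.mul_mem hfβ hx)
  have e : (∏ ω ∈ Ω, β ω) * (io f / (∏ ω ∈ Ω, β ω) * x) = io f * x := by
    field_simp
  rw [e] at h1
  exact h1

/-- Step 1. -/
theorem FR.step1 (hA : FR io A n h) {D : Subgroup (SL2 F)}
    (hD : D ≤ G A) (hrec : Rec (G A) D) (hnc : NonCentral D) (s : SL2 F) :
    ∃ f : Fq[X], f ≠ 0 ∧ ∀ x : F, s * u x * s⁻¹ ∈ G A → s * u (io f * x) * s⁻¹ ∈ D := by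
  obtain ⟨f, hf, hfull⟩ := hA.full hD hrec hnc s
  obtain ⟨r, hr, hrx⟩ : ∃ r : Fq[X], r ≠ 0 ∧ ∀ x : F, s * u x * s⁻¹ ∈ G A → io r * x ∈ A := by
    by_cases ha : s 0 0 = 0
    · have hc : s 1 0 ≠ 0 := by
        intro hc
        have hd := det_eq s
        rw [ha, hc, zero_mul, mul_zero, sub_zero] at hd
        exact zero_ne_one hd
      obtain ⟨r, hr, h⟩ := hA.dvd _ (pow_ne_zero 2 hc)
      refine ⟨r, hr, fun x hx => ?_⟩
      rw [conj_u] at hx
      have h1 : -(s 1 0 ^ 2 * x) ∈ A := hx 1 0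
      have e1 : io r * x = -(io r / s 1 0 ^ 2 * -(s 1 0 ^ 2 * x)) := by
        field_simp
      rw [e1]
      exact A.neg_mem (A.mul_mem h h1)
    · obtain ⟨r, hr, h⟩ := hA.dvd _ (pow_ne_zero 2 ha)
      refine ⟨r, hr, fun x hx => ?_⟩
      rw [conj_u] at hx
      have h1 : s 0 0 ^ 2 * x ∈ A := hx 0 1
      have e1 : io r * x = io r / s 0 0 ^ 2 * (s 0 0 ^ 2 * x) := by
        field_simp
      rw [e1]
      exact A.mul_mem h h1
  refine ⟨f * r, mul_ne_zero hf hr, fun x hx => ?_⟩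
  have e : io (f * r) * x = io f * (io r * x) := by
    rw [map_mul, mul_assoc]
  rw [e]
  exact hfull _ (hrx x hx)

end BoomFF
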