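import Pool.Agent.H.MP_4c7af0_al.FF.A10
import Pool.Agent.H.MP_4c7af0_al.FF.A5
import Pool.Agent.H.MP_4c7af0_al.FF.A6
import Pool.Agent.H.MP_4c7af0_al.FF.D2b
import Pool.Agent.H.MP_4c7af0_al.FF.G5

/-! Boomerang subgroups, function field case (MP_4c7af0_al), step 2: end of step 2. -/

namespace BoomFF

open BoomNF Polynomial

variable {Fq F : Type*} [Field Fq] [Field F] {io : Fq[X] →+* F} {A : Subring F} {n h : ℕ}

/-- `φ(b)` lies in the ring generated by `t^m` and `t^(-m)` -/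
theorem a11_phi_mem {p : ℕ} [CharP Fq p] [NeZero p] (io : Fq[X] →+* F) (m : ℕ)
    (b : (ZMod p)[X]) :
    io (phi Fq p m b) ∈ Subring.closure ({io X ^ m, (io X ^ m)⁻¹} : Set F) := by
  have h1 := phi_stab (m := m) io
    (Subring.closure ({io X ^ m, (io X ^ m)⁻¹} : Set F)).toAddSubgroup
    (fun x hx => Subring.mul_mem _ (Subring.subset_closure (Set.mem_insert _ _)) hx) b 1
    (Subring.one_mem _)
  rwa [mul_one] at h1

/-- Nakayama. Let `I ⊆ A` be an additive subgroup stable under `t^m` and `t^(-m)`, and `μ` irreducible, `μ ∤ X`,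
with `A = I + φ(μ) A`. Then `φ(ρ) A ⊆ I` for some `ρ ≠ 0`. Proof: `C = Subring.closure {t^m, t^(-m)}`; `A` is a
finitely generated `C`-module (`FR.fg`), `I` is a `C`-submodule (`stab_closure` in `G5.lean`, see also `FR.full`
in `G5.lean`), and `M = A / I` satisfies `M = φ(μ) M`, `φ(μ) ∈ C`. By Nakayama
(`Submodule.exists_sub_one_mem_and_smul_eq_zero_of_fg_of_le_smul`, for the ideal generated by `φ(μ)` in `C`)
there is `r ∈ C`, `r = 1 + φ(μ) c`, `c ∈ C`, with `r A ⊆ I`. `r ≠ 0`: otherwise `φ(μ) c = -1`,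
`c t^(m k) = φ(b)` (`phi_closure`) and `φ(μ b) = -t^(m k)`, so `μ b = -X^k` (`phi_inj`, `hA.inj`) and `μ ∣ X^k`,
`μ ∣ X`. Finally `r t^(m k) = φ(ρ)` (`phi_closure`), `ρ ≠ 0`. -/
theorem naka [Finite Fq] {p : ℕ} [CharP Fq p] [Fact p.Prime] (hA : FR io A n h) {m : ℕ}
    (hm : 0 < m) (I : AddSubgroup F) (hIA : ∀ x ∈ I, x ∈ A)
    (h1 : ∀ x ∈ I, io X ^ m * x ∈ I) (h2 : ∀ x ∈ I, (io X ^ m)⁻¹ * x ∈ I) {μ : (ZMod p)[X]}
    (hμ : Irreducible μ) (hμX : ¬ μ ∣ X)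
    (hI : ∀ x ∈ A, ∃ i ∈ I, ∃ a ∈ A, x = i + io (phi Fq p m μ) * a) :
    ∃ ρ : (ZMod p)[X], ρ ≠ 0 ∧ ∀ x ∈ A, io (phi Fq p m ρ) * x ∈ I := by
  classical
  haveI : NeZero p := ⟨(Fact.out : p.Prime).ne_zero⟩
  have hX0 : io X ≠ 0 := hA.io_ne X_ne_zero
  obtain ⟨Ω, hΩ, hspan⟩ := hA.fg m hm
  have hCA : Subring.closure ({io X ^ m, (io X ^ m)⁻¹} : Set F) ≤ A := by
    rw [Subring.closure_le]
    rintro x (rfl | hx)
    · exact A.pow_mem (hA.mem X) m
    · rw [Set.mem_singleton_iff] at hx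
      rw [hx, ← inv_pow]
      exact A.pow_mem hA.tinv m
  obtain ⟨J, hJ⟩ : ∃ J : Submodule (Subring.closure ({io X ^ m, (io X ^ m)⁻¹} : Set F)) F,
      ∀ x, x ∈ J ↔ x ∈ I := by
    refine ⟨{ I with smul_mem' := ?_ }, fun x => Iff.rfl⟩
    intro c x hx
    rw [Subring.smul_def, smul_eq_mul]
    exact stab_closure I h1 h2 c.2 x hx
  obtain ⟨NA, hNA⟩ : ∃ NA : Submodule (Subring.closure ({io X ^ m, (io X ^ m)⁻¹} : Set F)) F,
      NA = Submodule.span (Subring.closure ({io X ^ m, (io X ^ m)⁻¹} : Set F)) (Ω : Set F) :=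
    ⟨_, rfl⟩
  have hNAfg : NA.FG := ⟨Ω, hNA.symm⟩
  have hANA : ∀ x ∈ A, x ∈ NA := fun x hx => hNA ▸ hspan x hx
  have hNAA : ∀ x ∈ NA, x ∈ A := by
    intro x hx
    rw [hNA] at hx
    induction hx using Submodule.span_induction with
    | mem ω hω => exact hΩ ω hω
    | zero => exact A.zero_mem
    | add x y _ _ h3 h4 => exact A.add_mem h3 h4
    | smul c x _ h3 =>
      rw [Subring.smul_def, smul_eq_mul]
      exact A.mul_mem (hCA c.2) h3
  obtain ⟨r, hr, hrN⟩ := Submodule.exists_sub_one_mem_and_smul_eq_zero_of_fg_of_le_smul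
    (Ideal.span {(⟨io (phi Fq p m μ), a11_phi_mem io m μ⟩ :
      Subring.closure ({io X ^ m, (io X ^ m)⁻¹} : Set F))})
    (NA.map J.mkQ) (hNAfg.map _) (by
      rintro y ⟨x, hx, rfl⟩
      obtain ⟨i, hi, a, ha, hxa⟩ := hI x (hNAA x hx)
      have e : J.mkQ x = (⟨io (phi Fq p m μ), a11_phi_mem io m μ⟩ :
          Subring.closure ({io X ^ m, (io X ^ m)⁻¹} : Set F)) • J.mkQ a := by
        rw [← map_smul, ← sub_eq_zero, ← map_sub, Submodule.mkQ_apply,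
          Submodule.Quotient.mk_eq_zero, hJ, Subring.smul_def, smul_eq_mul, hxa,
          add_sub_cancel_right]
        exact hi
      rw [e]
      exact Submodule.smul_mem_smul (Ideal.mem_span_singleton_self _)
        (Submodule.mem_map_of_mem (hANA a ha)))
  have hrI : ∀ x ∈ A, (r : F) * x ∈ I := by
    intro x hx
    have h3 := hrN (J.mkQ x) (Submodule.mem_map_of_mem (hANA x hx))
    rw [← map_smul, Submodule.mkQ_apply, Submodule.Quotient.mk_eq_zero, hJ, Subring.smul_def,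
      smul_eq_mul] at h3
    exact h3
  have hr0 : (r : F) ≠ 0 := by
    intro h0
    obtain ⟨c, hc⟩ := Ideal.mem_span_singleton'.1 hr
    have hc' : (c : F) * io (phi Fq p m μ) = (r : F) - 1 := congrArg Subtype.val hc
    rw [h0, zero_sub] at hc'
    obtain ⟨k, b, hb⟩ := phi_closure (p := p) io hX0 c.2
    have h3 : io (phi Fq p m (μ * b)) = io (phi Fq p m (-X ^ k)) := by
      rw [map_mul, map_mul, ← hb, map_neg, map_neg, map_pow, phi_X, map_pow, map_pow]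
      linear_combination (io X ^ m) ^ k * hc'
    have h4 : μ * b = -X ^ k := phi_inj hm (hA.inj h3)
    have h5 : μ ∣ X ^ k := by
      rw [← dvd_neg, ← h4]
      exact dvd_mul_right _ _
    exact hμX (hμ.prime.dvd_of_dvd_pow h5)
  obtain ⟨k, ρ, hρ⟩ := phi_closure (p := p) io hX0 r.2
  refine ⟨ρ, ?_, ?_⟩
  · rintro rfl
    rw [map_zero, map_zero] at hρ
    exact mul_ne_zero (pow_ne_zero _ (pow_ne_zero _ hX0)) hr0 hρ
  · intro x hx
    rw [← hρ, mul_assoc]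
    have h3 : ∀ k : ℕ, ∀ y ∈ I, (io X ^ m) ^ k * y ∈ I := by
      intro k
      induction k with
      | zero => intro y hy; rwa [pow_zero, one_mul]
      | succ k ih =>
        intro y hy
        rw [pow_succ, mul_assoc]
        exact ih _ (h1 y hy)
    exact h3 k _ (hrI x hx)

/-- Step 2. Proof: `p = ringChar Fq`, prime. `K₀` from `GRing.unit_pow` (`ε = t`, `α = N²`),
`m = 2 K₀ (q^h - 1) > 0` (`q = Nat.card Fq > 1`, `hA.hpos`). `Stb` holds by `FR.stab`, `Star` by `FR.star`.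
`LL_large` gives `W`; `LL_ex`; `LL_all` gives `c₀`. An irreducible `μ ∤ W X` exists (infinitely many irreducible
polynomials over `𝔽_p`, e.g. an irreducible factor of `W X Z' + 1`... with `W X` nonconstant, or
`exists_irr_not_dvd` in `D2b.lean`); with `LL_large` and `naka` for `s2d_I A (io N) g` every `g ∈ Γ(N²)` has
`ρ ≠ 0` with `φ(ρ) A ⊆ I_g`. `LL_final`; `c = φ(c₀)`. -/
theorem FR.step2 [Finite Fq] (hA : FR io A n h) {N : Fq[X]} (hN : N ≠ 0) :
    ∃ c : Fq[X], c ≠ 0 ∧ ∀ g ∈ GN A (io N ^ 2), ∀ x ∈ A, g * u (io c * x) * g⁻¹ ∈ E A (io N) := by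
  obtain ⟨p, hp⟩ := CharP.exists Fq
  haveI : CharP Fq p := hp
  haveI : Fact p.Prime := ⟨CharP.char_is_prime Fq p⟩
  have hX0 : io X ≠ 0 := hA.io_ne X_ne_zero
  have hN0 : io N ≠ 0 := hA.io_ne hN
  obtain ⟨K₀, hK₀, hK⟩ := hA.gring.unit_pow hX0 (hA.mem X) hA.tinv
    (A.pow_mem (hA.mem N) 2) (pow_ne_zero 2 hN0)
  have hq : 1 < Nat.card Fq := Finite.one_lt_card
  have hqh : 1 < Nat.card Fq ^ h := Nat.one_lt_pow hA.hpos.ne' hq
  have hm : 0 < 2 * K₀ * (Nat.card Fq ^ h - 1) :=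
    Nat.mul_pos (by omega) (by omega)
  obtain ⟨m, hm'⟩ : ∃ m, m = 2 * K₀ * (Nat.card Fq ^ h - 1) := ⟨_, rfl⟩
  rw [← hm'] at hm
  have hS : Stb io A (io N) m := by
    intro g hg x hx
    rw [hm']
    exact hA.stab hN hK hg hx
  have hst : Star io A N m := by
    intro l l₀ hl hl₀ hco
    rw [hm']
    exact hA.star hN hK hl hl₀ hco
  obtain ⟨W, hW, hWL⟩ := LL_large (p := p) hA hN hm hst
  obtain ⟨c₀, hc₀, hL⟩ := LL_all (p := p) hA hS hW hWL (fun μ hμ => LL_ex hA hN hm hst hμ)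
  refine ⟨phi Fq p m c₀, phi_ne hm hc₀, ?_⟩
  intro g hg
  refine LL_final (p := p) hA hS hL hg ?_
  obtain ⟨μ, -, hμ, hμW⟩ := exists_irr_not_dvd (mul_ne_zero hW (X_ne_zero (R := ZMod p)))
  have h1 : ¬ μ ∣ W := fun h => hμW (h.mul_right _)
  have h2 : ¬ μ ∣ X := fun h => hμW (h.mul_left _)
  obtain ⟨ρ, hρ, hρ'⟩ := naka (p := p) hA hm (s2d_I A (io N) g) (fun x hx => hx.1)
    (fun x hx => ⟨A.mul_mem (A.pow_mem (hA.mem X) m) hx.1, (hS g hg x hx.2).1⟩)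
    (fun x hx => ⟨A.mul_mem (by rw [← inv_pow]; exact A.pow_mem hA.tinv m) hx.1,
      (hS g hg x hx.2).2⟩) hμ h2 (by
      intro x hx
      obtain ⟨i, hi, hi', a, ha, e⟩ := hWL μ hμ h1 g hg x hx
      rw [map_one, map_one, one_mul, one_mul] at e
      exact ⟨i, ⟨hi, hi'⟩, a, ha, e⟩)
  exact ⟨ρ, hρ, fun x hx => (hρ' x hx).2⟩

end BoomFF
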