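import Pool.Agent.H.MP_4c7af0_al.FF.G1

/-! Boomerang subgroups, function field case (MP_4c7af0_al), step 2: good elements with prescribed
residues and polynomials modulo a good element. Templates: `NF/Good2.lean` (`SRing.good'`,
`SRing.good_res`, `good2_cop_pow`) and `NF/Good3.lean`. -/

namespace BoomFF

open BoomNF Polynomial

variable {Fq F : Type*} [Field Fq] [Field F] {io : Fq[X] →+* F} {A : Subring F} {n h : ℕ}

/-- Lemma G with `c = a + b t` coprime to `M`: `GRing.coprime_lift` for `(a, b, M)`, then `FR.good` for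
`(a + b t₀, b M)`. Template: `SRing.good'` in `NF/Good2.lean`. -/
theorem FR.good' (hA : FR io A n h) {a b M : F} (ha : a ∈ A) (hb : b ∈ A) (hb0 : b ≠ 0)
    (hab : Cop A a b) (hM : M ∈ A) (hM0 : M ≠ 0) :
    ∃ t ∈ A, a + b * t ≠ 0 ∧ OntoF io A (a + b * t) ∧ Cop A (a + b * t) M := by
  obtain ⟨t0, ht0, -, hc0⟩ := hA.gring.coprime_lift ha hb hM hM0 hab
  have ha1A : a + b * t0 ∈ A := A.add_mem ha (A.mul_mem hb ht0)
  have hab1 : Cop A (a + b * t0) b := Cop.add_mul ht0 hab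
  have hc1 : Cop A (a + b * t0) (b * M) := Cop.mul_right ha1A hb hM hab1 hc0
  obtain ⟨t1, ht1, hne, honto⟩ := hA.good _ ha1A _ (A.mul_mem hb hM) (mul_ne_zero hb0 hM0) hc1
  have hcop : Cop A (a + b * t0 + b * M * t1) M :=
    Cop.of_mul_right_right hb (Cop.add_mul ht1 hc1)
  have e : a + b * t0 + b * M * t1 = a + b * (t0 + M * t1) := by ring
  rw [e] at hne honto hcop
  exact ⟨t0 + M * t1, A.add_mem ht0 (A.mul_mem hM ht1), hne, honto, hcop⟩

/-- Lemma G with prescribed residue mod `l`. Template: `SRing.good_res` in `NF/Good2.lean` with `p^j`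
replaced by `l`. -/
theorem FR.good_res (hA : FR io A n h) {a b M r l : F} (ha : a ∈ A) (hb : b ∈ A) (hb0 : b ≠ 0)
    (hab : Cop A a b) (hM : M ∈ A) (hM0 : M ≠ 0) (hl : l ∈ A) (hl0 : l ≠ 0) (hr : r ∈ A)
    (hrl : Cop A r l) (hbl : Cop A b l) :
    ∃ t ∈ A, a + b * t ≠ 0 ∧ OntoF io A (a + b * t) ∧ Cop A (a + b * t) M ∧
      (a + b * t - r) / l ∈ A := by
  obtain ⟨x, hx, y, hy, hxy⟩ := hbl
  have hra : r - a ∈ A := A.sub_mem hr ha
  obtain ⟨t1, ht1⟩ : ∃ t1, t1 = x * (r - a) := ⟨_, rfl⟩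
  have ht1A : t1 ∈ A := by rw [ht1]; exact A.mul_mem hx hra
  have e1 : a + b * t1 = r + l * ((a - r) * y) := by
    rw [ht1]
    linear_combination (r - a) * hxy
  have hary : (a - r) * y ∈ A := A.mul_mem (A.sub_mem ha hr) hy
  have ha1A : a + b * t1 ∈ A := A.add_mem ha (A.mul_mem hb ht1A)
  have hc1 : Cop A (a + b * t1) b := Cop.add_mul ht1A hab
  have hc2 : Cop A (a + b * t1) l := by
    rw [e1]
    exact Cop.add_mul hary hrl
  have hc3 : Cop A (a + b * t1) (b * l) := Cop.mul_right ha1A hb hl hc1 hc2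
  obtain ⟨t2, ht2, hne, honto, hcop⟩ := hA.good' ha1A (A.mul_mem hb hl)
    (mul_ne_zero hb0 hl0) hc3 hM hM0
  have e : a + b * t1 + b * l * t2 = a + b * (t1 + l * t2) := by ring
  have e2 : (a + b * (t1 + l * t2) - r) / l = (a - r) * y + b * t2 := by
    rw [← e, e1]
    field_simp
    ring
  rw [e] at hne honto hcop
  refine ⟨t1 + l * t2, A.add_mem ht1A (A.mul_mem hl ht2), hne, honto, hcop, ?_⟩
  rw [e2]
  exact A.add_mem hary (A.mul_mem hb ht2)

/-- `c A ∩ 𝔽_q[t] = n₀ 𝔽_q[t]` with `n₀ ≠ 0` (`𝔽_q[X]` is a PID; `FR.dvd`). Template: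
`SRing.onto_gen` in `NF/Good3.lean`. -/
theorem FR.onto_gen (hA : FR io A n h) {c : F} (hc0 : c ≠ 0) :
    ∃ n₀ : Fq[X], n₀ ≠ 0 ∧ ∀ z : Fq[X], io z / c ∈ A ↔ n₀ ∣ z := by
  let I : Ideal Fq[X] :=
    { carrier := {z | io z / c ∈ A}
      add_mem' := by
        intro a b ha hb
        change io (a + b) / c ∈ A
        rw [map_add, add_div]
        exact A.add_mem ha hb
      zero_mem' := by
        change io 0 / c ∈ A
        rw [map_zero, zero_div]
        exact A.zero_mem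
      smul_mem' := by
        intro m z hz
        change io (m * z) / c ∈ A
        rw [map_mul, mul_div_assoc]
        exact A.mul_mem (hA.mem m) hz }
  have hI : ∀ z : Fq[X], z ∈ I ↔ io z / c ∈ A := fun z => Iff.rfl
  obtain ⟨g, hg⟩ := (IsPrincipalIdealRing.principal I).principal
  have hg' : ∀ z : Fq[X], io z / c ∈ A ↔ g ∣ z := fun z => by
    rw [← hI, hg, Submodule.mem_span_singleton]
    constructor
    · rintro ⟨a, ha⟩
      exact ⟨a, by rw [← ha, smul_eq_mul, mul_comm]⟩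
    · rintro ⟨a, ha⟩
      exact ⟨a, by rw [ha, smul_eq_mul, mul_comm]⟩
  refine ⟨g, ?_, hg'⟩
  rintro rfl
  obtain ⟨f, hf, hf'⟩ := hA.dvd c hc0
  have h1 := (hg' f).1 hf'
  rw [zero_dvd_iff] at h1
  exact hf h1

/-- If `𝔽_q[t] → A / c A` is onto, `c A ∩ 𝔽_q[t] = (n₀)` and `c` is coprime to `M ∈ 𝔽_q[t]` then `n₀` is
coprime to `M`. Template: `onto_cop` in `NF/Good3.lean`. -/
theorem FR.onto_cop (hA : FR io A n h) {c : F} (hc0 : c ≠ 0) (hO : OntoF io A c) {n₀ : Fq[X]}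
    (hn : ∀ z : Fq[X], io z / c ∈ A ↔ n₀ ∣ z) {M : Fq[X]} (hM : Cop A c (io M)) :
    IsCoprime n₀ M := by
  obtain ⟨x, hx, y, hy, e⟩ := hM
  obtain ⟨z, hz⟩ := hO y hy
  obtain ⟨q, hq⟩ := (hn (M * z - 1)).1 (by
    have h1 : io (M * z - 1) / c = -x - io M * ((y - io z) / c) := by
      rw [map_sub, map_mul, map_one]
      field_simp
      linear_combination e
    rw [h1]
    exact A.sub_mem (A.neg_mem hx) (A.mul_mem (hA.mem M) hz))
  exact ⟨-q, z, by linear_combination hq⟩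

/-- an element `a ∈ A` coprime to `c` is `≡ r mod c` with `r ∈ 𝔽_q[t]` coprime to `n₀`. Template:
`onto_rep` in `NF/Good3.lean`. -/
theorem FR.onto_rep (hA : FR io A n h) {c a : F} (ha : a ∈ A) (hc0 : c ≠ 0) (hO : OntoF io A c)
    {n₀ : Fq[X]} (hn : ∀ z : Fq[X], io z / c ∈ A ↔ n₀ ∣ z) (hac : Cop A a c) :
    ∃ r : Fq[X], (a - io r) / c ∈ A ∧ IsCoprime r n₀ := by
  obtain ⟨r, hr⟩ := hO a ha
  obtain ⟨x, hx, y, hy, e⟩ := hac
  obtain ⟨z, hz⟩ := hO x hx
  refine ⟨r, hr, ?_⟩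
  obtain ⟨q, hq⟩ := (hn (r * z - 1)).1 (by
    have h1 : io (r * z - 1) / c = -y - a * ((x - io z) / c) - io z * ((a - io r) / c) := by
      rw [map_sub, map_mul, map_one]
      field_simp
      linear_combination e
    rw [h1]
    exact A.sub_mem (A.sub_mem (A.neg_mem hy) (A.mul_mem ha hz)) (A.mul_mem (hA.mem z) hr))
  exact ⟨z, -q, by linear_combination hq⟩

end BoomFF
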