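import Pool.Agent.H.MP_4c7af0_al.FF.A2
import Pool.Agent.H.MP_4c7af0_al.NF.S2a

/-! Boomerang subgroups, function field case (MP_4c7af0_al), step 2: normal form of the first column. -/

namespace BoomFF

open BoomNF Polynomial

variable {Fq F : Type*} [Field Fq] [Field F] {io : Fq[X] →+* F} {A : Subring F} {n h : ℕ}

/-- normalisation of the first column of `g` by left multiplication by `u(N x)`, `v(N x)` (this does
not change `I_g`). Template: `SRing.normal_form` in `NF/S2b1.lean` (with `p^j` replaced by `l`; the last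
statement is now an equivalence: `g' = e g` with `e ∈ E A N`). -/
theorem FR.normal_form (hA : FR io A n h) {N : F} (hN : N ∈ A) (hN0 : N ≠ 0) {g : SL2 F}
    (hg : g ∈ GN A (N ^ 2)) {l r M : F} (hl : l ∈ A) (hl0 : l ≠ 0) (hr : r ∈ A)
    (hrl : Cop A r l) (hM : M ∈ A) (hM0 : M ≠ 0) :
    ∃ g' : SL2 F, g' ∈ GN A N ∧ (g' 0 0 - 1) / N ^ 2 ∈ A ∧ g' 0 0 ≠ 0 ∧
      ∃ c ∈ A, c ≠ 0 ∧ g' 1 0 = N * c ∧ OntoF io A c ∧ Cop A c M ∧ (c - r) / l ∈ A ∧
      Cop A (g' 0 0) c ∧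
      ∀ x : F, g' * u x * g'⁻¹ ∈ E A N ↔ g * u x * g⁻¹ ∈ E A N := by
  have hNK : N ≠ 0 := hN0
  have hNA : N ∈ A := hN
  obtain ⟨hgG, h00, h01, h10, h11⟩ := hg
  have hdet := det_eq g
  have hgN : g ∈ GN A N := by
    refine GN_mono hNK (pow_ne_zero 2 hNK) ?_ ⟨hgG, h00, h01, h10, h11⟩
    have h1 : N ^ 2 / N = N := by field_simp
    rw [h1]
    exact hNA
  have hc1 : Cop A (g 0 0) (g 1 0) :=
    ⟨g 1 1, hgG 1 1, -(g 0 1), A.neg_mem (hgG 0 1), by linear_combination hdet⟩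
  have hc2 : Cop A (g 0 0) N := by
    refine ⟨1, A.one_mem, -(N * ((g 0 0 - 1) / N ^ 2)),
      A.neg_mem (A.mul_mem hNA h00), ?_⟩
    field_simp
    ring
  have hc3 : Cop A (g 0 0) (N * g 1 0) :=
    Cop.mul_right (hgG 0 0) hNA (hgG 1 0) hc2 hc1
  obtain ⟨t, ht, ha0, hap⟩ := hA.gring.coprime_lift (hgG 0 0) (A.mul_mem hNA (hgG 1 0)) hl hl0 hc3
  obtain ⟨a1, ha1⟩ : ∃ a1 : F, a1 = g 0 0 + N * g 1 0 * t := ⟨_, rfl⟩
  rw [← ha1] at ha0 hap
  have ha1A : a1 ∈ A := by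
    rw [ha1]
    exact A.add_mem (hgG 0 0) (A.mul_mem (A.mul_mem hNA (hgG 1 0)) ht)
  obtain ⟨c0, hc0⟩ : ∃ c0 : F, c0 = N * (g 1 0 / N ^ 2) := ⟨_, rfl⟩
  have hc0A : c0 ∈ A := by
    rw [hc0]
    exact A.mul_mem hNA h10
  have hc0' : g 1 0 = N * c0 := by
    rw [hc0]
    field_simp
  have hcop : Cop A c0 a1 := by
    refine ⟨-(N * (g 0 1 + N * t * g 1 1)), ?_, g 1 1, hgG 1 1, ?_⟩
    · exact A.neg_mem (A.mul_mem hNA (A.add_mem (hgG 0 1) (A.mul_mem (A.mul_mem hNA ht)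
        (hgG 1 1))))
    · rw [ha1]
      linear_combination hdet + (g 0 1 + N * t * g 1 1) * hc0'
  obtain ⟨x, hx, hne, hO, hM', hres⟩ :=
    hA.good_res hc0A ha1A ha0 hcop hM hM0 hl hl0 hr hrl hap
  have huE : u (N * t) ∈ E A N :=
    u_mem_E hNK (by rw [mul_div_cancel_left₀ _ hNK]; exact ht)
  have hvE : v (N * x) ∈ E A N :=
    v_mem_E hNK (by rw [mul_div_cancel_left₀ _ hNK]; exact hx)
  have hg00 : (v (N * x) * (u (N * t) * g)) 0 0 = a1 := by
    rw [mul_app, mul_app, mul_app, v_00, v_01, u_00, u_01, ha1]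
    ring
  have hg10 : (v (N * x) * (u (N * t) * g)) 1 0 = N * (c0 + a1 * x) := by
    rw [mul_app, mul_app, mul_app, v_10, v_11, u_00, u_01, u_10, u_11, ha1]
    linear_combination hc0'
  refine ⟨v (N * x) * (u (N * t) * g), ?_, ?_, ?_, c0 + a1 * x,
    A.add_mem hc0A (A.mul_mem ha1A hx), hne, hg10, hO, hM', hres, ?_, ?_⟩
  · refine (GN A N).mul_mem (v_mem_GN hNA hNK ?_) ((GN A N).mul_mem
      (u_mem_GN hNA hNK ?_) hgN)
    · rw [mul_div_cancel_left₀ _ hNK]; exact hx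
    · rw [mul_div_cancel_left₀ _ hNK]; exact ht
  · rw [hg00, ha1]
    have h1 : (g 0 0 + N * g 1 0 * t - 1) / N ^ 2 =
        (g 0 0 - 1) / N ^ 2 + N * (g 1 0 / N ^ 2) * t := by
      field_simp
      ring
    rw [h1]
    exact A.add_mem h00 (A.mul_mem (A.mul_mem hNA h10) ht)
  · rw [hg00]
    exact ha0
  · rw [hg00]
    exact (Cop.add_mul hx hcop).symm
  · intro y
    have h1 : g * u y * g⁻¹ = (v (N * x) * u (N * t))⁻¹ *
        (v (N * x) * (u (N * t) * g) * u y *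
          (v (N * x) * (u (N * t) * g))⁻¹) *
        (v (N * x) * u (N * t)) := by group
    have h2 : v (N * x) * (u (N * t) * g) * u y * (v (N * x) * (u (N * t) * g))⁻¹ =
        (v (N * x) * u (N * t)) * (g * u y * g⁻¹) * (v (N * x) * u (N * t))⁻¹ := by group
    have hE := (E A N).mul_mem hvE huE
    constructor
    · intro hy
      rw [h1]
      exact (E A N).mul_mem ((E A N).mul_mem ((E A N).inv_mem hE) hy) hE
    · intro hy
      rw [h2]
      exact (E A N).mul_mem ((E A N).mul_mem hE hy) ((E A N).inv_mem hE)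

end BoomFF
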