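import Pool.Agent.H.MP_4c7af0_al.FF.D7

/-! Primes in arithmetic progressions in `𝔽_q[t]` (MP_4c7af0_al, function field case): Dirichlet's theorem. -/

namespace BoomFF

open Polynomial Filter Topology

variable {k : Type*} [Field k] [Finite k]

/-- interchange of a finite sum and the series -/
theorem d7b_tsum {ι : Type*} (T : Finset ι) (w : ι → ℂ) (C : ι → ℕ → ℂ) (a : ℂ) (u : ℂ)
    (hs : ∀ i ∈ T, Summable fun j => C i j * u ^ j) :
    ∑ i ∈ T, w i * (a * ∑' j, C i j * u ^ j) =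
      a * ∑' j, (∑ i ∈ T, w i * C i j) * u ^ j := by
  have h1 : ∀ j, (∑ i ∈ T, w i * C i j) * u ^ j = ∑ i ∈ T, w i * (C i j * u ^ j) := by
    intro j
    rw [Finset.sum_mul]
    exact Finset.sum_congr rfl fun i _ => by ring
  simp_rw [h1]
  rw [Summable.tsum_finsetSum fun i hi => (hs i hi).mul_left (w i), Finset.mul_sum]
  refine Finset.sum_congr rfl fun i _ => ?_
  rw [tsum_mul_left]
  ring

/-- finitely many terms do not contribute to the limit -/
theorem d7b_poly {q : ℕ} (hq : 1 < q) (B : ℕ) (c : ℕ → ℝ) :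
    Tendsto (fun u : ℝ => (1 - q * u) * ∑ j ∈ Finset.range B, c j * u ^ j)
      (𝓝[<] ((1 : ℝ) / q)) (𝓝 0) := by
  have hc : Continuous (fun u : ℝ => (1 - q * u) * ∑ j ∈ Finset.range B, c j * u ^ j) := by
    fun_prop
  have h1 := (hc.tendsto ((1 : ℝ) / q)).mono_left (nhdsWithin_le_nhds (s := Set.Iio ((1 : ℝ) / q)))
  have hq0 : (q : ℝ) ≠ 0 := by positivity
  have h2 : (1 - (q : ℝ) * (1 / q)) = 0 := by
    rw [mul_one_div_cancel hq0, sub_self]
  rwa [h2, zero_mul] at h1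

/-- coefficients which are small from some point on -/
theorem d7b_lim {q : ℕ} (hq : 1 < q) (B : ℕ) (c : ℕ → ℕ) (hc1 : ∀ j, c j ≤ q ^ j)
    (hc2 : ∀ j, B < j → c j ≤ 2 * q ^ (j / 2)) :
    Tendsto (fun u : ℝ => (1 - q * u) * ∑' j, (c j : ℝ) * u ^ j)
      (𝓝[<] ((1 : ℝ) / q)) (𝓝 0) := by
  have hq0 : (0 : ℝ) < q := by positivity
  have hL2 : Tendsto (fun u : ℝ => (1 - q * u) *
      ∑' j, (if j < B + 1 then (0 : ℝ) else c j) * u ^ j)
      (𝓝[<] ((1 : ℝ) / q)) (𝓝 0) := by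
    refine lim_small hq (fun j => ?_) (fun j => ?_)
    · split_ifs
      · exact le_rfl
      · positivity
    · split_ifs with h
      · positivity
      · exact_mod_cast hc2 j (by omega)
  have hL3 := (d7b_poly hq (B + 1) (fun j => (c j : ℝ))).add hL2
  rw [add_zero] at hL3
  have hev : ∀ᶠ u : ℝ in 𝓝[<] ((1 : ℝ) / q), 0 < u ∧ u < 1 / q :=
    Ioo_mem_nhdsLT (by positivity)
  refine hL3.congr' ?_
  filter_upwards [hev] with u hu
  have hu0 := hu.1
  have hqu : (q : ℝ) * u < 1 := by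
    have := hu.2
    rw [lt_div_iff₀ hq0] at this
    linarith
  have hqu0 : 0 ≤ (q : ℝ) * u := by positivity
  have hgeo : Summable fun j : ℕ => ((q : ℝ) * u) ^ j :=
    summable_geometric_of_lt_one hqu0 hqu
  have hs1 : Summable fun j => (c j : ℝ) * u ^ j := by
    refine Summable.of_nonneg_of_le (fun j => by positivity) (fun j => ?_) hgeo
    rw [mul_pow]
    have h1 : (c j : ℝ) ≤ (q : ℝ) ^ j := by exact_mod_cast hc1 j
    exact mul_le_mul_of_nonneg_right h1 (by positivity)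
  have hs2 : Summable fun j => (if j < B + 1 then (0 : ℝ) else c j) * u ^ j := by
    refine Summable.of_nonneg_of_le (fun j => ?_) (fun j => ?_) hs1
    · split_ifs
      · simp
      · positivity
    · split_ifs
      · rw [zero_mul]
        positivity
      · exact le_rfl
  have hs3 : Summable fun j => (if j < B + 1 then (c j : ℝ) else 0) * u ^ j := by
    refine Summable.of_nonneg_of_le (fun j => ?_) (fun j => ?_) hs1
    · split_ifs
      · positivity
      · simp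
    · split_ifs
      · exact le_rfl
      · rw [zero_mul]
        positivity
  have h5 : ∑' j, (c j : ℝ) * u ^ j = ∑' j, (if j < B + 1 then (c j : ℝ) else 0) * u ^ j +
      ∑' j, (if j < B + 1 then (0 : ℝ) else c j) * u ^ j := by
    rw [← hs3.tsum_add hs2]
    refine tsum_congr fun j => ?_
    split_ifs <;> ring
  have h6 : ∑' j, (if j < B + 1 then (c j : ℝ) else 0) * u ^ j =
      ∑ j ∈ Finset.range (B + 1), (c j : ℝ) * u ^ j := by
    rw [tsum_eq_sum (s := Finset.range (B + 1))]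
    · refine Finset.sum_congr rfl fun j hj => ?_
      rw [if_pos (Finset.mem_range.1 hj)]
    · intro j hj
      rw [if_neg (fun h => hj (Finset.mem_range.2 h)), zero_mul]
  rw [h5, h6]
  ring

open Classical in
/-- the coefficients `c_j` -/
noncomputable def d7b_c (n s : k[X]) (M e j : ℕ) : ℕ :=
  if M ∣ j + e then ∑ m ∈ j.divisors,
    m * ((irr k m).filter fun P => n ∣ s * P ^ (j / m) - 1).card else 0

theorem d7b_c_le (n s : k[X]) (M e j : ℕ) : d7b_c n s M e j ≤ Nat.card k ^ j := by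
  classical
  rcases Nat.eq_zero_or_pos j with h0 | h0
  · subst h0
    simp [d7b_c]
  · rw [← sum_card_irr h0, d7b_c]
    split_ifs
    · exact Finset.sum_le_sum fun m _ => Nat.mul_le_mul_left m (Finset.card_filter_le _ _)
    · exact Nat.zero_le _

theorem d7b_c_le2 {n r s : k[X]} (hsr : n ∣ s * r - 1) {M d e B : ℕ} (hde : M ∣ d + e)
    (hcon : ∀ P : k[X], P.Monic → Irreducible P → n ∣ P - r → B < P.natDegree →
      ¬ P.natDegree ≡ d [MOD M]) {j : ℕ} (hj : B < j) :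
    d7b_c n s M e j ≤ 2 * Nat.card k ^ (j / 2) := by
  classical
  have h0 : 0 < j := by omega
  rw [d7b_c]
  split_ifs with hMj
  · have h1 : j ≡ d [MOD M] := by
      have h2 : j + e ≡ d + e [MOD M] :=
        ((Nat.modEq_zero_iff_dvd).2 hMj).trans ((Nat.modEq_zero_iff_dvd).2 hde).symm
      exact Nat.ModEq.add_right_cancel' e h2
    have h3 : ((irr k j).filter fun P => n ∣ s * P ^ (j / j) - 1) = ∅ := by
      rw [Finset.filter_eq_empty_iff]
      intro P hP hd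
      obtain ⟨hP1, hP2, hP3⟩ := mem_irr.1 hP
      rw [Nat.div_self h0, pow_one] at hd
      have h4 : n ∣ P - r := by
        have h5 : P - r = r * (s * P - 1) - P * (s * r - 1) := by ring
        rw [h5]
        exact dvd_sub (hd.mul_left r) (hsr.mul_left P)
      exact hcon P hP1 hP3 h4 (by omega) (by rw [hP2]; exact h1)
    rw [← Nat.insert_self_properDivisors h0.ne', Finset.sum_insert (by simp), h3,
      Finset.card_empty, mul_zero, zero_add]
    exact (Finset.sum_le_sum fun m _ => Nat.mul_le_mul_left m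
      (Finset.card_filter_le _ _)).trans (sum_card_irr_proper h0)
  · exact Nat.zero_le _

theorem d7b_hlim {n : k[X]} (hn : n.Monic) {M : ℕ} (hM : 0 < M)
    (χ : MulChar (k[X] ⧸ Ideal.span {n}) ℂ) {ζ : ℂ} (hζ : ζ ^ M = 1) (hζ' : ‖ζ‖ = 1)
    [Decidable (χ = 1 ∧ ζ = 1)] :
    Tendsto (fun u : ℝ => ((1 - Nat.card k * u : ℝ) : ℂ) *
      ∑' j, CC (psi χ ζ) j * (u : ℂ) ^ j) (𝓝[<] ((1 : ℝ) / Nat.card k))
      (𝓝 (if χ = 1 ∧ ζ = 1 then 1 else 0)) := by
  split_ifs with h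
  · classical
    have h1 := lim_psi_one hn hζ'
    rw [if_pos h.2] at h1
    rw [h.1]
    exact h1
  · refine lim_all hn hM χ hζ ?_
    rw [not_and_or] at h
    exact h

theorem d7b_id {n : k[X]} (hn0 : n ≠ 0) [Fintype (MulChar (k[X] ⧸ Ideal.span {n}) ℂ)]
    {M : ℕ} (hM : 0 < M) {ω : ℂ} (hω : IsPrimitiveRoot ω M) (s : k[X]) (e : ℕ) {u : ℝ}
    (hu : 0 < u) (hu' : u < 1 / Nat.card k) :
    ∑ p ∈ (Finset.univ : Finset (MulChar (k[X] ⧸ Ideal.span {n}) ℂ)) ×ˢ Finset.range M,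
      (p.1 (Ideal.Quotient.mk _ s) * (ω ^ p.2) ^ e) * (((1 - Nat.card k * u : ℝ) : ℂ) *
        ∑' j, CC (psi p.1 (ω ^ p.2)) j * (u : ℂ) ^ j) =
      (Fintype.card (MulChar (k[X] ⧸ Ideal.span {n}) ℂ) : ℂ) * M *
        (((1 - Nat.card k * u) * ∑' j, (d7b_c n s M e j : ℝ) * u ^ j : ℝ) : ℂ) := by
  classical
  have hωn : ‖ω‖ = 1 := hω.norm'_eq_one hM.ne'
  have hωi : ∀ i : ℕ, ‖ω ^ i‖ = 1 := fun i => by rw [norm_pow, hωn, one_pow]
  rw [d7b_tsum _ (fun p : MulChar (k[X] ⧸ Ideal.span {n}) ℂ × ℕ =>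
    p.1 (Ideal.Quotient.mk _ s) * (ω ^ p.2) ^ e) (fun p j => CC (psi p.1 (ω ^ p.2)) j) _ _
    (fun p _ => summ_C Finite.one_lt_card (fun j => CC_le (CM_psi hn0 p.1 (hωi p.2)) j) hu hu')]
  have h1 : ∀ j, ∑ p ∈ (Finset.univ : Finset (MulChar (k[X] ⧸ Ideal.span {n}) ℂ)) ×ˢ
      Finset.range M, (p.1 (Ideal.Quotient.mk _ s) * (ω ^ p.2) ^ e) *
        CC (psi p.1 (ω ^ p.2)) j =
      (Fintype.card (MulChar (k[X] ⧸ Ideal.span {n}) ℂ) : ℂ) * M *
        ((d7b_c n s M e j : ℕ) : ℂ) := by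
    intro j
    rw [Finset.sum_product, d7b_c]
    exact sum_CC hn0 hM hω s e j
  have h2 : ∀ j, (Fintype.card (MulChar (k[X] ⧸ Ideal.span {n}) ℂ) : ℂ) * M *
      (d7b_c n s M e j : ℂ) * (u : ℂ) ^ j =
      (Fintype.card (MulChar (k[X] ⧸ Ideal.span {n}) ℂ) : ℂ) * M *
        ((d7b_c n s M e j : ℂ) * (u : ℂ) ^ j) :=
    fun j => mul_assoc _ _ _
  simp_rw [h1, h2]
  rw [tsum_mul_left]
  push_cast
  ring

theorem d7b_sum1 {n : k[X]} [Fintype (MulChar (k[X] ⧸ Ideal.span {n}) ℂ)]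
    {M : ℕ} (hM : 0 < M) {ω : ℂ} (hω : IsPrimitiveRoot ω M) {s : k[X]}
    (hs : IsUnit (Ideal.Quotient.mk (Ideal.span {n}) s)) (e : ℕ)
    [DecidablePred fun p : MulChar (k[X] ⧸ Ideal.span {n}) ℂ × ℕ => p.1 = 1 ∧ ω ^ p.2 = 1] :
    ∑ p ∈ (Finset.univ : Finset (MulChar (k[X] ⧸ Ideal.span {n}) ℂ)) ×ˢ Finset.range M,
      (p.1 (Ideal.Quotient.mk _ s) * (ω ^ p.2) ^ e) *
        (if p.1 = 1 ∧ ω ^ p.2 = 1 then 1 else 0) = 1 := by
  rw [Finset.sum_eq_single ((1 : MulChar (k[X] ⧸ Ideal.span {n}) ℂ), 0)]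
  · have h1 : (1 : MulChar (k[X] ⧸ Ideal.span {n}) ℂ) (Ideal.Quotient.mk _ s) = 1 :=
      MulChar.one_apply hs
    rw [if_pos ⟨rfl, pow_zero ω⟩, h1, pow_zero, one_pow, one_mul, mul_one]
  · rintro ⟨χ, i⟩ hp hne
    rw [if_neg, mul_zero]
    rintro ⟨h1, h2⟩
    apply hne
    have hi : i < M := Finset.mem_range.1 (Finset.mem_product.1 hp).2
    have h3 : M ∣ i := (hω.pow_eq_one_iff_dvd i).1 h2
    have h4 : i = 0 := Nat.eq_zero_of_dvd_of_lt h3 hi
    simp only at h1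
    rw [h1, h4]
  · intro h
    exact absurd (Finset.mem_product.2 ⟨Finset.mem_univ _, Finset.mem_range.2 hM⟩) h

theorem d7b_monic {n r : k[X]} (hn : n.Monic) (hr : IsCoprime r n) {M : ℕ} (hM : 0 < M)
    (d B : ℕ) :
    ∃ P : k[X], P.Monic ∧ Irreducible P ∧ n ∣ P - r ∧ B < P.natDegree ∧
      P.natDegree ≡ d [MOD M] := by
  classical
  by_contra hcon
  push Not at hcon
  have hn0 : n ≠ 0 := hn.ne_zero
  obtain ⟨s, b, hsb⟩ := hr
  have hsr : n ∣ s * r - 1 := ⟨-b, by linear_combination hsb⟩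
  have hq1 : 1 < Nat.card k := Finite.one_lt_card
  have hq0 : (0 : ℝ) < Nat.card k := by positivity
  obtain ⟨ω, hω⟩ : ∃ ω : ℂ, IsPrimitiveRoot ω M := ⟨_, Complex.isPrimitiveRoot_exp M hM.ne'⟩
  have hωn : ‖ω‖ = 1 := hω.norm'_eq_one hM.ne'
  have hfq := finite_quot_pol hn0
  have : Finite (MulChar (k[X] ⧸ Ideal.span {n}) ℂ) := MulChar.finite
  have hft : Fintype (MulChar (k[X] ⧸ Ideal.span {n}) ℂ) := Fintype.ofFinite _
  have hd : d ≤ M * d := Nat.le_mul_of_pos_left d hM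
  have hde : M ∣ d + (M * d - d) := ⟨d, by omega⟩
  have hmkc : IsUnit (Ideal.Quotient.mk (Ideal.span {n}) s) := by
    refine IsUnit.of_mul_eq_one (Ideal.Quotient.mk (Ideal.span {n}) r) ?_
    rw [← map_mul, ← sub_eq_zero, ← map_one (Ideal.Quotient.mk (Ideal.span {n})), ← map_sub,
      Ideal.Quotient.eq_zero_iff_mem, Ideal.mem_span_singleton]
    exact hsr
  have hL1 := tendsto_finsetSum
    ((Finset.univ : Finset (MulChar (k[X] ⧸ Ideal.span {n}) ℂ)) ×ˢ Finset.range M)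
    fun p _ => (d7b_hlim (k := k) hn hM p.1 (ζ := ω ^ p.2)
      (by rw [← pow_mul, mul_comm, pow_mul, hω.pow_eq_one, one_pow])
      (by rw [norm_pow, hωn, one_pow])).const_mul
      (p.1 (Ideal.Quotient.mk _ s) * (ω ^ p.2) ^ (M * d - d))
  rw [d7b_sum1 hM hω hmkc] at hL1
  have hL4 := d7b_lim hq1 B (fun j => d7b_c n s M (M * d - d) j)
    (fun j => d7b_c_le n s M (M * d - d) j) (fun j hj => d7b_c_le2 hsr hde hcon hj)
  have hev : ∀ᶠ u : ℝ in 𝓝[<] ((1 : ℝ) / Nat.card k), 0 < u ∧ u < 1 / Nat.card k :=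
    Ioo_mem_nhdsLT (by positivity)
  have h7 := ((Complex.continuous_ofReal.tendsto (0 : ℝ)).comp hL4).const_mul
    ((Fintype.card (MulChar (k[X] ⧸ Ideal.span {n}) ℂ) : ℂ) * M)
  have h9 := h7.congr' (f₂ := fun u : ℝ =>
    ∑ p ∈ (Finset.univ : Finset (MulChar (k[X] ⧸ Ideal.span {n}) ℂ)) ×ˢ Finset.range M,
      (p.1 (Ideal.Quotient.mk _ s) * (ω ^ p.2) ^ (M * d - d)) *
        (((1 - Nat.card k * u : ℝ) : ℂ) *
        ∑' j, CC (psi p.1 (ω ^ p.2)) j * (u : ℂ) ^ j)) (by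
      filter_upwards [hev] with u hu
      exact (d7b_id hn0 hM hω s (M * d - d) hu.1 hu.2).symm)
  have h8 := tendsto_nhds_unique hL1 h9
  simp at h8

/-- Dirichlet's theorem for `𝔽_q[t]` with a condition on the degree. Proof: we may assume `n` monic. Let
`s r ≡ 1 mod n`, `e` with `M ∣ d + e`. By `lim_all`, `lim_psi_one` and `sum_CC`,
`(1 - q u) ∑ c_j u^j → 1 / (|X| M) > 0` where `c_j = ∑_{m ∣ j} m #{P ∈ irr m : s P^(j/m) ≡ 1 mod n}` if
`M ∣ j + e` and `0` otherwise. The terms with `m < j` contribute `→ 0` (`lim_small`,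
`sum_card_irr_proper`). If there were no prime `P ≡ r mod n` of degree `≡ d mod M` and `> B`, the terms
with `m = j` would vanish for `j > B`, and `(1 - q u)` times a polynomial in `u` tends to `0`. -/
theorem dirichlet {n r : k[X]} (hn : n ≠ 0) (hr : IsCoprime r n) {M : ℕ} (hM : 0 < M) (d B : ℕ) :
    ∃ P : k[X], P.Monic ∧ Irreducible P ∧ n ∣ P - r ∧ B < P.natDegree ∧ P.natDegree ≡ d [MOD M] := by
  obtain ⟨P, h1, h2, h3, h4, h5⟩ := d7b_monic (n := n * C n.leadingCoeff⁻¹)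
    (monic_mul_leadingCoeff_inv hn) (r := r)
    ((isCoprime_mul_unit_right_right (isUnit_C.2 (isUnit_iff_ne_zero.2
      (inv_ne_zero (leadingCoeff_ne_zero.2 hn)))) r n).2 hr) hM d B
  exact ⟨P, h1, h2, (Dvd.intro _ rfl).trans h3, h4, h5⟩

end BoomFF
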