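import Pool.Agent.H.MP_4c7af0_al.FF.A3
import Pool.Agent.H.MP_4c7af0_al.FF.A1
import Pool.Agent.H.MP_4c7af0_al.FF.D7b

/-! Boomerang subgroups, function field case (MP_4c7af0_al), step 2: primes attached to a first
column. -/

namespace BoomFF

open BoomNF Polynomial

variable {Fq F : Type*} [Field Fq] [Field F] {io : Fq[X] →+* F} {A : Subring F} {n h : ℕ}

/-- `t^(Q^h - 1) ≡ 1 mod P`, `Q = q^(deg P)`, for large `P`: `FR.frob` for `x = t`, multiplied by the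
unit `1 / t`. -/
theorem FR.unit_frob (hA : FR io A n h) : ∃ B : ℕ, ∀ P : Fq[X], Irreducible P →
    B < P.natDegree → (io X ^ (Nat.card Fq ^ (h * P.natDegree) - 1) - 1) / io P ∈ A := by
  obtain ⟨B, hB⟩ := hA.frob
  refine ⟨B, fun P hP hPB => ?_⟩
  have h1 := hB P hP hPB (io X) (hA.mem X)
  obtain ⟨Q, hQ⟩ : ∃ Q, Q = Nat.card Fq ^ (h * P.natDegree) := ⟨_, rfl⟩
  rw [← hQ] at h1 ⊢
  rcases Nat.eq_zero_or_pos Q with h0 | h0
  · rw [h0]
    simp only [zero_tsub, pow_zero, sub_self, zero_div]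
    exact A.zero_mem
  · have hX : io X ≠ 0 := hA.io_ne X_ne_zero
    have h2 : (io X ^ (Q - 1) - 1) / io P = (io X)⁻¹ * ((io X ^ Q - io X) / io P) := by
      obtain ⟨Q', rfl⟩ : ∃ Q', Q = Q' + 1 := ⟨Q - 1, by omega⟩
      rw [Nat.add_sub_cancel, pow_succ]
      field_simp
    rw [h2]
    exact A.mul_mem hA.tinv h1

/-- Let `(a, N c)` be a first column with `a ≡ 1 mod N²`, `c` good, coprime to `w`, `N² ∣ w`, `a` and `c`
coprime, and `v ∈ 𝔽_q[t]` coprime to `w`, `v ≡ 1 mod N²`. Then there are primes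
`P = a + N y (N c)`, `P ≡ v mod w`, of large degree `≡ d mod M`. Proof: `n₀` from `onto_gen` is coprime
to `w` (`onto_cop`), `a ≡ r₀ mod c` with `r₀` coprime to `n₀` (`onto_rep`). Let `r ≡ r₀ mod n₀` and
`r ≡ v mod w` (Chinese remainder theorem); `r` is coprime to `n₀ w`; take `P` from `dirichlet` for
`(n₀ w, r)`. `P - a` is divisible (in `A`) by `c` and by `N²` (`N² ∣ w`, `w ∣ P - v`, `v ≡ 1`, `a ≡ 1`), and
`c` is coprime to `w`, so to `N²`: `y = (P - a) / (N² c) ∈ A`. -/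
theorem FR.prime_data [Finite Fq] (hA : FR io A n h) {N : Fq[X]} (hN : N ≠ 0) {a c : F}
    (ha : a ∈ A) (ha1 : (a - 1) / io N ^ 2 ∈ A) (hc : c ∈ A) (hc0 : c ≠ 0) (hO : OntoF io A c)
    (hac : Cop A a c) {w v : Fq[X]} (hw : w ≠ 0) (hNw : N ^ 2 ∣ w) (hcw : Cop A c (io w))
    (hvw : IsCoprime v w) (hvN : N ^ 2 ∣ v - 1) {M : ℕ} (hM : 0 < M) (d B : ℕ) :
    ∃ P : Fq[X], Irreducible P ∧ B < P.natDegree ∧ P.natDegree ≡ d [MOD M] ∧ w ∣ P - v ∧
      ∃ y ∈ A, a + io N * y * (io N * c) = io P := by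
  obtain ⟨n₀, hn0, hn⟩ := hA.onto_gen hc0
  have hcop : IsCoprime n₀ w := hA.onto_cop hc0 hO hn hcw
  obtain ⟨r₀, hr₀, hr₀n⟩ := hA.onto_rep ha hc0 hO hn hac
  obtain ⟨x0, y0, hxy0⟩ := hcop
  obtain ⟨r, hr⟩ : ∃ r : Fq[X], r = r₀ * (y0 * w) + v * (x0 * n₀) := ⟨_, rfl⟩
  have hrn : r = r₀ + n₀ * (x0 * (v - r₀)) := by
    rw [hr]
    linear_combination r₀ * hxy0
  have hrw : r = v + w * (y0 * (r₀ - v)) := by
    rw [hr]
    linear_combination v * hxy0
  have hc1 : IsCoprime r n₀ := by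
    rw [hrn]
    exact IsCoprime.add_mul_left_left hr₀n _
  have hc2 : IsCoprime r w := by
    rw [hrw]
    exact IsCoprime.add_mul_left_left hvw _
  obtain ⟨P, -, hPi, hPd, hPB, hPM⟩ :=
    dirichlet (mul_ne_zero hn0 hw) (hc1.mul_right hc2) hM d B
  have hPw : w ∣ P - v := by
    have h1 : w ∣ P - r := (Dvd.intro_left n₀ rfl).trans hPd
    have h2 : P - v = (P - r) + w * (y0 * (r₀ - v)) := by
      rw [hrw]
      ring
    rw [h2]
    exact dvd_add h1 (Dvd.intro _ rfl)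
  have hPn : n₀ ∣ P - r₀ := by
    have h1 : n₀ ∣ P - r := (Dvd.intro w rfl).trans hPd
    have h2 : P - r₀ = (P - r) + n₀ * (x0 * (v - r₀)) := by
      rw [hrn]
      ring
    rw [h2]
    exact dvd_add h1 (Dvd.intro _ rfl)
  have hNF : io N ≠ 0 := hA.io_ne hN
  refine ⟨P, hPi, hPB, hPM, hPw, (io P - a) / (io N ^ 2 * c), ?_, ?_⟩
  · have h1 : (io P - a) / io N ^ 2 ∈ A := by
      have h2 : N ^ 2 ∣ P - 1 := by
        have h3 := dvd_add (hNw.trans hPw) hvN
        have e1 : P - v + (v - 1) = P - 1 := by ring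
        rwa [e1] at h3
      have h4 := hA.io_div (pow_ne_zero 2 hN) h2
      rw [map_sub, map_one, map_pow] at h4
      have e2 : (io P - a) / io N ^ 2 = (io P - 1) / io N ^ 2 - (a - 1) / io N ^ 2 := by ring
      rw [e2]
      exact A.sub_mem h4 ha1
    have h5 : (io P - a) / c ∈ A := by
      have h6 := (hn (P - r₀)).2 hPn
      rw [map_sub] at h6
      have e2 : (io P - a) / c = (io P - io r₀) / c - (a - io r₀) / c := by ring
      rw [e2]
      exact A.sub_mem h6 hr₀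
    obtain ⟨m, hm⟩ := hNw
    obtain ⟨x, hx, y, hy, hxy⟩ := hcw
    rw [hm, map_mul, map_pow] at hxy
    have e3 : (io P - a) / (io N ^ 2 * c) =
        (io P - a) / io N ^ 2 * x + (io P - a) / c * (io m * y) := by
      field_simp
      linear_combination (-(io P - a)) * hxy
    rw [e3]
    exact A.add_mem (A.mul_mem h1 hx) (A.mul_mem h5 (A.mul_mem (hA.mem m) hy))
  · field_simp
    ring

end BoomFF
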