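import Mathlib

/-! Boomerang subgroups, function field case (MP_4c7af0_al), step 2: the ring `𝔽_p[t^m]`. -/

namespace BoomFF

open Polynomial

variable {Fq : Type*} [Field Fq] {p : ℕ} [CharP Fq p] {m : ℕ}

/-- the homomorphism `𝔽_p[Z] → 𝔽_q[X]`, `Z ↦ X^m` -/
noncomputable def phi (Fq : Type*) [Field Fq] (p : ℕ) [CharP Fq p] (m : ℕ) :
    (ZMod p)[X] →+* Fq[X] :=
  eval₂RingHom (C.comp (ZMod.castHom (dvd_refl p) Fq)) (X ^ m)

@[simp] theorem phi_X : phi Fq p m X = X ^ m := by
  rw [phi, coe_eval₂RingHom, eval₂_X]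

@[simp] theorem phi_C (a : ZMod p) : phi Fq p m (C a) = C (ZMod.castHom (dvd_refl p) Fq a) := by
  rw [phi, coe_eval₂RingHom, eval₂_C, RingHom.comp_apply]

/-- `phi b = expand (map b)`; the map `𝔽_p → 𝔽_q` is injective and `expand` is injective for `m > 0`. -/
theorem phi_inj [Fact p.Prime] (hm : 0 < m) : Function.Injective (phi Fq p m) := by
  have h1 : ∀ b : (ZMod p)[X], phi Fq p m b =
      expand Fq m (b.map (ZMod.castHom (dvd_refl p) Fq)) := by
    intro b
    have h2 : phi Fq p m = ((expand Fq m : Fq[X] →ₐ[Fq] Fq[X]) : Fq[X] →+* Fq[X]).comp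
        (mapRingHom (ZMod.castHom (dvd_refl p) Fq)) := by
      refine Polynomial.ringHom_ext (fun a => ?_) ?_
      · simp
      · simp
    rw [h2]
    simp
  intro a b hab
  rw [h1, h1] at hab
  exact map_injective _ (ZMod.castHom (dvd_refl p) Fq).injective (expand_injective hm hab)

theorem phi_ne [Fact p.Prime] (hm : 0 < m) {b : (ZMod p)[X]} (hb : b ≠ 0) : phi Fq p m b ≠ 0 := by
  intro h
  exact hb (phi_inj hm (by rw [h, map_zero]))

/-- every nonzero `f ∈ 𝔽_q[X]` divides some `phi W`, `W ≠ 0`: the quotient `𝔽_q[X] / (f)` is finite, so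
there are `i < j` with `X^(m i) ≡ X^(m j) mod f`; `W = X^j - X^i`. -/
theorem phi_dvd [Finite Fq] [Fact p.Prime] (m : ℕ) {f : Fq[X]} (hf : f ≠ 0) :
    ∃ W : (ZMod p)[X], W ≠ 0 ∧ f ∣ phi Fq p m W := by
  have h1 : Module.Finite Fq (AdjoinRoot f) := (AdjoinRoot.powerBasis hf).finite
  have h2 : Finite (AdjoinRoot f) := Module.finite_of_finite Fq
  obtain ⟨i, j, hij, he⟩ := Finite.exists_ne_map_eq_of_infinite
    (fun i : ℕ => AdjoinRoot.mk f ((X ^ m) ^ i))
  refine ⟨X ^ i - X ^ j, ?_, ?_⟩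
  · intro h0
    have h3 : (X ^ i : (ZMod p)[X]) = X ^ j := sub_eq_zero.1 h0
    have h4 := congrArg natDegree h3
    rw [natDegree_X_pow, natDegree_X_pow] at h4
    exact hij h4
  · rw [map_sub, map_pow, map_pow, phi_X]
    exact AdjoinRoot.mk_eq_mk.1 he

/-- an additive subgroup `I` of a field stable under `io (X^m)` is stable under `io (phi b)`. (Induction
on `b`; constants are natural numbers.) -/
theorem phi_stab {F : Type*} [Field F] (io : Fq[X] →+* F) [NeZero p] (I : AddSubgroup F)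
    (hI : ∀ x ∈ I, io X ^ m * x ∈ I) (b : (ZMod p)[X]) : ∀ x ∈ I, io (phi Fq p m b) * x ∈ I := by
  induction b using Polynomial.induction_on with
  | C a =>
    intro x hx
    have h1 : io (phi Fq p m (C a)) = (a.val : F) := by
      rw [phi_C]
      conv_lhs => rw [← ZMod.natCast_zmod_val a]
      rw [map_natCast, map_natCast, map_natCast]
    rw [h1, ← nsmul_eq_mul]
    exact I.nsmul_mem hx _
  | add f g hf hg =>
    intro x hx
    rw [map_add, map_add, add_mul]
    exact I.add_mem (hf x hx) (hg x hx)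
  | monomial n a ih =>
    intro x hx
    have h1 : io (phi Fq p m (C a * X ^ (n + 1))) * x =
        io (phi Fq p m (C a * X ^ n)) * (io X ^ m * x) := by
      rw [pow_succ, ← mul_assoc, map_mul (phi Fq p m) _ X, phi_X, map_mul io, map_pow io, mul_assoc]
    rw [h1]
    exact ih _ (hI x hx)

/-- an irreducible `μ` not dividing `W` is coprime to `W` after applying `phi` -/
theorem phi_cop [Fact p.Prime] {μ W : (ZMod p)[X]} (hμ : Irreducible μ) (h : ¬ μ ∣ W) :
    IsCoprime (phi Fq p m μ) (phi Fq p m W) := by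
  have h1 : IsCoprime μ W := (Irreducible.coprime_iff_not_dvd hμ).2 h
  exact h1.map (phi Fq p m)

/-- every element of the subring generated by `t^m, t^(-m)` has the form `t^(-m k) io (phi c)` -/
theorem phi_closure {F : Type*} [Field F] (io : Fq[X] →+* F) [NeZero p] (hX : io X ≠ 0) {c : F}
    (hc : c ∈ Subring.closure ({io X ^ m, (io X ^ m)⁻¹} : Set F)) :
    ∃ k : ℕ, ∃ b : (ZMod p)[X], (io X ^ m) ^ k * c = io (phi Fq p m b) := by
  have hT : io X ^ m ≠ 0 := pow_ne_zero _ hX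
  have hXk : ∀ k : ℕ, io (phi Fq p m (X ^ k)) = (io X ^ m) ^ k := fun k => by
    rw [map_pow, phi_X, map_pow, map_pow]
  induction hc using Subring.closure_induction with
  | mem c hc =>
    rcases hc with h | h
    · exact ⟨0, X, by rw [h, pow_zero, one_mul, phi_X, map_pow]⟩
    · rw [Set.mem_singleton_iff] at h
      exact ⟨1, 1, by rw [h, pow_one, mul_inv_cancel₀ hT, map_one, map_one]⟩
  | zero => exact ⟨0, 0, by rw [mul_zero, map_zero, map_zero]⟩
  | one => exact ⟨0, 1, by rw [pow_zero, one_mul, map_one, map_one]⟩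
  | add a b _ _ ha hb =>
    obtain ⟨k1, b1, h1⟩ := ha
    obtain ⟨k2, b2, h2⟩ := hb
    refine ⟨k1 + k2, X ^ k2 * b1 + X ^ k1 * b2, ?_⟩
    rw [map_add, map_mul, map_mul, map_add, map_mul, map_mul, hXk, hXk, ← h1, ← h2]
    ring
  | neg a _ ha =>
    obtain ⟨k1, b1, h1⟩ := ha
    exact ⟨k1, -b1, by rw [map_neg, map_neg, ← h1, mul_neg]⟩
  | mul a b _ _ ha hb =>
    obtain ⟨k1, b1, h1⟩ := ha
    obtain ⟨k2, b2, h2⟩ := hb
    refine ⟨k1 + k2, b1 * b2, ?_⟩
    rw [map_mul, map_mul, ← h1, ← h2]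
    ring

end BoomFF
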