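import Pool.Agent.H.MP_4c7af0_al.NF.S1a

/-! Boomerang subgroups of `SL₂(A)`, function field case (MP_4c7af0_al): definitions.

`A` is the integral closure of `𝔽_q[t, 1/t]` in a finite separable extension `F` of `𝔽_q(t)`. All that
the group theory needs about `A` is collected in the structure `FR`. -/

namespace BoomFF

open BoomNF Polynomial

/-- a subring `A` of a field `F` such that every element of `F` has a denominator in `A` and the
quotients `A / α A` (`α ≠ 0`) are finite -/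
structure GRing {F : Type*} [Field F] (A : Subring F) : Prop where
  den : ∀ x : F, ∃ d ∈ A, d ≠ 0 ∧ d * x ∈ A
  fin : ∀ α ∈ A, α ≠ 0 → ∃ T : Finset F, (∀ t ∈ T, t ∈ A) ∧ ∀ x ∈ A, ∃ t ∈ T, (x - t) / α ∈ A

/-- the composite `𝔽_q[X] → A → A / c A` is onto -/
def OntoF {Fq F : Type*} [Field Fq] [Field F] (io : Fq[X] →+* F) (A : Subring F) (c : F) : Prop :=
  ∀ x ∈ A, ∃ z : Fq[X], (x - io z) / c ∈ A

/-- The properties of the ring `A` used in the group theory. `io : 𝔽_q[X] → F` sends `X` to `t`,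
`q = Nat.card Fq`, `n = [F : 𝔽_q(t)]`, `h = n!`. -/
structure FR {Fq F : Type*} [Field Fq] [Field F] (io : Fq[X] →+* F) (A : Subring F) (n h : ℕ) :
    Prop where
  /-- `t` is transcendental -/
  inj : Function.Injective io
  /-- `𝔽_q[t] ⊆ A` -/
  mem : ∀ f : Fq[X], io f ∈ A
  /-- `1 / t ∈ A` -/
  tinv : (io X)⁻¹ ∈ A
  /-- every nonzero `α ∈ F` divides a nonzero polynomial -/
  dvd : ∀ α : F, α ≠ 0 → ∃ f : Fq[X], f ≠ 0 ∧ io f / α ∈ A
  /-- finite quotients -/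
  fin : ∀ α ∈ A, α ≠ 0 → ∃ T : Finset F, (∀ t ∈ T, t ∈ A) ∧ ∀ x ∈ A, ∃ t ∈ T, (x - t) / α ∈ A
  /-- `A` is a finite module over `𝔽_p[t^m, t^(-m)]` -/
  fg : ∀ m : ℕ, 0 < m → ∃ Ω : Finset F, (∀ ω ∈ Ω, ω ∈ A) ∧
    ∀ x ∈ A, x ∈ Submodule.span (Subring.closure ({io X ^ m, (io X ^ m)⁻¹} : Set F)) (Ω : Set F)
  /-- few maximal ideals over `P` -/
  pig : ∃ B : ℕ, ∀ P : Fq[X], Irreducible P → B < P.natDegree → ∀ a ∈ A, ∀ b ∈ A,
    (∃ x ∈ A, ∃ y ∈ A, ∃ z ∈ A, a * x + b * y + io P * z = 1) →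
      ∃ j : Fq[X], j ≠ 0 ∧ j.natDegree ≤ B ∧ Cop A (a + b * io j) (io P)
  /-- Lemma G -/
  good : ∀ a ∈ A, ∀ b ∈ A, b ≠ 0 → Cop A a b → ∃ t ∈ A, a + b * t ≠ 0 ∧ OntoF io A (a + b * t)
  hpos : 0 < h
  /-- Frobenius: `x^(Q^h) ≡ x mod P`, `Q = q^(deg P)` -/
  frob : ∃ B : ℕ, ∀ P : Fq[X], Irreducible P → B < P.natDegree → ∀ x ∈ A,
    (x ^ (Nat.card Fq ^ (h * P.natDegree)) - x) / io P ∈ A
  /-- torsion of `(A / P A)ˣ` -/
  tors : ∃ B : ℕ, ∀ P : Fq[X], Irreducible P → B < P.natDegree → ∀ k : ℕ, 0 < k →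
    ∀ T : Finset F, (∀ t ∈ T, t ∈ A ∧ (t ^ k - 1) / io P ∈ A) →
      (∀ t ∈ T, ∀ t' ∈ T, (t - t') / io P ∈ A → t = t') → T.card ≤ k ^ n
  /-- finitely many cusps -/
  cusps : ∀ N ∈ A, N ≠ 0 → ∃ S : Finset (SL2 F), ∀ s : SL2 F, ∃ σ ∈ S, ∃ g ∈ GN A N, ∃ b : SL2 F,
    b 1 0 = 0 ∧ s = g * σ * b

variable {Fq F : Type*} [Field Fq] [Field F] {io : Fq[X] →+* F} {A : Subring F} {n h : ℕ}

theorem FR.io_ne (hA : FR io A n h) {f : Fq[X]} (hf : f ≠ 0) : io f ≠ 0 :=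
  fun h0 => hf (hA.inj (by rw [h0, map_zero]))

theorem FR.gring (hA : FR io A n h) : GRing A := by
  refine ⟨fun x => ?_, hA.fin⟩
  by_cases hx : x = 0
  · exact ⟨1, A.one_mem, one_ne_zero, by rw [hx, mul_zero]; exact A.zero_mem⟩
  · obtain ⟨f, hf, h1⟩ := hA.dvd x⁻¹ (inv_ne_zero hx)
    exact ⟨io f, hA.mem f, hA.io_ne hf, by rwa [div_inv_eq_mul] at h1⟩

/-- `t` is a unit of infinite order -/
theorem FR.infUnit (hA : FR io A n h) : InfUnit A (io X) where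
  ne := hA.io_ne X_ne_zero
  mem := hA.mem X
  inv_mem := hA.tinv
  pow_ne := by
    intro k hk h0
    rw [← map_pow, ← map_one io] at h0
    have h1 := hA.inj h0
    have h2 := congrArg natDegree h1
    rw [natDegree_X_pow, natDegree_one] at h2
    omega

/-- divisibility of polynomials gives divisibility in `A` -/
theorem FR.io_div (hA : FR io A n h) {f g : Fq[X]} (hf : f ≠ 0) (hfg : f ∣ g) :
    io g / io f ∈ A := by
  obtain ⟨k, rfl⟩ := hfg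
  rw [map_mul, mul_div_cancel_left₀ _ (hA.io_ne hf)]
  exact hA.mem k

/-- coprime polynomials are coprime in `A` -/
theorem FR.io_cop (hA : FR io A n h) {f g : Fq[X]} (hfg : IsCoprime f g) :
    Cop A (io f) (io g) := by
  obtain ⟨a, b, hab⟩ := hfg
  refine ⟨io a, hA.mem a, io b, hA.mem b, ?_⟩
  rw [← map_mul, ← map_mul, ← map_add, ← map_one io, ← hab]
  congr 1
  ring

end BoomFF
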