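import Pool.Agent.H.MP_4c7af0_al.FF.A7
import Pool.Agent.H.MP_4c7af0_al.FF.F0
import Pool.Agent.H.MP_4c7af0_al.NF.S2d

/-! Boomerang subgroups, function field case (MP_4c7af0_al), step 2: the local statements `L(μ, c)`. -/

namespace BoomFF

open BoomNF Polynomial

variable {Fq F : Type*} [Field Fq] [Field F] {io : Fq[X] →+* F} {A : Subring F} {n h : ℕ}
  {p : ℕ} [CharP Fq p] {m : ℕ}

/-- the hypothesis that all `I_g`, `g ∈ Γ(N²)`, are stable under `t^m` and `t^(-m)` -/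
def Stb (io : Fq[X] →+* F) (A : Subring F) (N : F) (m : ℕ) : Prop :=
  ∀ g ∈ GN A (N ^ 2), ∀ x : F, g * u x * g⁻¹ ∈ E A N →
    g * u (io X ^ m * x) * g⁻¹ ∈ E A N ∧ g * u ((io X ^ m)⁻¹ * x) * g⁻¹ ∈ E A N

/-- `L(μ, c)`: `φ(c) A ⊆ I_g + φ(c μ) A` for all `g ∈ Γ(N²)` -/
def LL (io : Fq[X] →+* F) (A : Subring F) (N : F) (m : ℕ) (μ c : (ZMod p)[X]) : Prop :=
  ∀ g ∈ GN A (N ^ 2), ∀ x ∈ A, ∃ i ∈ A, g * u i * g⁻¹ ∈ E A N ∧ ∃ a ∈ A,
    io (phi Fq p m c) * x = i + io (phi Fq p m (c * μ)) * a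

/-- the subgroup `I_g` -/
def a8_I (A : Subring F) (N : F) (g : SL2 F) : AddSubgroup F where
  carrier := {x | x ∈ A ∧ g * u x * g⁻¹ ∈ E A N}
  add_mem' := by
    rintro a b ⟨ha, ha'⟩ ⟨hb, hb'⟩
    refine ⟨A.add_mem ha hb, ?_⟩
    have h : g * u (a + b) * g⁻¹ = (g * u a * g⁻¹) * (g * u b * g⁻¹) := by
      rw [← u_mul]; group
    rw [h]
    exact (E A N).mul_mem ha' hb'
  zero_mem' := by
    refine ⟨A.zero_mem, ?_⟩
    rw [u_zero]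
    simp [(E A N).one_mem]
  neg_mem' := by
    rintro a ⟨ha, ha'⟩
    refine ⟨A.neg_mem ha, ?_⟩
    have h : g * u (-a) * g⁻¹ = (g * u a * g⁻¹)⁻¹ := by
      rw [← u_inv]; group
    rw [h]
    exact (E A N).inv_mem ha'

/-- `I_g` is stable under `φ(b)`: `phi_stab` for the additive subgroup `s2d_I A N g` (`NF/S2d.lean`;
`{x | x ∈ A ∧ g u(x) g⁻¹ ∈ E A N}`). -/
theorem stb_phi [NeZero p] (hA : FR io A n h) {N : F} (hS : Stb io A N m) {g : SL2 F}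
    (hg : g ∈ GN A (N ^ 2)) {x : F} (hx : x ∈ A) (hx' : g * u x * g⁻¹ ∈ E A N)
    (b : (ZMod p)[X]) : g * u (io (phi Fq p m b) * x) * g⁻¹ ∈ E A N := by
  refine (phi_stab io (a8_I A N g) ?_ b x ⟨hx, hx'⟩).2
  rintro y ⟨hy, hy'⟩
  exact ⟨A.mul_mem (A.pow_mem (hA.mem X) m) hy, (hS g hg y hy').1⟩

/-- `L(μ, c) ⇒ L(μ, c c')`: multiply by `φ(c')` and use `stb_phi`. -/
theorem LL_mul [NeZero p] (hA : FR io A n h) {N : F} (hS : Stb io A N m) {μ c : (ZMod p)[X]}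
    (hL : LL io A N m μ c) (c' : (ZMod p)[X]) : LL io A N m μ (c * c') := by
  intro g hg x hx
  obtain ⟨i, hi, hiE, a, ha, e⟩ := hL g hg x hx
  refine ⟨io (phi Fq p m c') * i, A.mul_mem (hA.mem _) hi, stb_phi hA hS hg hi hiE c', a, ha, ?_⟩
  simp only [map_mul] at e ⊢
  linear_combination io (phi Fq p m c') * e

/-- `L(μ, c) ⇒ L(μ', c)` for associated `μ, μ'` (`φ` of a unit is a unit of `𝔽_q[X]`, so `a` is replaced
by a multiple in `A`). -/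
theorem LL_assoc (hA : FR io A n h) {N : F} {μ μ' c : (ZMod p)[X]} (hL : LL io A N m μ c)
    (hμ : Associated μ μ') : LL io A N m μ' c := by
  obtain ⟨w, rfl⟩ := hμ.symm
  intro g hg x hx
  obtain ⟨i, hi, hiE, a, ha, e⟩ := hL g hg x hx
  refine ⟨i, hi, hiE, io (phi Fq p m (w : (ZMod p)[X])) * a, A.mul_mem (hA.mem _) ha, ?_⟩
  rw [e]
  simp only [map_mul]
  ring

/-- `L(μ, 1)` for `μ` dividing a power of `X` (`φ(μ)` is a unit of `A`: `φ(μ)` divides a power of `X` in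
`𝔽_q[X]`, and `1 / io X ∈ A`): take `i = 0`, `a = x / φ(μ)`. -/
theorem LL_unit (hA : FR io A n h) {N : F} {μ : (ZMod p)[X]} (hμ : μ ∣ X) : LL io A N m μ 1 := by
  obtain ⟨ν, hν⟩ := hμ
  intro g _ x hx
  have h1 : io (phi Fq p m μ) * io (phi Fq p m ν) = io X ^ m := by
    rw [← map_mul, ← map_mul, ← hν, phi_X, map_pow]
  have h2 : io X ≠ 0 := hA.io_ne X_ne_zero
  refine ⟨0, A.zero_mem, (a8_I A N g).zero_mem.2, io (phi Fq p m ν) * ((io X)⁻¹ ^ m * x),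
    A.mul_mem (hA.mem _) (A.mul_mem (A.pow_mem hA.tinv m) hx), ?_⟩
  rw [map_one, map_one, one_mul, zero_add, one_mul, ← mul_assoc, h1, ← mul_assoc, ← mul_pow,
    mul_inv_cancel₀ h2, one_pow, one_mul]

/-- If all irreducible `μ ∤ W`, `W ≠ 0`, satisfy `L(μ, 1)` and every irreducible `μ` satisfies `L(μ, c)`
for some `c ≠ 0`, then there is one `c₀ ≠ 0` with `L(μ, c₀)` for all irreducible `μ`. Proof: by
induction on the factorisation of `W` (`WfDvdMonoid.induction_on_irreducible`) there is `c₀ ≠ 0` with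
`L(μ, c₀)` for all irreducible `μ ∣ W` (step `W = π W'`: an irreducible `μ ∣ π W'` is associated to `π` or
divides `W'`; `c₀ = c_π c_{W'}`, `LL_mul`, `LL_assoc`); for `μ ∤ W` use `LL_mul` from `L(μ, 1)`. -/
theorem LL_all [Fact p.Prime] (hA : FR io A n h) {N : F} (hS : Stb io A N m) {W : (ZMod p)[X]}
    (hW : W ≠ 0) (h1 : ∀ μ : (ZMod p)[X], Irreducible μ → ¬ μ ∣ W → LL io A N m μ 1)
    (h2 : ∀ μ : (ZMod p)[X], Irreducible μ → ∃ c : (ZMod p)[X], c ≠ 0 ∧ LL io A N m μ c) :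
    ∃ c₀ : (ZMod p)[X], c₀ ≠ 0 ∧ ∀ μ : (ZMod p)[X], Irreducible μ → LL io A N m μ c₀ := by
  have key : W ≠ 0 → ∃ c₀ : (ZMod p)[X], c₀ ≠ 0 ∧ ∀ μ : (ZMod p)[X], Irreducible μ → μ ∣ W →
      LL io A N m μ c₀ := by
    clear h1 hW
    induction W using WfDvdMonoid.induction_on_irreducible with
    | zero => exact fun h0 => absurd rfl h0
    | unit w hw => exact fun _ => ⟨1, one_ne_zero, fun μ hμ hd =>
        absurd (isUnit_of_dvd_unit hd hw) hμ.not_isUnit⟩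
    | mul a i ha hi ih =>
      intro _
      obtain ⟨c₁, hc₁, h3⟩ := ih ha
      obtain ⟨c₂, hc₂, h4⟩ := h2 i hi
      refine ⟨c₁ * c₂, mul_ne_zero hc₁ hc₂, fun μ hμ hd => ?_⟩
      rcases hμ.prime.dvd_or_dvd hd with h5 | h5
      · have h6 := LL_mul hA hS (LL_assoc hA h4 (hμ.associated_of_dvd hi h5).symm) c₁
        rwa [mul_comm] at h6
      · exact LL_mul hA hS (h3 μ hμ h5) c₂
  obtain ⟨c₀, hc₀, h3⟩ := key hW
  refine ⟨c₀, hc₀, fun μ hμ => ?_⟩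
  by_cases hd : μ ∣ W
  · exact h3 μ hμ hd
  · have h4 := LL_mul hA hS (h1 μ hμ hd) c₀
    rwa [one_mul] at h4

/-- If `L(μ, c₀)` for all irreducible `μ` and for every `g ∈ Γ(N²)` there is `ρ ≠ 0` with
`φ(ρ) A ⊆ I_g`, then `φ(c₀) A ⊆ I_g`. Proof: by induction on the factorisation of `ρ ≠ 0`:
`φ(c₀) A ⊆ I_g + φ(c₀ ρ) A` (step `ρ = μ ρ'`: `φ(c₀) x = i + φ(c₀ ρ') a`,
`φ(c₀) a = i' + φ(c₀ μ) a'`, so `φ(c₀) x = (i + φ(ρ') i') + φ(c₀ ρ' μ) a'`, `stb_phi`). For the `ρ` of the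
hypothesis `φ(c₀ ρ) a = φ(ρ) (φ(c₀) a) ∈ I_g`. -/
theorem LL_final [Fact p.Prime] (hA : FR io A n h) {N : F} (hS : Stb io A N m)
    {c₀ : (ZMod p)[X]} (h0 : ∀ μ : (ZMod p)[X], Irreducible μ → LL io A N m μ c₀)
    {g : SL2 F} (hg : g ∈ GN A (N ^ 2))
    (hρ : ∃ ρ : (ZMod p)[X], ρ ≠ 0 ∧ ∀ x ∈ A, g * u (io (phi Fq p m ρ) * x) * g⁻¹ ∈ E A N) :
    ∀ x ∈ A, g * u (io (phi Fq p m c₀) * x) * g⁻¹ ∈ E A N := by
  obtain ⟨ρ, hρ0, hρ1⟩ := hρ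
  have key : ρ ≠ 0 → ∀ x ∈ A, ∃ i ∈ A, g * u i * g⁻¹ ∈ E A N ∧ ∃ a ∈ A,
      io (phi Fq p m c₀) * x = i + io (phi Fq p m (c₀ * ρ)) * a := by
    clear hρ1 hρ0
    induction ρ using WfDvdMonoid.induction_on_irreducible with
    | zero => exact fun h0 => absurd rfl h0
    | unit w hw =>
      intro _ x hx
      obtain ⟨w', rfl⟩ := hw
      refine ⟨0, A.zero_mem, (a8_I A N g).zero_mem.2,
        io (phi Fq p m ((w'⁻¹ : ((ZMod p)[X])ˣ) : (ZMod p)[X])) * x, A.mul_mem (hA.mem _) hx, ?_⟩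
      rw [zero_add, ← mul_assoc, ← map_mul, ← map_mul, mul_assoc, Units.mul_inv, mul_one]
    | mul a i ha hi ih =>
      intro _ x hx
      obtain ⟨i₁, hi₁, hE₁, a₁, ha₁, e₁⟩ := ih ha x hx
      obtain ⟨i₂, hi₂, hE₂, a₂, ha₂, e₂⟩ := h0 i hi g hg a₁ ha₁
      have h3 := stb_phi hA hS hg hi₂ hE₂ a
      have h4 := (a8_I A N g).add_mem ⟨hi₁, hE₁⟩
        ⟨A.mul_mem (hA.mem (phi Fq p m a)) hi₂, h3⟩
      refine ⟨i₁ + io (phi Fq p m a) * i₂, h4.1, h4.2, a₂, ha₂, ?_⟩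
      simp only [map_mul] at e₁ e₂ ⊢
      linear_combination e₁ + io (phi Fq p m a) * e₂
  intro x hx
  obtain ⟨i, hi, hiE, a, ha, e⟩ := key hρ0 x hx
  have h3 := hρ1 (io (phi Fq p m c₀) * a) (A.mul_mem (hA.mem _) ha)
  have h4 := (a8_I A N g).add_mem ⟨hi, hiE⟩
    ⟨A.mul_mem (hA.mem (phi Fq p m ρ)) (A.mul_mem (hA.mem (phi Fq p m c₀)) ha), h3⟩
  have h5 : i + io (phi Fq p m ρ) * (io (phi Fq p m c₀) * a) = io (phi Fq p m c₀) * x := by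
    simp only [map_mul] at e ⊢
    linear_combination -e
  rw [h5] at h4
  exact h4.2

end BoomFF
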