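import Pool.Agent.H.MP_4c7af0_al.FF.A8

/-! Boomerang subgroups, function field case (MP_4c7af0_al), step 2: `L(μ, c)` for every irreducible `μ`. -/

namespace BoomFF

open BoomNF Polynomial

variable {Fq F : Type*} [Field Fq] [Field F] {io : Fq[X] →+* F} {A : Subring F} {n h : ℕ}
  {p : ℕ} [CharP Fq p] {m : ℕ}

/-- The conclusion of STAR (`FR.star` in `A6.lean`) as a hypothesis, with `m = 2 K₀ (q^h - 1)` -/
def Star (io : Fq[X] →+* F) (A : Subring F) (N : Fq[X]) (m : ℕ) : Prop :=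
  ∀ l l₀ : Fq[X], l ≠ 0 → l₀ ≠ 0 → IsCoprime (1 + N ^ 2 * l₀) l →
    ∃ κ ∈ A, (∃ x ∈ A, ∃ y ∈ A, io X ^ m - 1 = κ * x + io l * y) ∧
      ∀ g ∈ GN A (io N ^ 2), ∀ ν ∈ A, Cop A ν (io l) →
        ∃ Y ∈ A, g * u Y * g⁻¹ ∈ E A (io N) ∧
          (ν * (1 + io N ^ 2 * io l₀) * Y + io N * io l₀ * κ ^ 2) / io l ∈ A

theorem a9_inv {ψ s : F} (hψ : ψ ∈ A) (hs : s ∈ A) (j : ℕ) :
    ∃ ν ∈ A, ∃ r ∈ A, ν * (1 + ψ * s) = 1 - ψ ^ j * r := by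
  refine ⟨∑ i ∈ Finset.range j, (-(ψ * s)) ^ i,
    A.sum_mem fun i _ => A.pow_mem (A.neg_mem (A.mul_mem hψ hs)) i, (-s) ^ j,
    A.pow_mem (A.neg_mem hs) j, ?_⟩
  have h1 := mul_neg_geom_sum (-(ψ * s)) j
  have h2 : (-(ψ * s)) ^ j = ψ ^ j * (-s) ^ j := by
    rw [← mul_pow]
    congr 1
    ring
  rw [h2] at h1
  rw [← h1]
  ring

theorem a9_sub {g : SL2 F} {N Y Y' : F} (h : g * u Y * g⁻¹ ∈ E A N)
    (h' : g * u Y' * g⁻¹ ∈ E A N) : g * u (Y - Y') * g⁻¹ ∈ E A N := by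
  have e : g * u (Y - Y') * g⁻¹ = (g * u Y * g⁻¹) * (g * u Y' * g⁻¹)⁻¹ := by
    rw [sub_eq_add_neg, ← u_mul, ← u_inv]
    group
  rw [e]
  exact (E A N).mul_mem h ((E A N).inv_mem h')

/-- One application of STAR for `l = ψ^j`, `l₀ = ψ`: for every `z ∈ A` the element
`N ψ² κ² z` is in `I_g + ψ^j A`. Proof: let `ν'` be an inverse of `1 + N² ψ` mod `ψ^j` and `ν` an inverse of
`(1 + N² ψ) (1 + ψ z)` mod `ψ^j` (elements `1 + ψ s` are invertible modulo `ψ^j` by the geometric series,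
compare `SRing.loc_p` in `NF/S2c.lean`). STAR for `ν` gives `Y` with `Y ≡ -(1 + ψ z) N ψ κ² mod ψ^j`, STAR for
`ν'` gives `Y'` with `Y' ≡ -N ψ κ² mod ψ^j`; the difference `Y' - Y ∈ I_g` (an additive group) is
`≡ N ψ² κ² z mod ψ^j`. -/
theorem star_diff {N ψ κ : F} (hN : N ∈ A) (hψ : ψ ∈ A) (hψ0 : ψ ≠ 0) (hκ : κ ∈ A) {j : ℕ}
    {g : SL2 F}
    (hst : ∀ ν ∈ A, Cop A ν (ψ ^ j) → ∃ Y ∈ A, g * u Y * g⁻¹ ∈ E A N ∧
      (ν * (1 + N ^ 2 * ψ) * Y + N * ψ * κ ^ 2) / ψ ^ j ∈ A) {z : F} (hz : z ∈ A) :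
    ∃ i ∈ A, g * u i * g⁻¹ ∈ E A N ∧ (N * ψ ^ 2 * κ ^ 2 * z - i) / ψ ^ j ∈ A := by
  have _ := hκ
  have hN2 : N ^ 2 ∈ A := A.pow_mem hN 2
  have hψj : ψ ^ j ≠ 0 := pow_ne_zero j hψ0
  have hs : N ^ 2 + z + N ^ 2 * ψ * z ∈ A :=
    A.add_mem (A.add_mem hN2 hz) (A.mul_mem (A.mul_mem hN2 hψ) hz)
  obtain ⟨ν', hν', r', hr', e'⟩ := a9_inv hψ hN2 j
  obtain ⟨ν, hν, r, hr, e⟩ := a9_inv hψ hs j
  have h1z : 1 + ψ * z ∈ A := A.add_mem A.one_mem (A.mul_mem hψ hz)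
  obtain ⟨Y', hY', hg', hw'⟩ := hst ν' hν'
    ⟨1 + ψ * N ^ 2, A.add_mem A.one_mem (A.mul_mem hψ hN2), r', hr', by rw [e']; ring⟩
  obtain ⟨Y, hY, hgY, hw⟩ := hst ν hν
    ⟨1 + ψ * (N ^ 2 + z + N ^ 2 * ψ * z), A.add_mem A.one_mem (A.mul_mem hψ hs), r, hr,
      by rw [e]; ring⟩
  refine ⟨Y' - Y, A.sub_mem hY' hY, a9_sub hg' hgY, ?_⟩
  set w' : F := (ν' * (1 + N ^ 2 * ψ) * Y' + N * ψ * κ ^ 2) / ψ ^ j with hw'd
  set w : F := (ν * (1 + N ^ 2 * ψ) * Y + N * ψ * κ ^ 2) / ψ ^ j with hwd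
  have ew' : ν' * (1 + N ^ 2 * ψ) * Y' + N * ψ * κ ^ 2 = w' * ψ ^ j := by
    rw [hw'd, div_mul_cancel₀ _ hψj]
  have ew : ν * (1 + N ^ 2 * ψ) * Y + N * ψ * κ ^ 2 = w * ψ ^ j := by
    rw [hwd, div_mul_cancel₀ _ hψj]
  have key : (N * ψ ^ 2 * κ ^ 2 * z - (Y' - Y)) / ψ ^ j =
      r * Y + w * (1 + ψ * z) - r' * Y' - w' := by
    rw [div_eq_iff hψj]
    linear_combination Y' * e' - ew' - Y * e + (1 + ψ * z) * ew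
  rw [key]
  exact A.sub_mem (A.sub_mem (A.add_mem (A.mul_mem hr hY) (A.mul_mem hw h1z)) (A.mul_mem hr' hY'))
    hw'

/-- `L(μ, c)` holds for some `c ≠ 0`. Proof: if `μ ∣ X` use `LL_unit`. (This case need not be separated.)
Let `ψ = φ(μ)`, `N' ≠ 0` in `𝔽_p[Z]` with `N ∣ φ(N')` (`phi_dvd`), `φ(N') = N κ'`, and
`T = N' (Z - 1)² ≠ 0`, so `φ(T) = N κ' τ²` with `τ = t^m - 1`. Let `T = μ^V T'` with `μ ∤ T'`, `j = V + 3`,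
STAR for `l = ψ^j`, `l₀ = ψ` (`1 + N² ψ` is coprime to `ψ^j`): `τ = κ x₁ + ψ^j y₁`, so
`τ² = κ² x₁² + ψ^j y₂`. Let `s' T' + m' μ = 1` in `𝔽_p[Z]`. For `x ∈ A` take `z = x₁² κ' φ(s') x` in `star_diff`:
`N ψ² κ² z = N ψ² κ' φ(s') x (τ² - ψ^j y₂) ≡ ψ² φ(T) φ(s') x = ψ^(V + 2) φ(T' s') x
= ψ^(V + 2) (1 - φ(m') ψ) x mod ψ^j`, so `ψ^(V + 2) x ∈ I_g + ψ^(V + 3) A`. So `c = μ^(V + 2)`. -/
theorem LL_ex [Finite Fq] [Fact p.Prime] (hA : FR io A n h) {N : Fq[X]} (hN : N ≠ 0) (hm : 0 < m)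
    (hst : Star io A N m) {μ : (ZMod p)[X]} (hμ : Irreducible μ) :
    ∃ c : (ZMod p)[X], c ≠ 0 ∧ LL io A (io N) m μ c := by
  obtain ⟨W, hW, hNW⟩ := phi_dvd (p := p) m hN
  set κ' : F := io (phi Fq p m W) / io N with hκ'd
  have hκ' : κ' ∈ A := hA.io_div hN hNW
  have hN0 : io N ≠ 0 := hA.io_ne hN
  have eW : io (phi Fq p m W) = io N * κ' := by
    rw [hκ'd, mul_div_cancel₀ _ hN0]
  have hX1 : (X - 1 : (ZMod p)[X]) ≠ 0 := X_sub_C_ne_zero (1 : ZMod p)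
  have hT : W * (X - 1) ^ 2 ≠ 0 := mul_ne_zero hW (pow_ne_zero 2 hX1)
  obtain ⟨T', hT', hμT⟩ := (FiniteMultiplicity.of_not_isUnit hμ.not_isUnit
    hT).exists_eq_pow_mul_and_not_dvd
  set V : ℕ := multiplicity μ (W * (X - 1) ^ 2) with hV
  obtain ⟨m', s', hsm⟩ := (Irreducible.coprime_iff_not_dvd hμ).2 hμT
  have hφμ : phi Fq p m μ ≠ 0 := phi_ne hm hμ.ne_zero
  obtain ⟨κ, hκ, ⟨x1, hx1, y1, hy1, eτ⟩, hst'⟩ := hst (phi Fq p m μ ^ (V + 3)) (phi Fq p m μ)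
    (pow_ne_zero _ hφμ) hφμ (IsCoprime.pow_right ⟨1, -N ^ 2, by ring⟩)
  set ψ : F := io (phi Fq p m μ) with hψd
  have hψ : ψ ∈ A := hA.mem _
  have hψ0 : ψ ≠ 0 := hA.io_ne hφμ
  rw [map_pow, ← hψd] at eτ
  rw [map_pow, ← hψd] at hst'
  have eT : io N * κ' * (io X ^ m - 1) ^ 2 = ψ ^ V * io (phi Fq p m T') := by
    have h := congrArg (fun q => io (phi Fq p m q)) hT'
    simp only [map_mul, map_pow, map_sub, map_one, phi_X] at h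
    rw [← eW, hψd]
    exact h
  have hsm' : io (phi Fq p m m') * ψ + io (phi Fq p m s') * io (phi Fq p m T') = 1 := by
    rw [hψd, ← map_mul, ← map_mul, ← map_mul, ← map_mul, ← map_add, ← map_add, hsm, map_one,
      map_one]
  refine ⟨μ ^ (V + 2), pow_ne_zero _ hμ.ne_zero, ?_⟩
  intro g hg x hx
  have hs' : io (phi Fq p m s') ∈ A := hA.mem _
  have hm' : io (phi Fq p m m') ∈ A := hA.mem _
  have hNA : io N ∈ A := hA.mem N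
  have h2A : (2 : F) ∈ A := by exact_mod_cast natCast_mem A 2
  obtain ⟨i, hi, hgi, hw⟩ := star_diff hNA hψ hψ0 hκ (hst' g hg)
    (z := x1 ^ 2 * κ' * io (phi Fq p m s') * x)
    (A.mul_mem (A.mul_mem (A.mul_mem (A.pow_mem hx1 2) hκ') hs') hx)
  set y2 : F := 2 * κ * x1 * y1 + ψ ^ (V + 3) * y1 ^ 2 with hy2d
  have hy2 : y2 ∈ A := A.add_mem (A.mul_mem (A.mul_mem (A.mul_mem h2A hκ) hx1) hy1)
    (A.mul_mem (A.pow_mem hψ _) (A.pow_mem hy1 2))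
  have eτ2 : (io X ^ m - 1) ^ 2 = κ ^ 2 * x1 ^ 2 + ψ ^ (V + 3) * y2 := by
    rw [eτ, hy2d]
    ring
  set w : F := (io N * ψ ^ 2 * κ ^ 2 * (x1 ^ 2 * κ' * io (phi Fq p m s') * x) - i) / ψ ^ (V + 3)
    with hwd
  have ew : io N * ψ ^ 2 * κ ^ 2 * (x1 ^ 2 * κ' * io (phi Fq p m s') * x) - i =
      w * ψ ^ (V + 3) := by
    rw [hwd, div_mul_cancel₀ _ (pow_ne_zero _ hψ0)]
  refine ⟨i, hi, hgi, w + io (phi Fq p m m') * x +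
    io N * ψ ^ 2 * κ' * io (phi Fq p m s') * x * y2, ?_, ?_⟩
  · exact A.add_mem (A.add_mem hw (A.mul_mem hm' hx)) (A.mul_mem (A.mul_mem (A.mul_mem
      (A.mul_mem (A.mul_mem hNA (A.pow_mem hψ 2)) hκ') hs') hx) hy2)
  · rw [map_mul, map_mul, map_pow, map_pow, ← hψd]
    linear_combination ew + ψ ^ 2 * io (phi Fq p m s') * x * io N * κ' * eτ2
      - ψ ^ 2 * io (phi Fq p m s') * x * eT - ψ ^ (V + 2) * x * hsm'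

end BoomFF
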