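import Pool.Agent.H.MP_4c7af0_al.FF.A11
import Pool.Agent.H.MP_4c7af0_al.FF.G5
import Pool.Agent.H.MP_4c7af0_al.NF.S3

/-! Boomerang subgroups, function field case (MP_4c7af0_al), step 3: `D` contains all unipotents of a
congruence subgroup. -/

namespace BoomFF

open BoomNF Polynomial

variable {Fq F : Type*} [Field Fq] [Field F] {io : Fq[X] →+* F} {A : Subring F} {n h : ℕ}

/-- `Rg` (the subgroup generated by the `Γ(N²)`-conjugates of `u(c₀ A)`, `NF/S3a.lean`) is normalised by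
`Γ(N²)`. Template: `Rg_conj` in `NF/S3a.lean`. -/
theorem RgF_conj {N c₀ : F} {γ δ : SL2 F} (hγ : γ ∈ GN A (N ^ 2)) (hδ : δ ∈ Rg A N c₀) :
    γ * δ * γ⁻¹ ∈ Rg A N c₀ := by
  induction hδ using Subgroup.closure_induction with
  | mem x hx =>
    obtain ⟨g, hg, x, hx, rfl⟩ := hx
    apply Subgroup.subset_closure
    exact ⟨γ * g, (GN A (N ^ 2)).mul_mem hγ hg, x, hx, by group⟩
  | one => simp
  | mul x y _ _ hx hy =>
    have : γ * (x * y) * γ⁻¹ = (γ * x * γ⁻¹) * (γ * y * γ⁻¹) := by group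
    rw [this]; exact (Rg A N c₀).mul_mem hx hy
  | inv x _ hx =>
    have : γ * x⁻¹ * γ⁻¹ = (γ * x * γ⁻¹)⁻¹ := by group
    rw [this]; exact (Rg A N c₀).inv_mem hx

/-- `Rg` is a non-central subgroup of `SL₂(A)` with recurrence. Template: `SRing.Rg_props` in
`NF/S3a.lean`; `exists_pow_memF` and `GRing.GN_relIndex` in `G1.lean`. -/
theorem GRing.Rg_props (hA : GRing A) {N c₀ : F} (hN : N ∈ A) (hN0 : N ≠ 0) (hc : c₀ ∈ A)
    (hc0 : c₀ ≠ 0) : Rg A N c₀ ≤ G A ∧ Rec (G A) (Rg A N c₀) ∧ NonCentral (Rg A N c₀) := by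
  refine ⟨?_, ?_, ?_⟩
  · rw [Rg, Subgroup.closure_le]
    rintro h ⟨g, hg, x, hx, rfl⟩
    have hg' := GN_le hg
    exact (G A).mul_mem ((G A).mul_mem hg' (u_mem_G (A.mul_mem hc hx))) ((G A).inv_mem hg')
  · intro γ hγ δ hδ n₀
    obtain ⟨j, hj, hjK⟩ := exists_pow_memF
      (hA.GN_relIndex (A.pow_mem hN 2) (pow_ne_zero 2 hN0)) hγ
    refine ⟨j * n₀, Nat.le_mul_of_pos_left n₀ hj, ?_⟩
    rw [pow_mul]
    exact RgF_conj ((GN A (N ^ 2)).pow_mem hjK n₀) hδ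
  · refine ⟨u c₀, ?_, ?_⟩
    · apply Subgroup.subset_closure
      exact ⟨1, (GN A (N ^ 2)).one_mem, 1, A.one_mem, by simp⟩
    · rintro ⟨h, -, -⟩
      rw [u_01] at h
      exact hc0 h

theorem b1_div {F : Type*} [Field F] {A : Subring F} {t : SL2 F} {ξ c N m : F}
    (hc : c ≠ 0) (hN : N ≠ 0) (hmA : m ∈ A) (hdiv : N = c * m) (hg : t * u ξ * t⁻¹ ∈ GN A N) :
    t * u (ξ / c) * t⁻¹ ∈ G A := by
  have hm : m ≠ 0 := by
    intro h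
    rw [h, mul_zero] at hdiv
    exact hN hdiv
  rw [conj_u] at hg ⊢
  obtain ⟨-, h0, h1, h2, h3⟩ := hg
  rw [U_00] at h0
  rw [U_01] at h1
  rw [U_10] at h2
  rw [U_11] at h3
  apply mem_G4
  · rw [U_00]
    have e : 1 - t 0 0 * t 1 0 * (ξ / c) = 1 + m * ((1 - t 0 0 * t 1 0 * ξ - 1) / N) := by
      rw [hdiv]; field_simp; ring
    rw [e]
    exact A.add_mem A.one_mem (A.mul_mem hmA h0)
  · rw [U_01]
    have e : t 0 0 ^ 2 * (ξ / c) = m * (t 0 0 ^ 2 * ξ / N) := by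
      rw [hdiv]; field_simp
    rw [e]
    exact A.mul_mem hmA h1
  · rw [U_10]
    have e : -(t 1 0 ^ 2 * (ξ / c)) = m * (-(t 1 0 ^ 2 * ξ) / N) := by
      rw [hdiv]; field_simp
    rw [e]
    exact A.mul_mem hmA h2
  · rw [U_11]
    have e : 1 + t 0 0 * t 1 0 * (ξ / c) = 1 + m * ((1 + t 0 0 * t 1 0 * ξ - 1) / N) := by
      rw [hdiv]; field_simp; ring
    rw [e]
    exact A.add_mem A.one_mem (A.mul_mem hmA h3)

/-- If `R ≤ SL₂(A)` is normalised by `Γ(L)` and for every `s ∈ SL₂(F)` there is `N_s ≠ 0` with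
`s u(x) s⁻¹ ∈ SL₂(A) ⇒ s u(N_s x) s⁻¹ ∈ R`, then `E*(N) ≤ R` for some `N ≠ 0` divisible by `M`. Template:
`s3_div` and `SRing.Es_le_of` in `NF/S3.lean` (`FR.cusps`; `N = M ∏_{σ ∈ S} N_σ`). -/
theorem FR.Es_le_of (hA : FR io A n h) {L : F} (hL : L ∈ A) (hL0 : L ≠ 0) {R : Subgroup (SL2 F)}
    (hR : ∀ γ ∈ GN A L, ∀ δ ∈ R, γ * δ * γ⁻¹ ∈ R)
    (hs : ∀ s : SL2 F, ∃ N : Fq[X], N ≠ 0 ∧ ∀ x : F, s * u x * s⁻¹ ∈ G A →
      s * u (io N * x) * s⁻¹ ∈ R) {M : Fq[X]} (hM : M ≠ 0) :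
    ∃ N : Fq[X], N ≠ 0 ∧ M ∣ N ∧ Es A (io N) ≤ R := by
  classical
  obtain ⟨S, hS⟩ := hA.cusps L hL hL0
  choose c hc0 hc using hs
  have hpos : ∏ σ ∈ S, c σ ≠ 0 := Finset.prod_ne_zero_iff.2 fun σ _ => hc0 σ
  refine ⟨M * ∏ σ ∈ S, c σ, mul_ne_zero hM hpos, Dvd.intro _ rfl, ?_⟩
  rw [Es, Subgroup.closure_le]
  rintro g ⟨hg, htr⟩
  obtain ⟨s, x, rfl⟩ := unip_form htr
  obtain ⟨σ, hσ, h, hh, b, hb, rfl⟩ := hS s
  set t : SL2 F := h * σ with ht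
  set ξ : F := (b 0 0) ^ 2 * x with hξ
  have e1 : t * b * u x * (t * b)⁻¹ = t * u ξ * t⁻¹ := by
    have e2 := s3_conj_tri hb x
    calc t * b * u x * (t * b)⁻¹ = t * (b * u x * b⁻¹) * t⁻¹ := by group
      _ = t * u ξ * t⁻¹ := by rw [e2]
  rw [e1] at hg ⊢
  have hcσ : io (c σ) ≠ 0 := hA.io_ne (hc0 σ)
  have hN0 : io (M * ∏ σ ∈ S, c σ) ≠ 0 := hA.io_ne (mul_ne_zero hM hpos)
  have hdiv : io (M * ∏ σ ∈ S, c σ) = io (c σ) * io (M * ∏ τ ∈ S.erase σ, c τ) := by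
    rw [← Finset.mul_prod_erase _ _ hσ, ← map_mul]
    congr 1
    ring
  have hG : t * u (ξ / io (c σ)) * t⁻¹ ∈ G A := b1_div hcσ hN0 (hA.mem _) hdiv hg
  have hG' : σ * u (ξ / io (c σ)) * σ⁻¹ ∈ G A := by
    have hh' := GN_le hh
    have e3 : σ * u (ξ / io (c σ)) * σ⁻¹ = h⁻¹ * (t * u (ξ / io (c σ)) * t⁻¹) * h := by
      rw [ht]; group
    rw [e3]
    exact (G A).mul_mem ((G A).mul_mem ((G A).inv_mem hh') hG) hh'
  have h4 := hc σ _ hG'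
  have e4 : io (c σ) * (ξ / io (c σ)) = ξ := by field_simp
  rw [e4] at h4
  have h5 := hR h hh _ h4
  have e5 : h * (σ * u ξ * σ⁻¹) * h⁻¹ = t * u ξ * t⁻¹ := by rw [ht]; group
  rw [e5] at h5
  exact h5

/-- Step 3. Template: `SRing.step3` in `NF/S3.lean`. By `step1` for `s = 1` and `s = wy`: `E A (io N₁) ≤ D`
for some `N₁ ≠ 0`. `step2` gives `c₀` with `Rg A (io N₁) (io c₀) ≤ E A (io N₁) ≤ D`; `Rg_props` and `step1` for
`Rg`; `Es_le_of`. -/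
theorem FR.step3 [Finite Fq] (hA : FR io A n h) {D : Subgroup (SL2 F)}
    (hD : D ≤ G A) (hrec : Rec (G A) D) (hnc : NonCentral D) :
    ∃ N : Fq[X], N ≠ 0 ∧ Es A (io N) ≤ D := by
  obtain ⟨c₁, hc₁, h₁⟩ := hA.step1 hD hrec hnc 1
  obtain ⟨c₂, hc₂, h₂⟩ := hA.step1 hD hrec hnc wy
  obtain ⟨N₁, hN₁⟩ : ∃ N₁ : Fq[X], N₁ = c₁ * c₂ := ⟨_, rfl⟩
  have hN₁ne : N₁ ≠ 0 := hN₁ ▸ mul_ne_zero hc₁ hc₂
  have hED : E A (io N₁) ≤ D := by
    rw [E, Subgroup.closure_le]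
    rintro g (⟨x, hx, rfl⟩ | ⟨x, hx, rfl⟩)
    · have h3 := h₁ (io c₂ * x) (by
        rw [one_mul, inv_one, mul_one]
        exact u_mem_G (A.mul_mem (hA.mem _) hx))
      have e1 : io c₁ * (io c₂ * x) = io N₁ * x := by
        rw [hN₁, map_mul, mul_assoc]
      rw [e1, one_mul, inv_one, mul_one] at h3
      exact h3
    · have h3 := h₂ (-(io c₁ * x)) (by
        rw [wy_conj_u, neg_neg]
        exact v_mem_G (A.mul_mem (hA.mem _) hx))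
      have e1 : io c₂ * (-(io c₁ * x)) = -(io N₁ * x) := by
        rw [hN₁, map_mul]; ring
      rw [e1, wy_conj_u, neg_neg] at h3
      exact h3
  obtain ⟨c₀, hc₀, h4⟩ := hA.step2 hN₁ne
  have hRE : Rg A (io N₁) (io c₀) ≤ E A (io N₁) := by
    rw [Rg, Subgroup.closure_le]
    rintro g ⟨γ, hγ, x, hx, rfl⟩
    exact h4 γ hγ x hx
  have hN₁0 : io N₁ ≠ 0 := hA.io_ne hN₁ne
  have hc₀0 : io c₀ ≠ 0 := hA.io_ne hc₀
  obtain ⟨hRG, hRrec, hRnc⟩ := hA.gring.Rg_props (hA.mem N₁) hN₁0 (hA.mem c₀) hc₀0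
  obtain ⟨N, hN, -, h5⟩ := hA.Es_le_of (A.pow_mem (hA.mem N₁) 2) (pow_ne_zero 2 hN₁0)
    (fun γ hγ δ hδ => RgF_conj hγ hδ) (fun s => hA.step1 hRG hRrec hRnc s)
    (one_ne_zero (α := Fq[X]))
  exact ⟨N, hN, h5.trans (hRE.trans hED)⟩

end BoomFF
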