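import Pool.Agent.H.MP_4c7af0_al.FF.A4
import Pool.Agent.H.MP_4c7af0_al.NF.S4a
import Pool.Agent.H.MP_4c7af0_al.NF.S4b

/-! Boomerang subgroups, function field case (MP_4c7af0_al), step 4: `Γ(N) = Γ(L) E*(N)` and the torus. -/

namespace BoomFF

open BoomNF Polynomial

variable {Fq F : Type*} [Field Fq] [Field F] {io : Fq[X] →+* F} {A : Subring F} {n h : ℕ}

/-- Template: `SRing.deep` in `NF/S4a.lean` (with `GRing.coprime_lift` of `G1.lean`). -/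
theorem GRing.deep (hA : GRing A) {N L : F} (hN : N ∈ A) (hN0 : N ≠ 0) (hL : L ∈ A) (hL0 : L ≠ 0)
    (hNL : L / N ∈ A) {x : SL2 F} (hx : x ∈ GN A N) :
    ∃ x₁ ∈ GN A L, ∃ ε ∈ Es A N, x = x₁ * ε := by
  have hG := GN_le hx
  have hdet := det_eq x
  -- coprimality of `(a, b N)`
  have hcop : Cop A (x 0 0) (x 0 1 * N) := by
    apply Cop.mul_right (hG 0 0) (hG 0 1) hN
    · exact ⟨x 1 1, hG 1 1, -(x 1 0), A.neg_mem (hG 1 0), by linear_combination hdet⟩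
    · refine ⟨1, A.one_mem, -((x 0 0 - 1) / N), A.neg_mem hx.2.1, ?_⟩
      field_simp
      ring
  obtain ⟨t, ht, -, hcL⟩ := hA.coprime_lift (hG 0 0) (A.mul_mem (hG 0 1) hN) hL hL0 hcop
  have hNt : N * t / N ∈ A := by rw [mul_div_cancel_left₀ _ hN0]; exact ht
  obtain ⟨x', hx'⟩ : ∃ x' : SL2 F, x' = x * v (N * t) := ⟨_, rfl⟩
  have hx'N : x' ∈ GN A N := hx' ▸ (GN A N).mul_mem hx (v_mem_GN hN hN0 hNt)
  have h00 : x' 0 0 = x 0 0 + x 0 1 * N * t := by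
    rw [hx', mul_app]; simp; ring
  rw [← h00] at hcL
  obtain ⟨a', ha', y', hy', hay⟩ := hcL
  have hL1 : (x' 0 0 * a' - 1) / L ∈ A := by
    have : (x' 0 0 * a' - 1) / L = -y' := by
      rw [div_eq_iff hL0]; linear_combination hay
    rw [this]; exact A.neg_mem hy'
  have ha1 : (x' 0 0 - 1) / N ∈ A := hx'N.2.1
  have ha1' : (1 - a') / N ∈ A := by
    have : (1 - a') / N = (x' 0 0 - 1) / N * a' - (x' 0 0 * a' - 1) / L * (L / N) := by
      rw [div_mul_div_cancel₀ hL0]; ring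
    rw [this]
    exact A.sub_mem (A.mul_mem ha1 ha') (A.mul_mem hL1 hNL)
  obtain ⟨r0, r1, r2, r3⟩ := red_diag hN hN0 hL hL0 hNL hx'N ha' hL1
  obtain ⟨d0, d1, d2, d3⟩ := diag_elem hL hL0 (GN_le hx'N 0 0) ha' hL1
  have hDE := s4a_diag_mem hN hN0 ha' ha1 ha1'
  set z := v (-(x' 1 0 * a')) * x' * u (-(x' 0 1 * a')) with hz
  set D := v (1 - a') * (v (-1) * u (x' 0 0 - 1) * v 1) * u (-((x' 0 0 - 1) * a')) with hD
  have hv : v (-(x' 1 0 * a')) ∈ Es A N := by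
    apply v_mem_Es hN hN0
    have : -(x' 1 0 * a') / N = -(x' 1 0 / N * a') := by ring
    rw [this]; exact A.neg_mem (A.mul_mem hx'N.2.2.2.1 ha')
  have hu : u (-(x' 0 1 * a')) ∈ Es A N := by
    apply u_mem_Es hN hN0
    have : -(x' 0 1 * a') / N = -(x' 0 1 / N * a') := by ring
    rw [this]; exact A.neg_mem (A.mul_mem hx'N.2.2.1 ha')
  have hvt : v (N * t) ∈ Es A N := v_mem_Es hN hN0 hNt
  have hzG : z ∈ G A := (G A).mul_mem ((G A).mul_mem (GN_le (Es_le_GN hv)) (GN_le hx'N))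
    (GN_le (Es_le_GN hu))
  have hDG : D ∈ G A := GN_le (Es_le_GN hDE)
  have hfin : D⁻¹ * z ∈ GN A L := by
    apply inv_mul_mem_GN hDG hzG
    intro i j
    fin_cases i <;> fin_cases j
    · change (z 0 0 - D 0 0) / L ∈ A
      have : (z 0 0 - D 0 0) / L = (z 0 0 - x' 0 0) / L - (D 0 0 - x' 0 0) / L := by ring
      rw [this]; exact A.sub_mem r0 d0
    · change (z 0 1 - D 0 1) / L ∈ A
      have : (z 0 1 - D 0 1) / L = z 0 1 / L - D 0 1 / L := by ring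
      rw [this]; exact A.sub_mem r1 d1
    · change (z 1 0 - D 1 0) / L ∈ A
      have : (z 1 0 - D 1 0) / L = z 1 0 / L - D 1 0 / L := by ring
      rw [this]; exact A.sub_mem r2 d2
    · change (z 1 1 - D 1 1) / L ∈ A
      have : (z 1 1 - D 1 1) / L = (z 1 1 - a') / L - (D 1 1 - a') / L := by ring
      rw [this]; exact A.sub_mem r3 d3
  -- `x = v⁻¹ z u⁻¹ v(Nt)⁻¹`, `z = D w`, `w ∈ Γ(L)`
  set w := D⁻¹ * z with hw
  set V := v (-(x' 1 0 * a')) with hV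
  set U' := u (-(x' 0 1 * a')) with hU'
  have hxe : x = (V⁻¹ * D) * w * U'⁻¹ * (v (N * t))⁻¹ := by
    rw [hw, hz, hx']; group
  have hVD : V⁻¹ * D ∈ Es A N := (Es A N).mul_mem ((Es A N).inv_mem hv) hDE
  refine ⟨(V⁻¹ * D) * w * (V⁻¹ * D)⁻¹, GN_conj (GN_le (Es_le_GN hVD)) hfin,
    (V⁻¹ * D) * U'⁻¹ * (v (N * t))⁻¹,
    (Es A N).mul_mem ((Es A N).mul_mem hVD ((Es A N).inv_mem hu)) ((Es A N).inv_mem hvt), ?_⟩
  conv_lhs => rw [hxe]
  group

/-- `y ∈ Γ(N²)` with first row `(a, N b)`, `b ≠ 0` good and coprime to `N` and to `a`: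
`[dg(t^(q^h - 1)), y] ∈ E*(N)`. Proof: `prime_data` for `(a, b)` (in the role of `(a, c)`), `w = N²`, `v = 1`
gives a prime `P₁ = a + N y₁ (N b)` of degree `d₁` larger than the bound of `unit_frob` and `d₁ ≥ 1`, and
another one `P₂` with `d₂ ≡ 1 mod d₁`. By `diag_pow_comm` with `k = q^(h d_i) - 1`
(`t^(2 k) - 1` is divisible by `t^k - 1`, so by `P_i`) the commutators of `dg(t^k)` with `y` are in `E*(N)`.
`comm_gcd` with `ff_gcd`-like `gcd(q^(h d₁) - 1, q^(h d₂) - 1) = q^h - 1`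
(`Nat.pow_sub_one_gcd_pow_sub_one`). Template: `s4b_core` in `NF/S4b.lean`. -/
theorem FR.t_core [Finite Fq] (hA : FR io A n h) {N : Fq[X]} (hN : N ≠ 0) {y : SL2 F}
    (hy : y ∈ G A) (h00 : (y 0 0 - 1) / io N ^ 2 ∈ A) (h10 : y 1 0 / io N ∈ A) {b : F}
    (hb : b ∈ A) (hb0 : b ≠ 0) (hyb : y 0 1 = io N * b) (hO : OntoF io A b)
    (hbN : Cop A b (io N)) (hab : Cop A (y 0 0) b) :
    dg (io X ^ (Nat.card Fq ^ h - 1)) * y * (dg (io X ^ (Nat.card Fq ^ h - 1)))⁻¹ * y⁻¹ ∈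
      Es A (io N) := by
  have hNA : io N ∈ A := hA.mem N
  have hN0 : io N ≠ 0 := hA.io_ne hN
  have hX0 : io X ≠ 0 := hA.io_ne X_ne_zero
  obtain ⟨B, hB⟩ := hA.unit_frob
  have hcw : Cop A b (io (N ^ 2)) := by
    rw [map_pow, pow_two]
    exact hbN.mul_right hb hNA hNA hbN
  have haN : Cop A (y 0 0) (io N) := by
    refine ⟨1, A.one_mem, -(io N * ((y 0 0 - 1) / io N ^ 2)),
      A.neg_mem (A.mul_mem hNA h00), ?_⟩
    field_simp
    ring
  have h01 : y 0 1 / io N ∈ A := by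
    rw [hyb, mul_div_cancel_left₀ _ hN0]; exact hb
  -- each prime gives a commutator
  have hkey : ∀ M : ℕ, 0 < M → ∀ d B' : ℕ, ∃ e : ℕ, B' < e ∧ e ≡ d [MOD M] ∧
      dg (io X ^ (Nat.card Fq ^ (h * e) - 1)) * y *
        (dg (io X ^ (Nat.card Fq ^ (h * e) - 1)))⁻¹ * y⁻¹ ∈ Es A (io N) := by
    intro M hM d B'
    obtain ⟨P, hP, hPB, hPM, -, x, hx, hxP⟩ := hA.prime_data hN (hy 0 0) h00 hb hb0 hO hab
      (w := N ^ 2) (v := 1) (pow_ne_zero 2 hN) dvd_rfl hcw isCoprime_one_left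
      (by rw [sub_self]; exact dvd_zero _) hM d (max B B')
    have hα : y 0 0 + y 0 1 * io N * x = io P := by
      rw [← hxP, hyb]; ring
    refine ⟨P.natDegree, lt_of_le_of_lt (le_max_right _ _) hPB, hPM, ?_⟩
    refine diag_pow_comm hNA hN0 hX0 (hA.mem X) hA.tinv hy h01 h10 haN hx
      (by rw [hα]; exact hA.io_ne hP.ne_zero) ?_
    rw [hα]
    have h4 := hB P hP (lt_of_le_of_lt (le_max_left _ _) hPB)
    have h5 : (io X ^ (2 * (Nat.card Fq ^ (h * P.natDegree) - 1)) - 1) / io P =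
        (io X ^ (Nat.card Fq ^ (h * P.natDegree) - 1) - 1) / io P *
          (io X ^ (Nat.card Fq ^ (h * P.natDegree) - 1) + 1) := by
      rw [two_mul, pow_add]
      ring
    rw [h5]
    exact A.mul_mem h4 (A.add_mem (A.pow_mem (hA.mem X) _) A.one_mem)
  obtain ⟨d₁, hd₁, -, k1⟩ := hkey 1 one_pos 0 0
  obtain ⟨d₂, -, hd₂, k2⟩ := hkey d₁ hd₁ 1 0
  have hgcd : Nat.gcd (Nat.card Fq ^ (h * d₁) - 1) (Nat.card Fq ^ (h * d₂) - 1) ∣
      Nat.card Fq ^ h - 1 := by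
    rw [Nat.pow_sub_one_gcd_pow_sub_one, Nat.gcd_mul_left]
    have h1 : Nat.gcd d₁ d₂ = 1 := by
      have h2 := hd₂.gcd_eq
      rw [Nat.gcd_one_left] at h2
      rw [Nat.gcd_comm]
      exact h2
    rw [h1, mul_one]
  have htG : dg (io X) ∈ G A := dg_mem_G (hA.mem X) hA.tinv
  rw [← dg_pow hX0] at k1 k2 ⊢
  refine comm_gcd (H := Es A (io N)) ?_ ?_ ?_ ?_ hgcd k1 k2
  · intro g hg; exact Es_conj htG hg
  · intro g hg
    have := Es_conj ((G A).inv_mem htG) hg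
    rwa [inv_inv] at this
  · intro g hg; exact Es_conj hy hg
  · intro g hg
    have := Es_conj ((G A).inv_mem hy) hg
    rwa [inv_inv] at this

/-- `(4a)`: `[dg(t^(q^h - 1)), x] ∈ E*(N)` for all `N ≠ 0`, `x ∈ Γ(N)`. Proof: by `deep` (`L = N²`) and
`s4b_transfer` we may assume `x ∈ Γ(N²)`. Right multiplication by `u(0)` or `u(N²)` makes `x 0 1 ≠ 0`, then by
`v(0)` or `v(N²)` makes `x 0 0 ≠ 0`. Write `x 0 1 = N b₀`; `good'` for `(b₀, x 0 0)` and `M = N`; right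
multiplication by `u(N t)`. Then `t_core`. Template: `SRing.diag_comm` in `NF/S4b.lean`. -/
theorem FR.t_comm [Finite Fq] (hA : FR io A n h) {N : Fq[X]} (hN : N ≠ 0) {x : SL2 F}
    (hx : x ∈ GN A (io N)) :
    dg (io X ^ (Nat.card Fq ^ h - 1)) * x * (dg (io X ^ (Nat.card Fq ^ h - 1)))⁻¹ * x⁻¹ ∈
      Es A (io N) := by
  have hNA : io N ∈ A := hA.mem N
  have hN0 : io N ≠ 0 := hA.io_ne hN
  have hN2A : io N ^ 2 ∈ A := A.pow_mem hNA 2
  have hN20 : io N ^ 2 ≠ 0 := pow_ne_zero 2 hN0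
  have htG : dg (io X ^ (Nat.card Fq ^ h - 1)) ∈ G A := by
    apply dg_mem_G (A.pow_mem (hA.mem X) _)
    rw [← inv_pow]
    exact A.pow_mem hA.tinv _
  have hLN : io N ^ 2 / io N ∈ A := by
    have : io N ^ 2 / io N = io N := by field_simp
    rw [this]; exact hNA
  have hN2N : ∀ x : F, x / io N ^ 2 ∈ A → x / io N ∈ A := by
    intro x hx
    have : x / io N = io N * (x / io N ^ 2) := by field_simp
    rw [this]; exact A.mul_mem hNA hx
  -- reduce to `Γ(N²)`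
  obtain ⟨y, hyN, ε', hε', rfl⟩ := hA.gring.deep hNA hN0 hN2A hN20 hLN hx
  have hxG : y * ε' ∈ G A := hx.1
  have hε'' : ε'⁻¹ ∈ Es A (io N) := (Es A (io N)).inv_mem hε'
  apply s4b_transfer htG hxG hε''
  rw [mul_inv_cancel_right]
  have hy : y ∈ G A := hyN.1
  have h00 := hyN.2.1
  have h01 := hyN.2.2.1
  have h10 := hyN.2.2.2.1
  -- step 1: make the upper right entry nonzero
  have step1 : ∃ x : F, x / io N ^ 2 ∈ A ∧ (y * u x) 0 1 ≠ 0 := by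
    by_cases h0 : y 0 1 = 0
    · refine ⟨io N ^ 2, by rw [div_self hN20]; exact A.one_mem, ?_⟩
      rw [mul_app, u_01, u_11, h0]
      have hd := det_eq y
      rw [h0] at hd
      have ha : y 0 0 ≠ 0 := by
        intro h1; rw [h1] at hd; simp at hd
      simpa using mul_ne_zero ha hN20
    · refine ⟨0, by simp [A.zero_mem], ?_⟩
      rw [mul_app, u_01, u_11]
      simpa using h0
  obtain ⟨x₁, hx₁, hy₁⟩ := step1
  have hx₁A : x₁ ∈ A := by
    have : x₁ = io N ^ 2 * (x₁ / io N ^ 2) := by field_simp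
    rw [this]; exact A.mul_mem hN2A hx₁
  have hux : u x₁ ∈ Es A (io N) := u_mem_Es hNA hN0 (hN2N _ hx₁)
  apply s4b_transfer htG hy hux
  set y₁ : SL2 F := y * u x₁ with hy₁def
  have hy₁G : y₁ ∈ G A := (G A).mul_mem hy (u_mem_G hx₁A)
  have a00 : (y₁ 0 0 - 1) / io N ^ 2 ∈ A := by
    have : y₁ 0 0 = y 0 0 := by rw [hy₁def, mul_app, u_00, u_10]; ring
    rw [this]; exact h00
  have a01 : y₁ 0 1 / io N ^ 2 ∈ A := by
    have : y₁ 0 1 / io N ^ 2 = y 0 0 * (x₁ / io N ^ 2) + y 0 1 / io N ^ 2 := by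
      rw [hy₁def, mul_app, u_01, u_11]; ring
    rw [this]; exact A.add_mem (A.mul_mem (hy _ _) hx₁) h01
  have a10 : y₁ 1 0 / io N ^ 2 ∈ A := by
    have : y₁ 1 0 = y 1 0 := by rw [hy₁def, mul_app, u_00, u_10]; ring
    rw [this]; exact h10
  -- step 2: make the upper left entry nonzero
  have step2 : ∃ x : F, x / io N ^ 2 ∈ A ∧ (y₁ * v x) 0 0 ≠ 0 := by
    by_cases h0 : y₁ 0 0 = 0
    · refine ⟨io N ^ 2, by rw [div_self hN20]; exact A.one_mem, ?_⟩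
      rw [mul_app, v_00, v_10, h0]
      simpa using mul_ne_zero hy₁ hN20
    · refine ⟨0, by simp [A.zero_mem], ?_⟩
      rw [mul_app, v_00, v_10]
      simpa using h0
  obtain ⟨x₂, hx₂', hj0⟩ := step2
  have hx₂A : x₂ ∈ A := by
    have : x₂ = io N ^ 2 * (x₂ / io N ^ 2) := by field_simp
    rw [this]; exact A.mul_mem hN2A hx₂'
  have hvx : v x₂ ∈ Es A (io N) := v_mem_Es hNA hN0 (hN2N _ hx₂')
  apply s4b_transfer htG hy₁G hvx
  set y₂ : SL2 F := y₁ * v x₂ with hy₂def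
  have hy₂G : y₂ ∈ G A := (G A).mul_mem hy₁G (v_mem_G hx₂A)
  have b00 : (y₂ 0 0 - 1) / io N ^ 2 ∈ A := by
    have : (y₂ 0 0 - 1) / io N ^ 2 = (y₁ 0 0 - 1) / io N ^ 2 + y₁ 0 1 * (x₂ / io N ^ 2) := by
      rw [hy₂def, mul_app, v_00, v_10]; ring
    rw [this]; exact A.add_mem a00 (A.mul_mem (hy₁G _ _) hx₂')
  have b01 : y₂ 0 1 / io N ^ 2 ∈ A := by
    have : y₂ 0 1 = y₁ 0 1 := by rw [hy₂def, mul_app, v_01, v_11]; ring
    rw [this]; exact a01
  have b10 : y₂ 1 0 / io N ^ 2 ∈ A := by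
    have : y₂ 1 0 / io N ^ 2 = y₁ 1 0 / io N ^ 2 + y₁ 1 1 * (x₂ / io N ^ 2) := by
      rw [hy₂def, mul_app, v_00, v_10]; ring
    rw [this]; exact A.add_mem a10 (A.mul_mem (hy₁G _ _) hx₂')
  -- step 3: good b
  set a : F := y₂ 0 0 with ha
  have haA : a ∈ A := hy₂G _ _
  set b₀ : F := y₂ 0 1 / io N with hb₀
  have hb₀A : b₀ ∈ A := hN2N _ b01
  have hb₀' : y₂ 0 1 = io N * b₀ := by rw [hb₀]; field_simp
  have hcop : Cop A b₀ a := by
    have hd := det_eq y₂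
    refine ⟨-(io N * y₂ 1 0), A.neg_mem (A.mul_mem hNA (hy₂G _ _)), y₂ 1 1, hy₂G _ _, ?_⟩
    rw [hb₀'] at hd
    linear_combination hd
  obtain ⟨t, ht, hb0, hO, hbM⟩ := hA.good' hb₀A haA hj0 hcop hNA hN0
  set b : F := b₀ + a * t with hb
  have hbA : b ∈ A := A.add_mem hb₀A (A.mul_mem haA ht)
  have hutE : u (io N * t) ∈ Es A (io N) := by
    apply u_mem_Es hNA hN0
    rw [mul_div_cancel_left₀ _ hN0]; exact ht
  apply s4b_transfer htG hy₂G hutE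
  set y₃ : SL2 F := y₂ * u (io N * t) with hy₃def
  have hy₃G : y₃ ∈ G A := (G A).mul_mem hy₂G (u_mem_G (A.mul_mem hNA ht))
  have f00 : y₃ 0 0 = a := by rw [hy₃def, mul_app, u_00, u_10, ha]; ring
  have f01 : y₃ 0 1 = io N * b := by
    rw [hy₃def, mul_app, u_01, u_11, hb₀', hb]; ring
  have f10 : y₃ 1 0 = y₂ 1 0 := by rw [hy₃def, mul_app, u_00, u_10]; ring
  have hcop3 : Cop A (y₃ 0 0) b := by
    rw [f00, hb]
    exact (Cop.add_mul ht hcop).symm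
  exact hA.t_core hN hy₃G (by rw [f00]; exact b00) (by rw [f10]; exact hN2N _ b10) hbA hb0 f01
    hO hbM hcop3

end BoomFF
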