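import Pool.Agent.H.MP_4c7af0_al.FF.C1
import Pool.Agent.H.MP_4c7af0_al.NF.S4c1

/-! Boomerang subgroups, function field case (MP_4c7af0_al), step 4: centrality. -/

namespace BoomFF

open BoomNF Polynomial

variable {Fq F : Type*} [Field Fq] [Field F] {io : Fq[X] →+* F} {A : Subring F} {n h : ℕ}

/-- the elements of `SL₂(F)` which commute with deep congruence subgroups modulo every `E*(N)` -/
def InHF (io : Fq[X] →+* F) (A : Subring F) (g : SL2 F) : Prop :=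
  ∀ N : Fq[X], N ≠ 0 → ∃ L : Fq[X], L ≠ 0 ∧ N ∣ L ∧ ∀ x ∈ GN A (io L),
    g * x * g⁻¹ ∈ GN A (io N) ∧ g * x * g⁻¹ * x⁻¹ ∈ Es A (io N)

theorem c2_GN_mono (hA : FR io A n h) {N L : Fq[X]} (hN : N ≠ 0) (hL : L ≠ 0) (h : N ∣ L) :
    GN A (io L) ≤ GN A (io N) :=
  GN_mono (hA.io_ne hN) (hA.io_ne hL) (hA.io_div hN h)

theorem c2_Es_mono (hA : FR io A n h) {N L : Fq[X]} (hN : N ≠ 0) (hL : L ≠ 0) (h : N ∣ L) :
    Es A (io L) ≤ Es A (io N) :=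
  Es_mono (hA.io_ne hN) (hA.io_ne hL) (hA.io_div hN h)

theorem c2_den (hA : FR io A n h) (y : F) : ∃ r : Fq[X], r ≠ 0 ∧ io r * y ∈ A := by
  by_cases hy : y = 0
  · exact ⟨1, one_ne_zero, by rw [hy, mul_zero]; exact A.zero_mem⟩
  · obtain ⟨f, hf, h1⟩ := hA.dvd y⁻¹ (inv_ne_zero hy)
    exact ⟨f, hf, by rwa [div_inv_eq_mul] at h1⟩

theorem c2_den4 (hA : FR io A n h) (k : SL2 F) :
    ∃ r : Fq[X], r ≠ 0 ∧ ∀ i j, io r * k i j ∈ A := by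
  choose m hm hk using fun i j : Fin 2 => c2_den hA (k i j)
  have h1 : ∀ f : Fq[X], io f ∈ A := hA.mem
  refine ⟨m 0 0 * m 0 1 * m 1 0 * m 1 1, ?_, ?_⟩
  · exact mul_ne_zero (mul_ne_zero (mul_ne_zero (hm _ _) (hm _ _)) (hm _ _)) (hm _ _)
  · intro i j
    fin_cases i <;> fin_cases j
    · have e : io (m 0 0 * m 0 1 * m 1 0 * m 1 1) * k 0 0 =
          io (m 0 1 * m 1 0 * m 1 1) * (io (m 0 0) * k 0 0) := by
        simp only [map_mul]; ring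
      change io (m 0 0 * m 0 1 * m 1 0 * m 1 1) * k 0 0 ∈ A
      rw [e]; exact A.mul_mem (h1 _) (hk 0 0)
    · have e : io (m 0 0 * m 0 1 * m 1 0 * m 1 1) * k 0 1 =
          io (m 0 0 * m 1 0 * m 1 1) * (io (m 0 1) * k 0 1) := by
        simp only [map_mul]; ring
      change io (m 0 0 * m 0 1 * m 1 0 * m 1 1) * k 0 1 ∈ A
      rw [e]; exact A.mul_mem (h1 _) (hk 0 1)
    · have e : io (m 0 0 * m 0 1 * m 1 0 * m 1 1) * k 1 0 =
          io (m 0 0 * m 0 1 * m 1 1) * (io (m 1 0) * k 1 0) := by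
        simp only [map_mul]; ring
      change io (m 0 0 * m 0 1 * m 1 0 * m 1 1) * k 1 0 ∈ A
      rw [e]; exact A.mul_mem (h1 _) (hk 1 0)
    · have e : io (m 0 0 * m 0 1 * m 1 0 * m 1 1) * k 1 1 =
          io (m 0 0 * m 0 1 * m 1 0) * (io (m 1 1) * k 1 1) := by
        simp only [map_mul]; ring
      change io (m 0 0 * m 0 1 * m 1 0 * m 1 1) * k 1 1 ∈ A
      rw [e]; exact A.mul_mem (h1 _) (hk 1 1)

theorem c2_conj_GN {k : SL2 F} {r N : F} (hr0 : r ≠ 0) (hN0 : N ≠ 0) (hNA : N ∈ A)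
    (hk : ∀ i j, r * k i j ∈ A) {x : SL2 F} (hx : x ∈ GN A (r * r * N)) :
    k * x * k⁻¹ ∈ GN A N := by
  have hd := det_eq k
  obtain ⟨-, h0, h1, h2, h3⟩ := hx
  have hm : ∀ i j i' j' : Fin 2, ∀ y ∈ A, r * k i j * (r * k i' j') * y ∈ A :=
    fun i j i' j' y hy => A.mul_mem (A.mul_mem (hk _ _) (hk _ _)) hy
  refine mem_GN' (hNA) hN0 ?_ ?_ ?_ ?_
  · have : ((k * x * k⁻¹) 0 0 - 1) / N =
        r * k 0 0 * (r * k 1 1) * ((x 0 0 - 1) / (r * r * N))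
        + r * k 0 1 * (r * k 1 1) * (x 1 0 / (r * r * N))
        - r * k 0 0 * (r * k 1 0) * (x 0 1 / (r * r * N))
        - r * k 0 1 * (r * k 1 0) * ((x 1 1 - 1) / (r * r * N)) := by
      simp only [mul_app, inv00, inv10]
      field_simp
      linear_combination hd
    rw [this]
    exact A.sub_mem (A.sub_mem (A.add_mem (hm _ _ _ _ _ h0) (hm _ _ _ _ _ h2)) (hm _ _ _ _ _ h1))
      (hm _ _ _ _ _ h3)
  · have : (k * x * k⁻¹) 0 1 / N =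
        r * k 0 1 * (r * k 0 0) * ((x 1 1 - 1) / (r * r * N))
        - r * k 0 0 * (r * k 0 1) * ((x 0 0 - 1) / (r * r * N))
        + r * k 0 0 * (r * k 0 0) * (x 0 1 / (r * r * N))
        - r * k 0 1 * (r * k 0 1) * (x 1 0 / (r * r * N)) := by
      simp only [mul_app, inv01, inv11]
      field_simp
      ring
    rw [this]
    exact A.sub_mem (A.add_mem (A.sub_mem (hm _ _ _ _ _ h3) (hm _ _ _ _ _ h0)) (hm _ _ _ _ _ h1))
      (hm _ _ _ _ _ h2)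
  · have : (k * x * k⁻¹) 1 0 / N =
        r * k 1 0 * (r * k 1 1) * ((x 0 0 - 1) / (r * r * N))
        - r * k 1 1 * (r * k 1 0) * ((x 1 1 - 1) / (r * r * N))
        + r * k 1 1 * (r * k 1 1) * (x 1 0 / (r * r * N))
        - r * k 1 0 * (r * k 1 0) * (x 0 1 / (r * r * N)) := by
      simp only [mul_app, inv00, inv10]
      field_simp
      ring
    rw [this]
    exact A.sub_mem (A.add_mem (A.sub_mem (hm _ _ _ _ _ h0) (hm _ _ _ _ _ h3)) (hm _ _ _ _ _ h2))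
      (hm _ _ _ _ _ h1)
  · have : ((k * x * k⁻¹) 1 1 - 1) / N =
        r * k 1 1 * (r * k 0 0) * ((x 1 1 - 1) / (r * r * N))
        - r * k 1 0 * (r * k 0 1) * ((x 0 0 - 1) / (r * r * N))
        + r * k 1 0 * (r * k 0 0) * (x 0 1 / (r * r * N))
        - r * k 1 1 * (r * k 0 1) * (x 1 0 / (r * r * N)) := by
      simp only [mul_app, inv01, inv11]
      field_simp
      linear_combination hd
    rw [this]
    exact A.sub_mem (A.add_mem (A.sub_mem (hm _ _ _ _ _ h3) (hm _ _ _ _ _ h0)) (hm _ _ _ _ _ h1))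
      (hm _ _ _ _ _ h2)

/-- Template: `SRing.conj_level` in `NF/S4c1.lean` (`d = r²` with `r ∈ 𝔽_q[t]`, `r ≠ 0`, such that `r k` has
entries in `A`; such `r` exist by `FR.dvd`: a nonzero entry `k i j` has `io f * k i j ∈ A` for the `f` of
`FR.dvd (k i j)⁻¹`). -/
theorem FR.conj_level (hA : FR io A n h) (k : SL2 F) : ∃ d : Fq[X], d ≠ 0 ∧ ∀ N : Fq[X], N ≠ 0 →
    (∀ x ∈ GN A (io (d * N)), k * x * k⁻¹ ∈ GN A (io N)) ∧
    (∀ x ∈ Es A (io (d * N)), k * x * k⁻¹ ∈ Es A (io N)) := by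
  obtain ⟨r, hr, hk⟩ := c2_den4 hA k
  have e : ∀ N : Fq[X], io (r * r * N) = io r * io r * io N := fun N => by
    simp only [map_mul]
  refine ⟨r * r, mul_ne_zero hr hr, fun N hN => ?_⟩
  rw [e N]
  refine ⟨fun x hx => c2_conj_GN (hA.io_ne hr) (hA.io_ne hN) (hA.mem N) hk hx, ?_⟩
  intro x hx
  induction hx using Subgroup.closure_induction with
  | mem x hx =>
    refine mem_Es (c2_conj_GN (hA.io_ne hr) (hA.io_ne hN) (hA.mem N) hk hx.1) ?_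
    rw [trace_conj]; exact hx.2
  | one => simp
  | mul x y _ _ hx hy =>
    have e : k * (x * y) * k⁻¹ = (k * x * k⁻¹) * (k * y * k⁻¹) := by group
    rw [e]; exact (Es A (io N)).mul_mem hx hy
  | inv x _ hx =>
    have e : k * x⁻¹ * k⁻¹ = (k * x * k⁻¹)⁻¹ := by group
    rw [e]; exact (Es A (io N)).inv_mem hx

/-- Template: `SRing.InH_mul` in `NF/S4c1.lean`. -/
theorem FR.InH_mul (hA : FR io A n h) {g g' : SL2 F} (hg : InHF io A g) (hg' : InHF io A g') :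
    InHF io A (g * g') := by
  intro N hN
  obtain ⟨L, hL, hNL, h⟩ := hg N hN
  obtain ⟨L', hL', hLL', h'⟩ := hg' L hL
  refine ⟨L', hL', hNL.trans hLL', fun x hx => ?_⟩
  obtain ⟨a1, a2⟩ := h' x hx
  obtain ⟨b1, b2⟩ := h _ a1
  refine ⟨?_, ?_⟩
  · have e : g * g' * x * (g * g')⁻¹ = g * (g' * x * g'⁻¹) * g⁻¹ := by group
    rw [e]; exact b1
  · have e : g * g' * x * (g * g')⁻¹ * x⁻¹ =
        (g * (g' * x * g'⁻¹) * g⁻¹ * (g' * x * g'⁻¹)⁻¹) * (g' * x * g'⁻¹ * x⁻¹) := by group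
    rw [e]
    exact (Es A (io N)).mul_mem b2 (c2_Es_mono hA hN hL hNL a2)

/-- Template: `SRing.InH_inv` in `NF/S4c1.lean`. -/
theorem FR.InH_inv (hA : FR io A n h) {g : SL2 F} (hg : InHF io A g) : InHF io A g⁻¹ := by
  intro N hN
  obtain ⟨L₁, hL₁, hNL, h⟩ := hg N hN
  obtain ⟨d, hd, hdl⟩ := hA.conj_level g⁻¹
  refine ⟨d * L₁, mul_ne_zero hd hL₁, Dvd.dvd.mul_left hNL d, fun x hx => ?_⟩
  have h1 : g⁻¹ * x * (g⁻¹)⁻¹ ∈ GN A (io L₁) := (hdl L₁ hL₁).1 x hx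
  obtain ⟨b1, b2⟩ := h _ h1
  refine ⟨c2_GN_mono hA hN hL₁ hNL h1, ?_⟩
  have e : g⁻¹ * x * (g⁻¹)⁻¹ * x⁻¹ =
      (g * (g⁻¹ * x * (g⁻¹)⁻¹) * g⁻¹ * (g⁻¹ * x * (g⁻¹)⁻¹)⁻¹)⁻¹ := by group
  rw [e]
  exact (Es A (io N)).inv_mem b2

/-- Template: `SRing.InH_conj` in `NF/S4c1.lean`. -/
theorem FR.InH_conj (hA : FR io A n h) {g : SL2 F} (hg : InHF io A g) (k : SL2 F) :
    InHF io A (k * g * k⁻¹) := by
  intro N hN
  obtain ⟨d₁, hd₁, h₁⟩ := hA.conj_level k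
  obtain ⟨d₂, hd₂, h₂⟩ := hA.conj_level k⁻¹
  obtain ⟨L₁, hL₁, hNL, h⟩ := hg (d₁ * N) (mul_ne_zero hd₁ hN)
  refine ⟨d₂ * L₁, mul_ne_zero hd₂ hL₁,
    Dvd.dvd.mul_left ((Dvd.dvd.mul_left dvd_rfl d₁).trans hNL) d₂, fun x hx => ?_⟩
  have hy : k⁻¹ * x * (k⁻¹)⁻¹ ∈ GN A (io L₁) := (h₂ L₁ hL₁).1 x hx
  obtain ⟨b1, b2⟩ := h _ hy
  refine ⟨?_, ?_⟩
  · have e : k * g * k⁻¹ * x * (k * g * k⁻¹)⁻¹ = k * (g * (k⁻¹ * x * (k⁻¹)⁻¹) * g⁻¹) * k⁻¹ := by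
      group
    rw [e]; exact (h₁ N hN).1 _ b1
  · have e : k * g * k⁻¹ * x * (k * g * k⁻¹)⁻¹ * x⁻¹ =
        k * (g * (k⁻¹ * x * (k⁻¹)⁻¹) * g⁻¹ * (k⁻¹ * x * (k⁻¹)⁻¹)⁻¹) * k⁻¹ := by group
    rw [e]; exact (h₁ N hN).2 _ b2

theorem c2_one : InHF io A (1 : SL2 F) := by
  intro N hN
  refine ⟨N, hN, dvd_rfl, fun x hx => ⟨?_, ?_⟩⟩
  · rw [one_mul, inv_one, mul_one]
    exact hx
  · rw [one_mul, inv_one, mul_one, mul_inv_cancel]
    exact (Es A (io N)).one_mem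

theorem c2_dg [Finite Fq] (hA : FR io A n h) :
    InHF io A (dg (io X ^ (Nat.card Fq ^ h - 1))) := by
  intro N hN
  refine ⟨N, hN, dvd_rfl, fun x hx => ?_⟩
  have h2 := hA.t_comm hN hx
  refine ⟨?_, h2⟩
  have h3 : dg (io X ^ (Nat.card Fq ^ h - 1)) * x * (dg (io X ^ (Nat.card Fq ^ h - 1)))⁻¹ =
      dg (io X ^ (Nat.card Fq ^ h - 1)) * x * (dg (io X ^ (Nat.card Fq ^ h - 1)))⁻¹ * x⁻¹ * x := by
    group
  rw [h3]
  exact (GN A (io N)).mul_mem (Es_le_GN h2) hx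

theorem c2_u [Finite Fq] (hA : FR io A n h) (z : F) : InHF io A (u z) := by
  have hT := c2_dg hA
  have hX : io X ≠ 0 := hA.infUnit.ne
  have hm : 0 < Nat.card Fq ^ h - 1 := by
    have h1 : 1 < Nat.card Fq := Finite.one_lt_card
    have h2 : 1 < Nat.card Fq ^ h := Nat.one_lt_pow hA.hpos.ne' h1
    omega
  set ε : F := io X ^ (Nat.card Fq ^ h - 1) with hεd
  have hε : ε ≠ 0 := pow_ne_zero _ hX
  have h1 : (1 : F) - ε ^ 2 ≠ 0 := by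
    intro h0
    rw [hεd, ← pow_mul] at h0
    exact hA.infUnit.pow_ne _ (Nat.mul_pos hm (by norm_num)) (sub_eq_zero.mp h0).symm
  obtain ⟨z1, hz1⟩ : ∃ z1, z1 = z / (1 - ε ^ 2) := ⟨_, rfl⟩
  have h2 : InHF io A (u z1 * dg ε * (u z1)⁻¹ * (dg ε)⁻¹) :=
    hA.InH_mul (hA.InH_conj hT (u z1)) (hA.InH_inv hT)
  have h3 : u z1 * dg ε * (u z1)⁻¹ * (dg ε)⁻¹ = u z := by
    have e1 : u z1 * dg ε * (u z1)⁻¹ * (dg ε)⁻¹ = u z1 * (dg ε * u (-z1) * (dg ε)⁻¹) := by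
      rw [u_inv]
      group
    rw [e1, dg_conj_u hε, u_mul]
    congr 1
    rw [hz1]
    field_simp
    ring
  rwa [h3] at h2

/-- Template: `s4c_dg`, `s4c_u`, `SRing.InH_all` in `NF/S4c.lean`, with `ε = t^(q^h - 1)` and `FR.t_comm`
(`L = N`); `ε² ≠ 1` as `t` has infinite order (`FR.infUnit`) and `q^h - 1 > 0` (`Nat.card Fq > 1`, `hA.hpos`). -/
theorem FR.InH_all [Finite Fq] (hA : FR io A n h) (g : SL2 F) : InHF io A g := by
  have hg := sl2_closure g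
  induction hg using Subgroup.closure_induction with
  | mem x hx =>
    rcases hx with ⟨z, rfl⟩ | ⟨z, rfl⟩
    · exact c2_u hA z
    · have h1 := hA.InH_conj (c2_u hA (-z)) wy
      rwa [wy_conj_u, neg_neg] at h1
  | one => exact c2_one
  | mul x y _ _ hx hy => exact hA.InH_mul hx hy
  | inv x _ hx => exact hA.InH_inv hx

/-- `Γ(N)` is central modulo `E*(N)` in `SL₂(A)`. Template: `SRing.central` in `NF/S4c.lean`. -/
theorem FR.central [Finite Fq] (hA : FR io A n h) {N : Fq[X]} (hN : N ≠ 0)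
    {g : SL2 F} (hg : g ∈ G A) {x : SL2 F} (hx : x ∈ GN A (io N)) :
    g * x * g⁻¹ * x⁻¹ ∈ Es A (io N) := by
  obtain ⟨L, hL, hNL, hc⟩ := hA.InH_all g N hN
  obtain ⟨x1, hx1, e, he, rfl⟩ := hA.gring.deep (hA.mem N) (hA.io_ne hN) (hA.mem L) (hA.io_ne hL)
    (hA.io_div hN hNL) hx
  have h1 := (hc x1 hx1).2
  have h2 : g * e * g⁻¹ * e⁻¹ ∈ Es A (io N) :=
    (Es A (io N)).mul_mem (Es_conj hg he) ((Es A (io N)).inv_mem he)
  have h3 : x1 * (g * e * g⁻¹ * e⁻¹) * x1⁻¹ ∈ Es A (io N) := Es_conj (GN_le hx1) h2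
  have e1 : g * (x1 * e) * g⁻¹ * (x1 * e)⁻¹ =
      g * x1 * g⁻¹ * x1⁻¹ * (x1 * (g * e * g⁻¹ * e⁻¹) * x1⁻¹) := by group
  rw [e1]
  exact (Es A (io N)).mul_mem h1 h3

end BoomFF
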