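import Pool.Agent.H.MP_4c7af0_al.FF.C2
import Pool.Agent.H.MP_4c7af0_al.NF.P1b

/-! Boomerang subgroups, function field case (MP_4c7af0_al), step 4: the homomorphism `χ`. -/

namespace BoomFF

set_option linter.unusedSimpArgs false

open BoomNF Polynomial

variable {Fq F : Type*} [Field Fq] [Field F] {io : Fq[X] →+* F} {A : Subring F} {n h : ℕ}

/-- if `w ∈ Γ(N)`, `w 1 0 ∈ l² N A` and `w 0 0 ≡ 1 mod l² N` then `w` is in the kernel of `χ`. Template:
`p1b_ker` in `NF/P1b.lean` (the lemmas `p1b_S`, `p1b_mem`, `p1b_of`, `p1b_u`, `p1b_v`, `p1b_mid` there hold over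
every field). -/
theorem chiF_ker [Finite Fq] (hA : FR io A n h) {N : Fq[X]} (hN : N ≠ 0)
    {l : F} (hl : l ∈ A) (hl0 : l ≠ 0) {w : SL2 F} (hw : w ∈ GN A (io N))
    (hc : w 1 0 / (l ^ 2 * io N) ∈ A) (h00 : (w 0 0 - 1) / (l ^ 2 * io N) ∈ A) :
    w ∈ p1b_S A (io N) l := by
  have hNA : (io N) ∈ A := hA.mem N
  have hN0 : (io N) ≠ 0 := by exact hA.io_ne hN
  have hm0 : l ^ 2 * (io N) ≠ 0 := mul_ne_zero (pow_ne_zero 2 hl0) hN0
  have hmA : l ^ 2 * (io N) ∈ A := A.mul_mem (A.pow_mem hl 2) hNA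
  obtain ⟨L₁, hL₁, hNL₁, hL₁'⟩ := hA.InH_all (dg l) N hN
  obtain ⟨f, hf, hf'⟩ := hA.dvd _ hm0
  set L : F := io (L₁ * f) with hLdef
  have hL0 : L ≠ 0 := hA.io_ne (mul_ne_zero hL₁ hf)
  have hLA : L ∈ A := hA.mem _
  have hL₁0 : io L₁ ≠ 0 := hA.io_ne hL₁
  have hLm : L / (l ^ 2 * io N) ∈ A := by
    have : L / (l ^ 2 * io N) = io L₁ * (io f / (l ^ 2 * io N)) := by
      rw [hLdef, map_mul]; ring
    rw [this]; exact A.mul_mem (hA.mem _) hf'
  have hLL₁ : L / io L₁ ∈ A := by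
    have : L / io L₁ = io f := by
      rw [hLdef, map_mul]; field_simp
    rw [this]; exact hA.mem _
  have hLN : L / io N ∈ A := hA.io_div hN (dvd_mul_of_dvd_left hNL₁ f)
  have hGL : ∀ x ∈ GN A L, x ∈ p1b_S A (io N) l := fun x hx =>
    ⟨hx.1, (hL₁' x (GN_mono hL₁0 hL0 hLL₁ hx)).2⟩
  have hwG : w ∈ G A := hw.1
  have hd := det_eq w
  obtain ⟨t, ht, hat0, hcop⟩ := hA.gring.coprime_lift (a := w 0 0) (b := w 0 1 * (l ^ 2 * io N)) (M := L)
    (hwG _ _) (A.mul_mem (hwG _ _) hmA) hLA hL0 (by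
      refine ⟨w 1 1, hwG _ _, -(w 1 0 / (l ^ 2 * io N)), A.neg_mem hc, ?_⟩
      have : w 0 1 * (l ^ 2 * io N) * -(w 1 0 / (l ^ 2 * io N)) = -(w 0 1 * w 1 0) := by
        field_simp
      rw [this]; linear_combination hd)
  set s : F := l ^ 2 * io N * t with hs
  have hsm : s / (l ^ 2 * io N) ∈ A := by
    have : s / (l ^ 2 * io N) = t := by rw [hs]; field_simp
    rw [this]; exact ht
  have hvs : v s ∈ p1b_S A (io N) l := p1b_v hNA hN0 hl hl0 hsm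
  set w₁ : SL2 F := w * v s with hw₁
  suffices hmain : w₁ ∈ p1b_S A (io N) l by
    have : w = w₁ * (v s)⁻¹ := by rw [hw₁]; group
    rw [this]
    exact (p1b_S A (io N) l).mul_mem hmain ((p1b_S A (io N) l).inv_mem hvs)
  have e00 : w₁ 0 0 = w 0 0 + w 0 1 * (l ^ 2 * io N) * t := by
    rw [hw₁, mul_app, v_00, v_10, hs]; ring
  have e01 : w₁ 0 1 = w 0 1 := by
    rw [hw₁, mul_app, v_01, v_11]; ring
  have e10 : w₁ 1 0 = w 1 0 + w 1 1 * s := by
    rw [hw₁, mul_app, v_00, v_10]; ring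
  have hsN : s / io N ∈ A := by
    have : s / io N = l ^ 2 * (s / (l ^ 2 * io N)) := by field_simp
    rw [this]; exact A.mul_mem (A.pow_mem hl 2) hsm
  have hw₁N : w₁ ∈ GN A (io N) := (GN A (io N)).mul_mem hw (v_mem_GN hNA hN0 hsN)
  set a : F := w₁ 0 0 with ha
  have haA : a ∈ A := hw₁N.1 _ _
  have hcopa : Cop A a L := by rw [e00]; exact hcop
  obtain ⟨a', ha', y', hy', hay⟩ := hcopa
  have haa' : (a * a' - 1) / L ∈ A := by
    have : (a * a' - 1) / L = -y' := by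
      rw [div_eq_iff hL0]; linear_combination hay
    rw [this]; exact A.neg_mem hy'
  have ham : (a - 1) / (l ^ 2 * io N) ∈ A := by
    have : (a - 1) / (l ^ 2 * io N) = (w 0 0 - 1) / (l ^ 2 * io N) + w 0 1 * t := by
      rw [e00]; field_simp; ring
    rw [this]; exact A.add_mem h00 (A.mul_mem (hwG _ _) ht)
  have ham' : (1 - a') / (l ^ 2 * io N) ∈ A := by
    have : (1 - a') / (l ^ 2 * io N) = (a - 1) / (l ^ 2 * io N) * a' -
        (a * a' - 1) / L * (L / (l ^ 2 * io N)) := by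
      field_simp; ring
    rw [this]; exact A.sub_mem (A.mul_mem ham ha') (A.mul_mem haa' hLm)
  have hz := red_diag hNA hN0 hLA hL0 hLN hw₁N ha' haa'
  have hz' := diag_elem hLA hL0 haA ha' haa'
  simp only at hz hz'
  set z : SL2 F := v (-(w₁ 1 0 * a')) * w₁ * u (-(w₁ 0 1 * a')) with hzdef
  set z' : SL2 F := v (1 - a') * (v (-1) * u (a - 1) * v 1) * u (-((a - 1) * a')) with hzdef'
  -- membership of the factors
  have hv1 : v (-(w₁ 1 0 * a')) ∈ p1b_S A (io N) l := by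
    apply p1b_v hNA hN0 hl hl0
    have : -(w₁ 1 0 * a') / (l ^ 2 * io N) = -((w 1 0 / (l ^ 2 * io N) + w 1 1 * t) * a') := by
      rw [e10, hs]; field_simp
    rw [this]
    exact A.neg_mem (A.mul_mem (A.add_mem hc (A.mul_mem (hwG _ _) ht)) ha')
  have hu1 : u (-(w₁ 0 1 * a')) ∈ p1b_S A (io N) l := by
    apply p1b_u hNA hN0 hl hl0
    have : -(w₁ 0 1 * a') / io N = -(w₁ 0 1 / io N * a') := by ring
    rw [this]
    exact A.neg_mem (A.mul_mem hw₁N.2.2.1 ha')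
  have hv2 : v (1 - a') ∈ p1b_S A (io N) l := p1b_v hNA hN0 hl hl0 ham'
  have hmid : v (-1) * u (a - 1) * v 1 ∈ p1b_S A (io N) l := p1b_mid hNA hN0 hl hl0 ham
  have hu2 : u (-((a - 1) * a')) ∈ p1b_S A (io N) l := by
    apply p1b_u hNA hN0 hl hl0
    have : -((a - 1) * a') / io N = -(l ^ 2 * ((a - 1) / (l ^ 2 * io N)) * a') := by
      field_simp
    rw [this]
    exact A.neg_mem (A.mul_mem (A.mul_mem (A.pow_mem hl 2) ham) ha')
  have hz'S : z' ∈ p1b_S A (io N) l :=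
    (p1b_S A (io N) l).mul_mem ((p1b_S A (io N) l).mul_mem hv2 hmid) hu2
  have hz'G : z' ∈ G A := hz'S.1
  have hzG : z ∈ G A := (G A).mul_mem ((G A).mul_mem hv1.1 hw₁N.1) hu1.1
  have hzz : z'⁻¹ * z ∈ GN A L := by
    apply inv_mul_mem_GN hz'G hzG
    intro i j
    fin_cases i <;> fin_cases j
    · change (z 0 0 - z' 0 0) / L ∈ A
      have : (z 0 0 - z' 0 0) / L = (z 0 0 - a) / L - (z' 0 0 - a) / L := by ring
      rw [this]; exact A.sub_mem hz.1 hz'.1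
    · change (z 0 1 - z' 0 1) / L ∈ A
      rw [sub_div]; exact A.sub_mem hz.2.1 hz'.2.1
    · change (z 1 0 - z' 1 0) / L ∈ A
      rw [sub_div]; exact A.sub_mem hz.2.2.1 hz'.2.2.1
    · change (z 1 1 - z' 1 1) / L ∈ A
      have : (z 1 1 - z' 1 1) / L = (z 1 1 - a') / L - (z' 1 1 - a') / L := by ring
      rw [this]; exact A.sub_mem hz.2.2.2 hz'.2.2.2
  have hzS : z ∈ p1b_S A (io N) l := by
    have : z = z' * (z'⁻¹ * z) := by group
    rw [this]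
    exact (p1b_S A (io N) l).mul_mem hz'S (hGL _ hzz)
  have hfin : w₁ = (v (-(w₁ 1 0 * a')))⁻¹ * z * (u (-(w₁ 0 1 * a')))⁻¹ := by
    rw [hzdef]; group
  rw [hfin]
  exact (p1b_S A (io N) l).mul_mem ((p1b_S A (io N) l).mul_mem
    ((p1b_S A (io N) l).inv_mem hv1) hzS) ((p1b_S A (io N) l).inv_mem hu1)

/-- Template: `SRing.chi` in `NF/P1b.lean`. -/
theorem FR.chi [Finite Fq] (hA : FR io A n h) {N : Fq[X]} (hN : N ≠ 0)
    {l : F} (hl : l ∈ A) (hl0 : l ≠ 0) {x x' : SL2 F} (hx : x ∈ GN A (io N))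
    (hx' : x' ∈ GN A (io N)) (hc : x 1 0 / (l ^ 2 * io N) ∈ A)
    (hc' : x' 1 0 / (l ^ 2 * io N) ∈ A) (h00 : x 0 0 = x' 0 0) :
    (dg l * x * (dg l)⁻¹ * x⁻¹) * (dg l * x' * (dg l)⁻¹ * x'⁻¹)⁻¹ ∈ Es A (io N) := by
  have hNA : (io N) ∈ A := hA.mem N
  have hN0 : (io N) ≠ 0 := by exact hA.io_ne hN
  have hd := det_eq x
  have hd' := det_eq x'
  set w : SL2 F := x * x'⁻¹ with hwdef
  have hw : w ∈ GN A (io N) := (GN A (io N)).mul_mem hx ((GN A (io N)).inv_mem hx')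
  have hwS : w ∈ p1b_S A (io N) l := by
    apply chiF_ker hA hN hl hl0 hw
    · have : w 1 0 / (l ^ 2 * io N) = x 1 0 / (l ^ 2 * io N) * x' 1 1 -
          x 1 1 * (x' 1 0 / (l ^ 2 * io N)) := by
        rw [hwdef, mul_app, inv00, inv10]; ring
      rw [this]
      exact A.sub_mem (A.mul_mem hc (hx'.1 _ _)) (A.mul_mem (hx.1 _ _) hc')
    · have : (w 0 0 - 1) / (l ^ 2 * io N) = (x' 0 1 - x 0 1) * (x' 1 0 / (l ^ 2 * io N)) := by
        rw [hwdef, mul_app, inv00, inv10, h00]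
        linear_combination (1 / (l ^ 2 * io N)) * hd'
      rw [this]
      exact A.mul_mem (A.sub_mem (hx'.1 _ _) (hx.1 _ _)) hc'
  -- q = x'^h x'⁻¹ ∈ Γ(N)
  have hl2N : x' 1 0 / l ^ 2 / io N ∈ A := by
    rw [div_div]; exact hc'
  have hq1 : dg l * x' * (dg l)⁻¹ ∈ GN A (io N) := by
    apply mem_GN' hNA hN0
    · have : ((dg l * x' * (dg l)⁻¹) 0 0 - 1) / (io N) = (x' 0 0 - 1) / io N := by
        simp only [mul_app, inv00, inv01, inv10, inv11, dg_00 hl0, dg_01 hl0, dg_10 hl0,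
          dg_11 hl0]
        field_simp; ring
      rw [this]; exact hx'.2.1
    · have : (dg l * x' * (dg l)⁻¹) 0 1 / (io N) = l ^ 2 * (x' 0 1 / io N) := by
        simp only [mul_app, inv00, inv01, inv10, inv11, dg_00 hl0, dg_01 hl0, dg_10 hl0,
          dg_11 hl0]
        field_simp; ring
      rw [this]; exact A.mul_mem (A.pow_mem hl 2) hx'.2.2.1
    · have : (dg l * x' * (dg l)⁻¹) 1 0 / (io N) = x' 1 0 / (l ^ 2 * io N) := by
        simp only [mul_app, inv00, inv01, inv10, inv11, dg_00 hl0, dg_01 hl0, dg_10 hl0,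
          dg_11 hl0]
        field_simp; ring
      rw [this]; exact hc'
    · have : ((dg l * x' * (dg l)⁻¹) 1 1 - 1) / (io N) = (x' 1 1 - 1) / io N := by
        simp only [mul_app, inv00, inv01, inv10, inv11, dg_00 hl0, dg_01 hl0, dg_10 hl0,
          dg_11 hl0]
        field_simp; ring
      rw [this]; exact hx'.2.2.2.2
  have hq : dg l * x' * (dg l)⁻¹ * x'⁻¹ ∈ GN A (io N) :=
    (GN A (io N)).mul_mem hq1 ((GN A (io N)).inv_mem hx')
  have hcen := hA.central hN hw.1 hq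
  have hfin : (dg l * x * (dg l)⁻¹ * x⁻¹) * (dg l * x' * (dg l)⁻¹ * x'⁻¹)⁻¹ =
      (dg l * w * (dg l)⁻¹ * w⁻¹) * (w * (dg l * x' * (dg l)⁻¹ * x'⁻¹) * w⁻¹ *
        (dg l * x' * (dg l)⁻¹ * x'⁻¹)⁻¹) := by
    rw [hwdef]; group
  rw [hfin]
  exact (Es A (io N)).mul_mem hwS.2 hcen

end BoomFF
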