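import Pool.Agent.H.MP_4c7af0_al.FF.C3
import Pool.Agent.H.MP_4c7af0_al.NF.P1

/-! Boomerang subgroups, function field case (MP_4c7af0_al), step 4: the symbol. -/

namespace BoomFF

open BoomNF Polynomial

universe u₁

set_option linter.unusedSimpArgs false
set_option linter.style.haveILetI false

/-- the group `P = Γ(N) / E*(N)` is commutative -/
@[reducible] noncomputable def c4_comm {Fq : Type*} {F : Type*} [Field Fq] [Field F]
    {io : Fq[X] →+* F} {A : Subring F} {n h : ℕ} [Finite Fq] (hA : FR io A n h) {N : Fq[X]}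
    (hN : N ≠ 0) : CommGroup (P1Q A (io N)) :=
  letI := p1_normal A (io N)
  { (inferInstance : Group (P1Q A (io N))) with
    mul_comm := by
      intro a b
      induction a using QuotientGroup.induction_on with
      | H x =>
        induction b using QuotientGroup.induction_on with
        | H y =>
          rw [← QuotientGroup.mk_mul, ← QuotientGroup.mk_mul, QuotientGroup.eq,
            Subgroup.mem_subgroupOf]
          have h := hA.central hN (g := (y : SL2 F)⁻¹) ((G A).inv_mem y.2.1)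
            (x := (x : SL2 F)⁻¹) ((GN A (io N)).inv_mem x.2)
          push_cast
          have e : ((x : SL2 F) * y)⁻¹ * (y * x) =
              (y : SL2 F)⁻¹ * (x : SL2 F)⁻¹ * ((y : SL2 F)⁻¹)⁻¹ * ((x : SL2 F)⁻¹)⁻¹ := by group
          rw [e]; exact h }

/-- The symbol. Template: `p1_comm` and `SRing.exists_sym` in `NF/P1.lean` (the lemmas of the section `quot`
there hold over every field). -/
theorem FR.exists_sym {Fq : Type*} {F : Type u₁} [Field Fq] [Field F] {io : Fq[X] →+* F}
    {A : Subring F} {n h : ℕ} [Finite Fq] (hA : FR io A n h) {N : Fq[X]} (hN : N ≠ 0) :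
    ∃ (P : Type u₁) (_ : CommGroup P) (sy : F → F → P), BoomNF.Sym A (io N) sy ∧
      (Finite P → (Es A (io N)).relIndex (GN A (io N)) ≠ 0) := by
  letI := p1_normal A (io N)
  have hNA : (io N) ∈ A := hA.mem N
  have hN0 : (io N) ≠ 0 := hA.io_ne hN
  have hone : (1 : SL2 F) ∈ GN A (io N) := (GN A (io N)).one_mem
  have mk_mul : ∀ (x y : SL2 F) (hx : x ∈ GN A (io N)) (hy : y ∈ GN A (io N)),
      p1_mk A (io N) (x * y) ((GN A (io N)).mul_mem hx hy)
        = p1_mk A (io N) x hx * p1_mk A (io N) y hy := by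
    intro x y hx hy
    rfl
  letI inst := c4_comm hA hN
  refine ⟨P1Q A (io N), inst, p1_sy A (io N), ?_, ?_⟩
  refine BoomNF.Sym.mk ?_ ?_ ?_ ?_ ?_
  · -- s0
    intro b hb
    rw [p1_sy_eq hNA hN0 (u_mem_GN hNA hN0 hb) (u_00 b) (u_01 b)]
    change _ = p1_mk A (io N) 1 hone
    apply p1_mk_eq
    rw [inv_one, mul_one]
    exact u_mem_Es hNA hN0 hb
  · -- s1
    intro a b x h hx
    obtain ⟨y, hy, h0, h1, -⟩ := exists_row hNA hN0 (m := (io N)) (by rw [div_self hN0]; exact A.one_mem)
      h (by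
        have := p1_cop hNA hN0 h A.one_mem ⟨0, A.zero_mem, 1, A.one_mem, by ring⟩
        simpa using this)
    have hv : (v x)⁻¹ ∈ G A := (G A).inv_mem (v_mem_G hx)
    have hy' : (v x)⁻¹ * y * ((v x)⁻¹)⁻¹ ∈ GN A (io N) := GN_conj hv hy
    rw [p1_sy_eq hNA hN0 hy h0 h1]
    rw [p1_sy_eq hNA hN0 hy' (a := a + b * x) (b := b)]
    · exact p1_mk_eq _ _ (hA.central hN hv hy)
    · rw [inv_inv, v_inv]
      simp only [mul_app, v_00, v_01, v_10, v_11, h0, h1]
      ring
    · rw [inv_inv, v_inv]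
      simp only [mul_app, v_00, v_01, v_10, v_11, h0, h1]
      ring
  · -- s2
    intro a b x h hx
    obtain ⟨y, hy, h0, h1, -⟩ := exists_row hNA hN0 (m := (io N)) (by rw [div_self hN0]; exact A.one_mem)
      h (by
        have := p1_cop hNA hN0 h A.one_mem ⟨0, A.zero_mem, 1, A.one_mem, by ring⟩
        simpa using this)
    have hxN : (io N) * x / io N ∈ A := by rw [mul_div_cancel_left₀ _ hN0]; exact hx
    have hu : u (io N * x) ∈ GN A (io N) := u_mem_GN hNA hN0 hxN
    have hy' : y * u (io N * x) ∈ GN A (io N) := (GN A (io N)).mul_mem hy hu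
    rw [p1_sy_eq hNA hN0 hy h0 h1]
    rw [p1_sy_eq hNA hN0 hy' (a := a) (b := b + a * io N * x)]
    · apply p1_mk_eq
      exact Es_conj hy.1 (u_mem_Es hNA hN0 hxN)
    · simp only [mul_app, u_00, u_01, u_10, u_11, h0, h1]
      ring
    · simp only [mul_app, u_00, u_01, u_10, u_11, h0, h1]
      ring
  · -- s3
    intro l hl hl0
    classical
    let θ : F → P1Q A (io N) := fun a =>
      if h : ∃ x, ∃ hx : x ∈ GN A (io N), ∃ hc : x 1 0 / (l ^ 2 * io N) ∈ A, x 0 0 = a then
        p1_mk A (io N) (dg l * Classical.choose h * (dg l)⁻¹ * (Classical.choose h)⁻¹)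
          ((GN A (io N)).mul_mem (p1_conj hNA hN0 hl hl0 (Classical.choose_spec h).choose
            (Classical.choose_spec h).choose_spec.choose).1
              ((GN A (io N)).inv_mem (Classical.choose_spec h).choose))
      else p1_mk A (io N) 1 hone
    refine ⟨θ, ?_⟩
    intro a b hab hal
    have hm : (l ^ 2 * io N : F) / io N ∈ A := by
      rw [mul_div_cancel_right₀ _ hN0]; exact A.pow_mem hl 2
    obtain ⟨y, hy, h0, h1, z, hz, hyz⟩ := exists_row hNA hN0 (m := (l ^ 2 * io N : F)) hm hab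
      (p1_cop hNA hN0 hab hl hal)
    have hmne : (l ^ 2 * io N : F) ≠ 0 := mul_ne_zero (pow_ne_zero 2 hl0) hN0
    have hc : y 1 0 / (l ^ 2 * io N) ∈ A := by
      rw [hyz, mul_div_cancel_left₀ _ hmne]; exact hz
    obtain ⟨hcy, c0, c1⟩ := p1_conj hNA hN0 hl hl0 hy hc
    have hex : ∃ x, ∃ hx : x ∈ GN A (io N), ∃ hc : x 1 0 / (l ^ 2 * io N) ∈ A, x 0 0 = a :=
      ⟨y, hy, hc, h0⟩
    have hθ : θ a = p1_mk A (io N) (dg l * y * (dg l)⁻¹ * y⁻¹)
        ((GN A (io N)).mul_mem hcy ((GN A (io N)).inv_mem hy)) := by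
      simp only [θ]
      rw [dif_pos hex]
      apply p1_mk_eq
      exact hA.chi hN hl hl0 (Classical.choose_spec hex).choose hy
        (Classical.choose_spec hex).choose_spec.choose hc
        ((Classical.choose_spec hex).choose_spec.choose_spec.trans h0.symm)
    rw [p1_sy_eq hNA hN0 hy h0 h1, p1_sy_eq hNA hN0 hcy (a := a) (b := l ^ 2 * b) (c0.trans h0)
      (by rw [c1, h1]), hθ]
    letI := c4_comm hA hN
    rw [mul_comm]
    change _ = p1_mk A (io N) _ _ * p1_mk A (io N) _ _
    rw [← mk_mul]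
    congr 1
    group
  · -- surj
    intro z
    induction z using QuotientGroup.induction_on with
    | H x =>
      refine ⟨(x : SL2 F) 0 0, (x : SL2 F) 0 1, p1_adm x.2, ?_⟩
      exact p1_sy_eq hNA hN0 x.2 rfl rfl
  · intro hfin
    rw [Subgroup.relIndex]
    exact (Subgroup.finiteIndex_of_finite_quotient (H := (Es A (io N)).subgroupOf
      (GN A (io N)))).index_ne_zero

end BoomFF
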