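import Pool.Agent.H.MP_4c7af0_al.FF.F0
import Pool.Agent.H.MP_4c7af0_al.NF.P1a
import Pool.Agent.H.MP_4c7af0_al.NF.P2b

/-! Boomerang subgroups, function field case (MP_4c7af0_al), step 4: symbols over a large prime. -/

namespace BoomFF

open BoomNF Polynomial

variable {F : Type*} [Field F] {A : Subring F} {P : Type*} [CommGroup P]

/-- Template: `Sym.neg_one` in `NF/P2a.lean`. -/
theorem symF_neg_one {N : F} (hN : N ∈ A) (hN0 : N ≠ 0) {sy : F → F → P}
    (hs : BoomNF.Sym A N sy) {a b : F} (ha0 : a ≠ 0) (h : Adm A N a b)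
    (hb : (b + 1) / a ∈ A) : sy a b = 1 := by
  obtain ⟨haA, haN, hbN, hab⟩ := h
  have h1 : Adm A N 1 (a - 1) :=
    ⟨A.one_mem, by simp [A.zero_mem], haN, ⟨1, A.one_mem, 0, A.zero_mem, by ring⟩⟩
  have h2 : Adm A N a (a - 1) :=
    ⟨haA, haN, haN, ⟨1, A.one_mem, -1, A.neg_mem A.one_mem, by ring⟩⟩
  have h3 : sy a (a - 1) = 1 := by
    have h4 := hs.s1 1 (a - 1) 1 h1 A.one_mem
    rw [mul_one, add_sub_cancel, hs.s0 (a - 1) haN] at h4
    exact h4
  obtain ⟨y, hy⟩ : ∃ y, y = (b + 1) / a - 1 := ⟨_, rfl⟩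
  have hyA : y ∈ A := by rw [hy]; exact A.sub_mem hb A.one_mem
  have hyN : y / N ∈ A := by
    have e : y / N = (b / N - (a - 1) / N) - (a - 1) / N * y := by
      rw [hy]
      field_simp
      ring
    rw [e]
    exact A.sub_mem (A.sub_mem hbN haN) (A.mul_mem haN hyA)
  have h5 := hs.s2 a (a - 1) (y / N) h2 hyN
  have e : a - 1 + a * N * (y / N) = b := by
    rw [hy]
    field_simp
    ring
  rw [e, h3] at h5
  exact h5

/-- Template: `Sym.exists_T` in `NF/P2a.lean`. -/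
theorem symF_exists_T {N : F} (hN : N ∈ A) (hN0 : N ≠ 0) {sy : F → F → P}
    (hs : BoomNF.Sym A N sy) {a : F} (ha : a ∈ A) (ha0 : a ≠ 0) (haN : (a - 1) / N ∈ A) :
    ∃ T : F → P, (∀ l ∈ A, l ≠ 0 → Cop A a l → ∀ b, Adm A N a b → sy a (l ^ 2 * b) = sy a b * T l) ∧
      (∀ l ∈ A, ∀ l' ∈ A, l ≠ 0 → l' ≠ 0 → Cop A a l → Cop A a l' → (l - l') / a ∈ A → T l = T l') ∧
      (∀ l ∈ A, ∀ l' ∈ A, l ≠ 0 → l' ≠ 0 → Cop A a l → Cop A a l' → T (l * l') = T l * T l') := by
  have ha1 : a - 1 ∈ A := A.sub_mem ha A.one_mem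
  have hc1 : Cop A a (a - 1) := ⟨1, A.one_mem, -1, A.neg_mem A.one_mem, by ring⟩
  have h2 : Adm A N a (a - 1) := ⟨ha, haN, haN, hc1⟩
  have h3 : sy a (a - 1) = 1 := symF_neg_one hN hN0 hs ha0 h2 (by
    rw [sub_add_cancel, div_self ha0]
    exact A.one_mem)
  have hadm : ∀ l ∈ A, Cop A a l → Adm A N a (l ^ 2 * (a - 1)) := by
    intro l hl hc
    refine ⟨ha, haN, ?_, ?_⟩
    · rw [mul_div_assoc]
      exact A.mul_mem (A.pow_mem hl 2) haN
    · rw [pow_two]
      exact Cop.mul_right ha (A.mul_mem hl hl) ha1 (Cop.mul_right ha hl hl hc hc) hc1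
  have key : ∀ l ∈ A, l ≠ 0 → Cop A a l → ∀ b, Adm A N a b →
      sy a (l ^ 2 * b) = sy a b * sy a (l ^ 2 * (a - 1)) := by
    intro l hl hl0 hc b hb
    obtain ⟨θ, hθ⟩ := hs.s3 l hl hl0
    rw [hθ a b hb hc, hθ a (a - 1) h2 hc, h3, one_mul]
  refine ⟨fun l => sy a (l ^ 2 * (a - 1)), key, ?_, ?_⟩
  · intro l hl l' hl' hl0 hl0' hc hc' hll
    have hx : (l - l') / a * (l + l') * ((a - 1) / N) ∈ A :=
      A.mul_mem (A.mul_mem hll (A.add_mem hl hl')) haN
    have h5 := hs.s2 a (l' ^ 2 * (a - 1)) _ (hadm l' hl' hc') hx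
    have e : l' ^ 2 * (a - 1) + a * N * ((l - l') / a * (l + l') * ((a - 1) / N)) =
        l ^ 2 * (a - 1) := by
      field_simp
      ring
    rw [e] at h5
    exact h5
  · intro l hl l' hl' hl0 hl0' hc hc'
    have h5 := key l hl hl0 hc _ (hadm l' hl' hc')
    have e : (l * l') ^ 2 * (a - 1) = l ^ 2 * (l' ^ 2 * (a - 1)) := by ring
    change sy a ((l * l') ^ 2 * (a - 1)) = sy a (l ^ 2 * (a - 1)) * sy a (l' ^ 2 * (a - 1))
    rw [e, h5, mul_comm]

section quot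

/-- the ring `A / π A` -/
abbrev c5_R {π : F} (hπ : π ∈ A) : Type _ := A ⧸ Ideal.span {(⟨π, hπ⟩ : A)}

/-- the quotient map -/
abbrev c5_mk {π : F} (hπ : π ∈ A) : A →+* c5_R hπ := Ideal.Quotient.mk _

theorem c5_mk_eq {π : F} (hπ : π ∈ A) (hq : π ≠ 0) (x y : A) :
    c5_mk hπ x = c5_mk hπ y ↔ ((x : F) - y) / π ∈ A := by
  rw [Ideal.Quotient.eq, Ideal.mem_span_singleton]
  constructor
  · rintro ⟨c, hc⟩
    have h1 : ((x : F) - y) = π * c := by
      have := congrArg (fun z : A => (z : F)) hc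
      simpa using this
    rw [h1, mul_div_cancel_left₀ _ hq]
    exact c.2
  · intro h
    refine ⟨⟨_, h⟩, ?_⟩
    apply Subtype.ext
    simp [mul_div_cancel₀ _ hq]

theorem c5_rep {π : F} (hπ : π ∈ A) (hq : π ≠ 0) (r : c5_R hπ) :
    ∃ l : A, (l : F) ≠ 0 ∧ c5_mk hπ l = r := by
  obtain ⟨l, rfl⟩ := Ideal.Quotient.mk_surjective r
  by_cases h : (l : F) = 0
  · refine ⟨⟨π, hπ⟩, by simpa using hq, ?_⟩
    rw [c5_mk_eq hπ hq, h]
    simp [hq, A.one_mem]
  · exact ⟨l, h, rfl⟩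

theorem c5_cop {π : F} (hπ : π ∈ A) (hq : π ≠ 0) {l : A} (h : IsUnit (c5_mk hπ l)) :
    Cop A π (l : F) := by
  obtain ⟨l', hl'⟩ := h.exists_right_inv
  obtain ⟨m, rfl⟩ := Ideal.Quotient.mk_surjective l'
  have h1 : c5_mk hπ (l * m) = c5_mk hπ 1 := by
    rw [map_mul, map_one]; exact hl'
  rw [c5_mk_eq hπ hq] at h1
  refine ⟨_, A.neg_mem h1, m, m.2, ?_⟩
  simp only [Subring.coe_mul, Subring.coe_one]
  field_simp
  ring

theorem c5_unit {π : F} (hπ : π ∈ A) (hq : π ≠ 0) {b : F} (hb : b ∈ A) (h : Cop A π b) :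
    IsUnit (c5_mk hπ ⟨b, hb⟩) := by
  obtain ⟨x, hx, y, hy, e⟩ := h
  refine IsUnit.of_mul_eq_one (c5_mk hπ ⟨y, hy⟩) ?_
  rw [← map_mul, ← map_one (c5_mk hπ), c5_mk_eq hπ hq]
  have : ((((⟨b, hb⟩ : A) * ⟨y, hy⟩ : A) : F) - ((1 : A) : F)) / π = - x := by
    simp only [Subring.coe_mul, Subring.coe_one]
    rw [← e]
    field_simp
    ring
  rw [this]
  exact A.neg_mem hx

theorem c5_finite {π : F} (hπ : π ∈ A) (hq : π ≠ 0)
    (hfin : ∃ T : Finset F, (∀ t ∈ T, t ∈ A) ∧ ∀ x ∈ A, ∃ t ∈ T, (x - t) / π ∈ A) :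
    Finite (c5_R hπ) := by
  obtain ⟨T, hT, h⟩ := hfin
  refine Finite.of_surjective (fun t : T => c5_mk hπ ⟨t.1, hT _ t.2⟩) ?_
  intro r
  obtain ⟨x, rfl⟩ := Ideal.Quotient.mk_surjective r
  obtain ⟨t, ht, h'⟩ := h x.1 x.2
  refine ⟨⟨t, ht⟩, ?_⟩
  exact ((c5_mk_eq hπ hq x ⟨t, hT _ ht⟩).2 h').symm

end quot

/-- Template: `SRing.exists_S` in `NF/P2.lean` with the rational prime `q` replaced by an element `π ∈ A`,
`π ≡ 1 mod N`; `hfin`: `A / π A` is finite; `hm`: the exponent of the units of `A / π A` divides `m`; `htors`: the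
torsion bound. (The quotient ring is `A ⧸ Ideal.span {(⟨π, hπ⟩ : A)}`; copy `p2_R`, `p2_mk_eq`, `p2_rep`, `p2_cop`,
`p2_unit`, `p2_finite` from `NF/P2.lean` with `π` instead of `q`.) -/
theorem exists_S_gen {N π : F} (hN : N ∈ A) (hN0 : N ≠ 0) (hπ : π ∈ A) (hπ0 : π ≠ 0)
    (hπN : (π - 1) / N ∈ A) {sy : F → F → P} (hs : BoomNF.Sym A N sy) {m r : ℕ}
    (hfin : ∃ T : Finset F, (∀ t ∈ T, t ∈ A) ∧ ∀ x ∈ A, ∃ t ∈ T, (x - t) / π ∈ A)
    (hm : ∀ x ∈ A, Cop A x π → (x ^ m - 1) / π ∈ A)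
    (htors : ∀ k : ℕ, 0 < k → ∀ T : Finset F, (∀ t ∈ T, t ∈ A ∧ (t ^ k - 1) / π ∈ A) →
      (∀ t ∈ T, ∀ t' ∈ T, (t - t') / π ∈ A → t = t') → T.card ≤ k ^ r) :
    ∃ S : Subgroup P, (∀ z ∈ S, z ^ m = 1) ∧
      (∀ k : ℕ, 0 < k → ∀ T : Finset P, (∀ z ∈ T, z ∈ S ∧ z ^ k = 1) → T.card ≤ k ^ r) ∧
      (∀ X : Finset P, (∀ z ∈ X, ∃ b, Adm A N π b ∧ sy π b = z) →
        ∃ Y ⊆ X, X.card ≤ 2 ^ r * Y.card ∧ ∀ y ∈ Y, ∀ y' ∈ Y, y / y' ∈ S) := by
  classical
  have hfin : Finite (c5_R hπ) := c5_finite hπ hπ0 hfin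
  obtain ⟨T, hT1, hT2, hT3⟩ := symF_exists_T hN hN0 hs hπ hπ0 hπN
  -- representatives of the units
  have hrep : ∀ b : (c5_R hπ)ˣ, ∃ l : A, (l : F) ≠ 0 ∧ c5_mk hπ l = b := fun b => c5_rep hπ hπ0 _
  choose rep hrep0 hrepm using hrep
  have hrepc : ∀ b, Cop A π (rep b : F) := fun b => c5_cop hπ hπ0 (by rw [hrepm]; exact b.isUnit)
  let φ : (c5_R hπ)ˣ →* P := MonoidHom.mk' (fun b => T (rep b)) (by
    intro a b
    have h1 : T ((rep a : F) * (rep b : F)) = T (rep a) * T (rep b) :=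
      hT3 _ (rep a).2 _ (rep b).2 (hrep0 a) (hrep0 b) (hrepc a) (hrepc b)
    rw [← h1]
    refine hT2 _ (rep (a * b)).2 _ (A.mul_mem (rep a).2 (rep b).2) (hrep0 _)
      (mul_ne_zero (hrep0 a) (hrep0 b)) (hrepc _)
      (Cop.mul_right hπ (rep a).2 (rep b).2 (hrepc a) (hrepc b)) ?_
    have h2 : c5_mk hπ (rep (a * b)) = c5_mk hπ (rep a * rep b) := by
      rw [hrepm, map_mul, hrepm, hrepm]; rfl
    have h3 := (c5_mk_eq hπ hπ0 _ _).1 h2
    simpa using h3)
  have hφ : ∀ b, φ b = T (rep b) := fun b => rfl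
  -- torsion of the units
  have htors' : ∀ k : ℕ, 0 < k →
      Nat.card {b : (c5_R hπ)ˣ // b ^ k = 1} ≤ k ^ (r) := by
    intro k hk
    have hft : Fintype {b : (c5_R hπ)ˣ // b ^ k = 1} := Fintype.ofFinite _
    have hinj : Function.Injective (fun b : {b : (c5_R hπ)ˣ // b ^ k = 1} => (rep b.1 : F)) := by
      intro b b' hbb
      have h1 : rep b.1 = rep b'.1 := Subtype.ext hbb
      have h2 : ((b.1 : (c5_R hπ)ˣ) : c5_R hπ) = b'.1 := by rw [← hrepm, ← hrepm, h1]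
      exact Subtype.ext (Units.ext h2)
    have h1 := htors k hk (Finset.univ.image
      (fun b : {b : (c5_R hπ)ˣ // b ^ k = 1} => (rep b.1 : F))) (by
        intro t ht
        simp only [Finset.mem_image, Finset.mem_univ, true_and] at ht
        obtain ⟨b, rfl⟩ := ht
        refine ⟨(rep b.1).2, ?_⟩
        have h2 : c5_mk hπ ((rep b.1) ^ k) = c5_mk hπ 1 := by
          rw [map_pow, hrepm, map_one, ← Units.val_pow_eq_pow_val, b.2]; rfl
        have h3 := (c5_mk_eq hπ hπ0 _ _).1 h2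
        simpa using h3) (by
        intro t ht t' ht' h0
        simp only [Finset.mem_image, Finset.mem_univ, true_and] at ht ht'
        obtain ⟨b, rfl⟩ := ht
        obtain ⟨b', rfl⟩ := ht'
        have h2 := (c5_mk_eq hπ hπ0 _ _).2 h0
        rw [hrepm, hrepm] at h2
        have h3 : b.1 = b'.1 := Units.ext h2
        rw [h3])
    rw [Finset.card_image_of_injective _ hinj, Finset.card_univ] at h1
    rwa [Nat.card_eq_fintype_card]
  refine ⟨φ.range, ?_, ?_, ?_⟩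
  · rintro z ⟨b, rfl⟩
    rw [← map_pow]
    have h1 : b ^ m = 1 := by
      have h2 := hm (rep b) (rep b).2 (hrepc b).symm
      have h3 : c5_mk hπ ((rep b) ^ m) = c5_mk hπ 1 := by
        rw [c5_mk_eq hπ hπ0]; simpa using h2
      rw [map_pow, hrepm, map_one] at h3
      exact Units.ext (by rw [Units.val_pow_eq_pow_val]; exact h3)
    rw [h1, map_one]
  · intro k hk X hX
    have h1 := card_tors_quot (B := (c5_R hπ)ˣ) (C := φ.range) φ.rangeRestrict
      φ.rangeRestrict_surjective k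
    have h2 : X.card ≤ Nat.card {c : φ.range // c ^ k = 1} := by
      have : Finite φ.range := Finite.of_surjective _ φ.rangeRestrict_surjective
      have hft : Fintype {c : φ.range // c ^ k = 1} := Fintype.ofFinite _
      rw [Nat.card_eq_fintype_card, ← Fintype.card_coe]
      refine Fintype.card_le_of_injective
        (fun z : X => (⟨⟨z.1, (hX _ z.2).1⟩, Subtype.ext (hX _ z.2).2⟩ : {c : φ.range // c ^ k = 1})) ?_
      intro z z' hzz
      have := congrArg (fun c : {c : φ.range // c ^ k = 1} => ((c.1 : φ.range) : P)) hzz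
      exact Subtype.ext this
    exact h2.trans (h1.trans (htors' k hk))
  · intro X hX
    have hX' : ∀ z : X, ∃ b, Adm A N π b ∧ sy π b = z := fun z => hX _ z.2
    choose bz hbz1 hbz2 using hX'
    have hbA : ∀ z : X, bz z ∈ A := by
      intro z
      have h1 := (hbz1 z).2.2.1
      have h2 := A.mul_mem h1 hN
      rwa [div_mul_cancel₀ _ hN0] at h2
    have hu : ∀ z : X, IsUnit (c5_mk hπ ⟨bz z, hbA z⟩) := fun z =>
      c5_unit hπ hπ0 (hbA z) (hbz1 z).2.2.2
    let D : Subgroup (c5_R hπ)ˣ := MonoidHom.range (powMonoidHom (α := (c5_R hπ)ˣ) 2)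
    let cl : X → (c5_R hπ)ˣ ⧸ D := fun z => QuotientGroup.mk (hu z).unit
    have hfq : Fintype ((c5_R hπ)ˣ ⧸ D) := Fintype.ofFinite _
    have hcardq : Fintype.card ((c5_R hπ)ˣ ⧸ D) ≤ 2 ^ (r) := by
      rw [← Nat.card_eq_fintype_card]
      have h1 := card_quot_sq (B := (c5_R hπ)ˣ)
      exact (le_of_eq h1).trans (htors' 2 (by norm_num))
    -- pigeonhole
    obtain ⟨c, -, hc⟩ := Finset.exists_max_image (Finset.univ : Finset ((c5_R hπ)ˣ ⧸ D))
      (fun c => (Finset.univ.filter fun z : X => cl z = c).card) ⟨QuotientGroup.mk 1, Finset.mem_univ _⟩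
    refine ⟨(Finset.univ.filter fun z : X => cl z = c).map (Function.Embedding.subtype _), ?_, ?_, ?_⟩
    · intro z hz
      simp only [Finset.mem_map, Finset.mem_filter, Finset.mem_univ, true_and,
        Function.Embedding.coe_subtype] at hz
      obtain ⟨a, -, rfl⟩ := hz
      exact a.2
    · rw [Finset.card_map]
      have h1 : X.card = ∑ c : (c5_R hπ)ˣ ⧸ D, (Finset.univ.filter fun z : X => cl z = c).card := by
        rw [← Finset.card_eq_sum_card_fiberwise (f := cl) (s := (Finset.univ : Finset X))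
          (t := Finset.univ) (fun _ _ => Finset.mem_coe.2 (Finset.mem_univ _))]
        simp
      rw [h1]
      calc ∑ c : (c5_R hπ)ˣ ⧸ D, (Finset.univ.filter fun z : X => cl z = c).card
          ≤ ∑ _c : (c5_R hπ)ˣ ⧸ D, (Finset.univ.filter fun z : X => cl z = c).card :=
            Finset.sum_le_sum fun i _ => hc i (Finset.mem_univ _)
        _ = Fintype.card ((c5_R hπ)ˣ ⧸ D) * (Finset.univ.filter fun z : X => cl z = c).card := by
            rw [Finset.sum_const, Finset.card_univ, smul_eq_mul]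
        _ ≤ _ := Nat.mul_le_mul_right _ hcardq
    · intro y hy y' hy'
      simp only [Finset.mem_map, Finset.mem_filter, Finset.mem_univ, true_and,
        Function.Embedding.coe_subtype] at hy hy'
      obtain ⟨a, ha, rfl⟩ := hy
      obtain ⟨a', ha', rfl⟩ := hy'
      have h1 : (QuotientGroup.mk (hu a').unit : (c5_R hπ)ˣ ⧸ D) = QuotientGroup.mk (hu a).unit := by
        rw [← show cl a = QuotientGroup.mk (hu a).unit from rfl,
          ← show cl a' = QuotientGroup.mk (hu a').unit from rfl, ha, ha']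
      rw [QuotientGroup.eq] at h1
      obtain ⟨l, hl⟩ := h1
      have hl' : (hu a).unit = l ^ 2 * (hu a').unit := by
        have : l ^ 2 = (hu a').unit⁻¹ * (hu a).unit := hl
        rw [this, mul_comm (hu a').unit⁻¹, inv_mul_cancel_right]
      have h2 : c5_mk hπ ⟨bz a, hbA a⟩ = c5_mk hπ ((rep l) ^ 2 * ⟨bz a', hbA a'⟩) := by
        have := congrArg (fun u : (c5_R hπ)ˣ => (u : c5_R hπ)) hl'
        simp only [Units.val_mul, Units.val_pow_eq_pow_val, IsUnit.unit_spec] at this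
        rw [this, map_mul, map_pow, hrepm]
      have h3 := (c5_mk_eq hπ hπ0 _ _).1 h2
      simp only [Subring.coe_mul, Subring.coe_pow] at h3
      -- the difference is divisible by q N
      have h4 : (bz a - (rep l : F) ^ 2 * bz a') / (π * N) ∈ A := by
        obtain ⟨m, hm⟩ : ∃ m ∈ A, (π - 1) / N = m := ⟨_, hπN, rfl⟩
        have hd1 : (bz a - (rep l : F) ^ 2 * bz a') / N ∈ A := by
          have h5 := (hbz1 a).2.2.1
          have h6 := A.mul_mem (A.pow_mem (rep l).2 2) (hbz1 a').2.2.1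
          have h7 := A.sub_mem h5 h6
          have h8 : bz a / N - (rep l : F) ^ 2 * (bz a' / N) = (bz a - (rep l : F) ^ 2 * bz a') / N := by
            ring
          rwa [h8] at h7
        have hmq : π = 1 + N * m := by
          rw [← hm.2]; field_simp; ring
        have h9 : (bz a - (rep l : F) ^ 2 * bz a') / (π * N)
            = (bz a - (rep l : F) ^ 2 * bz a') / N - (bz a - (rep l : F) ^ 2 * bz a') / π * m := by
          have hq0 : (1 + N * m) ≠ 0 := by rw [← hmq]; exact hπ0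
          rw [hmq]
          field_simp
          ring
        rw [h9]
        exact A.sub_mem hd1 (A.mul_mem h3 hm.1)
      have hadm : Adm A N π ((rep l : F) ^ 2 * bz a') := by
        refine ⟨hπ, hπN, ?_, ?_⟩
        · rw [mul_div_assoc]
          exact A.mul_mem (A.pow_mem (rep l).2 2) (hbz1 a').2.2.1
        · refine Cop.mul_right hπ (A.pow_mem (rep l).2 2) (hbA a') ?_ (hbz1 a').2.2.2
          rw [pow_two]
          exact Cop.mul_right hπ (rep l).2 (rep l).2 (hrepc l) (hrepc l)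
      have h5 := hs.s2 π ((rep l : F) ^ 2 * bz a') _ hadm h4
      have h6 : (rep l : F) ^ 2 * bz a' + π * N * ((bz a - (rep l : F) ^ 2 * bz a') / (π * N))
          = bz a := by
        field_simp
        ring
      rw [h6, hT1 _ (rep l).2 (hrep0 l) (hrepc l) _ (hbz1 a'), hbz2 a, hbz2 a'] at h5
      refine ⟨l, ?_⟩
      rw [hφ, h5]
      simp

end BoomFF
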