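import Pool.Agent.H.MP_4c7af0_al.FF.A2
import Pool.Agent.H.MP_4c7af0_al.NF.P1a

/-! Boomerang subgroups, function field case (MP_4c7af0_al), step 4: representing elements of `P` by
symbols over primes. -/

namespace BoomFF

open BoomNF Polynomial

variable {Fq F : Type*} [Field Fq] [Field F] {io : Fq[X] →+* F} {A : Subring F} {n h : ℕ}
  {P : Type*} [CommGroup P]

/-- first normalisation: `b ≠ 0` -/
theorem c6_ne_b (hA : FR io A n h) {N : Fq[X]} (hN : N ≠ 0) {sy : F → F → P}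
    (hs : BoomNF.Sym A (io N) sy) (z : P) :
    ∃ a b, Adm A (io N) a b ∧ b ≠ 0 ∧ sy a b = z := by
  obtain ⟨a, b, hab, hz⟩ := hs.surj z
  have hN0 : io N ≠ 0 := hA.io_ne hN
  by_cases hb : b = 0
  · subst hb
    obtain ⟨x, hx, y, hy, e⟩ := hab.2.2.2
    rw [zero_mul, add_zero] at e
    have ha0 : a ≠ 0 := by
      rintro rfl
      rw [zero_mul] at e
      exact zero_ne_one e
    refine ⟨a, 0 + a * io N * 1, ⟨hab.1, hab.2.1, ?_, ⟨x, hx, 0, A.zero_mem, ?_⟩⟩, ?_, ?_⟩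
    · rw [zero_add, mul_one, mul_div_cancel_right₀ _ hN0]
      exact hab.1
    · rw [mul_zero, add_zero]
      exact e
    · rw [zero_add, mul_one]
      exact mul_ne_zero ha0 hN0
    · rw [hs.s2 a 0 1 hab A.one_mem]
      exact hz
  · exact ⟨a, b, hab, hb, hz⟩

/-- second normalisation: `a ≠ 0` -/
theorem c6_norm (hA : FR io A n h) {N : Fq[X]} (hN : N ≠ 0) {sy : F → F → P}
    (hs : BoomNF.Sym A (io N) sy) (z : P) :
    ∃ a b, Adm A (io N) a b ∧ b ≠ 0 ∧ a ≠ 0 ∧ sy a b = z := by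
  obtain ⟨a, b, hab, hb, hz⟩ := c6_ne_b hA hN hs z
  have hN0 : io N ≠ 0 := hA.io_ne hN
  by_cases ha0 : a = 0
  · have hab' := hab
    obtain ⟨ha, ha1, hb1, hc⟩ := hab'
    have hbA : b ∈ A := by
      have : b = io N * (b / io N) := by field_simp
      rw [this]
      exact A.mul_mem (hA.mem N) hb1
    refine ⟨a + b * 1, b, ⟨?_, ?_, hb1, ?_⟩, hb, ?_, ?_⟩
    · exact A.add_mem ha (A.mul_mem hbA A.one_mem)
    · have : (a + b * 1 - 1) / io N = (a - 1) / io N + b / io N := by ring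
      rw [this]
      exact A.add_mem ha1 hb1
    · exact hc.add_mul A.one_mem
    · rw [ha0, zero_add, mul_one]
      exact hb
    · rw [hs.s1 a b 1 hab A.one_mem]
      exact hz
  · exact ⟨a, b, hab, hb, ha0, hz⟩

/-- Every `z ∈ P` is `s(a, N c)` with a good `c`. Template: `p3_ne_b`, `p3_norm`, `SRing.repr` in `NF/P3.lean`
(simpler: the conditions on `a^h`, `r^h` are dropped; `a ≠ 0` is reached by replacing `a` by `a + b`, `s1`, if
`a = 0`). -/
theorem FR.repr (hA : FR io A n h) {N : Fq[X]} (hN : N ≠ 0) {sy : F → F → P}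
    (hs : BoomNF.Sym A (io N) sy) {M₀ : Fq[X]} (hM₀ : M₀ ≠ 0) (z : P) :
    ∃ (c : F) (n₀ r : Fq[X]), c ∈ A ∧ n₀ ≠ 0 ∧ IsCoprime n₀ (N * M₀) ∧ IsCoprime r n₀ ∧
      ∀ f : Fq[X], n₀ ∣ f - r → N ∣ f - 1 →
        Adm A (io N) (io f) (io N * c) ∧ sy (io f) (io N * c) = z := by
  have hN0 : io N ≠ 0 := hA.io_ne hN
  have hM₀0 : io M₀ ≠ 0 := hA.io_ne hM₀
  have hNA : io N ∈ A := hA.mem N
  have hM₀A : io M₀ ∈ A := hA.mem M₀
  obtain ⟨a, b, hab, hb, ha0, hz⟩ := c6_norm hA hN hs z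
  have hab' := hab
  obtain ⟨ha, ha1, hb1, hc⟩ := hab'
  obtain ⟨b', hb'⟩ : ∃ b', b' = b / io N := ⟨_, rfl⟩
  have hbb : b = io N * b' := by rw [hb']; field_simp
  rw [← hb'] at hb1
  have hb'0 : b' ≠ 0 := by
    rintro rfl
    rw [mul_zero] at hbb
    exact hb hbb
  have hcop1 : Cop A b' a := by
    rw [hbb] at hc
    exact (Cop.of_mul_right_right hNA hc).symm
  obtain ⟨t, ht, hc0, hO, hcNM⟩ := hA.good' hb1 ha ha0 hcop1
    (M := io N * io M₀) (A.mul_mem hNA hM₀A) (mul_ne_zero hN0 hM₀0)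
  obtain ⟨c, hcdef⟩ : ∃ c, c = b' + a * t := ⟨_, rfl⟩
  rw [← hcdef] at hc0 hO hcNM
  have hcA : c ∈ A := by rw [hcdef]; exact A.add_mem hb1 (A.mul_mem ha ht)
  have hNc : b + a * io N * t = io N * c := by rw [hcdef, hbb]; ring
  have hNcd : io N * c / io N = c := by field_simp
  have hcopN : Cop A a (io N * c) := by
    have h1 := hc.symm.add_mul (t := io N * t) (A.mul_mem hNA ht)
    have h2 : b + a * (io N * t) = io N * c := by rw [← hNc]; ring
    rw [h2] at h1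
    exact h1.symm
  have hadm : Adm A (io N) a (io N * c) := ⟨ha, ha1, by rw [hNcd]; exact hcA, hcopN⟩
  have hsy : sy a (io N * c) = z := by
    rw [← hNc, hs.s2 a b t hab ht]
    exact hz
  have hcopc : Cop A a c := Cop.of_mul_right_right hNA hcopN
  obtain ⟨n₀, hn, hn'⟩ := hA.onto_gen hc0
  obtain ⟨r, hr, hrn⟩ := hA.onto_rep ha hc0 hO hn' hcopc
  have hcN : Cop A c (io N) := Cop.of_mul_right_left hM₀A hcNM
  have hcop2 : IsCoprime n₀ (N * M₀) := by
    have h1 : Cop A c (io (N * M₀)) := by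
      rw [map_mul]
      exact hcNM
    exact hA.onto_cop hc0 hO hn' h1
  refine ⟨c, n₀, r, hcA, hn, hcop2, hrn, fun q hq hq1 => ?_⟩
  have hqA : io q ∈ A := hA.mem q
  have e1 : (io q - a) / c ∈ A := by
    have h1 := (hn' (q - r)).2 hq
    have h2 : (io q - a) / c = io (q - r) / c - (a - io r) / c := by
      rw [map_sub]
      ring
    rw [h2]
    exact A.sub_mem h1 hr
  have e2 : (io q - 1) / io N ∈ A := by
    obtain ⟨m, hm⟩ := hq1
    have h1 : io q - 1 = io N * io m := by rw [← map_mul, ← hm, map_sub, map_one]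
    rw [h1, mul_div_cancel_left₀ _ hN0]
    exact hA.mem m
  have e3 : (io q - a) / io N ∈ A := by
    have h2 : (io q - a) / io N = (io q - 1) / io N - (a - 1) / io N := by ring
    rw [h2]
    exact A.sub_mem e2 ha1
  obtain ⟨x, hx⟩ : ∃ x, x = (io q - a) / (io N * c) := ⟨_, rfl⟩
  have hxA : x ∈ A := by
    obtain ⟨u, hu, v, hv, huv⟩ := hcN
    have h1 : x = (io q - a) / io N * u + (io q - a) / c * v := by
      have h2 : x = (io q - a) / (io N * c) * (c * u + io N * v) := by rw [huv, mul_one, hx]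
      rw [h2]
      field_simp
    rw [h1]
    exact A.add_mem (A.mul_mem e3 hu) (A.mul_mem e1 hv)
  have hq2 : io q = a + io N * c * x := by
    rw [hx]
    field_simp
    ring
  refine ⟨⟨hqA, e2, by rw [hNcd]; exact hcA, ?_⟩, ?_⟩
  · rw [hq2]
    exact hcopN.add_mul hxA
  · rw [hq2, hs.s1 a (io N * c) x hadm hxA]
    exact hsy

/-- the same for a finite set. Template: `SRing.repr_finset` in `NF/P3.lean`. -/
theorem FR.repr_finset (hA : FR io A n h) {N : Fq[X]} (hN : N ≠ 0) {sy : F → F → P}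
    (hs : BoomNF.Sym A (io N) sy) (Z : Finset P) :
    ∃ n₀ r : Fq[X], n₀ ≠ 0 ∧ IsCoprime n₀ N ∧ IsCoprime r n₀ ∧
      ∀ f : Fq[X], n₀ ∣ f - r → N ∣ f - 1 →
        ∀ z ∈ Z, ∃ b, Adm A (io N) (io f) b ∧ sy (io f) b = z := by
  classical
  induction Z using Finset.induction_on with
  | empty =>
    refine ⟨1, 0, one_ne_zero, isCoprime_one_left, isCoprime_one_right, fun q _ _ z hz => ?_⟩
    exact absurd hz (Finset.notMem_empty z)
  | insert z Z _ ih =>
    obtain ⟨n₁, r₁, hn₁, hc₁, hr₁, hX⟩ := ih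
    obtain ⟨c, n₂, r₂, hcA, hn₂, hc₂, hr₂, hz⟩ := hA.repr hN hs hn₁ z
    have hc3 : IsCoprime n₁ n₂ := (IsCoprime.of_mul_right_right hc₂).symm
    obtain ⟨u, v, huv⟩ := hc3
    obtain ⟨r, hr⟩ : ∃ r : Fq[X], r = r₂ * u * n₁ + r₁ * v * n₂ := ⟨_, rfl⟩
    have d1 : n₁ ∣ r - r₁ := ⟨u * (r₂ - r₁), by rw [hr]; linear_combination r₁ * huv⟩
    have d2 : n₂ ∣ r - r₂ := ⟨v * (r₁ - r₂), by rw [hr]; linear_combination r₂ * huv⟩
    have cop : ∀ {n x y : Fq[X]}, n ∣ x - y → IsCoprime y n → IsCoprime x n := by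
      intro n x y hd hy
      obtain ⟨k, hk⟩ := hd
      have : x = y + n * k := by linear_combination hk
      rw [this]
      exact hy.add_mul_left_left k
    refine ⟨n₁ * n₂, r, mul_ne_zero hn₁ hn₂, ?_, ?_, fun q hq hq1 => ?_⟩
    · exact IsCoprime.mul_left hc₁ (IsCoprime.of_mul_right_left hc₂)
    · exact (cop d1 hr₁).mul_right (cop d2 hr₂)
    · have q1 : n₁ ∣ q - r₁ := by
        have : q - r₁ = (q - r) + (r - r₁) := by ring
        rw [this]
        exact dvd_add ((Dvd.intro _ rfl).trans hq) d1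
      have q2 : n₂ ∣ q - r₂ := by
        have : q - r₂ = (q - r) + (r - r₂) := by ring
        rw [this]
        exact dvd_add ((Dvd.intro_left _ rfl).trans hq) d2
      intro z' hz'
      rcases Finset.mem_insert.1 hz' with rfl | hz'
      · exact ⟨io N * c, hz q q2 hq1⟩
      · exact hX q q1 hq1 z' hz'

end BoomFF
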