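import Pool.Agent.H.MP_4c7af0_al.FF.C4
import Pool.Agent.H.MP_4c7af0_al.FF.C5
import Pool.Agent.H.MP_4c7af0_al.FF.C6
import Pool.Agent.H.MP_4c7af0_al.FF.D7b

/-! Boomerang subgroups, function field case (MP_4c7af0_al), step 4: `E*(N)` has finite index. -/

namespace BoomFF

open BoomNF Polynomial

variable {Fq F : Type*} [Field Fq] [Field F] {io : Fq[X] →+* F} {A : Subring F} {n h : ℕ}
  {P : Type*} [CommGroup P]

/-- The subgroup `S` for a large prime `f ≡ 1 mod N`: `exists_S_gen` with `π = io f`,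
`m = q^(h deg f) - 1` (`FR.frob`: `x (x^m - 1) / f ∈ A`, and `x` is coprime to `f`), `r = n`, `FR.fin`, `FR.tors`. -/
theorem FR.exists_S (hA : FR io A n h) {N : Fq[X]} (hN : N ≠ 0) {sy : F → F → P}
    (hs : BoomNF.Sym A (io N) sy) :
    ∃ B : ℕ, ∀ f : Fq[X], Irreducible f → B < f.natDegree → N ∣ f - 1 →
      ∃ S : Subgroup P, (∀ z ∈ S, z ^ (Nat.card Fq ^ (h * f.natDegree) - 1) = 1) ∧
        (∀ k : ℕ, 0 < k → ∀ T : Finset P, (∀ z ∈ T, z ∈ S ∧ z ^ k = 1) → T.card ≤ k ^ n) ∧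
        (∀ Z : Finset P, (∀ z ∈ Z, ∃ b, Adm A (io N) (io f) b ∧ sy (io f) b = z) →
          ∃ Y ⊆ Z, Z.card ≤ 2 ^ n * Y.card ∧ ∀ y ∈ Y, ∀ y' ∈ Y, y / y' ∈ S) := by
  obtain ⟨B₁, hB₁⟩ := hA.tors
  obtain ⟨B₂, hB₂⟩ := hA.frob
  refine ⟨max B₁ B₂, ?_⟩
  intro f hf hBf hNf
  have hf1 : B₁ < f.natDegree := lt_of_le_of_lt (le_max_left _ _) hBf
  have hf2 : B₂ < f.natDegree := lt_of_le_of_lt (le_max_right _ _) hBf
  have hf0 : io f ≠ 0 := hA.io_ne hf.ne_zero
  have hN0 : io N ≠ 0 := hA.io_ne hN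
  refine exists_S_gen (hA.mem N) hN0 (hA.mem f) hf0 ?_ hs (hA.fin _ (hA.mem f) hf0) ?_
    (fun k hk T hT hTd => hB₁ f hf hf1 k hk T hT hTd)
  · have := hA.io_div hN hNf
    rwa [map_sub, map_one] at this
  · intro x hx hxf
    obtain ⟨a, ha, b, hb, hab⟩ := hxf
    have h1 := hB₂ f hf hf2 x hx
    rcases Nat.eq_zero_or_pos (Nat.card Fq ^ (h * f.natDegree)) with h0 | hq
    · rw [h0]
      simp [A.zero_mem]
    have e : x ^ (Nat.card Fq ^ (h * f.natDegree)) =
        x * x ^ (Nat.card Fq ^ (h * f.natDegree) - 1) := by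
      rw [← pow_succ', Nat.sub_add_cancel hq]
    have e2 : (x ^ (Nat.card Fq ^ (h * f.natDegree) - 1) - 1) / io f =
        a * ((x ^ (Nat.card Fq ^ (h * f.natDegree)) - x) / io f) +
          b * (x ^ (Nat.card Fq ^ (h * f.natDegree) - 1) - 1) := by
      rw [e]
      field_simp
      linear_combination (-(x ^ (Nat.card Fq ^ (h * f.natDegree) - 1) - 1)) * hab
    rw [e2]
    exact A.add_mem (A.mul_mem ha h1) (A.mul_mem hb (A.sub_mem (A.pow_mem hx _) A.one_mem))

/-- `P` is finite. Template: `SRing.sym_finite` in `NF/P4.lean`: every finite `Z ⊆ P` has at most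
`2^n 2^n (q^h - 1)^n` elements. `repr_finset` gives `n₀, r`; by the Chinese remainder theorem and `dirichlet`
(modulus `n₀ N`) there are primes `f, f'` of degree larger than the `B` of `exists_S`, congruent to `r` mod `n₀` and
to `1` mod `N`, with `deg f' ≡ 1 mod deg f`, so the degrees are coprime and
`gcd(q^(h deg f) - 1, q^(h deg f') - 1) = q^h - 1` (`Nat.pow_sub_one_gcd_pow_sub_one`). `q^h - 1 > 0`. -/
theorem FR.sym_finite [Finite Fq] (hA : FR io A n h) {N : Fq[X]} (hN : N ≠ 0) {sy : F → F → P}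
    (hs : BoomNF.Sym A (io N) sy) : Finite P := by
  classical
  have hq1 : 1 < Nat.card Fq := Finite.one_lt_card
  set g : ℕ := Nat.card Fq ^ h - 1 with hg
  have hg0 : 0 < g := by
    have : 1 < Nat.card Fq ^ h := Nat.one_lt_pow hA.hpos.ne' hq1
    omega
  have key : ∀ Z : Finset P, Z.card ≤ 2 ^ n * (2 ^ n * g ^ n) := by
    intro Z
    obtain ⟨n₀, r, hn, hcop, hr, hrep⟩ := hA.repr_finset hN hs Z
    obtain ⟨B, hB⟩ := hA.exists_S hN hs
    obtain ⟨a, b, hab⟩ := hcop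
    obtain ⟨r', hr'⟩ : ∃ r' : Fq[X], r' = a * n₀ + r * (b * N) := ⟨_, rfl⟩
    have d1 : n₀ ∣ r' - r := ⟨a - r * a, by rw [hr']; linear_combination r * hab⟩
    have d2 : N ∣ r' - 1 := ⟨r * b - b, by rw [hr']; linear_combination hab⟩
    have hcop' : IsCoprime r' (n₀ * N) := by
      refine IsCoprime.mul_right ?_ ?_
      · obtain ⟨k, hk⟩ := d1
        have : r' = r + n₀ * k := by linear_combination hk
        rw [this]
        exact hr.add_mul_left_left k
      · obtain ⟨k, hk⟩ := d2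
        have : r' = 1 + N * k := by linear_combination hk
        rw [this]
        exact isCoprime_one_left.add_mul_left_left k
    have hnN : n₀ * N ≠ 0 := mul_ne_zero hn hN
    obtain ⟨f, -, hf, hfd, hfB, -⟩ := dirichlet hnN hcop' (M := 1) one_pos 0 B
    have hfpos : 0 < f.natDegree := lt_of_le_of_lt (Nat.zero_le _) hfB
    obtain ⟨f', -, hf', hfd', hfB', hdeg⟩ := dirichlet hnN hcop' (M := f.natDegree) hfpos 1 B
    have hcd : Nat.Coprime f.natDegree f'.natDegree := by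
      have h1 : Nat.gcd f'.natDegree f.natDegree = Nat.gcd 1 f.natDegree := hdeg.gcd_eq
      rw [Nat.coprime_comm]
      rw [Nat.Coprime, h1, Nat.gcd_one_left]
    have hx : ∀ p : Fq[X], n₀ * N ∣ p - r' → n₀ ∣ p - r ∧ N ∣ p - 1 := by
      intro p hp
      constructor
      · have e : p - r = (p - r') + (r' - r) := by ring
        rw [e]
        exact dvd_add ((Dvd.intro _ rfl).trans hp) d1
      · have e : p - 1 = (p - r') + (r' - 1) := by ring
        rw [e]
        exact dvd_add ((Dvd.intro_left _ rfl).trans hp) d2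
    obtain ⟨hf1, hf2⟩ := hx f hfd
    obtain ⟨hf1', hf2'⟩ := hx f' hfd'
    have g1 := hrep f hf1 hf2
    have g2 := hrep f' hf1' hf2'
    obtain ⟨S, hS1, hS2, hS3⟩ := hB f hf hfB hf2
    obtain ⟨S', hS1', hS2', hS3'⟩ := hB f' hf' hfB' hf2'
    obtain ⟨Y, hYX, hY1, hY2⟩ := hS3 Z g1
    obtain ⟨Y', hYY, hY1', hY2'⟩ := hS3' Y (fun z hz => g2 z (hYX hz))
    have hgcd : Nat.gcd (Nat.card Fq ^ (h * f.natDegree) - 1)
        (Nat.card Fq ^ (h * f'.natDegree) - 1) = g := by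
      rw [Nat.pow_sub_one_gcd_pow_sub_one, Nat.gcd_mul_left, hcd, mul_one]
    have hcard : Y'.card ≤ g ^ n := by
      rcases Y'.eq_empty_or_nonempty with h6 | ⟨y0, hy0⟩
      · rw [h6]; exact Nat.zero_le _
      · have h7 : (Y'.image (fun y => y / y0)).card = Y'.card :=
          Finset.card_image_of_injective _ (fun y y' h => div_left_injective h)
        rw [← h7]
        refine hS2 _ hg0 _ (fun z hz => ?_)
        obtain ⟨y, hy, rfl⟩ := Finset.mem_image.1 hz
        have h8 : y / y0 ∈ S := hY2 y (hYY hy) y0 (hYY hy0)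
        have h9 : y / y0 ∈ S' := hY2' y hy y0 hy0
        refine ⟨h8, ?_⟩
        have h10 := orderOf_dvd_of_pow_eq_one (hS1 _ h8)
        have h11 := orderOf_dvd_of_pow_eq_one (hS1' _ h9)
        have h12 := Nat.dvd_gcd h10 h11
        rw [hgcd] at h12
        exact orderOf_dvd_iff_pow_eq_one.1 h12
    refine hY1.trans (Nat.mul_le_mul_left _ (hY1'.trans (Nat.mul_le_mul_left _ hcard)))
  by_contra hinf
  rw [not_finite_iff_infinite] at hinf
  obtain ⟨Z, hZ⟩ := Infinite.exists_subset_card_eq P (2 ^ n * (2 ^ n * g ^ n) + 1)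
  have := key Z
  omega

/-- Step 4. (`exists_sym`, `sym_finite`, `GRing.GN_relIndex`; template `SRing.step4` in `NF/P4.lean`.) -/
theorem FR.step4 [Finite Fq] (hA : FR io A n h) {N : Fq[X]} (hN : N ≠ 0) :
    (Es A (io N)).relIndex (G A) ≠ 0 := by
  obtain ⟨P, _, sy, hs, hfin⟩ := hA.exists_sym hN
  have h1 : (Es A (io N)).relIndex (GN A (io N)) ≠ 0 := hfin (hA.sym_finite hN hs)
  have h2 : (GN A (io N)).relIndex (G A) ≠ 0 := hA.gring.GN_relIndex (hA.mem N) (hA.io_ne hN)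
  rw [← Subgroup.relIndex_mul_relIndex (Es A (io N)) (GN A (io N)) (G A) Es_le_GN GN_le]
  exact mul_ne_zero h1 h2

end BoomFF
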