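import Pool.Agent.H.MP_4c7af0_al.NF.Rng2
import Pool.Agent.H.MP_4c7af0_al.FF.F0

/-! Generic ring facts (MP_4c7af0_al, function field case). Templates: `NF/Rng1.lean`,
`NF/Rng2.lean`, `NF/Rng4.lean`. -/

namespace BoomFF

open BoomNF

variable {F : Type*} [Field F] {A : Subring F}

/-- every nonzero `α ∈ F` divides a nonzero element of `A` -/
theorem GRing.dvd (hA : GRing A) {α : F} (h0 : α ≠ 0) : ∃ d ∈ A, d ≠ 0 ∧ d / α ∈ A := by
  obtain ⟨d, hd, hd0, h1⟩ := hA.den α⁻¹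
  exact ⟨d, hd, hd0, by rwa [div_eq_mul_inv]⟩

/-- some power of a unit is `1` mod `α` (pigeonhole in `A / α`). -/
theorem GRing.unit_pow (hA : GRing A) {ε α : F} (hε0 : ε ≠ 0) (hε : ε ∈ A) (hεi : ε⁻¹ ∈ A)
    (hα : α ∈ A) (h0 : α ≠ 0) : ∃ k : ℕ, 0 < k ∧ (ε ^ k - 1) / α ∈ A := by
  obtain ⟨T, -, hT⟩ := hA.fin α hα h0
  choose f hf using fun k : ℕ => hT (ε ^ k) (A.pow_mem hε k)
  obtain ⟨i, j, hij, he⟩ := Finite.exists_ne_map_eq_of_infinite
    (fun k : ℕ => (⟨f k, (hf k).1⟩ : T))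
  have he' : f i = f j := congrArg Subtype.val he
  wlog hlt : i < j generalizing i j
  · exact this j i hij.symm he.symm he'.symm (lt_of_le_of_ne (not_lt.mp hlt) hij.symm)
  obtain ⟨l, hl, rfl⟩ : ∃ l, 0 < l ∧ j = i + l := ⟨j - i, by omega, by omega⟩
  refine ⟨l, hl, ?_⟩
  have h1 : (ε ^ (i + l) - f (i + l)) / α - (ε ^ i - f i) / α ∈ A :=
    A.sub_mem (hf _).2 (hf _).2
  have e : (ε ^ l - 1) / α = ε⁻¹ ^ i * ((ε ^ (i + l) - f (i + l)) / α - (ε ^ i - f i) / α) := by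
    rw [he', pow_add, inv_pow]
    field_simp
    ring
  rw [e]
  exact A.mul_mem (A.pow_mem hεi i) h1

/-- If `a, b` generate the unit ideal of `A` and `M ≠ 0` then there is `t` with `a + b t` nonzero
and coprime to `M`. -/
theorem GRing.coprime_lift (hA : GRing A) {a b M : F} (ha : a ∈ A) (hb : b ∈ A) (hM : M ∈ A)
    (hM0 : M ≠ 0) (hab : Cop A a b) : ∃ t ∈ A, a + b * t ≠ 0 ∧ Cop A (a + b * t) M := by
  obtain ⟨x, hx, y, hy, e⟩ := hab
  obtain ⟨T, hT, hT'⟩ := hA.fin M hM hM0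
  let I : Ideal A := Ideal.span {⟨M, hM⟩}
  have hI : ∀ (r s : A), ((r : F) - s) / M ∈ A → Ideal.Quotient.mk I r = Ideal.Quotient.mk I s := by
    intro r s h
    rw [Ideal.Quotient.eq, Ideal.mem_span_singleton']
    refine ⟨⟨_, h⟩, Subtype.ext ?_⟩
    change ((r : F) - s) / M * M = (r : F) - s
    field_simp
  have hfin : Finite (A ⧸ I) := by
    refine Finite.of_surjective (fun t : T => Ideal.Quotient.mk I ⟨t.1, hT _ t.2⟩) ?_
    intro q
    obtain ⟨r, rfl⟩ := Ideal.Quotient.mk_surjective q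
    obtain ⟨t, ht, h⟩ := hT' r.1 r.2
    exact ⟨⟨t, ht⟩, (hI r ⟨t, hT _ ht⟩ h).symm⟩
  have h1 : Ideal.Quotient.mk I ⟨a, ha⟩ * Ideal.Quotient.mk I ⟨x, hx⟩ +
      Ideal.Quotient.mk I ⟨b, hb⟩ * Ideal.Quotient.mk I ⟨y, hy⟩ = 1 := by
    rw [← map_mul, ← map_mul, ← map_add, ← map_one (Ideal.Quotient.mk I)]
    congr 1
    exact Subtype.ext e
  obtain ⟨t, w, htw⟩ := rng2_sr _ _ _ _ h1
  obtain ⟨t, rfl⟩ := Ideal.Quotient.mk_surjective t
  obtain ⟨w, rfl⟩ := Ideal.Quotient.mk_surjective w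
  have hcop : Cop A (a + b * t) M := by
    rw [← map_mul, ← map_add, ← map_mul, ← map_one (Ideal.Quotient.mk I), Ideal.Quotient.eq,
      Ideal.mem_span_singleton'] at htw
    obtain ⟨z, hz⟩ := htw
    have hz' : (z : F) * M = (a + b * t) * w - 1 := congrArg Subtype.val hz
    refine ⟨w, w.2, -z, A.neg_mem z.2, ?_⟩
    linear_combination - hz'
  by_cases h0 : a + b * t = 0
  · obtain ⟨p, hp, q, hq, hpq⟩ := hcop
    rw [h0, zero_mul, zero_add] at hpq
    by_cases ha0 : a = 0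
    · refine ⟨1, A.one_mem, ?_, 0, A.zero_mem, q, hq, by rw [mul_zero, zero_add, hpq]⟩
      intro hb0
      rw [ha0, mul_one, zero_add] at hb0
      rw [ha0, hb0, zero_mul, zero_mul, add_zero] at e
      exact zero_ne_one e
    · refine ⟨0, A.zero_mem, by rwa [mul_zero, add_zero], 0, A.zero_mem, q, hq,
        by rw [mul_zero, zero_add, hpq]⟩
  · exact ⟨t, t.2, h0, hcop⟩

/-- `Γ(N)` has finite index in `SL₂(A)`. -/
theorem GRing.GN_relIndex (hA : GRing A) {N : F} (hN : N ∈ A) (hN0 : N ≠ 0) :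
    (GN A N).relIndex (G A) ≠ 0 := by
  classical
  obtain ⟨T, -, hT⟩ := hA.fin N hN hN0
  have hres : ∀ g : G A, ∃ r : Fin 2 → Fin 2 → T, ∀ i j,
      (((g : SL2 F) i j) - ((r i j : T) : F)) / N ∈ A := by
    intro g
    have h1 : ∀ i j, ∃ t : T, (((g : SL2 F) i j) - (t : F)) / N ∈ A := by
      intro i j
      obtain ⟨t, ht, h⟩ := hT _ (g.2 i j)
      exact ⟨⟨t, ht⟩, h⟩
    choose r hr using h1
    exact ⟨r, hr⟩
  choose φ hφ using hres
  have hfin : Finite ((G A) ⧸ (GN A N).subgroupOf (G A)) := by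
    refine Finite.of_injective (fun q : (G A) ⧸ (GN A N).subgroupOf (G A) => φ q.out) ?_
    intro q q' h
    simp only at h
    rw [← q.out_eq', ← q'.out_eq']
    apply QuotientGroup.eq.2
    rw [Subgroup.mem_subgroupOf]
    change ((q.out : G A) : SL2 F)⁻¹ * ((q'.out : G A) : SL2 F) ∈ GN A N
    apply inv_mul_mem_GN (q.out : G A).2 (q'.out : G A).2
    intro i j
    have h1 := hφ q.out i j
    have h2 := hφ q'.out i j
    rw [← h] at h2
    have : ((((q'.out : G A) : SL2 F) i j) - (((q.out : G A) : SL2 F) i j)) / N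
        = ((((q'.out : G A) : SL2 F) i j) - ((φ q.out i j : T) : F)) / N
          - ((((q.out : G A) : SL2 F) i j) - ((φ q.out i j : T) : F)) / N := by ring
    rw [this]
    exact A.sub_mem h2 h1
  rw [Subgroup.relIndex]
  exact Subgroup.index_ne_zero_of_finite

/-- a power of every element of `Γ` lies in a finite index subgroup -/
theorem exists_pow_memF {H Γ : Subgroup (SL2 F)} (h : H.relIndex Γ ≠ 0) {g : SL2 F} (hg : g ∈ Γ) :
    ∃ j : ℕ, 0 < j ∧ g ^ j ∈ H := by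
  have hfi : (H.subgroupOf Γ).FiniteIndex := ⟨h⟩
  obtain ⟨j, hj, -, hjK⟩ := Subgroup.exists_pow_mem_of_index_ne_zero h ⟨g, hg⟩
  refine ⟨j, hj, ?_⟩
  rw [Subgroup.mem_subgroupOf] at hjK
  simpa using hjK

end BoomFF
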