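import Pool.Agent.H.MP_4c7af0_al.FF.R2
import Pool.Agent.H.MP_4c7af0_al.FF.G1

/-! Finitely many cusps (MP_4c7af0_al, function field case). Template `NF/Cusp.lean`. -/

namespace BoomFF

open BoomNF Polynomial nonZeroDivisors

section Dedekind

variable {O K : Type*} [CommRing O] [IsDedekindDomain O] [Field K] [Algebra O K]
  [IsFractionRing O K]

/-- the fractional ideal generated by the first column -/
noncomputable def r10_J (O : Type*) [CommRing O] [IsDedekindDomain O] {K : Type*}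
    [Field K] [Algebra O K] [IsFractionRing O K] (s : SL2 K) : FractionalIdeal O⁰ K :=
  FractionalIdeal.spanSingleton _ (s 0 0) + FractionalIdeal.spanSingleton _ (s 1 0)

theorem r10_mem0 (s : SL2 K) : s 0 0 ∈ r10_J O s :=
  (FractionalIdeal.mem_add _ _ _).2 ⟨s 0 0, FractionalIdeal.mem_spanSingleton_self _ _, 0,
    FractionalIdeal.zero_mem _, add_zero _⟩

theorem r10_mem1 (s : SL2 K) : s 1 0 ∈ r10_J O s :=
  (FractionalIdeal.mem_add _ _ _).2 ⟨0, FractionalIdeal.zero_mem _, s 1 0,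
    FractionalIdeal.mem_spanSingleton_self _ _, zero_add _⟩

theorem r10_ne (s : SL2 K) : r10_J O s ≠ 0 := by
  intro h
  have h0 := r10_mem0 (O := O) s
  have h1 := r10_mem1 (O := O) s
  rw [h, FractionalIdeal.mem_zero_iff] at h0 h1
  have hd := det_eq s
  rw [h0, h1] at hd
  simp at hd

/-- as a unit of the monoid of fractional ideals -/
noncomputable def r10_U (O : Type*) [CommRing O] [IsDedekindDomain O] {K : Type*}
    [Field K] [Algebra O K] [IsFractionRing O K] (s : SL2 K) : (FractionalIdeal O⁰ K)ˣ :=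
  Units.mk0 _ (r10_ne (O := O) s)

/-- `a d - b c = 1` with `b, d ∈ I⁻¹` for generators `a, c` of `I`. -/
theorem r10_dual (I : (FractionalIdeal O⁰ K)ˣ) (a c : K)
    (h : (I : FractionalIdeal O⁰ K) =
      FractionalIdeal.spanSingleton _ a + FractionalIdeal.spanSingleton _ c) :
    ∃ b ∈ ((I⁻¹ : (FractionalIdeal O⁰ K)ˣ) : FractionalIdeal O⁰ K),
      ∃ d ∈ ((I⁻¹ : (FractionalIdeal O⁰ K)ˣ) : FractionalIdeal O⁰ K),
      a * d - b * c = 1 := by
  have h1 : (1 : K) ∈ (I : FractionalIdeal O⁰ K) *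
      ((I⁻¹ : (FractionalIdeal O⁰ K)ˣ) : FractionalIdeal O⁰ K) := by
    rw [Units.mul_inv]
    exact FractionalIdeal.one_mem_one _
  rw [h, add_mul, FractionalIdeal.mem_add] at h1
  obtain ⟨x, hx, y, hy, hxy⟩ := h1
  obtain ⟨d, hd, rfl⟩ := FractionalIdeal.mem_singleton_mul.mp hx
  obtain ⟨b, hb, rfl⟩ := FractionalIdeal.mem_singleton_mul.mp hy
  refine ⟨-b, ?_, d, hd, ?_⟩
  · exact (((I⁻¹ : (FractionalIdeal O⁰ K)ˣ) : FractionalIdeal O⁰ K) :
      Submodule O K).neg_mem hb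
  · rw [← hxy]
    ring

theorem r10_int (I : (FractionalIdeal O⁰ K)ˣ) {x y : K}
    (hx : x ∈ (I : FractionalIdeal O⁰ K))
    (hy : y ∈ ((I⁻¹ : (FractionalIdeal O⁰ K)ˣ) : FractionalIdeal O⁰ K)) :
    ∃ z : O, x * y = algebraMap O K z := by
  have h := FractionalIdeal.mul_mem_mul hx hy
  rw [Units.mul_inv, FractionalIdeal.mem_one_iff] at h
  obtain ⟨z, hz⟩ := h
  exact ⟨z, hz.symm⟩

/-- the key step: two elements of the same class -/
theorem r10_same (s σ : SL2 K) (l : K) (hl : l ≠ 0)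
    (h : r10_J O s = FractionalIdeal.spanSingleton _ l * r10_J O σ) : ∃ h : SL2 K,
    (∀ i j, ∃ z : O, h i j = algebraMap O K z) ∧ ∃ b : SL2 K, b 1 0 = 0 ∧ s = h * σ * b := by
  have ha : s 0 0 / l ∈ r10_J O σ := by
    have h1 := r10_mem0 (O := O) s
    rw [h] at h1
    obtain ⟨y, hy, e⟩ := FractionalIdeal.mem_singleton_mul.mp h1
    rwa [e, mul_div_cancel_left₀ _ hl]
  have hc : s 1 0 / l ∈ r10_J O σ := by
    have h1 := r10_mem1 (O := O) s
    rw [h] at h1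
    obtain ⟨y, hy, e⟩ := FractionalIdeal.mem_singleton_mul.mp h1
    rwa [e, mul_div_cancel_left₀ _ hl]
  have hJ : (r10_U O σ : FractionalIdeal O⁰ K) =
      FractionalIdeal.spanSingleton _ (s 0 0 / l) + FractionalIdeal.spanSingleton _ (s 1 0 / l) := by
    change r10_J O σ = _
    have h1 : r10_J O σ = FractionalIdeal.spanSingleton _ l⁻¹ * r10_J O s := by
      rw [h, ← mul_assoc, FractionalIdeal.spanSingleton_mul_spanSingleton, inv_mul_cancel₀ hl,
        FractionalIdeal.spanSingleton_one, one_mul]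
    rw [h1]
    unfold r10_J
    rw [mul_add, FractionalIdeal.spanSingleton_mul_spanSingleton,
      FractionalIdeal.spanSingleton_mul_spanSingleton, div_eq_inv_mul, div_eq_inv_mul]
  obtain ⟨b', hb', d', hd', e'⟩ := r10_dual (r10_U O σ) _ _ hJ
  obtain ⟨b0, hb0, d0, hd0, e0⟩ := r10_dual (r10_U O σ) (σ 0 0) (σ 1 0) rfl
  have ha0 : σ 0 0 ∈ (r10_U O σ : FractionalIdeal O⁰ K) := r10_mem0 σ
  have hc0 : σ 1 0 ∈ (r10_U O σ : FractionalIdeal O⁰ K) := r10_mem1 σ
  have key : ∀ x y z w : K, x ∈ (r10_U O σ : FractionalIdeal O⁰ K) →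
      y ∈ (((r10_U O σ)⁻¹ : (FractionalIdeal O⁰ K)ˣ) : FractionalIdeal O⁰ K) →
      z ∈ (r10_U O σ : FractionalIdeal O⁰ K) →
      w ∈ (((r10_U O σ)⁻¹ : (FractionalIdeal O⁰ K)ˣ) : FractionalIdeal O⁰ K) →
      ∃ t : O, x * y - z * w = algebraMap O K t := by
    intro x y z w hx hy hz hw
    obtain ⟨t1, h1⟩ := r10_int (r10_U O σ) hx hy
    obtain ⟨t2, h2⟩ := r10_int (r10_U O σ) hz hw
    exact ⟨t1 - t2, by rw [h1, h2]; exact (map_sub (algebraMap O K) t1 t2).symm⟩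
  set a' := s 0 0 / l with ha'
  set c' := s 1 0 / l with hc'
  have hsa : s 0 0 = l * a' := by rw [ha']; field_simp
  have hsc : s 1 0 = l * c' := by rw [hc']; field_simp
  let h : SL2 K := mk4 (a' * d0 - σ 1 0 * b') (σ 0 0 * b' - a' * b0) (c' * d0 - σ 1 0 * d')
    (σ 0 0 * d' - c' * b0) (by linear_combination (a' * d' - b' * c') * e0 + e')
  have hh : ∀ i j, ∃ z : O, h i j = algebraMap O K z := by
    intro i j
    fin_cases i <;> fin_cases j
    · exact key _ _ _ _ ha hd0 hc0 hb'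
    · exact key _ _ _ _ ha0 hb' ha hb0
    · exact key _ _ _ _ hc hd0 hc0 hd'
    · exact key _ _ _ _ ha0 hd' hc hb0
  refine ⟨h, hh, (h * σ)⁻¹ * s, ?_, by group⟩
  have e1 : (h * σ) 0 0 = a' := by
    rw [mul_app]
    change (a' * d0 - σ 1 0 * b') * σ 0 0 + (σ 0 0 * b' - a' * b0) * σ 1 0 = a'
    linear_combination a' * e0
  have e2 : (h * σ) 1 0 = c' := by
    rw [mul_app]
    change (c' * d0 - σ 1 0 * d') * σ 0 0 + (σ 0 0 * d' - c' * b0) * σ 1 0 = c'
    linear_combination c' * e0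
  rw [mul_app, inv10, inv11, e1, e2, hsa, hsc]
  ring

/-- Finiteness of the class number: `SL₂(O)` has finitely many orbits on `P¹(K)`. -/
theorem r10_cusps (O : Type*) [CommRing O] [IsDedekindDomain O] {K : Type*}
    [Field K] [Algebra O K] [IsFractionRing O K] [Finite (ClassGroup O)] :
    ∃ S : Finset (SL2 K), ∀ s : SL2 K, ∃ σ ∈ S, ∃ h : SL2 K,
    (∀ i j, ∃ z : O, h i j = algebraMap O K z) ∧ ∃ b : SL2 K, b 1 0 = 0 ∧ s = h * σ * b := by
  classical
  have hfin : Finite ((FractionalIdeal O⁰ K)ˣ ⧸ (toPrincipalIdeal O K).range) :=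
    Finite.of_equiv _ (ClassGroup.equiv (R := O) K).toEquiv
  let f : SL2 K → (FractionalIdeal O⁰ K)ˣ ⧸ (toPrincipalIdeal O K).range :=
    fun s => QuotientGroup.mk (r10_U O s)
  have hr : (Set.range f).Finite := Set.toFinite _
  choose! g hg using fun (x) (hx : x ∈ Set.range f) => hx
  refine ⟨hr.toFinset.image g, fun s => ?_⟩
  refine ⟨g (f s), Finset.mem_image_of_mem _ (hr.mem_toFinset.mpr ⟨s, rfl⟩), ?_⟩
  have h1 : f (g (f s)) = f s := hg (f s) ⟨s, rfl⟩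
  obtain ⟨x, hx⟩ := (QuotientGroup.eq.mp h1)
  apply r10_same (O := O) s (g (f s)) (x : K) x.ne_zero
  have h2 : r10_U O s = toPrincipalIdeal O K x * r10_U O (g (f s)) := by
    rw [hx, mul_comm, mul_inv_cancel_left]
  have h3 := congrArg (fun u : (FractionalIdeal O⁰ K)ˣ => (u : FractionalIdeal O⁰ K)) h2
  rw [Units.val_mul, coe_toPrincipalIdeal] at h3
  exact h3

end Dedekind

variable {Fq K : Type*} [Field Fq] [Field K] [Algebra Fq[X] K] [Algebra (RatFunc Fq) K]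
  [IsScalarTower Fq[X] (RatFunc Fq) K] [FiniteDimensional (RatFunc Fq) K]
  [Algebra.IsSeparable (RatFunc Fq) K] [Finite Fq]

/-- template `cusps_int` in `NF/Cusp.lean` with `FunctionField.ringOfIntegers Fq K` in place of `𝓞 K`
(a Dedekind domain with fraction field `K` and finite class group: instances in
`Mathlib/NumberTheory/FunctionField.lean` and `Mathlib/NumberTheory/ClassNumber/FunctionField.lean`) -/
theorem cuspsF_int (Fq K : Type*) [Field Fq] [Field K] [Algebra Fq[X] K] [Algebra (RatFunc Fq) K]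
    [IsScalarTower Fq[X] (RatFunc Fq) K] [FiniteDimensional (RatFunc Fq) K]
    [Algebra.IsSeparable (RatFunc Fq) K] [Finite Fq] :
    ∃ S : Finset (SL2 K), ∀ s : SL2 K, ∃ σ ∈ S, ∃ h : SL2 K,
      (∀ i j, IsIntegral Fq[X] (h i j)) ∧ ∃ b : SL2 K, b 1 0 = 0 ∧ s = h * σ * b := by
  have : Fintype Fq := Fintype.ofFinite Fq
  have : FunctionField Fq K := inferInstanceAs (FiniteDimensional (RatFunc Fq) K)
  obtain ⟨S, hS⟩ := r10_cusps (FunctionField.ringOfIntegers Fq K) (K := K)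
  refine ⟨S, fun s => ?_⟩
  obtain ⟨σ, hσ, h, hh, b, hb, e⟩ := hS s
  refine ⟨σ, hσ, h, fun i j => ?_, b, hb, e⟩
  obtain ⟨z, hz⟩ := hh i j
  rw [hz]
  exact z.2

/-- the same for `Γ(N)` (template `SRing.cusps` in `NF/Cusp.lean`; `GRing.GN_relIndex`) -/
theorem cuspsF_GN {F : Type*} [Field F] {A : Subring F} (hA : GRing A)
    (hint : ∃ S : Finset (SL2 F), ∀ s : SL2 F, ∃ σ ∈ S, ∃ h ∈ G A, ∃ b : SL2 F,
      b 1 0 = 0 ∧ s = h * σ * b) {N : F} (hN : N ∈ A) (hN0 : N ≠ 0) :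
    ∃ S : Finset (SL2 F), ∀ s : SL2 F, ∃ σ ∈ S, ∃ g ∈ GN A N, ∃ b : SL2 F,
      b 1 0 = 0 ∧ s = g * σ * b := by
  classical
  obtain ⟨S, hS⟩ := hint
  have hidx : ((GN A N).subgroupOf (G A)).index ≠ 0 := hA.GN_relIndex hN hN0
  have hfi : ((GN A N).subgroupOf (G A)).FiniteIndex := ⟨hidx⟩
  have hfin : Finite (G A ⧸ (GN A N).subgroupOf (G A)) := Subgroup.finite_quotient_of_finiteIndex
  have := Fintype.ofFinite (G A ⧸ (GN A N).subgroupOf (G A))
  let r : (G A ⧸ (GN A N).subgroupOf (G A)) → SL2 F := fun q => ((Quotient.out q : G A) : SL2 F)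
  refine ⟨(Finset.univ ×ˢ S).image (fun x => (r x.1)⁻¹ * x.2), fun s => ?_⟩
  obtain ⟨σ, hσ, h, hhG, b, hb, e⟩ := hS s
  let q : G A ⧸ (GN A N).subgroupOf (G A) := QuotientGroup.mk ⟨h⁻¹, (G A).inv_mem hhG⟩
  have hq : (Quotient.out q : G A)⁻¹ * ⟨h⁻¹, (G A).inv_mem hhG⟩ ∈ (GN A N).subgroupOf (G A) := by
    rw [← QuotientGroup.eq]
    exact QuotientGroup.out_eq' q
  have hq' : (r q)⁻¹ * h⁻¹ ∈ GN A N := hq
  refine ⟨(r q)⁻¹ * σ, Finset.mem_image.mpr ⟨(q, σ), Finset.mem_product.mpr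
    ⟨Finset.mem_univ _, hσ⟩, rfl⟩, ((r q)⁻¹ * h⁻¹)⁻¹, (GN A N).inv_mem hq', b, hb, ?_⟩
  rw [e]
  group

end BoomFF
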