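import Pool.Agent.H.MP_4c7af0_al.FF.R2

/-! The ring `A` = integral closure of `𝔽_q[t, 1/t]` in `K` (MP_4c7af0_al, function field case):
maximal ideals. -/

namespace BoomFF

open BoomNF Polynomial

variable {Fq K : Type*} [Field Fq] [Field K] [Algebra Fq[X] K] [Algebra (RatFunc Fq) K]
  [IsScalarTower Fq[X] (RatFunc Fq) K] [FiniteDimensional (RatFunc Fq) K]
  [Algebra.IsSeparable (RatFunc Fq) K] {A : Subring K}

/-- the inclusion of the ring of integers in `A` -/
noncomputable def r3_inc (hA : FRing Fq A) : FunctionField.ringOfIntegers Fq K →+* A :=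
  RingHom.codRestrict (algebraMap (FunctionField.ringOfIntegers Fq K) K) A
    (fun z => hA.int_mem z.2)

omit [FiniteDimensional (RatFunc Fq) K] [Algebra.IsSeparable (RatFunc Fq) K] in
theorem r3_inc_coe (hA : FRing Fq A) (z : FunctionField.ringOfIntegers Fq K) :
    ((r3_inc hA z : A) : K) = (z : K) := rfl

omit [FiniteDimensional (RatFunc Fq) K] [Algebra.IsSeparable (RatFunc Fq) K] in
theorem r3_comap_le (hA : FRing Fq A) {P Q : Ideal A}
    (h : P.comap (r3_inc hA) = Q.comap (r3_inc hA)) : P ≤ Q := by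
  have ht : algebraMap Fq[X] K X ≠ 0 := ar_ne X_ne_zero
  intro x hx
  obtain ⟨k, hk⟩ := (hA.ex (x : K)).1 x.2
  set z : FunctionField.ringOfIntegers Fq K := ⟨_, hk⟩ with hz
  have e1 : r3_inc hA z = x * (⟨algebraMap Fq[X] K X, hA.mem X⟩ : A) ^ k := by
    apply Subtype.ext
    rw [r3_inc_coe]
    push_cast
    rfl
  have h1 : z ∈ P.comap (r3_inc hA) := by
    rw [Ideal.mem_comap, e1]
    exact Ideal.mul_mem_right _ _ hx
  rw [h, Ideal.mem_comap, e1] at h1
  have e2 : x = x * (⟨algebraMap Fq[X] K X, hA.mem X⟩ : A) ^ k *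
      (⟨(algebraMap Fq[X] K X)⁻¹, hA.tinv⟩ : A) ^ k := by
    apply Subtype.ext
    push_cast
    rw [mul_assoc, ← mul_pow, mul_inv_cancel₀ ht, one_pow, mul_one]
  rw [e2]
  exact Ideal.mul_mem_right _ _ h1

/-- At most `n = [K : 𝔽_q(X)]` maximal ideals of `A` contain a given irreducible polynomial `P`.
Template `SRing.card_max` in `NF/Rng3.lean` (pull the ideals back to the ring of integers
`FunctionField.ringOfIntegers Fq K`; the pull back is injective on ideals because `t` is a unit of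
`A`; `Ideal.card_primesOverFinset_le_finrank` with `R = Fq[X]`). -/
theorem FRing.card_max (hA : FRing Fq A) {P : Fq[X]} (hP : Irreducible P) (T : Finset (Ideal A))
    (hT : ∀ Q ∈ T, Q.IsMaximal ∧ (⟨algebraMap Fq[X] K P, hA.mem P⟩ : A) ∈ Q) :
    T.card ≤ Module.finrank (RatFunc Fq) K := by
  classical
  have : FunctionField Fq K := inferInstanceAs (FiniteDimensional (RatFunc Fq) K)
  have hmax : (Ideal.span {P}).IsMaximal := PrincipalIdealRing.isMaximal_of_irreducible hP
  have hbot : Ideal.span {P} ≠ ⊥ := by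
    rw [Ne, Ideal.span_singleton_eq_bot]
    exact hP.ne_zero
  have htf : NoZeroSMulDivisors Fq[X] (FunctionField.ringOfIntegers Fq K) := by
    constructor
    intro c x h
    rw [Algebra.smul_def, mul_eq_zero] at h
    rcases h with h | h
    · left
      exact FunctionField.ringOfIntegers.algebraMap_injective Fq K (by rw [h, map_zero])
    · exact Or.inr h
  have hle := Ideal.card_primesOverFinset_le_finrank (R := Fq[X])
    (FunctionField.ringOfIntegers Fq K) (RatFunc Fq) K hbot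
  refine le_trans ?_ hle
  have hinj : Set.InjOn (fun Q : Ideal A => Q.comap (r3_inc hA)) (T : Set (Ideal A)) := by
    intro P _ Q _ h
    exact le_antisymm (r3_comap_le hA h) (r3_comap_le hA h.symm)
  rw [← Finset.card_image_of_injOn hinj]
  apply Finset.card_le_card
  intro Q hQ
  obtain ⟨Q', hQ', rfl⟩ := Finset.mem_image.1 hQ
  obtain ⟨hm, hpQ⟩ := hT Q' hQ'
  rw [IsDedekindDomain.mem_primesOverFinset_iff hbot]
  have hprime : (Q'.comap (r3_inc hA)).IsPrime := Ideal.comap_isPrime _ _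
  refine ⟨hprime, ⟨?_⟩⟩
  refine hmax.eq_of_le ?_ ?_
  · exact (Ideal.IsPrime.comap (algebraMap Fq[X] (FunctionField.ringOfIntegers Fq K))).ne_top
  · rw [Ideal.span_singleton_le_iff_mem, Ideal.under_def, Ideal.mem_comap, Ideal.mem_comap]
    have : r3_inc hA (algebraMap Fq[X] (FunctionField.ringOfIntegers Fq K) P) =
        ⟨algebraMap Fq[X] K P, hA.mem P⟩ := by
      apply Subtype.ext
      rw [r3_inc_coe]
      rfl
    rw [this]
    exact hpQ

variable [Finite Fq]

/-- `(P)` with `B = n`. Template `SRing.pigeon` in `NF/Rng3.lean`: there are at least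
`q^(n+1) - 1 ≥ n + 1` nonzero polynomials `j` of degree `≤ n`; if none works, then for each `j` a
maximal ideal contains `a + b j` and `P`; two of the ideals agree (`card_max`), `j ≠ j'`; `j - j'` has
degree `≤ n < deg P`, so is coprime to `P`; hence `b`, `a` and `1` are in the ideal. -/
theorem FRing.pig (hA : FRing Fq A) : ∃ B : ℕ, ∀ P : Fq[X], Irreducible P → B < P.natDegree →
    ∀ a ∈ A, ∀ b ∈ A, (∃ x ∈ A, ∃ y ∈ A, ∃ z ∈ A, a * x + b * y + algebraMap Fq[X] K P * z = 1) →
      ∃ j : Fq[X], j ≠ 0 ∧ j.natDegree ≤ B ∧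
        Cop A (a + b * algebraMap Fq[X] K j) (algebraMap Fq[X] K P) := by
  classical
  refine ⟨Module.finrank (RatFunc Fq) K, fun P hPi hνp a ha b hb ⟨x, hx, y, hy, z, hz, e⟩ => ?_⟩
  by_contra hcon
  push Not at hcon
  set ν := Module.finrank (RatFunc Fq) K with hν
  -- the polynomials `X ^ t`, `t ≤ ν`
  have key : ∀ t : ℕ, t ≤ ν → ∃ Q : Ideal A, Q.IsMaximal ∧
      ((⟨a, ha⟩ : A) + ⟨b, hb⟩ * ⟨algebraMap Fq[X] K (X ^ t), hA.mem _⟩) ∈ Q ∧
      (⟨algebraMap Fq[X] K P, hA.mem P⟩ : A) ∈ Q := by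
    intro t ht
    have hne : Ideal.span {((⟨a, ha⟩ : A) + ⟨b, hb⟩ * ⟨algebraMap Fq[X] K (X ^ t), hA.mem _⟩),
        (⟨algebraMap Fq[X] K P, hA.mem P⟩ : A)} ≠ ⊤ := by
      intro htop
      rw [Ideal.eq_top_iff_one, Ideal.mem_span_pair] at htop
      obtain ⟨c, d, hcd⟩ := htop
      apply hcon (X ^ t) (pow_ne_zero _ X_ne_zero) (by rwa [natDegree_X_pow])
      refine ⟨c, c.2, d, d.2, ?_⟩
      have := congrArg (fun w : A => (w : K)) hcd
      simp only [Subring.coe_add, Subring.coe_mul, Subring.coe_one] at this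
      linear_combination this
    obtain ⟨Q, hQ, hle⟩ := Ideal.exists_le_maximal _ hne
    exact ⟨Q, hQ, hle (Ideal.subset_span (by simp)), hle (Ideal.subset_span (by simp))⟩
  choose! Q hQm hQa hQp using key
  have hcard : ((Finset.range (ν + 1)).image Q).card < (Finset.range (ν + 1)).card := by
    have h1 := hA.card_max hPi ((Finset.range (ν + 1)).image Q) (by
      intro R hR
      obtain ⟨t, ht, rfl⟩ := Finset.mem_image.1 hR
      have ht' : t ≤ ν := Nat.lt_succ_iff.1 (Finset.mem_range.1 ht)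
      exact ⟨hQm t ht', hQp t ht'⟩)
    rw [Finset.card_range]
    omega
  obtain ⟨s, hs, t, ht, hst, hPst⟩ := Finset.exists_ne_map_eq_of_card_lt_of_maps_to hcard
    (fun i hi => Finset.mem_image_of_mem Q hi)
  have hs' : s ≤ ν := Nat.lt_succ_iff.1 (Finset.mem_range.1 hs)
  have ht' : t ≤ ν := Nat.lt_succ_iff.1 (Finset.mem_range.1 ht)
  have h1 := hQa s hs'
  have h2 := hQa t ht'
  rw [← hPst] at h2
  have h3 : (⟨b, hb⟩ : A) * (⟨algebraMap Fq[X] K (X ^ s - X ^ t), hA.mem _⟩ : A) ∈ Q s := by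
    have := (Q s).sub_mem h1 h2
    convert this using 1
    apply Subtype.ext
    simp only [Subring.coe_add, Subring.coe_mul, AddSubgroupClass.coe_sub]
    rw [map_sub]
    ring
  have hcop : IsCoprime ((X : Fq[X]) ^ s - X ^ t) P := by
    rw [isCoprime_comm, hPi.coprime_iff_not_dvd]
    intro hdvd
    have h0 : (X : Fq[X]) ^ s - X ^ t ≠ 0 := by
      intro h
      apply hst
      have h5 := congrArg natDegree (sub_eq_zero.1 h)
      rwa [natDegree_X_pow, natDegree_X_pow] at h5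
    have h4 := natDegree_le_of_dvd hdvd h0
    have h5 : ((X : Fq[X]) ^ s - X ^ t).natDegree ≤ ν := by
      refine (natDegree_sub_le _ _).trans ?_
      rw [natDegree_X_pow, natDegree_X_pow]
      exact max_le hs' ht'
    omega
  obtain ⟨u, v, huv⟩ := hcop
  have hbP : (⟨b, hb⟩ : A) ∈ Q s := by
    have e1 : (⟨b, hb⟩ : A) = (⟨b, hb⟩ * (⟨algebraMap Fq[X] K (X ^ s - X ^ t), hA.mem _⟩ : A)) *
        (⟨algebraMap Fq[X] K u, hA.mem _⟩ : A) +
        (⟨algebraMap Fq[X] K P, hA.mem P⟩ : A) *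
          (⟨b, hb⟩ * (⟨algebraMap Fq[X] K v, hA.mem _⟩ : A)) := by
      apply Subtype.ext
      simp only [Subring.coe_add, Subring.coe_mul]
      have e2 : algebraMap Fq[X] K u * algebraMap Fq[X] K (X ^ s - X ^ t) +
          algebraMap Fq[X] K v * algebraMap Fq[X] K P = 1 := by
        rw [← map_mul, ← map_mul, ← map_add, huv, map_one]
      linear_combination (-b) * e2
    rw [e1]
    exact (Q s).add_mem ((Q s).mul_mem_right _ h3) ((Q s).mul_mem_right _ (hQp s hs'))
  have haP : (⟨a, ha⟩ : A) ∈ Q s := by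
    have := (Q s).sub_mem h1 ((Q s).mul_mem_right
      (⟨algebraMap Fq[X] K (X ^ s), hA.mem _⟩ : A) hbP)
    rwa [add_sub_cancel_right] at this
  apply (hQm s hs').ne_top
  rw [Ideal.eq_top_iff_one]
  have e3 : (1 : A) = ⟨a, ha⟩ * ⟨x, hx⟩ + ⟨b, hb⟩ * ⟨y, hy⟩ +
      (⟨algebraMap Fq[X] K P, hA.mem P⟩ : A) * ⟨z, hz⟩ := by
    apply Subtype.ext
    simp only [Subring.coe_add, Subring.coe_mul, Subring.coe_one]
    exact e.symm
  rw [e3]
  exact (Q s).add_mem ((Q s).add_mem ((Q s).mul_mem_right _ haP) ((Q s).mul_mem_right _ hbP))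
    ((Q s).mul_mem_right _ (hQp s hs'))

end BoomFF
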