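import Mathlib

/-! Frobenius for separable polynomials over a finite field (MP_4c7af0_al, function field case). -/

namespace BoomFF

open Polynomial

/-- A separable polynomial of degree `d` over a finite field with `Q` elements divides
`X^(Q^(d!)) - X`. Template `frob1_dvd` in `NF/Frob1.lean`
(`Irreducible.natDegree_dvd_iff_dvd_X_pow_card_pow_sub_X` is stated for finite fields). -/
theorem frobF_dvd {κ : Type*} [Field κ] [Finite κ] {f : κ[X]} (hf : f ≠ 0) (hs : f.Separable) :
    f ∣ X ^ (Nat.card κ ^ f.natDegree.factorial) - X := by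
  classical
  have hrad : IsRadical f := (isRadical_iff_squarefree_of_ne_zero hf).2 hs.squarefree
  set g : κ[X] := X ^ (Nat.card κ ^ f.natDegree.factorial) - X with hg
  have h1 : ∀ π ∈ UniqueFactorizationMonoid.normalizedFactors f, π ∣ g := by
    intro π hπ
    have hirr := UniqueFactorizationMonoid.irreducible_of_normalized_factor π hπ
    have hdvd := UniqueFactorizationMonoid.dvd_of_mem_normalizedFactors hπ
    have hdeg : π.natDegree ≤ f.natDegree := Polynomial.natDegree_le_of_dvd hdvd hf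
    have h2 : π.natDegree ∣ f.natDegree.factorial :=
      Nat.dvd_factorial hirr.natDegree_pos hdeg
    exact hirr.natDegree_dvd_iff_dvd_X_pow_card_pow_sub_X.1 h2
  have h2 : (UniqueFactorizationMonoid.normalizedFactors f).prod ∣
      g ^ (Multiset.card (UniqueFactorizationMonoid.normalizedFactors f)) := by
    have h3 := Multiset.prod_dvd_prod_of_dvd
      (S := UniqueFactorizationMonoid.normalizedFactors f) (fun π => π) (fun _ => g) h1
    rwa [Multiset.map_id', Multiset.map_const', Multiset.prod_replicate] at h3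
  have h3 : f ∣ g ^ (Multiset.card (UniqueFactorizationMonoid.normalizedFactors f)) :=
    (UniqueFactorizationMonoid.prod_normalizedFactors hf).symm.dvd.trans h2
  exact hrad _ _ h3

/-- Clearing denominators in a Bezout identity. Template `frob1_bezout` in `NF/Frob1.lean`. -/
theorem frobF_bezout {Fq : Type*} [Field Fq] (F : Polynomial Fq[X])
    (hs : (F.map (algebraMap Fq[X] (RatFunc Fq))).Separable) :
    ∃ (M : Fq[X]) (a b : Polynomial Fq[X]), M ≠ 0 ∧ a * F + b * derivative F = C M := by
  obtain ⟨a, b, hab⟩ := hs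
  obtain ⟨m, hm1, hm⟩ := IsLocalization.integerNormalization_spec (nonZeroDivisors Fq[X]) a
  obtain ⟨l, hl1, hl⟩ := IsLocalization.integerNormalization_spec (nonZeroDivisors Fq[X]) b
  set a' := IsLocalization.integerNormalization (nonZeroDivisors Fq[X]) a
  set b' := IsLocalization.integerNormalization (nonZeroDivisors Fq[X]) b
  have hm0 : m ≠ 0 := nonZeroDivisors.ne_zero hm1
  have hl0 : l ≠ 0 := nonZeroDivisors.ne_zero hl1
  refine ⟨m * l, C l * a', C m * b', mul_ne_zero hm0 hl0, ?_⟩
  apply Polynomial.map_injective (algebraMap Fq[X] (RatFunc Fq)) (RatFunc.algebraMap_injective Fq)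
  have hm' : a'.map (algebraMap Fq[X] (RatFunc Fq)) =
      C (algebraMap Fq[X] (RatFunc Fq) m) * a := by
    rw [hm, ← Polynomial.smul_eq_C_mul, algebraMap_smul]
  have hl' : b'.map (algebraMap Fq[X] (RatFunc Fq)) =
      C (algebraMap Fq[X] (RatFunc Fq) l) * b := by
    rw [hl, ← Polynomial.smul_eq_C_mul, algebraMap_smul]
  rw [Polynomial.map_add, Polynomial.map_mul, Polynomial.map_mul, Polynomial.map_mul,
    Polynomial.map_mul, hm', hl', Polynomial.map_C, Polynomial.map_C, Polynomial.map_C,
    ← Polynomial.derivative_map, map_mul, C_mul]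
  linear_combination (C (algebraMap Fq[X] (RatFunc Fq) m) *
    C (algebraMap Fq[X] (RatFunc Fq) l)) * hab

/-- the number of elements of the field `𝔽_q[X] / P` -/
theorem r7_card {Fq : Type*} [Field Fq] [Finite Fq] {P : Fq[X]} (hP : P ≠ 0) :
    Finite (AdjoinRoot P) ∧ Nat.card (AdjoinRoot P) = Nat.card Fq ^ P.natDegree := by
  have h1 : Module.Finite Fq (AdjoinRoot P) := (AdjoinRoot.powerBasis hP).finite
  have h2 : Module.finrank Fq (AdjoinRoot P) = P.natDegree := by
    rw [(AdjoinRoot.powerBasis hP).finrank, AdjoinRoot.powerBasis_dim]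
  refine ⟨Module.finite_of_finite Fq, ?_⟩
  rw [Module.natCard_eq_pow_finrank (K := Fq), h2]

/-- For a monic `F ∈ 𝔽_q[X][Y]` separable over `𝔽_q(X)` and all irreducible `P ∈ 𝔽_q[X]` of large
degree: `Y^(Q^((deg F)!)) - Y = F H + P E` for some `H, E ∈ 𝔽_q[X][Y]`, where `Q = q^(deg P)`. Proof:
with `M` from `frobF_bezout` and `P ∤ M` (true if `deg P > deg M`) the polynomial `F mod P` over the
finite field `κ = 𝔽_q[X] / P` with `Q` elements is separable, so it divides `Y^(Q^((deg F)!)) - Y`
(`frobF_dvd`); lift the quotient `H` to `𝔽_q[X][Y]`; then `Y^(Q^((deg F)!)) - Y - F H` has all its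
coefficients in `P 𝔽_q[X]` (template `frob_poly` in `NF/Frob.lean`; `Polynomial.C_dvd_iff_dvd_coeff`).
The field `𝔽_q[X] / P` has `q^(deg P)` elements: `AdjoinRoot` power basis or
`Polynomial.degreeLT`-representatives. -/
theorem frobF_root {Fq : Type*} [Field Fq] [Finite Fq] (F : Polynomial Fq[X]) (hF : F.Monic)
    (hs : (F.map (algebraMap Fq[X] (RatFunc Fq))).Separable) :
    ∃ B : ℕ, ∀ P : Fq[X], Irreducible P → B < P.natDegree →
      ∃ H E : Polynomial Fq[X],
        X ^ ((Nat.card Fq ^ P.natDegree) ^ F.natDegree.factorial) - X = F * H + C P * E := by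
  obtain ⟨M, a, b, hM, hab⟩ := frobF_bezout F hs
  refine ⟨M.natDegree, fun P hP hBP => ?_⟩
  have : Fact (Irreducible P) := ⟨hP⟩
  obtain ⟨hfin, hcard⟩ := r7_card hP.ne_zero
  set φ := AdjoinRoot.mk P with hφ
  have hMP : φ M ≠ 0 := by
    rw [Ne, hφ, AdjoinRoot.mk_eq_zero]
    intro h
    exact absurd (natDegree_le_of_dvd h hM) (not_le.2 hBP)
  have hmon : (F.map φ).Monic := hF.map _
  have hsep : (F.map φ).Separable := by
    have h1 := congrArg (Polynomial.map φ) hab
    rw [Polynomial.map_add, Polynomial.map_mul, Polynomial.map_mul, Polynomial.map_C,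
      ← Polynomial.derivative_map] at h1
    refine ⟨C ((φ M)⁻¹) * a.map φ, C ((φ M)⁻¹) * b.map φ, ?_⟩
    rw [mul_assoc, mul_assoc, ← mul_add, h1, ← C_mul, inv_mul_cancel₀ hMP, C_1]
  have h2 := frobF_dvd hmon.ne_zero hsep
  rw [hF.natDegree_map, hcard] at h2
  obtain ⟨H', hH'⟩ := h2
  obtain ⟨H, rfl⟩ := Polynomial.map_surjective φ AdjoinRoot.mk_surjective H'
  have hPP : (X ^ ((Nat.card Fq ^ P.natDegree) ^ F.natDegree.factorial) - X - F * H :
      Polynomial Fq[X]).map φ = 0 := by
    rw [Polynomial.map_sub, Polynomial.map_sub, Polynomial.map_pow, Polynomial.map_X,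
      Polynomial.map_mul, hH', sub_self]
  have hC : C P ∣ (X ^ ((Nat.card Fq ^ P.natDegree) ^ F.natDegree.factorial) - X - F * H :
      Polynomial Fq[X]) := by
    rw [Polynomial.C_dvd_iff_dvd_coeff]
    intro i
    have h1 := congrArg (fun P => P.coeff i) hPP
    simp only [Polynomial.coeff_map, Polynomial.coeff_zero] at h1
    exact AdjoinRoot.mk_eq_zero.1 h1
  obtain ⟨E, hE⟩ := hC
  exact ⟨H, E, by rw [← hE]; ring⟩

/-- `P ∣ c^Q - c` for `c ∈ 𝔽_q[X]`, `Q = q^(deg P)` (`𝔽_q[X] / P` is a field with `Q` elements) -/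
theorem frobF_coeff {Fq : Type*} [Field Fq] [Finite Fq] {P : Fq[X]} (hP : Irreducible P)
    (c : Fq[X]) : P ∣ c ^ (Nat.card Fq ^ P.natDegree) - c := by
  have : Fact (Irreducible P) := ⟨hP⟩
  obtain ⟨hfin, hcard⟩ := r7_card hP.ne_zero
  have : Fintype (AdjoinRoot P) := Fintype.ofFinite _
  rw [← AdjoinRoot.mk_eq_zero, map_sub, map_pow, ← hcard, Nat.card_eq_fintype_card,
    FiniteField.pow_card, sub_self]

end BoomFF
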