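import Pool.Agent.H.MP_4c7af0_al.FF.R2
import Pool.Agent.H.MP_4c7af0_al.FF.R7

/-! Frobenius on `A / P A` (MP_4c7af0_al, function field case). Template `NF/Frob.lean`. -/

namespace BoomFF

open BoomNF Polynomial

variable {Fq K : Type*} [Field Fq] [Field K] [Algebra Fq[X] K] [Algebra (RatFunc Fq) K]
  [IsScalarTower Fq[X] (RatFunc Fq) K] [FiniteDimensional (RatFunc Fq) K]
  [Algebra.IsSeparable (RatFunc Fq) K] {A : Subring K} [Finite Fq]

/-- `x ↦ x^(q^a)` is additive on `K` (`K` has the characteristic `p` of `𝔽_q` and `q` is a power of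
`p`: `FiniteField.card'`, `add_pow_char_pow` / `sub_pow_char_pow`) -/
theorem ar_add_pow (Fq : Type*) {K : Type*} [Field Fq] [Finite Fq] [Field K] [Algebra Fq[X] K]
    (x y : K) (a : ℕ) :
    (x + y) ^ (Nat.card Fq ^ a) = x ^ (Nat.card Fq ^ a) + y ^ (Nat.card Fq ^ a) := by
  have := Fintype.ofFinite Fq
  obtain ⟨p, hc, n, hp, hn⟩ := FiniteField.card' Fq
  have := hc
  have : Fact p.Prime := ⟨hp⟩
  let f : Fq →+* K := (algebraMap Fq[X] K).comp C
  have : CharP K p := charP_of_injective_ringHom (f := f) f.injective p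
  rw [Nat.card_eq_fintype_card, hn, ← pow_mul]
  exact add_pow_char_pow x y p _

theorem r8_iter {R : Type*} [CommRing R] {q : ℕ} {π w : R} {a b : ℕ}
    (h : π ∣ w ^ (q ^ a) - w) (hab : a ∣ b) : π ∣ w ^ (q ^ b) - w := by
  obtain ⟨c, rfl⟩ := hab
  induction c with
  | zero => simp
  | succ c ih =>
    have h1 : w ^ (q ^ (a * (c + 1))) = (w ^ (q ^ (a * c))) ^ (q ^ a) := by
      rw [← pow_mul, ← pow_add]
      congr 2
    have h2 : w ^ (q ^ (a * (c + 1))) - w =
        ((w ^ (q ^ (a * c))) ^ (q ^ a) - w ^ (q ^ a)) + (w ^ (q ^ a) - w) := by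
      rw [h1]; ring
    rw [h2]
    exact dvd_add (ih.trans (sub_dvd_pow_sub_pow _ _ _)) h

/-- Frobenius on one integral element. -/
theorem r8_gen {ω : K} (hω : IsIntegral Fq[X] ω) :
    ∃ B : ℕ, ∀ P : Fq[X], Irreducible P → B < P.natDegree →
      ∃ w : K, IsIntegral Fq[X] w ∧
        ω ^ (Nat.card Fq ^ ((Module.finrank (RatFunc Fq) K).factorial * P.natDegree)) - ω =
          algebraMap Fq[X] K P * w := by
  have e1 : minpoly (RatFunc Fq) ω = (minpoly Fq[X] ω).map (algebraMap Fq[X] (RatFunc Fq)) :=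
    minpoly.isIntegrallyClosed_eq_field_fractions' (RatFunc Fq) hω
  have hmon := minpoly.monic hω
  have hsep : ((minpoly Fq[X] ω).map (algebraMap Fq[X] (RatFunc Fq))).Separable := by
    rw [← e1]
    exact Algebra.IsSeparable.isSeparable (RatFunc Fq) ω
  obtain ⟨B, hB⟩ := frobF_root (minpoly Fq[X] ω) hmon hsep
  refine ⟨B, fun P hP hBP => ?_⟩
  obtain ⟨H, E, hHE⟩ := hB P hP hBP
  let O : Subalgebra Fq[X] K := integralClosure Fq[X] K
  let ω' : O := ⟨ω, hω⟩
  have h0 : aeval ω' (minpoly Fq[X] ω) = 0 := by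
    apply Subtype.ext
    rw [aeval_subalgebra_coe]
    exact minpoly.aeval Fq[X] ω
  have h1 := congrArg (aeval ω') hHE
  rw [map_sub, map_pow, aeval_X, map_add, map_mul, map_mul, h0, zero_mul, zero_add, aeval_C] at h1
  have h2 : algebraMap Fq[X] O P ∣
      ω' ^ ((Nat.card Fq ^ P.natDegree) ^ (minpoly Fq[X] ω).natDegree.factorial) - ω' :=
    ⟨_, h1⟩
  have hdeg : (minpoly Fq[X] ω).natDegree ≤ Module.finrank (RatFunc Fq) K := by
    have e3 : (minpoly Fq[X] ω).natDegree = (minpoly (RatFunc Fq) ω).natDegree := by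
      rw [e1, hmon.natDegree_map]
    rw [e3]
    exact minpoly.natDegree_le _
  obtain ⟨w, hw⟩ := r8_iter h2 (Nat.factorial_dvd_factorial hdeg)
  refine ⟨(w : K), w.2, ?_⟩
  have h3 := congrArg (fun t : O => (t : K)) hw
  have h4 : (ω' : K) ^ ((Nat.card Fq ^ P.natDegree) ^
      (Module.finrank (RatFunc Fq) K).factorial) - (ω' : K) =
      algebraMap Fq[X] K P * (w : K) := h3
  rw [mul_comm, pow_mul]
  exact h4

/-- Frobenius on integral elements: for irreducible `P` of large degree and all integral `z`: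
`z^(Q^h) - z ∈ P O`, `h = n!`, `Q = q^(deg P)`. Proof: for the generators `ω` of `O` (`ar_gen`): the minimal
polynomial `F` of `ω` over `𝔽_q[X]` is monic, maps to the minimal polynomial over `𝔽_q(X)`
(`minpoly.isIntegrallyClosed_eq_field_fractions'`), which is separable of degree `≤ n`; use
`frobF_root` and iterate (`(deg F)! ∣ n!`, template `frob_iter`). In general `z = ∑ c_ω ω`,
`c_ω ∈ 𝔽_q[X]`, and `ar_add_pow`, `frobF_coeff`. -/
theorem ar_frob_int (Fq K : Type*) [Field Fq] [Field K] [Algebra Fq[X] K] [Algebra (RatFunc Fq) K]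
    [IsScalarTower Fq[X] (RatFunc Fq) K] [FiniteDimensional (RatFunc Fq) K]
    [Algebra.IsSeparable (RatFunc Fq) K] [Finite Fq] :
    ∃ B : ℕ, ∀ P : Fq[X], Irreducible P → B < P.natDegree → ∀ z : K, IsIntegral Fq[X] z →
      ∃ w : K, IsIntegral Fq[X] w ∧
        z ^ (Nat.card Fq ^ ((Module.finrank (RatFunc Fq) K).factorial * P.natDegree)) - z =
          algebraMap Fq[X] K P * w := by
  classical
  obtain ⟨Ω, hΩ, hgen⟩ := ar_gen Fq K
  have hB : ∀ ω : K, ∃ B : ℕ, ω ∈ Ω → ∀ P : Fq[X], Irreducible P → B < P.natDegree →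
      ∃ w : K, IsIntegral Fq[X] w ∧
        ω ^ (Nat.card Fq ^ ((Module.finrank (RatFunc Fq) K).factorial * P.natDegree)) - ω =
          algebraMap Fq[X] K P * w := by
    intro ω
    by_cases h : ω ∈ Ω
    · obtain ⟨B, hB⟩ := r8_gen (hΩ ω h)
      exact ⟨B, fun _ => hB⟩
    · exact ⟨0, fun h' => absurd h' h⟩
  choose B hB using hB
  refine ⟨Ω.sup B, fun P hP hBP z hz => ?_⟩
  have hq : 0 < Nat.card Fq := Nat.card_pos
  have key : ∀ x : K, x ∈ Submodule.span Fq[X] (Ω : Set K) → IsIntegral Fq[X] x ∧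
      ∃ w : K, IsIntegral Fq[X] w ∧
        x ^ (Nat.card Fq ^ ((Module.finrank (RatFunc Fq) K).factorial * P.natDegree)) - x =
          algebraMap Fq[X] K P * w := by
    intro x hx
    refine Submodule.span_induction (p := fun x _ => IsIntegral Fq[X] x ∧
      ∃ w : K, IsIntegral Fq[X] w ∧
        x ^ (Nat.card Fq ^ ((Module.finrank (RatFunc Fq) K).factorial * P.natDegree)) - x =
          algebraMap Fq[X] K P * w) ?_ ?_ ?_ ?_ hx
    · intro ω hω
      have hω' : ω ∈ Ω := Finset.mem_coe.1 hω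
      exact ⟨hΩ ω hω', hB ω hω' P hP (lt_of_le_of_lt (Finset.le_sup hω') hBP)⟩
    · refine ⟨isIntegral_zero, 0, isIntegral_zero, ?_⟩
      rw [zero_pow (pow_pos hq _).ne', sub_zero, mul_zero]
    · rintro x y _ _ ⟨hx1, w, hw, hxw⟩ ⟨hy1, w', hw', hyw⟩
      refine ⟨hx1.add hy1, w + w', hw.add hw', ?_⟩
      rw [ar_add_pow Fq x y, mul_add, ← hxw, ← hyw]
      ring
    · rintro c x _ ⟨hx1, w, hw, hxw⟩
      obtain ⟨d, hd⟩ : P ∣ c ^ (Nat.card Fq ^
          ((Module.finrank (RatFunc Fq) K).factorial * P.natDegree)) - c := by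
        have h1 : P ∣ c ^ ((Nat.card Fq ^ P.natDegree) ^ 1) - c := by
          rw [pow_one]
          exact frobF_coeff hP c
        have h2 := r8_iter h1 (one_dvd (Module.finrank (RatFunc Fq) K).factorial)
        rw [mul_comm, pow_mul]
        exact h2
      have hd' := congrArg (algebraMap Fq[X] K) hd
      rw [map_sub, map_pow, map_mul] at hd'
      have hc : IsIntegral Fq[X] (algebraMap Fq[X] K c) := isIntegral_algebraMap
      have hdi : IsIntegral Fq[X] (algebraMap Fq[X] K d) := isIntegral_algebraMap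
      refine ⟨?_, algebraMap Fq[X] K d * x ^ (Nat.card Fq ^
          ((Module.finrank (RatFunc Fq) K).factorial * P.natDegree)) +
          algebraMap Fq[X] K c * w, (hdi.mul (hx1.pow _)).add (hc.mul hw), ?_⟩
      · rw [Algebra.smul_def]
        exact hc.mul hx1
      · rw [Algebra.smul_def, mul_pow]
        linear_combination x ^ (Nat.card Fq ^
          ((Module.finrank (RatFunc Fq) K).factorial * P.natDegree)) * hd' +
          algebraMap Fq[X] K c * hxw
  exact (key z (hgen z hz)).2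

/-- Frobenius on `A`. Proof: `x = z + P y` with `z` integral, `y ∈ A` (`exists_int_rep`);
`x^(Q^h) = z^(Q^h) + P^(Q^h) y^(Q^h)` by `ar_add_pow`. -/
theorem FRing.frob (hA : FRing Fq A) :
    ∃ B : ℕ, ∀ P : Fq[X], Irreducible P → B < P.natDegree → ∀ x ∈ A,
      (x ^ (Nat.card Fq ^ ((Module.finrank (RatFunc Fq) K).factorial * P.natDegree)) - x) /
        algebraMap Fq[X] K P ∈ A := by
  obtain ⟨B, hB⟩ := ar_frob_int Fq K
  refine ⟨B, fun P hP hBP x hx => ?_⟩
  obtain ⟨z, hz, hy⟩ := hA.exists_int_rep hP.ne_zero hx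
  obtain ⟨w, hw, hzw⟩ := hB P hP hBP z hz
  have hP0 : algebraMap Fq[X] K P ≠ 0 := ar_ne hP.ne_zero
  have hN : 0 < Nat.card Fq ^ ((Module.finrank (RatFunc Fq) K).factorial * P.natDegree) :=
    pow_pos Nat.card_pos _
  obtain ⟨y, hy'⟩ : ∃ y, y = (x - z) / algebraMap Fq[X] K P := ⟨_, rfl⟩
  have hxy : x = z + algebraMap Fq[X] K P * y := by
    rw [hy', mul_div_cancel₀ _ hP0]; ring
  rw [← hy'] at hy
  have e : (x ^ (Nat.card Fq ^ ((Module.finrank (RatFunc Fq) K).factorial * P.natDegree)) - x) /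
      algebraMap Fq[X] K P = w + algebraMap Fq[X] K P ^
        (Nat.card Fq ^ ((Module.finrank (RatFunc Fq) K).factorial * P.natDegree) - 1) *
        y ^ (Nat.card Fq ^ ((Module.finrank (RatFunc Fq) K).factorial * P.natDegree)) - y := by
    rw [hxy, ar_add_pow Fq, mul_pow, div_eq_iff hP0]
    have h2 : algebraMap Fq[X] K P ^
        (Nat.card Fq ^ ((Module.finrank (RatFunc Fq) K).factorial * P.natDegree)) =
        algebraMap Fq[X] K P ^
        (Nat.card Fq ^ ((Module.finrank (RatFunc Fq) K).factorial * P.natDegree) - 1) *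
        algebraMap Fq[X] K P := by
      rw [← pow_succ, Nat.sub_add_cancel hN]
    rw [h2]
    linear_combination hzw
  rw [e]
  exact A.sub_mem (A.add_mem (hA.int_mem hw) (A.mul_mem (A.pow_mem (hA.mem P) _)
    (A.pow_mem hy _))) hy

end BoomFF
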