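import Pool.Agent.H.MP_4c7af0_al.NF.Tors
import Pool.Agent.H.MP_4c7af0_al.FF.R3
import Pool.Agent.H.MP_4c7af0_al.FF.R8

/-! Torsion of `(A / P A)ˣ` (MP_4c7af0_al, function field case). Template `NF/Tors.lean`. -/

namespace BoomFF

open BoomNF Polynomial

/-- `A / π A` has Jacobson radical `0` if `x^m ≡ x mod π` for all elements, `m ≥ 2`. Template
`tors_rad` in `NF/Tors.lean`. -/
theorem torsF_rad {F : Type*} [Field F] {A : Subring F} {π : F} (hπ : π ∈ A) (hπ0 : π ≠ 0) {m : ℕ}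
    (hm : 1 < m) (hfr : ∀ x ∈ A, (x ^ m - x) / π ∈ A) (x : A)
    (hx : ∀ P : Ideal A, P.IsMaximal → (⟨π, hπ⟩ : A) ∈ P → x ∈ P) : (x : F) / π ∈ A := by
  have hJ : Ideal.span {1 - x ^ (m - 1), (⟨π, hπ⟩ : A)} = ⊤ := by
    by_contra hcon
    obtain ⟨P, hP, hle⟩ := Ideal.exists_le_maximal _ hcon
    have h1 : (⟨π, hπ⟩ : A) ∈ P := hle (Ideal.subset_span (by simp))
    have h2 : 1 - x ^ (m - 1) ∈ P := hle (Ideal.subset_span (by simp))
    have h3 : x ^ (m - 1) ∈ P := P.pow_mem_of_mem (hx P hP h1) _ (by omega)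
    have h4 := P.add_mem h2 h3
    rw [sub_add_cancel] at h4
    exact hP.ne_top ((Ideal.eq_top_iff_one P).2 h4)
  have h1 : (1 : A) ∈ Ideal.span {1 - x ^ (m - 1), (⟨π, hπ⟩ : A)} := by
    rw [hJ]
    trivial
  obtain ⟨a, b, hab⟩ := Ideal.mem_span_pair.1 h1
  have h2 : (a : F) * (1 - (x : F) ^ (m - 1)) + (b : F) * π = 1 := by
    have := congrArg (fun y : A => (y : F)) hab
    simpa using this
  have h3 : (x : F) ^ m = (x : F) ^ (m - 1) * x := by
    rw [← pow_succ]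
    congr 1
    omega
  have h4 : (x : F) / π = -(a : F) * (((x : F) ^ m - x) / π) + b * x := by
    rw [h3]
    field_simp
    linear_combination (-(x : F)) * h2
  rw [h4]
  exact A.add_mem (A.mul_mem (A.neg_mem a.2) (hfr x x.2)) (A.mul_mem b.2 x.2)

variable {Fq K : Type*} [Field Fq] [Field K] [Algebra Fq[X] K] [Algebra (RatFunc Fq) K]
  [IsScalarTower Fq[X] (RatFunc Fq) K] [FiniteDimensional (RatFunc Fq) K]
  [Algebra.IsSeparable (RatFunc Fq) K] {A : Subring K} [Finite Fq]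

/-- Torsion bound. Template `SRing.tors` in `NF/Tors.lean` (`card_max`, `frob`, `tors_roots`). -/
theorem FRing.tors (hA : FRing Fq A) :
    ∃ B : ℕ, ∀ P : Fq[X], Irreducible P → B < P.natDegree → ∀ k : ℕ, 0 < k →
      ∀ T : Finset K, (∀ t ∈ T, t ∈ A ∧ (t ^ k - 1) / algebraMap Fq[X] K P ∈ A) →
        (∀ t ∈ T, ∀ t' ∈ T, (t - t') / algebraMap Fq[X] K P ∈ A → t = t') →
          T.card ≤ k ^ (Module.finrank (RatFunc Fq) K) := by
  classical
  obtain ⟨B, hB⟩ := hA.frob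
  refine ⟨B, fun Q hQ hBQ k hk T hT hTq => ?_⟩
  have hQ0 : algebraMap Fq[X] K Q ≠ 0 := ar_ne hQ.ne_zero
  have hcq : 1 < Nat.card Fq := Finite.one_lt_card
  have hpos : 1 < Nat.card Fq ^ ((Module.finrank (RatFunc Fq) K).factorial * Q.natDegree) := by
    refine Nat.one_lt_pow (Nat.mul_ne_zero (Nat.factorial_ne_zero _) ?_) hcq
    omega
  -- the maximal ideals
  set S : Set (Ideal A) := {P | P.IsMaximal ∧ (⟨algebraMap Fq[X] K Q, hA.mem Q⟩ : A) ∈ P} with hS
  have hfin : S.Finite := by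
    by_contra hcon
    obtain ⟨T', hT', hc⟩ := Set.Infinite.exists_subset_card_eq hcon
      (Module.finrank (RatFunc Fq) K + 1)
    have := hA.card_max hQ T' (fun P hP => hT' hP)
    omega
  have hcard : hfin.toFinset.card ≤ Module.finrank (RatFunc Fq) K :=
    hA.card_max hQ _ (fun P hP => hfin.mem_toFinset.1 hP)
  have hr : ∀ P : hfin.toFinset, ∃ F : Finset (A ⧸ (P : Ideal A)), F.card ≤ k ∧
      ∀ x : A ⧸ (P : Ideal A), x ^ k = 1 → x ∈ F := fun P =>
    tors_roots P.1 (hfin.mem_toFinset.1 P.2).1.isPrime hk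
  choose R hR1 hR2 using hr
  have h1 : T.attach.card ≤ (Fintype.piFinset R).card := by
    refine Finset.card_le_card_of_injOn
      (fun t P => Ideal.Quotient.mk (P : Ideal A) ⟨t.1, (hT t.1 t.2).1⟩) ?_ ?_
    · intro t _
      rw [Finset.mem_coe, Fintype.mem_piFinset]
      intro P
      apply hR2
      have h2 := (hT t.1 t.2).2
      have h3 : (⟨t.1, (hT t.1 t.2).1⟩ : A) ^ k - 1 =
          (⟨algebraMap Fq[X] K Q, hA.mem Q⟩ : A) *
            ⟨(t.1 ^ k - 1) / algebraMap Fq[X] K Q, h2⟩ := by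
        apply Subtype.ext
        push_cast
        field_simp
      have h4 : (⟨t.1, (hT t.1 t.2).1⟩ : A) ^ k - 1 ∈ (P : Ideal A) := by
        rw [h3]
        exact Ideal.mul_mem_right _ _ (hfin.mem_toFinset.1 P.2).2
      rw [← map_pow, ← sub_eq_zero, ← map_one (Ideal.Quotient.mk (P : Ideal A)), ← map_sub]
      exact Ideal.Quotient.eq_zero_iff_mem.2 h4
    · intro t _ t' _ htt
      apply Subtype.ext
      apply hTq _ t.2 _ t'.2
      have h2 := torsF_rad (F := K) (A := A) (hA.mem Q) hQ0 hpos (hB Q hQ hBQ)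
        (⟨t.1, (hT t.1 t.2).1⟩ - ⟨t'.1, (hT t'.1 t'.2).1⟩) (fun P hP hPq => by
          have h3 := congrFun htt ⟨P, hfin.mem_toFinset.2 ⟨hP, hPq⟩⟩
          exact (Ideal.Quotient.mk_eq_mk_iff_sub_mem _ _).1 h3)
      exact h2
  rw [Finset.card_attach, Fintype.card_piFinset] at h1
  refine h1.trans ((Finset.prod_le_pow_card _ _ k (fun P _ => hR1 P)).trans ?_)
  rw [Finset.card_univ, Fintype.card_coe]
  exact Nat.pow_le_pow_right hk hcard

end BoomFF
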