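import Pool.Agent.H.MP_4c7af0_al.FF.R6
import Pool.Agent.H.MP_4c7af0_al.FF.R9
import Pool.Agent.H.MP_4c7af0_al.FF.R10

/-! The interface `FR` holds for `A` (MP_4c7af0_al, function field case). -/

namespace BoomFF

open BoomNF Polynomial

variable {Fq K : Type*} [Field Fq] [Field K] [Algebra Fq[X] K] [Algebra (RatFunc Fq) K]
  [IsScalarTower Fq[X] (RatFunc Fq) K] [FiniteDimensional (RatFunc Fq) K]
  [Algebra.IsSeparable (RatFunc Fq) K] {A : Subring K} [Finite Fq]

theorem FRing.fr (hA : FRing Fq A) :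
    FR (algebraMap Fq[X] K) A (Module.finrank (RatFunc Fq) K)
      (Module.finrank (RatFunc Fq) K).factorial where
  inj := ar_inj
  mem := hA.mem
  tinv := hA.tinv
  dvd := fun α h0 => hA.dvd h0
  fin := fun α hα h0 => hA.fin hα h0
  fg := fun m hm => hA.fg hm
  pig := hA.pig
  good := fun a ha b hb hb0 hab => hA.good ha hb hb0 hab
  hpos := Nat.factorial_pos _
  frob := hA.frob
  tors := hA.tors
  cusps := by
    intro N hN hN0
    refine cuspsF_GN hA.gring ?_ hN hN0
    obtain ⟨S, hS⟩ := cuspsF_int Fq K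
    refine ⟨S, fun s => ?_⟩
    obtain ⟨σ, hσ, g, hg, b, hb, e⟩ := hS s
    exact ⟨σ, hσ, g, fun i j => hA.int_mem (hg i j), b, hb, e⟩

end BoomFF
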