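import Pool.Agent.H.MP_4c7af0_al.FF.B1
import Pool.Agent.H.MP_4c7af0_al.FF.C7
import Pool.Agent.H.MP_4c7af0_al.FF.R11
import Pool.Agent.H.MP_4c7af0_al.NF.Abs

/-! Boomerang subgroups, function field case (MP_4c7af0_al): assembly. -/

namespace BoomFF

open BoomNF Polynomial

variable {Fq F : Type*} [Field Fq] [Field F] {io : Fq[X] →+* F} {A : Subring F} {n h : ℕ}

/-- Main theorem for subgroups of `SL₂(A)`: `step3` and `step4`. Template: `SRing.main_G` in `NF/Fin.lean`. -/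
theorem FR.main_G [Finite Fq] (hA : FR io A n h) {D : Subgroup (SL2 F)}
    (hD : D ≤ G A) (hrec : Rec (G A) D) (hnc : NonCentral D) : D.relIndex (G A) ≠ 0 := by
  obtain ⟨N, hN, h1⟩ := hA.step3 hD hrec hnc
  intro h0
  exact hA.step4 hN (Nat.eq_zero_of_zero_dvd (h0 ▸ Subgroup.relIndex_dvd_of_le_left _ h1))

/-- a finite subgroup with recurrence under a group commensurable with `SL₂(A)` is in `{1, -1}`. Template:
`abs_central` in `NF/Abs.lean` (the first part, `hcomm`, is literally the same), but with the elements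
`dg t` and `u(1) dg(t) u(-1)` of `SL₂(A)` instead of `u(1)` and `v(1)` (in characteristic `p` these have finite
order): if `(dg t)^k = dg(t^k)`, `t^(2 k) ≠ 1`, commutes with `δ` then `δ` is diagonal; if
`u(1) dg(t^k) u(-1)` commutes with the diagonal matrix `δ` then `u(-1) δ u(1)` is diagonal, so
`δ 0 0 = δ 1 1`. `exists_pow_memF` in `G1.lean`. -/
theorem absF_central (hA : FR io A n h) {Γ' D₁ : Subgroup (SL2 F)}
    (h₂ : Γ'.relIndex (G A) ≠ 0) (hfin : Finite D₁)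
    (hrec : ∀ γ ∈ Γ', ∀ δ ∈ D₁, ∀ n₀ : ℕ, ∃ m ≥ n₀, γ ^ m * δ * (γ ^ m)⁻¹ ∈ D₁) :
    ∀ δ ∈ D₁, δ = 1 ∨ δ = -1 := by
  have hcomm : ∀ γ ∈ Γ', ∀ δ ∈ D₁, ∃ k : ℕ, 0 < k ∧ γ ^ k * δ = δ * γ ^ k := by
    intro γ hγ δ hδ
    have hinf : Set.Infinite {n : ℕ | γ ^ n * δ * (γ ^ n)⁻¹ ∈ D₁} := by
      apply Set.infinite_of_forall_exists_gt
      intro n₀
      obtain ⟨n, hn, h⟩ := hrec γ hγ δ hδ (n₀ + 1)
      exact ⟨n, h, by omega⟩
    have := hinf.to_subtype
    obtain ⟨x, y, hxy, hf⟩ := Finite.exists_ne_map_eq_of_infinite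
      (fun n : {n : ℕ | γ ^ n * δ * (γ ^ n)⁻¹ ∈ D₁} =>
        (⟨γ ^ (n : ℕ) * δ * (γ ^ (n : ℕ))⁻¹, n.2⟩ : D₁))
    have hf' : γ ^ (x : ℕ) * δ * (γ ^ (x : ℕ))⁻¹ = γ ^ (y : ℕ) * δ * (γ ^ (y : ℕ))⁻¹ :=
      congrArg (fun z : D₁ => (z : SL2 F)) hf
    have aux : ∀ a b : ℕ, a < b → γ ^ a * δ * (γ ^ a)⁻¹ = γ ^ b * δ * (γ ^ b)⁻¹ →
        ∃ k : ℕ, 0 < k ∧ γ ^ k * δ = δ * γ ^ k := by
      intro a b hab h
      refine ⟨b - a, by omega, ?_⟩
      have hb : γ ^ b = γ ^ a * γ ^ (b - a) := by rw [← pow_add]; congr 1; omega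
      rw [hb] at h
      have h8 : (γ ^ a)⁻¹ * (γ ^ a * δ * (γ ^ a)⁻¹) * (γ ^ a * γ ^ (b - a))
          = (γ ^ a)⁻¹ * (γ ^ a * γ ^ (b - a) * δ * (γ ^ a * γ ^ (b - a))⁻¹) *
            (γ ^ a * γ ^ (b - a)) := by
        rw [h]
      have h9 : (γ ^ a)⁻¹ * (γ ^ a * δ * (γ ^ a)⁻¹) * (γ ^ a * γ ^ (b - a)) = δ * γ ^ (b - a) := by
        group
      have h10 : (γ ^ a)⁻¹ * (γ ^ a * γ ^ (b - a) * δ * (γ ^ a * γ ^ (b - a))⁻¹) *
          (γ ^ a * γ ^ (b - a)) = γ ^ (b - a) * δ := by group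
      rw [h9, h10] at h8
      exact h8.symm
    rcases lt_or_gt_of_ne (fun h => hxy (Subtype.ext h) : (x : ℕ) ≠ y) with h | h
    · exact aux _ _ h hf'
    · exact aux _ _ h hf'.symm
  have hT := hA.infUnit
  have ht0 : io X ≠ 0 := hT.ne
  have hsq : ∀ k : ℕ, 0 < k → (io X ^ k) ^ 2 - 1 ≠ 0 := by
    intro k hk h0
    refine hT.pow_ne (k * 2) (by omega) ?_
    rw [pow_mul]
    linear_combination h0
  have hdG : dg (io X) ∈ G A := dg_mem_G hT.mem hT.inv_mem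
  have huG : u (1 : F) ∈ G A := u_mem_G A.one_mem
  have hcG : u 1 * dg (io X) * (u 1)⁻¹ ∈ G A :=
    (G A).mul_mem ((G A).mul_mem huG hdG) ((G A).inv_mem huG)
  -- an element commuting with a power of `dg t` is diagonal
  have key : ∀ (δ : SL2 F) (k : ℕ), 0 < k → dg (io X) ^ k * δ = δ * dg (io X) ^ k →
      δ 0 1 = 0 ∧ δ 1 0 = 0 := by
    intro δ k hk hc
    rw [dg_pow ht0] at hc
    have hk0 : io X ^ k ≠ 0 := pow_ne_zero _ ht0
    have e1 := congrArg (fun z : SL2 F => z 0 1) hc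
    have e2 := congrArg (fun z : SL2 F => z 1 0) hc
    simp only [mul_app, dg_00 hk0, dg_01 hk0, dg_10 hk0, dg_11 hk0] at e1 e2
    have hs := hsq k hk
    constructor
    · have h3 : ((io X ^ k) ^ 2 - 1) * δ 0 1 = 0 := by
        have h4 : (io X ^ k) * (io X ^ k * δ 0 1 + 0 * δ 1 1) =
            (io X ^ k) * (δ 0 0 * 0 + δ 0 1 * (io X ^ k)⁻¹) := by rw [e1]
        field_simp at h4
        linear_combination h4
      exact (mul_eq_zero.1 h3).resolve_left hs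
    · have h3 : ((io X ^ k) ^ 2 - 1) * δ 1 0 = 0 := by
        have h4 : (io X ^ k) * (0 * δ 0 0 + (io X ^ k)⁻¹ * δ 1 0) =
            (io X ^ k) * (δ 1 0 * io X ^ k + δ 1 1 * 0) := by rw [e2]
        field_simp at h4
        linear_combination -h4
      exact (mul_eq_zero.1 h3).resolve_left hs
  obtain ⟨j₁, hj₁, hu⟩ := exists_pow_memF h₂ hdG
  obtain ⟨j₂, hj₂, hv⟩ := exists_pow_memF h₂ hcG
  intro δ hδ₁
  obtain ⟨k₁, hk₁, hc₁⟩ := hcomm _ hu _ hδ₁
  obtain ⟨k₂, hk₂, hc₂⟩ := hcomm _ hv _ hδ₁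
  rw [← pow_mul] at hc₁ hc₂
  obtain ⟨h01, h10⟩ := key δ _ (Nat.mul_pos hj₁ hk₁) hc₁
  have hc₃ : dg (io X) ^ (j₂ * k₂) * ((u 1)⁻¹ * δ * u 1) =
      ((u 1)⁻¹ * δ * u 1) * dg (io X) ^ (j₂ * k₂) := by
    have e : (u 1 * dg (io X) * (u 1)⁻¹) ^ (j₂ * k₂) = u 1 * dg (io X) ^ (j₂ * k₂) * (u 1)⁻¹ := by
      rw [conj_pow]
    rw [e] at hc₂
    calc dg (io X) ^ (j₂ * k₂) * ((u 1)⁻¹ * δ * u 1)
        = (u 1)⁻¹ * (u 1 * dg (io X) ^ (j₂ * k₂) * (u 1)⁻¹ * δ) * u 1 := by group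
      _ = (u 1)⁻¹ * (δ * (u 1 * dg (io X) ^ (j₂ * k₂) * (u 1)⁻¹)) * u 1 := by rw [hc₂]
      _ = _ := by group
  obtain ⟨g01, -⟩ := key _ _ (Nat.mul_pos hj₂ hk₂) hc₃
  have h00 : δ 0 0 = δ 1 1 := by
    rw [u_inv] at g01
    simp only [mul_app, u_00, u_01, u_10, u_11] at g01
    rw [h01, h10] at g01
    linear_combination g01
  exact fin_eq_pm_one h01 h10 h00

/-- Template: `SRing.main_abs` in `NF/Abs.lean` (`fin_eq_pm_one` in `NF/Fin.lean` instead of `abs_pm_one`). -/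
theorem FR.main_abs [Finite Fq] (hA : FR io A n h) {Γ : Type*} [Group Γ]
    (H : Subgroup Γ) (hH : H.FiniteIndex) (φ : H →* SL2 F) (hφ : Finite φ.ker)
    (h₁ : (G A).relIndex φ.range ≠ 0) (h₂ : φ.range.relIndex (G A) ≠ 0) (D : Subgroup Γ)
    (hD : Boom4c.IsBoomerang D) :
    D.FiniteIndex ∨ (Finite D ∧ ∀ x : H, (x : Γ) ∈ D → φ x = 1 ∨ φ x = -1) := by
  classical
  set D' : Subgroup H := D.subgroupOf H with hD'
  set D₁ : Subgroup (SL2 F) := D'.map φ with hD₁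
  have hD₁r : D₁ ≤ φ.range := by
    rw [hD₁]; exact Subgroup.map_le_range φ D'
  have hrec₁ : ∀ γ ∈ φ.range, ∀ δ ∈ D₁, ∀ n₀ : ℕ, ∃ n ≥ n₀, γ ^ n * δ * (γ ^ n)⁻¹ ∈ D₁ := by
    rintro γ ⟨h, hh⟩ δ ⟨d, hd, hdδ⟩ n₀
    have hd' : (d : Γ) ∈ D := by
      have := hd
      rwa [hD', SetLike.mem_coe, Subgroup.mem_subgroupOf] at this
    obtain ⟨n, hn, hmem⟩ := hD.rec (h : Γ) hd' n₀
    refine ⟨n, hn, h ^ n * d * (h ^ n)⁻¹, ?_, ?_⟩
    · rw [hD', SetLike.mem_coe, Subgroup.mem_subgroupOf]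
      simpa using hmem
    · rw [map_mul, map_mul, map_inv, map_pow, hh, hdδ]
  have hrec₂ : Rec (G A) (D₁ ⊓ G A) := by
    intro γ hγ δ hδ n₀
    obtain ⟨j, hj, hjr⟩ := exists_pow_memF h₂ hγ
    obtain ⟨n, hn, hmem⟩ := hrec₁ _ hjr δ hδ.1 n₀
    refine ⟨j * n, hn.le.trans (Nat.le_mul_of_pos_left n hj), ?_⟩
    rw [pow_mul]
    exact ⟨hmem, (G A).mul_mem ((G A).mul_mem ((G A).pow_mem ((G A).pow_mem hγ _) _) hδ.2)
      ((G A).inv_mem ((G A).pow_mem ((G A).pow_mem hγ _) _))⟩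
  by_cases hnc : NonCentral (D₁ ⊓ G A)
  · left
    have h3 := hA.main_G inf_le_right hrec₂ hnc
    have h4 : (D₁ ⊓ G A).relIndex φ.range ≠ 0 := Subgroup.relIndex_ne_zero_trans h3 h₁
    have h5 : D₁.relIndex φ.range ≠ 0 := by
      intro h0
      exact h4 (Nat.eq_zero_of_zero_dvd (h0 ▸ Subgroup.relIndex_dvd_of_le_left _ inf_le_left))
    have h6 : (D₁.comap φ).index ≠ 0 := by rw [Subgroup.index_comap]; exact h5
    rw [hD₁, Subgroup.comap_map_eq] at h6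
    have h7 : D'.relIndex (D' ⊔ φ.ker) ≠ 0 := abs_relIndex_sup D' φ.ker hφ
    have h8 : D'.index ≠ 0 := by
      have := Subgroup.relIndex_mul_index (H := D') (K := D' ⊔ φ.ker) le_sup_left
      rw [← this]
      exact Nat.mul_ne_zero h7 h6
    have h9 : (D ⊓ H).index ≠ 0 := by
      have e1 : (D ⊓ H).relIndex H = D'.index := by
        rw [Subgroup.inf_relIndex_right]; rfl
      have e2 := Subgroup.relIndex_mul_index (H := D ⊓ H) (K := H) inf_le_right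
      rw [← e2, e1]
      exact Nat.mul_ne_zero h8 hH.index_ne_zero
    refine ⟨?_⟩
    intro h0
    exact h9 (Nat.eq_zero_of_zero_dvd (h0 ▸ Subgroup.index_dvd_of_le inf_le_left))
  · right
    have hpm : ∀ δ ∈ D₁ ⊓ G A, δ = 1 ∨ δ = -1 := by
      intro δ hδ
      by_contra hcon
      apply hnc
      refine ⟨δ, hδ, ?_⟩
      rintro ⟨h01, h10, h00⟩
      exact hcon (fin_eq_pm_one h01 h10 h00)
    have hfinD₁ : Finite D₁ := by
      have h7 : (G A).relIndex D₁ ≠ 0 := fun h => h₁ (Subgroup.relIndex_eq_zero_of_le_right hD₁r h)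
      have hfi : ((G A).subgroupOf D₁).FiniteIndex := ⟨h7⟩
      have hsub : Finite ((G A).subgroupOf D₁) := by
        have hfin2 : Set.Finite ({1, -1} : Set (SL2 F)) := by simp
        have := hfin2.to_subtype
        refine Finite.of_injective (fun x : (G A).subgroupOf D₁ =>
          (⟨((x : D₁) : SL2 F), ?_⟩ : ({1, -1} : Set (SL2 F)))) ?_
        · have := hpm ((x : D₁) : SL2 F) ⟨(x : D₁).2, x.2⟩
          simpa using this
        · intro x y hxy
          apply Subtype.ext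
          apply Subtype.ext
          exact congrArg (fun z : ({1, -1} : Set (SL2 F)) => (z : SL2 F)) hxy
      exact Finite.of_subgroup_quotient ((G A).subgroupOf D₁)
    -- `D'` is finite
    have hfinD' : Finite D' := by
      apply abs_finite_of_ker (φ.comp D'.subtype)
      · refine Finite.of_injective (fun x : (φ.comp D'.subtype).ker =>
          (⟨((x : D') : H), ?_⟩ : φ.ker)) ?_
        · rw [MonoidHom.mem_ker]
          have := x.2
          rw [MonoidHom.mem_ker] at this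
          exact this
        · intro x y hxy
          apply Subtype.ext
          apply Subtype.ext
          exact congrArg (fun z : φ.ker => (z : H)) hxy
      · have hr : (φ.comp D'.subtype).range = D₁ := by
          rw [MonoidHom.range_comp, hD₁, Subgroup.range_subtype]
        rw [hr]; exact hfinD₁
    have hsub : Finite (H.subgroupOf D) := by
      refine Finite.of_injective (fun x : H.subgroupOf D =>
        (⟨⟨((x : D) : Γ), ?_⟩, ?_⟩ : D')) ?_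
      · have := x.2
        rwa [Subgroup.mem_subgroupOf] at this
      · rw [hD', Subgroup.mem_subgroupOf]; exact (x : D).2
      · intro x y hxy
        apply Subtype.ext
        apply Subtype.ext
        have := congrArg (fun z : D' => ((z : H) : Γ)) hxy
        exact this
    have hfi : (H.subgroupOf D).FiniteIndex := inferInstance
    refine ⟨Finite.of_subgroup_quotient (H.subgroupOf D), ?_⟩
    intro h hh
    apply absF_central hA h₂ hfinD₁ hrec₁
    exact ⟨h, by rw [hD', SetLike.mem_coe, Subgroup.mem_subgroupOf]; exact hh, rfl⟩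

end BoomFF
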