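import Mathlib

/-! Primes in arithmetic progressions in `𝔽_q[t]` (MP_4c7af0_al, function field case): monic
polynomials of degree `N` and residue classes. -/

namespace BoomFF

open Polynomial

variable {k : Type*} [Field k] [Finite k]

/-- there are finitely many monic polynomials of degree `N` over a finite field
(`Polynomial.monicEquivDegreeLT`, `Polynomial.degreeLTEquiv`) -/
theorem finite_mon (k : Type*) [Field k] [Finite k] (N : ℕ) :
    {f : k[X] | f.Monic ∧ f.natDegree = N}.Finite := by
  have h : Finite { p : k[X] // p.Monic ∧ p.natDegree = N } :=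
    Finite.of_equiv (Fin N → k)
      ((monicEquivDegreeLT N).trans (degreeLTEquiv k N).toEquiv).symm
  exact h

/-- monic polynomials of degree `N` -/
noncomputable def mon (k : Type*) [Field k] [Finite k] (N : ℕ) : Finset k[X] :=
  (finite_mon k N).toFinset

theorem mem_mon {N : ℕ} {f : k[X]} : f ∈ mon k N ↔ f.Monic ∧ f.natDegree = N := by
  rw [mon, Set.Finite.mem_toFinset]; rfl

/-- there are `q^N` monic polynomials of degree `N` (same equivalences) -/
theorem card_mon (N : ℕ) : (mon k N).card = Nat.card k ^ N := by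
  have h1 : (mon k N).card = Nat.card {f : k[X] | f.Monic ∧ f.natDegree = N} := by
    rw [mon, Nat.card_coe_set_eq, Set.ncard_eq_toFinset_card _ (finite_mon k N)]
  rw [h1, Nat.card_congr (show {f : k[X] | f.Monic ∧ f.natDegree = N} ≃ (Fin N → k) from
    (monicEquivDegreeLT N).trans (degreeLTEquiv k N).toEquiv), Nat.card_fun]
  simp

/-- Let `n` be monic of degree `≤ N`. Every residue class mod `n` contains `q^(N - deg n)` monic
polynomials of degree `N`. Proof: `f ↦ (f /ₘ n, f %ₘ n)` is a bijection of the monic polynomials of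
degree `N` with pairs of a monic polynomial of degree `N - deg n` and a polynomial of degree
`< deg n`, and the latter represent the residue classes mod `n` exactly once. (`card_mon`.) -/
theorem sum_mon_residue {n : k[X]} (hn : n.Monic) {N : ℕ} (hN : n.natDegree ≤ N)
    [Fintype (k[X] ⧸ Ideal.span {n})] (χ : k[X] ⧸ Ideal.span {n} → ℂ) :
    ∑ f ∈ mon k N, χ (Ideal.Quotient.mk _ f) =
      (Nat.card k : ℂ) ^ (N - n.natDegree) * ∑ a, χ a := by
  classical
  obtain ⟨s, hs⟩ : ∃ s : k[X] ⧸ Ideal.span {n} → k[X], ∀ a, Ideal.Quotient.mk _ (s a) = a :=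
    ⟨_, Function.surjInv_eq Ideal.Quotient.mk_surjective⟩
  have hn0 : n ≠ 0 := hn.ne_zero
  have hrep : ∀ a, Ideal.Quotient.mk (Ideal.span {n}) (s a %ₘ n) = a := by
    intro a
    rw [modByMonic_eq_sub_mul_div, map_sub, hs]
    have : Ideal.Quotient.mk (Ideal.span {n}) (n * (s a /ₘ n)) = 0 := by
      rw [Ideal.Quotient.eq_zero_iff_mem, Ideal.mem_span_singleton]
      exact dvd_mul_right _ _
    rw [this, sub_zero]
  have hdeg : ∀ a, (s a %ₘ n).degree < n.degree := fun a => degree_modByMonic_lt _ hn
  have key : ∑ f ∈ mon k N, χ (Ideal.Quotient.mk _ f) =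
      ∑ p ∈ mon k (N - n.natDegree) ×ˢ (Finset.univ : Finset (k[X] ⧸ Ideal.span {n})), χ p.2 := by
    refine Finset.sum_bij' (fun f _ => (f /ₘ n, Ideal.Quotient.mk (Ideal.span {n}) f))
      (fun p _ => s p.2 %ₘ n + n * p.1) ?_ ?_ ?_ ?_ ?_
    · intro f hf
      rw [mem_mon] at hf
      rw [Finset.mem_product]
      refine ⟨?_, Finset.mem_univ _⟩
      rw [mem_mon]
      constructor
      · rw [Monic, leadingCoeff_divByMonic_of_monic hn]
        · exact hf.1
        · rw [degree_eq_natDegree hn0, degree_eq_natDegree hf.1.ne_zero, hf.2]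
          exact_mod_cast hN
      · rw [natDegree_divByMonic _ hn, hf.2]
    · rintro ⟨g, a⟩ hg
      rw [Finset.mem_product, mem_mon] at hg
      obtain ⟨⟨hg1, hg2⟩, -⟩ := hg
      have hlt : (s a %ₘ n).degree < (n * g).degree := by
        refine lt_of_lt_of_le (hdeg a) ?_
        rw [degree_mul]
        have : (0 : WithBot ℕ) ≤ g.degree := by
          rw [degree_eq_natDegree hg1.ne_zero]
          exact_mod_cast Nat.zero_le _
        exact le_add_of_nonneg_right this
      rw [mem_mon]
      constructor
      · exact (hn.mul hg1).add_of_right hlt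
      · rw [natDegree_add_eq_right_of_degree_lt hlt, hn.natDegree_mul hg1, hg2]
        omega
    · intro f hf
      have h1 : s (Ideal.Quotient.mk (Ideal.span {n}) f) %ₘ n = f %ₘ n := by
        apply modByMonic_eq_of_dvd_sub hn
        rw [← Ideal.mem_span_singleton, ← Ideal.Quotient.eq, hs]
      change s (Ideal.Quotient.mk (Ideal.span {n}) f) %ₘ n + n * (f /ₘ n) = f
      rw [h1, modByMonic_add_div]
    · rintro ⟨g, a⟩ hg
      have h1 := div_modByMonic_unique (f := s a %ₘ n + n * g) g (s a %ₘ n) hn ⟨rfl, hdeg a⟩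
      have h2 : Ideal.Quotient.mk (Ideal.span {n}) (s a %ₘ n + n * g) = a := by
        rw [map_add, hrep]
        have : Ideal.Quotient.mk (Ideal.span {n}) (n * g) = 0 := by
          rw [Ideal.Quotient.eq_zero_iff_mem, Ideal.mem_span_singleton]
          exact dvd_mul_right _ _
        rw [this, add_zero]
      exact Prod.ext h1.1 h2
    · intro f hf
      rfl
  rw [key, Finset.sum_product]
  simp only [Finset.sum_const, card_mon, nsmul_eq_mul]
  push_cast
  rfl

end BoomFF
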