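import Pool.Agent.H.MP_4c7af0_al.FF.D1

/-! Primes in arithmetic progressions in `𝔽_q[t]` (MP_4c7af0_al, function field case): the Newton
identity. -/

namespace BoomFF

open Polynomial

variable {k : Type*} [Field k] [Finite k]

/-- monic irreducible polynomials of degree `m` -/
noncomputable def irr (k : Type*) [Field k] [Finite k] (m : ℕ) : Finset k[X] :=
  @Finset.filter k[X] (fun f => Irreducible f) (Classical.decPred _) (mon k m)

theorem mem_irr {m : ℕ} {f : k[X]} : f ∈ irr k m ↔ f.Monic ∧ f.natDegree = m ∧ Irreducible f := by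
  classical
  rw [irr, Finset.mem_filter, mem_mon, and_assoc]

/-- a completely multiplicative function on monic polynomials, bounded by `1` -/
structure CM (ψ : k[X] → ℂ) : Prop where
  one : ψ 1 = 1
  mul : ∀ f g : k[X], f.Monic → g.Monic → ψ (f * g) = ψ f * ψ g
  le : ∀ f : k[X], ‖ψ f‖ ≤ 1

/-- `A_N(ψ) = ∑ ψ(f)`, `f` monic of degree `N` -/
noncomputable def AA (ψ : k[X] → ℂ) (N : ℕ) : ℂ := ∑ f ∈ mon k N, ψ f

/-- `C_j(ψ) = ∑_{m ∣ j} m ∑_P ψ(P)^(j/m)`, `P` monic irreducible of degree `m` (so `C_0 = 0`) -/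
noncomputable def CC (ψ : k[X] → ℂ) (j : ℕ) : ℂ :=
  ∑ m ∈ j.divisors, (m : ℂ) * ∑ P ∈ irr k m, ψ P ^ (j / m)

theorem d2_deg_pos {m : ℕ} {P : k[X]} (hP : P ∈ irr k m) : 0 < m := by
  obtain ⟨h1, h2, h3⟩ := mem_irr.1 hP
  rw [← h2]
  exact h3.natDegree_pos

/-- `P ^ i ∣ f` in terms of the multiset of prime factors -/
theorem d2_pow_dvd [DecidableEq k] {P f : k[X]} (hP : P.Monic) (hPi : Irreducible P) (hf : f ≠ 0)
    (i : ℕ) : P ^ i ∣ f ↔ i ≤ (UniqueFactorizationMonoid.normalizedFactors f).count P := by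
  rw [pow_dvd_iff_le_emultiplicity,
    UniqueFactorizationMonoid.emultiplicity_eq_count_normalizedFactors hPi hf,
    hP.normalize_eq_self, Nat.cast_le]

/-- the number of `j = m i` with `P ^ i ∣ f` -/
theorem d2_card [DecidableEq k] {N m : ℕ} {P f : k[X]} (hf : f ∈ mon k N) (hP : P ∈ irr k m) :
    ∑ j ∈ Finset.range (N + 1), (open Classical in
      if m ∣ j ∧ j ≠ 0 ∧ P ^ (j / m) ∣ f then 1 else 0) =
      (UniqueFactorizationMonoid.normalizedFactors f).count P := by
  classical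
  obtain ⟨hf1, hf2⟩ := mem_mon.1 hf
  obtain ⟨h1, h2, h3⟩ := mem_irr.1 hP
  have hm := d2_deg_pos hP
  rw [Finset.sum_boole, Nat.cast_id]
  have himg : (Finset.range (N + 1)).filter (fun j => m ∣ j ∧ j ≠ 0 ∧ P ^ (j / m) ∣ f) =
      (Finset.Icc 1 ((UniqueFactorizationMonoid.normalizedFactors f).count P)).image
        (fun i => m * i) := by
    ext j
    rw [Finset.mem_filter, Finset.mem_range, Finset.mem_image]
    constructor
    · rintro ⟨hj, ⟨i, rfl⟩, hj0, hd⟩
      rw [Nat.mul_div_cancel_left i hm, d2_pow_dvd h1 h3 hf1.ne_zero] at hd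
      refine ⟨i, Finset.mem_Icc.2 ⟨?_, hd⟩, rfl⟩
      rcases Nat.eq_zero_or_pos i with h0 | h0
      · exact absurd (by rw [h0, mul_zero]) hj0
      · exact h0
    · rintro ⟨i, hi, rfl⟩
      rw [Finset.mem_Icc] at hi
      have hd : P ^ i ∣ f := (d2_pow_dvd h1 h3 hf1.ne_zero i).2 hi.2
      have hdeg := natDegree_le_of_dvd hd hf1.ne_zero
      rw [natDegree_pow, h2, hf2] at hdeg
      refine ⟨?_, ⟨i, rfl⟩, ?_, ?_⟩
      · have : m * i = i * m := mul_comm m i
        omega
      · have := Nat.mul_pos hm hi.1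
        omega
      · rw [Nat.mul_div_cancel_left i hm]
        exact hd
  rw [himg, Finset.card_image_of_injective, Nat.card_Icc]
  · omega
  · intro a b hab
    exact Nat.eq_of_mul_eq_mul_left hm hab

/-- the degree of `f` is the sum of the degrees of its prime factors -/
theorem d2_deg [DecidableEq k] {N : ℕ} {f : k[X]} (hf : f ∈ mon k N) :
    ∑ m ∈ Finset.range (N + 1), ∑ P ∈ irr k m,
      m * (UniqueFactorizationMonoid.normalizedFactors f).count P = N := by
  classical
  obtain ⟨hf1, hf2⟩ := mem_mon.1 hf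
  obtain ⟨s, hs⟩ : ∃ s, s = UniqueFactorizationMonoid.normalizedFactors f := ⟨_, rfl⟩
  have hmem : ∀ P, P ∈ s ↔ Irreducible P ∧ P.Monic ∧ P ∣ f := by
    intro P
    rw [hs, Polynomial.mem_normalizedFactors_iff hf1.ne_zero]
  have hprod : s.prod = f := by
    have := leadingCoeff_mul_prod_normalizedFactors f
    rw [hf1.leadingCoeff, C_1, one_mul, ← hs] at this
    exact this
  have hdeg : (s.map natDegree).sum = N := by
    rw [← natDegree_multiset_prod_of_monic s (fun P hP => ((hmem P).1 hP).2.1), hprod, hf2]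
  rw [← hs]
  have h1 : ∀ m ∈ Finset.range (N + 1), ∑ P ∈ irr k m, m * s.count P =
      ∑ P ∈ s.toFinset with P.natDegree = m, s.count P * P.natDegree := by
    intro m _
    symm
    apply Finset.sum_subset_zero_on_sdiff
    · intro P hP
      rw [Finset.mem_filter, Multiset.mem_toFinset, hmem] at hP
      exact mem_irr.2 ⟨hP.1.2.1, hP.2, hP.1.1⟩
    · intro P hP
      rw [Finset.mem_sdiff, Finset.mem_filter, Multiset.mem_toFinset] at hP
      have hP2 := (mem_irr.1 hP.1).2.1
      have : P ∉ s := fun h => hP.2 ⟨h, hP2⟩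
      rw [Multiset.count_eq_zero_of_notMem this, mul_zero]
    · intro P hP
      rw [Finset.mem_filter] at hP
      rw [hP.2, mul_comm]
  rw [Finset.sum_congr rfl h1, Finset.sum_fiberwise_of_maps_to]
  · rw [← hdeg, Finset.sum_multiset_map_count]
    simp only [smul_eq_mul]
  · intro P hP
    rw [Multiset.mem_toFinset, hmem] at hP
    rw [Finset.mem_range]
    have := natDegree_le_of_dvd hP.2.2 hf1.ne_zero
    omega

/-- the degree identity, summed over `j` first -/
theorem d2_deg' {N : ℕ} {f : k[X]} (hf : f ∈ mon k N) :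
    ∑ j ∈ Finset.range (N + 1), ∑ m ∈ j.divisors, ∑ P ∈ irr k m,
      (open Classical in if P ^ (j / m) ∣ f then m else 0) = N := by
  classical
  refine Eq.trans ?_ (d2_deg hf)
  have h1 : ∀ j ∈ Finset.range (N + 1), ∑ m ∈ j.divisors, ∑ P ∈ irr k m,
      (if P ^ (j / m) ∣ f then m else 0) =
      ∑ m ∈ Finset.range (N + 1), ∑ P ∈ irr k m,
        (if m ∣ j ∧ j ≠ 0 ∧ P ^ (j / m) ∣ f then m else 0) := by
    intro j hj
    rw [Finset.mem_range] at hj
    apply Finset.sum_subset_zero_on_sdiff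
    · intro m hm
      have := Nat.divisor_le hm
      rw [Finset.mem_range]
      omega
    · intro m hm
      rw [Finset.mem_sdiff, Nat.mem_divisors] at hm
      apply Finset.sum_eq_zero
      intro P _
      rw [if_neg]
      rintro ⟨h1, h2, -⟩
      exact hm.2 ⟨h1, h2⟩
    · intro m hm
      rw [Nat.mem_divisors] at hm
      apply Finset.sum_congr rfl
      intro P _
      by_cases h : P ^ (j / m) ∣ f
      · rw [if_pos h, if_pos ⟨hm.1, hm.2, h⟩]
      · rw [if_neg h, if_neg (fun h' => h h'.2.2)]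
  rw [Finset.sum_congr rfl h1, Finset.sum_comm]
  apply Finset.sum_congr rfl
  intro m _
  rw [Finset.sum_comm]
  apply Finset.sum_congr rfl
  intro P hP
  rw [← d2_card hf hP, Finset.mul_sum]
  apply Finset.sum_congr rfl
  intro j _
  by_cases h : m ∣ j ∧ j ≠ 0 ∧ P ^ (j / m) ∣ f
  · rw [if_pos h, if_pos h, mul_one]
  · rw [if_neg h, if_neg h, mul_zero]

theorem d2_pow {ψ : k[X] → ℂ} (hψ : CM ψ) {P : k[X]} (hP : P.Monic) (i : ℕ) :
    ψ (P ^ i) = ψ P ^ i := by
  induction i with
  | zero => rw [pow_zero, pow_zero, hψ.one]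
  | succ i ih => rw [pow_succ, pow_succ, hψ.mul _ _ (hP.pow i) hP, ih]

/-- multiples of a monic polynomial `h` -/
theorem d2_shift {ψ : k[X] → ℂ} (hψ : CM ψ) {N j : ℕ} (hj : j ≤ N) {h : k[X]} (hh : h.Monic)
    (hd : h.natDegree = j) :
    ψ h * AA ψ (N - j) = ∑ f ∈ mon k N, (open Classical in if h ∣ f then ψ f else 0) := by
  classical
  rw [← Finset.sum_filter, AA, Finset.mul_sum]
  have himg : (mon k N).filter (fun f => h ∣ f) = (mon k (N - j)).image (fun g => h * g) := by
    ext f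
    rw [Finset.mem_filter, Finset.mem_image, mem_mon]
    constructor
    · rintro ⟨⟨h1, h2⟩, ⟨g, rfl⟩⟩
      have hg : g.Monic := hh.of_mul_monic_left h1
      refine ⟨g, mem_mon.2 ⟨hg, ?_⟩, rfl⟩
      rw [hh.natDegree_mul hg, hd] at h2
      omega
    · rintro ⟨g, hg, rfl⟩
      obtain ⟨hg1, hg2⟩ := mem_mon.1 hg
      refine ⟨⟨hh.mul hg1, ?_⟩, ⟨g, rfl⟩⟩
      rw [hh.natDegree_mul hg1, hd, hg2]
      omega
  rw [himg, Finset.sum_image]
  · apply Finset.sum_congr rfl
    intro g hg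
    rw [hψ.mul h g hh (mem_mon.1 hg).1]
  · intro a _ b _ hab
    exact mul_left_cancel₀ hh.ne_zero hab

/-- Newton's identity `N A_N = ∑_{i + j = N} C_i A_j`.
Proof: for a monic `f` of degree `N`: `N = deg f = ∑_{(P, i) : i ≥ 1, P^i ∣ f} deg P` (sum over the monic
irreducible `P`; unique factorisation, the number of such `i` is the multiplicity of `P` in `f`). So
`N A_N = ∑_f ∑_{(P, i), P^i ∣ f} deg P ψ(f)`; put `f = P^i g`: `ψ(f) = ψ(P)^i ψ(g)` and for fixed `P, i`
the `g` run through all monic polynomials of degree `N - i deg P`. So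
`N A_N = ∑_P ∑_{i ≥ 1} deg P ψ(P)^i A_{N - i deg P}`; collect the terms with `i deg P = j`. -/
theorem newton {ψ : k[X] → ℂ} (hψ : CM ψ) (N : ℕ) :
    (N : ℂ) * AA ψ N = ∑ p ∈ Finset.HasAntidiagonal.antidiagonal N, CC ψ p.1 * AA ψ p.2 := by
  classical
  rw [Finset.Nat.sum_antidiagonal_eq_sum_range_succ (fun i j => CC ψ i * AA ψ j) N]
  have h1 : ∀ j ∈ Finset.range N.succ, CC ψ j * AA ψ (N - j) =
      ∑ f ∈ mon k N, ∑ m ∈ j.divisors, ∑ P ∈ irr k m,
        (if P ^ (j / m) ∣ f then (m : ℂ) else 0) * ψ f := by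
    intro j hj
    have hj' : j ≤ N := by
      rw [Finset.mem_range] at hj
      omega
    rw [CC, Finset.sum_mul, Finset.sum_comm]
    apply Finset.sum_congr rfl
    intro m hm
    rw [mul_assoc, Finset.sum_mul, Finset.mul_sum, Finset.sum_comm]
    apply Finset.sum_congr rfl
    intro P hP
    obtain ⟨hP1, hP2, hP3⟩ := mem_irr.1 hP
    have hdeg : (P ^ (j / m)).natDegree = j := by
      rw [natDegree_pow, hP2]
      exact Nat.div_mul_cancel (Nat.mem_divisors.1 hm).1
    rw [← d2_pow hψ hP1, d2_shift hψ hj' (hP1.pow _) hdeg, Finset.mul_sum]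
    apply Finset.sum_congr rfl
    intro f _
    by_cases h : P ^ (j / m) ∣ f
    · rw [if_pos h, if_pos h]
    · rw [if_neg h, if_neg h, mul_zero, zero_mul]
  rw [Finset.sum_congr rfl h1, Finset.sum_comm, AA, Finset.mul_sum]
  apply Finset.sum_congr rfl
  intro f hf
  have h2 := congrArg (fun n : ℕ => (n : ℂ)) (d2_deg' hf)
  simp only [Nat.cast_sum] at h2
  rw [← h2, Finset.sum_mul]
  apply Finset.sum_congr rfl
  intro j _
  rw [Finset.sum_mul]
  apply Finset.sum_congr rfl
  intro m _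
  rw [Finset.sum_mul]
  apply Finset.sum_congr rfl
  intro P _
  by_cases h : P ^ (j / m) ∣ f
  · rw [if_pos h, if_pos h]
  · rw [if_neg h, if_neg h, Nat.cast_zero]

/-- `A_0 = 1` -/
theorem AA_zero {ψ : k[X] → ℂ} (hψ : CM ψ) : AA ψ 0 = 1 := by
  have h : mon k 0 = {1} := by
    ext f
    rw [mem_mon, Finset.mem_singleton]
    constructor
    · rintro ⟨h1, h2⟩
      exact (Monic.natDegree_eq_zero h1).1 h2
    · rintro rfl
      exact ⟨monic_one, natDegree_one⟩
  rw [AA, h, Finset.sum_singleton, hψ.one]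

end BoomFF
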