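import Mathlib

/-! Primes in arithmetic progressions in `𝔽_q[t]` (MP_4c7af0_al, function field case): the analytic
lemmas. All series are taken at real `u` with `0 < u < 1/q`. -/

namespace BoomFF

open Filter Topology

theorem d3_mul_lt {q : ℕ} (hq : 1 < q) {u : ℝ} (hu' : u < 1 / q) : (q : ℝ) * u < 1 := by
  have hq0 : (0 : ℝ) < q := by exact_mod_cast (by omega : 0 < q)
  rw [lt_div_iff₀ hq0] at hu'
  linarith [mul_comm u (q : ℝ)]

theorem d3_norm {q : ℕ} {C : ℕ → ℂ} (hC : ∀ j, ‖C j‖ ≤ (q : ℝ) ^ j) {u : ℝ}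
    (hu : 0 < u) (j : ℕ) : ‖C j * (u : ℂ) ^ j‖ ≤ ((q : ℝ) * u) ^ j := by
  rw [norm_mul, norm_pow, Complex.norm_real, Real.norm_of_nonneg hu.le, mul_pow]
  exact mul_le_mul_of_nonneg_right (hC j) (by positivity)

theorem d3_summ_norm {q : ℕ} (hq : 1 < q) {C : ℕ → ℂ} (hC : ∀ j, ‖C j‖ ≤ (q : ℝ) ^ j) {u : ℝ}
    (hu : 0 < u) (hu' : u < 1 / q) : Summable fun j => ‖C j * (u : ℂ) ^ j‖ :=
  Summable.of_nonneg_of_le (fun _ => norm_nonneg _) (d3_norm hC hu)
    (summable_geometric_of_lt_one (by positivity) (d3_mul_lt hq hu'))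

/-- convergence of the series -/
theorem summ_C {q : ℕ} (hq : 1 < q) {C : ℕ → ℂ} (hC : ∀ j, ‖C j‖ ≤ (q : ℝ) ^ j) {u : ℝ}
    (hu : 0 < u) (hu' : u < 1 / q) : Summable fun j => C j * (u : ℂ) ^ j :=
  (d3_summ_norm hq hC hu hu').of_norm

theorem d3_eval_tsum (G : Polynomial ℂ) (x : ℂ) : ∑' j, G.coeff j * x ^ j = G.eval x := by
  rw [Polynomial.eval_eq_sum_range]
  refine tsum_eq_sum fun j hj => ?_
  rw [Finset.mem_range, not_lt] at hj
  rw [Polynomial.coeff_eq_zero_of_natDegree_lt (by omega), zero_mul]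

theorem d3_deriv_tsum (G : Polynomial ℂ) (x : ℂ) :
    ∑' j : ℕ, (j : ℂ) * G.coeff j * x ^ j = x * (Polynomial.derivative G).eval x := by
  rw [Polynomial.derivative_eval, Polynomial.sum_over_range _ (by simp), Finset.mul_sum]
  refine (tsum_eq_sum fun j hj => ?_).trans (Finset.sum_congr rfl fun j _ => ?_)
  · rw [Finset.mem_range, not_lt] at hj
    rw [Polynomial.coeff_eq_zero_of_natDegree_lt (by omega), mul_zero, zero_mul]
  · rcases j with _ | j
    · simp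
    · rw [Nat.add_sub_cancel, pow_succ]
      ring

theorem d3_coeff_summ (G : Polynomial ℂ) (x : ℂ) : Summable fun j => ‖G.coeff j * x ^ j‖ := by
  refine summable_of_ne_finset_zero (s := Finset.range (G.natDegree + 1)) fun j hj => ?_
  rw [Finset.mem_range, not_lt] at hj
  rw [Polynomial.coeff_eq_zero_of_natDegree_lt (by omega), zero_mul, norm_zero]

theorem d3_prod {q : ℕ} (hq : 1 < q) {C : ℕ → ℂ} (hC : ∀ j, ‖C j‖ ≤ (q : ℝ) ^ j)
    {G : Polynomial ℂ}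
    (hN : ∀ N : ℕ, (N : ℂ) * G.coeff N = ∑ p ∈ Finset.HasAntidiagonal.antidiagonal N, C p.1 * G.coeff p.2)
    {u : ℝ} (hu : 0 < u) (hu' : u < 1 / q) :
    (∑' j, C j * (u : ℂ) ^ j) * G.eval (u : ℂ) = (u : ℂ) * (Polynomial.derivative G).eval (u : ℂ) := by
  rw [← d3_eval_tsum, tsum_mul_tsum_eq_tsum_sum_antidiagonal_of_summable_norm
    (d3_summ_norm hq hC hu hu') (d3_coeff_summ G _), ← d3_deriv_tsum]
  congr 1
  funext N
  rw [hN, Finset.sum_mul]
  refine Finset.sum_congr rfl fun p hp => ?_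
  have h := Finset.HasAntidiagonal.mem_antidiagonal.1 hp
  rw [← h, pow_add]
  ring

/-- Let `G` be a nonzero complex polynomial with `N G_N = ∑_{i + j = N} C_i G_j` for all `N`. Then
`(1 - q u) ∑ C_j u^j → - ord_{1/q} G` for `u → 1/q`, `u < 1/q`.
Proof: `(∑ C_j u^j) G(u) = u G'(u)` for `0 < u < 1/q` (product of an absolutely convergent series and a
polynomial; compare coefficients). Write `G = (X - 1/q)^m H`, `H(1/q) ≠ 0`. For `u` near `1/q`,
`u ≠ 1/q`, `G(u) ≠ 0` and `∑ C_j u^j = u G'(u) / G(u) = u m / (u - 1/q) + u H'(u) / H(u)`, and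
`(1 - q u) u m / (u - 1/q) = - q u m → - m`. -/
theorem lim_poly {q : ℕ} (hq : 1 < q) {C : ℕ → ℂ} (hC : ∀ j, ‖C j‖ ≤ (q : ℝ) ^ j)
    {G : Polynomial ℂ} (hG : G ≠ 0)
    (hN : ∀ N : ℕ, (N : ℂ) * G.coeff N = ∑ p ∈ Finset.HasAntidiagonal.antidiagonal N, C p.1 * G.coeff p.2) :
    Tendsto (fun u : ℝ => ((1 - q * u : ℝ) : ℂ) * ∑' j, C j * (u : ℂ) ^ j)
      (𝓝[<] ((1 : ℝ) / q)) (𝓝 (-(G.rootMultiplicity (1 / (q : ℂ)) : ℂ))) := by
  have hq0 : (0 : ℝ) < q := by exact_mod_cast (by omega : 0 < q)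
  have hqc : (q : ℂ) ≠ 0 := by exact_mod_cast hq0.ne'
  obtain ⟨H, hGH, hH⟩ := Polynomial.exists_eq_pow_rootMultiplicity_mul_and_not_dvd G hG
    (1 / (q : ℂ))
  set m := G.rootMultiplicity (1 / (q : ℂ)) with hm
  rw [Polynomial.dvd_iff_isRoot, Polynomial.IsRoot.def] at hH
  have hcast : (((1 : ℝ) / q : ℝ) : ℂ) = 1 / (q : ℂ) := by push_cast; rfl
  have hcH : Continuous fun u : ℝ => H.eval (u : ℂ) :=
    H.continuous.comp Complex.continuous_ofReal
  have hcH' : Continuous fun u : ℝ => (Polynomial.derivative H).eval (u : ℂ) :=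
    (Polynomial.derivative H).continuous.comp Complex.continuous_ofReal
  have hHa : H.eval ((((1 : ℝ) / q : ℝ)) : ℂ) ≠ 0 := by rw [hcast]; exact hH
  have hlim : Tendsto (fun u : ℝ => -(q : ℂ) * ((u : ℂ) * ((m : ℂ) * H.eval (u : ℂ) +
      ((u : ℂ) - 1 / (q : ℂ)) * (Polynomial.derivative H).eval (u : ℂ)) / H.eval (u : ℂ)))
      (𝓝[<] ((1 : ℝ) / q)) (𝓝 (-(m : ℂ))) := by
    have hcont : ContinuousAt (fun u : ℝ => -(q : ℂ) * ((u : ℂ) * ((m : ℂ) * H.eval (u : ℂ) +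
        ((u : ℂ) - 1 / (q : ℂ)) * (Polynomial.derivative H).eval (u : ℂ)) / H.eval (u : ℂ)))
        ((1 : ℝ) / q) := by
      refine ContinuousAt.mul continuousAt_const (ContinuousAt.div ?_ hcH.continuousAt hHa)
      refine Continuous.continuousAt ?_
      have h1 : Continuous fun u : ℝ => (u : ℂ) := Complex.continuous_ofReal
      exact h1.mul ((continuous_const.mul hcH).add ((h1.sub continuous_const).mul hcH'))
    have h2 := hcont.tendsto
    have h3 : -(q : ℂ) * ((((1 : ℝ) / q : ℝ) : ℂ) * ((m : ℂ) * H.eval ((((1 : ℝ) / q : ℝ)) : ℂ) +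
        ((((1 : ℝ) / q : ℝ) : ℂ) - 1 / (q : ℂ)) *
        (Polynomial.derivative H).eval ((((1 : ℝ) / q : ℝ)) : ℂ)) /
        H.eval ((((1 : ℝ) / q : ℝ)) : ℂ)) = -(m : ℂ) := by
      rw [hcast, sub_self, zero_mul, add_zero]
      field_simp
    rw [h3] at h2
    exact h2.mono_left nhdsWithin_le_nhds
  refine hlim.congr' ?_
  have hev1 : ∀ᶠ u in 𝓝[<] ((1 : ℝ) / q), H.eval ((u : ℝ) : ℂ) ≠ 0 :=
    (hcH.continuousAt.eventually_ne hHa).filter_mono nhdsWithin_le_nhds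
  have hev2 : ∀ᶠ u in 𝓝[<] ((1 : ℝ) / q), (0 : ℝ) < u :=
    (eventually_gt_nhds (by positivity : (0 : ℝ) < 1 / q)).filter_mono nhdsWithin_le_nhds
  filter_upwards [hev1, hev2, self_mem_nhdsWithin] with u h1 h2 h3
  have h3' : u < 1 / q := h3
  have hne : (u : ℂ) - 1 / (q : ℂ) ≠ 0 := by
    rw [← hcast, ← Complex.ofReal_sub, Complex.ofReal_ne_zero]
    linarith
  have hprod := d3_prod hq hC hN h2 h3'
  have hder : ((u : ℂ) - 1 / (q : ℂ)) * (Polynomial.derivative G).eval (u : ℂ) =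
      ((u : ℂ) - 1 / (q : ℂ)) ^ m * ((m : ℂ) * H.eval (u : ℂ) +
        ((u : ℂ) - 1 / (q : ℂ)) * (Polynomial.derivative H).eval (u : ℂ)) := by
    rw [hGH]
    simp only [Polynomial.derivative_mul, Polynomial.derivative_X_sub_C_pow, Polynomial.eval_add,
      Polynomial.eval_mul, Polynomial.eval_pow, Polynomial.eval_sub, Polynomial.eval_X,
      Polynomial.eval_C]
    rcases m with _ | k
    · simp
    · rw [Nat.add_sub_cancel, pow_succ]
      ring
  have hGe : G.eval (u : ℂ) = ((u : ℂ) - 1 / (q : ℂ)) ^ m * H.eval (u : ℂ) := by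
    conv_lhs => rw [hGH]
    simp only [Polynomial.eval_mul, Polynomial.eval_pow, Polynomial.eval_sub, Polynomial.eval_X,
      Polynomial.eval_C]
  have key : ((u : ℂ) - 1 / (q : ℂ)) * (∑' j, C j * (u : ℂ) ^ j) * H.eval (u : ℂ) =
      (u : ℂ) * ((m : ℂ) * H.eval (u : ℂ) +
        ((u : ℂ) - 1 / (q : ℂ)) * (Polynomial.derivative H).eval (u : ℂ)) := by
    have h4 : ((u : ℂ) - 1 / (q : ℂ)) ^ m * (((u : ℂ) - 1 / (q : ℂ)) *
        (∑' j, C j * (u : ℂ) ^ j) * H.eval (u : ℂ)) = ((u : ℂ) - 1 / (q : ℂ)) ^ m *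
        ((u : ℂ) * ((m : ℂ) * H.eval (u : ℂ) +
        ((u : ℂ) - 1 / (q : ℂ)) * (Polynomial.derivative H).eval (u : ℂ))) := by
      calc _ = ((u : ℂ) - 1 / (q : ℂ)) * ((∑' j, C j * (u : ℂ) ^ j) *
            (((u : ℂ) - 1 / (q : ℂ)) ^ m * H.eval (u : ℂ))) := by ring
        _ = ((u : ℂ) - 1 / (q : ℂ)) * ((u : ℂ) * (Polynomial.derivative G).eval (u : ℂ)) := by
            rw [← hGe, hprod]
        _ = (u : ℂ) * (((u : ℂ) - 1 / (q : ℂ)) * (Polynomial.derivative G).eval (u : ℂ)) := by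
            ring
        _ = _ := by rw [hder]; ring
    exact mul_left_cancel₀ (pow_ne_zero m hne) h4
  rw [← key]
  push_cast
  field_simp
  ring

end BoomFF
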