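import Mathlib

/-! Primes in arithmetic progressions in `𝔽_q[t]` (MP_4c7af0_al, function field case): more analytic
lemmas. All series are taken at real `u` with `0 < u < 1/q`. -/

namespace BoomFF

open Filter Topology

theorem d3b_tendsto {q : ℕ} (hq : 1 < q) :
    Tendsto (fun u : ℝ => 1 - (q : ℝ) * u) (𝓝[<] ((1 : ℝ) / q)) (𝓝 0) := by
  have hq0 : (q : ℝ) ≠ 0 := by positivity
  have h : Tendsto (fun u : ℝ => 1 - (q : ℝ) * u) (𝓝 ((1 : ℝ) / q)) (𝓝 (1 - (q : ℝ) * (1 / q))) :=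
    (continuous_const.sub (continuous_const.mul continuous_id)).tendsto _
  rw [mul_one_div_cancel hq0, sub_self] at h
  exact h.mono_left nhdsWithin_le_nhds

theorem d3b_event {q : ℕ} (hq : 1 < q) : ∀ᶠ u : ℝ in 𝓝[<] ((1 : ℝ) / q), 0 < u ∧ (q : ℝ) * u < 1 ∧ u ≤ 1 / 2 := by
  have hq0 : (0 : ℝ) < q := by positivity
  filter_upwards [Ioo_mem_nhdsLT (show (0 : ℝ) < 1 / q by positivity)] with u hu
  have h1 : (q : ℝ) * u < 1 := by
    have := hu.2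
    rw [lt_div_iff₀ hq0] at this
    linarith
  refine ⟨hu.1, h1, ?_⟩
  have h2 : (2 : ℝ) ≤ q := by exact_mod_cast hq
  nlinarith [hu.1]

/-- If `|C_j - (ζ q)^j| ≤ c` for `j ≥ 1`, `C_0 = 0`, `|ζ| = 1` then
`(1 - q u) ∑ C_j u^j → 1` if `ζ = 1` and `→ 0` otherwise. Proof: `∑_{j ≥ 1} (ζ q u)^j =
ζ q u / (1 - ζ q u)` and `∑ (C_j - (ζ q)^j) u^j` is bounded by `c ∑ u^j ≤ 2 c` (`u < 1/q ≤ 1/2`). -/
theorem lim_near {q : ℕ} (hq : 1 < q) {C : ℕ → ℂ} {ζ : ℂ} (hζ : ‖ζ‖ = 1) {c : ℝ} (h0 : C 0 = 0)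
    (hC : ∀ j, 0 < j → ‖C j - (ζ * q) ^ j‖ ≤ c) [Decidable (ζ = 1)] :
    Tendsto (fun u : ℝ => ((1 - q * u : ℝ) : ℂ) * ∑' j, C j * (u : ℂ) ^ j)
      (𝓝[<] ((1 : ℝ) / q)) (𝓝 (if ζ = 1 then 1 else 0)) := by
  have hb0 : ∀ j, ‖C j - (ζ * q) ^ j‖ ≤ max c 1 := by
    intro j
    rcases Nat.eq_zero_or_pos j with rfl | hj
    · rw [h0, pow_zero, zero_sub, norm_neg, norm_one]
      exact le_max_right _ _
    · exact (hC j hj).trans (le_max_left _ _)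
  have hc0 : 0 ≤ max c 1 := le_trans zero_le_one (le_max_right _ _)
  -- the decomposition
  have hkey : ∀ u : ℝ, 0 < u → (q : ℝ) * u < 1 → u ≤ 1 / 2 →
      (∑' j, C j * (u : ℂ) ^ j = (1 - ζ * q * u)⁻¹ + ∑' j, (C j - (ζ * q) ^ j) * (u : ℂ) ^ j) ∧
      ‖∑' j, (C j - (ζ * q) ^ j) * (u : ℂ) ^ j‖ ≤ 2 * max c 1 := by
    intro u hu0 hu1 hu2
    have hn : ‖ζ * q * u‖ < 1 := by
      rw [norm_mul, norm_mul, hζ, one_mul, Complex.norm_natCast, Complex.norm_real,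
        Real.norm_of_nonneg hu0.le]
      exact hu1
    have hg := hasSum_geometric_of_norm_lt_one hn
    have hu' : HasSum (fun j : ℕ => max c 1 * u ^ j) (max c 1 * (1 - u)⁻¹) :=
      (hasSum_geometric_of_lt_one hu0.le (by linarith)).mul_left _
    have hle : ∀ j, ‖(C j - (ζ * q) ^ j) * (u : ℂ) ^ j‖ ≤ max c 1 * u ^ j := by
      intro j
      rw [norm_mul, norm_pow, Complex.norm_real, Real.norm_of_nonneg hu0.le]
      exact mul_le_mul_of_nonneg_right (hb0 j) (by positivity)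
    have hD : Summable fun j => (C j - (ζ * q) ^ j) * (u : ℂ) ^ j :=
      Summable.of_norm_bounded hu'.summable hle
    refine ⟨?_, ?_⟩
    · have h1 := hg.add hD.hasSum
      have h2 : (fun j : ℕ => (ζ * q * u) ^ j + (C j - (ζ * q) ^ j) * (u : ℂ) ^ j) =
          fun j => C j * (u : ℂ) ^ j := by
        funext j
        rw [mul_pow (ζ * q)]
        ring
      rw [h2] at h1
      exact h1.tsum_eq
    · refine (tsum_of_norm_bounded hu' hle).trans ?_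
      have h1 : (1 - u)⁻¹ ≤ 2 := by
        rw [inv_le_comm₀ (by linarith) two_pos]
        linarith
      nlinarith
  have hT1 : Tendsto (fun u : ℝ => ((1 - q * u : ℝ) : ℂ) * ∑' j, (C j - (ζ * q) ^ j) * (u : ℂ) ^ j)
      (𝓝[<] ((1 : ℝ) / q)) (𝓝 0) := by
    have h1 : Tendsto (fun u : ℝ => (1 - (q : ℝ) * u) * (2 * max c 1)) (𝓝[<] ((1 : ℝ) / q))
        (𝓝 (0 * (2 * max c 1))) := (d3b_tendsto hq).mul_const _
    rw [zero_mul] at h1
    refine squeeze_zero_norm' ?_ h1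
    filter_upwards [d3b_event hq] with u hu
    rw [norm_mul, Complex.norm_real, Real.norm_of_nonneg (by linarith [hu.2.1])]
    exact mul_le_mul_of_nonneg_left (hkey u hu.1 hu.2.1 hu.2.2).2 (by linarith [hu.2.1])
  have hT2 : Tendsto (fun u : ℝ => ((1 - q * u : ℝ) : ℂ) * (1 - ζ * q * u)⁻¹)
      (𝓝[<] ((1 : ℝ) / q)) (𝓝 (if ζ = 1 then 1 else 0)) := by
    by_cases h1 : ζ = 1
    · rw [if_pos h1]
      refine Tendsto.congr' ?_ tendsto_const_nhds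
      filter_upwards [d3b_event hq] with u hu
      rw [h1, one_mul]
      push_cast
      refine (mul_inv_cancel₀ ?_).symm
      intro h2
      have h3 : (1 : ℂ) - ((q : ℝ) : ℂ) * (u : ℂ) = 0 := by exact_mod_cast h2
      rw [← Complex.ofReal_mul, ← Complex.ofReal_one, ← Complex.ofReal_sub] at h3
      have h4 : 1 - (q : ℝ) * u = 0 := Complex.ofReal_eq_zero.1 h3
      linarith [hu.2.1]
    · rw [if_neg h1]
      have h2 : Tendsto (fun u : ℝ => (1 - ζ * q * (u : ℂ))) (𝓝[<] ((1 : ℝ) / q))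
          (𝓝 (1 - ζ)) := by
        have h3 : Tendsto (fun u : ℝ => (1 - ζ * q * (u : ℂ))) (𝓝 ((1 : ℝ) / q))
            (𝓝 (1 - ζ * q * (((1 : ℝ) / q : ℝ) : ℂ))) :=
          (continuous_const.sub (continuous_const.mul Complex.continuous_ofReal)).tendsto _
        have hq0 : (q : ℂ) ≠ 0 := by exact_mod_cast (by omega : q ≠ 0)
        have h4 : 1 - ζ * q * (((1 : ℝ) / q : ℝ) : ℂ) = 1 - ζ := by
          push_cast
          field_simp
        rw [h4] at h3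
        exact h3.mono_left nhdsWithin_le_nhds
      have h5 : (1 : ℂ) - ζ ≠ 0 := fun h => h1 (sub_eq_zero.1 h).symm
      have h6 : Tendsto (fun u : ℝ => ((1 - q * u : ℝ) : ℂ)) (𝓝[<] ((1 : ℝ) / q)) (𝓝 ((0 : ℝ) : ℂ)) :=
        (Complex.continuous_ofReal.tendsto _).comp (d3b_tendsto hq)
      have h7 := h6.mul (h2.inv₀ h5)
      simpa using h7
  have hT := hT2.add hT1
  rw [add_zero] at hT
  refine Tendsto.congr' ?_ hT
  filter_upwards [d3b_event hq] with u hu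
  rw [(hkey u hu.1 hu.2.1 hu.2.2).1, mul_add]

/-- If `0 ≤ c_j ≤ 2 q^(j/2)` then `(1 - q u) ∑ c_j u^j → 0` (`q^(j/2) u^j ≤ (1/√q)^j`; the sum is
bounded). -/
theorem lim_small {q : ℕ} (hq : 1 < q) {c : ℕ → ℝ} (h0 : ∀ j, 0 ≤ c j)
    (hc : ∀ j, c j ≤ 2 * (q : ℝ) ^ (j / 2)) :
    Tendsto (fun u : ℝ => (1 - q * u) * ∑' j, c j * u ^ j) (𝓝[<] ((1 : ℝ) / q)) (𝓝 0) := by
  set r : ℝ := (√(q : ℝ))⁻¹ with hr
  have hq1 : (1 : ℝ) < q := by exact_mod_cast hq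
  have hs1 : 1 < √(q : ℝ) := by
    rw [show (1 : ℝ) = √1 by simp]
    exact Real.sqrt_lt_sqrt zero_le_one hq1
  have hs0 : 0 < √(q : ℝ) := by linarith
  have hss : √(q : ℝ) * √(q : ℝ) = q := Real.mul_self_sqrt (by linarith)
  have hr0 : 0 < r := inv_pos.2 hs0
  have hr1 : r < 1 := inv_lt_one_of_one_lt₀ hs1
  have hg : HasSum (fun j : ℕ => 2 * r ^ j) (2 * (1 - r)⁻¹) :=
    (hasSum_geometric_of_lt_one hr0.le hr1).mul_left 2
  have hle : ∀ u : ℝ, 0 < u → (q : ℝ) * u < 1 → ∀ j, ‖c j * u ^ j‖ ≤ 2 * r ^ j := by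
    intro u hu0 hu1 j
    rw [norm_mul, Real.norm_of_nonneg (h0 j), Real.norm_of_nonneg (by positivity)]
    have h1 : (q : ℝ) ^ (j / 2) ≤ √(q : ℝ) ^ j := by
      calc (q : ℝ) ^ (j / 2) = √(q : ℝ) ^ (2 * (j / 2)) := by
            rw [pow_mul, pow_two, hss]
        _ ≤ √(q : ℝ) ^ j := pow_le_pow_right₀ hs1.le (by omega)
    have h2 : √(q : ℝ) * u ≤ r := by
      rw [hr, ← one_div, le_div_iff₀ hs0]
      nlinarith
    calc c j * u ^ j ≤ 2 * (q : ℝ) ^ (j / 2) * u ^ j :=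
          mul_le_mul_of_nonneg_right (hc j) (by positivity)
      _ ≤ 2 * √(q : ℝ) ^ j * u ^ j := by gcongr
      _ = 2 * (√(q : ℝ) * u) ^ j := by rw [mul_pow]; ring
      _ ≤ 2 * r ^ j := by gcongr
  have h1 : Tendsto (fun u : ℝ => (1 - (q : ℝ) * u) * (2 * (1 - r)⁻¹)) (𝓝[<] ((1 : ℝ) / q))
      (𝓝 (0 * (2 * (1 - r)⁻¹))) := (d3b_tendsto hq).mul_const _
  rw [zero_mul] at h1
  refine squeeze_zero_norm' ?_ h1
  filter_upwards [d3b_event hq] with u hu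
  rw [norm_mul, Real.norm_of_nonneg (by linarith [hu.2.1])]
  exact mul_le_mul_of_nonneg_left (tsum_of_norm_bounded hg (hle u hu.1 hu.2.1))
    (by linarith [hu.2.1])

end BoomFF
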