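import Mathlib

/-! Primes in arithmetic progressions in `𝔽_q[t]` (MP_4c7af0_al, function field case): a real
character cannot have `L(1/q) = 0`. -/

namespace BoomFF

open scoped ComplexOrder in
/-- nonnegativity of the coefficients of the product -/
theorem d4_nonneg {c b : ℕ → ℂ} (hb0 : b 0 = 1) (hc : ∀ j, 0 ≤ c j)
    (hb : ∀ N : ℕ, (N : ℂ) * b N = ∑ p ∈ Finset.HasAntidiagonal.antidiagonal N, c p.1 * b p.2) :
    ∀ N, 0 ≤ b N := by
  have hc0 : c 0 = 0 := by
    have := hb 0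
    simpa [hb0] using this.symm
  intro N
  induction N using Nat.strong_induction_on with
  | _ N ih =>
    rcases Nat.eq_zero_or_pos N with h | h
    · subst h; rw [hb0]; exact zero_le_one
    · have h1 : 0 ≤ (N : ℂ) * b N := by
        rw [hb N]
        refine Finset.sum_nonneg fun p hp => ?_
        rcases Nat.eq_zero_or_pos p.1 with h2 | h2
        · rw [h2, hc0, zero_mul]
        · refine mul_nonneg (hc _) (ih _ ?_)
          have := Finset.HasAntidiagonal.mem_antidiagonal.1 hp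
          omega
      have h2 : b N = ((N : ℝ)⁻¹ : ℝ) * ((N : ℂ) * b N) := by
        have : (N : ℂ) ≠ 0 := by exact_mod_cast h.ne'
        push_cast
        field_simp
      rw [h2]
      refine mul_nonneg ?_ h1
      have : (0 : ℝ) ≤ (N : ℝ)⁻¹ := by positivity
      exact_mod_cast this

open scoped ComplexOrder in
/-- positivity of the coefficients with index a multiple of `j₀` -/
theorem d4_pos {c b : ℕ → ℂ} (hb0 : b 0 = 1) (hc : ∀ j, 0 ≤ c j)
    (hb : ∀ N : ℕ, (N : ℂ) * b N = ∑ p ∈ Finset.HasAntidiagonal.antidiagonal N, c p.1 * b p.2)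
    {j₀ : ℕ} (hj : 0 < j₀) (hj' : c j₀ ≠ 0) : ∀ m, b (j₀ * m) ≠ 0 := by
  have hnn := d4_nonneg hb0 hc hb
  intro m
  induction m with
  | zero => simp [hb0]
  | succ m ih =>
    intro h0
    have h1 := hb (j₀ * (m + 1))
    rw [h0, mul_zero] at h1
    have h2 : c j₀ * b (j₀ * m) ≤
        ∑ p ∈ Finset.HasAntidiagonal.antidiagonal (j₀ * (m + 1)), c p.1 * b p.2 := by
      refine Finset.single_le_sum (f := fun p : ℕ × ℕ => c p.1 * b p.2)
        (fun p _ => mul_nonneg (hc _) (hnn _)) (a := (j₀, j₀ * m)) ?_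
      rw [Finset.HasAntidiagonal.mem_antidiagonal]
      ring
    rw [← h1] at h2
    have h3 : 0 ≤ c j₀ * b (j₀ * m) := mul_nonneg (hc _) (hnn _)
    exact mul_ne_zero hj' ih (le_antisymm h2 h3)

/-- the Euler derivation is a derivation -/
theorem d4_theta (P Q : PowerSeries ℂ) :
    PowerSeries.mk (fun N => (N : ℂ) * PowerSeries.coeff N (P * Q)) =
      PowerSeries.mk (fun N => (N : ℂ) * PowerSeries.coeff N P) * Q +
        P * PowerSeries.mk (fun N => (N : ℂ) * PowerSeries.coeff N Q) := by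
  ext N
  rw [map_add, PowerSeries.coeff_mk, PowerSeries.coeff_mul, PowerSeries.coeff_mul,
    PowerSeries.coeff_mul, Finset.mul_sum, ← Finset.sum_add_distrib]
  refine Finset.sum_congr rfl fun p hp => ?_
  rw [PowerSeries.coeff_mk, PowerSeries.coeff_mk]
  have : (N : ℂ) = p.1 + p.2 := by
    rw [← Finset.HasAntidiagonal.mem_antidiagonal.1 hp]
    push_cast
    ring
  rw [this]
  ring

/-- Let `L₀, L₁ : ℕ → ℂ` be the coefficients of two power series with `L₀ 0 = L₁ 0 = 1`,
`N L_N = ∑_{i + j = N} C_i L_j`, such that `C₀ j + C₁ j` is a nonnegative real number for every `j`,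
positive for some `j₀ ≥ 1`. Suppose `L₁` is a polynomial (`L₁ N = 0` for `N ≥ d`) with `L₁(1/q) = 0` and
`L₀ (N + 1) = q L₀ N` for `N ≥ d`. Contradiction.
Proof: `b = L₀ L₁` (Cauchy product) satisfies `N b_N = ∑_{i + j = N} (C₀ + C₁)_i b_j`, `b_0 = 1`. So `b_N`
is real `≥ 0` for all `N` by strong induction (`C₀ 0 + C₁ 0` may be taken `0`: for `N = 0` the identity
says `0 = (C₀ 0 + C₁ 0) b_0`), and `b_{j₀ m} > 0` for all `m` by induction on `m`
(`j₀ m b_{j₀ m} ≥ (C₀ + C₁)_{j₀} b_{j₀ (m - 1)}`). On the other hand `(1 - q X) L₀` is a polynomial `G₀`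
and `L₁ = (1 - q X) H` with a polynomial `H`, so `(1 - q X) b = G₀ L₁ = (1 - q X) G₀ H` as power
series, and `b = G₀ H` is a polynomial (the ring of power series is a domain), i.e. `b_N = 0` for
large `N`. -/
theorem real_contra {q : ℕ} (hq : 1 < q) {C₀ C₁ L₀ L₁ : ℕ → ℂ} (h0 : L₀ 0 = 1) (h1 : L₁ 0 = 1)
    (hN0 : ∀ N : ℕ, (N : ℂ) * L₀ N = ∑ p ∈ Finset.HasAntidiagonal.antidiagonal N, C₀ p.1 * L₀ p.2)
    (hN1 : ∀ N : ℕ, (N : ℂ) * L₁ N = ∑ p ∈ Finset.HasAntidiagonal.antidiagonal N, C₁ p.1 * L₁ p.2)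
    (hpos : ∀ j, ∃ r : ℝ, 0 ≤ r ∧ C₀ j + C₁ j = r) {j₀ : ℕ} (hj₀ : 0 < j₀)
    (hj₀' : C₀ j₀ + C₁ j₀ ≠ 0) {d : ℕ} (hd1 : ∀ N, d ≤ N → L₁ N = 0)
    (hd0 : ∀ N, d ≤ N → L₀ (N + 1) = q * L₀ N)
    (hroot : ∑ N ∈ Finset.range d, L₁ N * (1 / (q : ℂ)) ^ N = 0) : False := by
  have hq0 : (q : ℂ) ≠ 0 := by
    have : q ≠ 0 := by omega
    exact_mod_cast this
  set P0 : PowerSeries ℂ := PowerSeries.mk L₀ with hP0
  set P1 : PowerSeries ℂ := PowerSeries.mk L₁ with hP1
  set A0 : PowerSeries ℂ := PowerSeries.mk C₀ with hA0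
  set A1 : PowerSeries ℂ := PowerSeries.mk C₁ with hA1
  set B : PowerSeries ℂ := P0 * P1 with hB
  have t0 : PowerSeries.mk (fun N => (N : ℂ) * PowerSeries.coeff N P0) = A0 * P0 := by
    ext N
    rw [PowerSeries.coeff_mk, PowerSeries.coeff_mul, hP0, hA0]
    simp only [PowerSeries.coeff_mk]
    exact hN0 N
  have t1 : PowerSeries.mk (fun N => (N : ℂ) * PowerSeries.coeff N P1) = A1 * P1 := by
    ext N
    rw [PowerSeries.coeff_mk, PowerSeries.coeff_mul, hP1, hA1]
    simp only [PowerSeries.coeff_mk]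
    exact hN1 N
  have tB : PowerSeries.mk (fun N => (N : ℂ) * PowerSeries.coeff N B) = (A0 + A1) * B := by
    rw [hB, d4_theta, t0, t1]
    ring
  set b : ℕ → ℂ := fun N => PowerSeries.coeff N B with hb
  set c : ℕ → ℂ := fun N => C₀ N + C₁ N with hc
  have hb0 : b 0 = 1 := by
    show PowerSeries.coeff 0 B = 1
    rw [hB, PowerSeries.coeff_zero_eq_constantCoeff, map_mul,
      ← PowerSeries.coeff_zero_eq_constantCoeff, hP0, hP1, PowerSeries.coeff_mk,
      PowerSeries.coeff_mk, h0, h1, one_mul]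
  have hbN : ∀ N : ℕ, (N : ℂ) * b N =
      ∑ p ∈ Finset.HasAntidiagonal.antidiagonal N, c p.1 * b p.2 := by
    intro N
    have := congrArg (PowerSeries.coeff N) tB
    rw [PowerSeries.coeff_mk] at this
    show (N : ℂ) * PowerSeries.coeff N B = _
    rw [this, PowerSeries.coeff_mul]
    refine Finset.sum_congr rfl fun p _ => ?_
    simp [hA0, hA1, hc, hb]
  have hne : ∀ m, b (j₀ * m) ≠ 0 := by
    open scoped ComplexOrder in
    refine d4_pos hb0 (fun j => ?_) hbN hj₀ hj₀'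
    obtain ⟨r, hr, h⟩ := hpos j
    simp only [hc, h]
    exact_mod_cast hr
  -- the polynomials
  set p1 : Polynomial ℂ := ∑ N ∈ Finset.range d, Polynomial.C (L₁ N) * Polynomial.X ^ N with hp1
  have e1 : (p1 : PowerSeries ℂ) = P1 := by
    ext N
    rw [Polynomial.coeff_coe, hP1, PowerSeries.coeff_mk, hp1, Polynomial.finsetSum_coeff]
    simp only [Polynomial.coeff_C_mul, Polynomial.coeff_X_pow]
    by_cases hN : N < d
    · rw [Finset.sum_eq_single N]
      · simp
      · intro x _ hx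
        simp [Ne.symm hx]
      · intro hx
        exact absurd (Finset.mem_range.2 hN) hx
    · rw [hd1 N (not_lt.1 hN)]
      refine Finset.sum_eq_zero fun x hx => ?_
      have : N ≠ x := by
        have := Finset.mem_range.1 hx
        omega
      simp [this]
  have er : p1.IsRoot (1 / (q : ℂ)) := by
    rw [Polynomial.IsRoot.def, hp1, Polynomial.eval_finsetSum]
    simpa using hroot
  obtain ⟨h, hh⟩ := Polynomial.dvd_iff_isRoot.2 er
  set g0 : Polynomial ℂ := PowerSeries.trunc (d + 1)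
    ((1 - PowerSeries.C (q : ℂ) * PowerSeries.X) * P0) with hg0
  have e0 : (g0 : PowerSeries ℂ) = (1 - PowerSeries.C (q : ℂ) * PowerSeries.X) * P0 := by
    ext N
    rw [Polynomial.coeff_coe, hg0, PowerSeries.coeff_trunc]
    split_ifs with hN
    · rfl
    · obtain ⟨M, rfl⟩ : ∃ M, N = M + 1 := ⟨N - 1, by omega⟩
      have hM := hd0 M (by omega)
      rw [sub_mul, one_mul, map_sub, mul_assoc, PowerSeries.coeff_C_mul,
        PowerSeries.coeff_succ_X_mul, hP0, PowerSeries.coeff_mk, PowerSeries.coeff_mk, hM, sub_self]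
  have hX : (1 - PowerSeries.C (q : ℂ) * PowerSeries.X : PowerSeries ℂ) ≠ 0 := by
    intro hz
    have := congrArg (PowerSeries.coeff 0) hz
    simp at this
  have e2 : ((Polynomial.X - Polynomial.C (1 / (q : ℂ)) : Polynomial ℂ) : PowerSeries ℂ) =
      PowerSeries.C (-(1 / (q : ℂ))) * (1 - PowerSeries.C (q : ℂ) * PowerSeries.X) := by
    rw [mul_sub, mul_one, ← mul_assoc, ← map_mul]
    have : -(1 / (q : ℂ)) * q = -1 := by
      field_simp
    rw [this]
    simp
    ring
  have e3 : B = ((g0 * (Polynomial.C (-(1 / (q : ℂ))) * h) : Polynomial ℂ) : PowerSeries ℂ) := by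
    refine mul_left_cancel₀ hX ?_
    rw [hB, ← mul_assoc, ← e0, ← e1, hh]
    rw [Polynomial.coe_mul, e2, Polynomial.coe_mul, Polynomial.coe_mul, Polynomial.coe_C]
    ring
  set r := g0 * (Polynomial.C (-(1 / (q : ℂ))) * h) with hr
  refine hne (r.natDegree + 1) ?_
  simp only [hb]
  rw [e3, Polynomial.coeff_coe]
  refine Polynomial.coeff_eq_zero_of_natDegree_lt ?_
  calc r.natDegree < 1 * (r.natDegree + 1) := by omega
    _ ≤ j₀ * (r.natDegree + 1) := Nat.mul_le_mul_right _ hj₀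

end BoomFF
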