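import Pool.Agent.H.MP_4c7af0_al.FF.D2

/-! Primes in arithmetic progressions in `𝔽_q[t]` (MP_4c7af0_al, function field case): characters. -/

namespace BoomFF

open Polynomial Filter Topology

variable {k : Type*} [Field k] [Finite k]

/-- the function `f ↦ χ(f mod n) ζ^(deg f)` -/
noncomputable def psi {n : k[X]} (χ : MulChar (k[X] ⧸ Ideal.span {n}) ℂ) (ζ : ℂ) (f : k[X]) : ℂ :=
  χ (Ideal.Quotient.mk _ f) * ζ ^ f.natDegree

/-- the quotient ring is finite -/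
theorem finite_quot_pol {n : k[X]} (hn : n ≠ 0) : Finite (k[X] ⧸ Ideal.span {n}) := by
  have h1 : Module.Finite k (AdjoinRoot n) := (AdjoinRoot.powerBasis hn).finite
  have h2 : Finite (AdjoinRoot n) := Module.finite_of_finite k
  exact h2

/-- values of characters of finite monoids have absolute value at most `1` -/
theorem d5_norm_le {M : Type*} [CommMonoid M] [Finite M] (χ : MulChar M ℂ) (a : M) : ‖χ a‖ ≤ 1 := by
  by_cases ha : IsUnit a
  · obtain ⟨u, rfl⟩ := ha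
    obtain ⟨m, hm, hu⟩ := isOfFinOrder_iff_pow_eq_one.1 (isOfFinOrder_of_finite u)
    have h1 : χ (u : M) ^ m = 1 := by
      rw [← map_pow, ← Units.val_pow_eq_pow_val, hu, Units.val_one, map_one]
    have h2 : ‖χ (u : M)‖ ^ m = 1 := by
      rw [← norm_pow, h1, norm_one]
    exact ((pow_eq_one_iff_of_nonneg (norm_nonneg _) hm.ne').1 h2).le
  · rw [MulChar.map_nonunit χ ha, norm_zero]
    exact zero_le_one

/-- `psi` is completely multiplicative. (Values of a `MulChar` of a finite monoid have absolute value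
`≤ 1`: they are roots of unity or `0`.) -/
theorem CM_psi {n : k[X]} (hn : n ≠ 0) (χ : MulChar (k[X] ⧸ Ideal.span {n}) ℂ) {ζ : ℂ}
    (hζ : ‖ζ‖ = 1) : CM (psi χ ζ) := by
  have : Finite (k[X] ⧸ Ideal.span {n}) := finite_quot_pol hn
  refine ⟨?_, fun f g hf hg => ?_, fun f => ?_⟩
  · rw [psi, map_one, map_one, natDegree_one, pow_zero, mul_one]
  · rw [psi, psi, psi, map_mul, map_mul, hf.natDegree_mul hg, pow_add]
    ring
  · rw [psi, norm_mul, norm_pow, hζ, one_pow, mul_one]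
    exact d5_norm_le χ _

/-- the sum `A_N(psi)` -/
theorem d5_AA {n : k[X]} (hn : n.Monic) (χ : MulChar (k[X] ⧸ Ideal.span {n}) ℂ) (ζ : ℂ)
    [Fintype (k[X] ⧸ Ideal.span {n})] {N : ℕ} (hN : n.natDegree ≤ N) :
    AA (psi χ ζ) N = ζ ^ N * ((Nat.card k : ℂ) ^ (N - n.natDegree) * ∑ a, χ a) := by
  rw [← sum_mon_residue hn hN, AA, Finset.mul_sum]
  refine Finset.sum_congr rfl fun f hf => ?_
  rw [psi, (mem_mon.1 hf).2, mul_comm]

/-- `A_N(psi) = 0` for `N ≥ deg n` and `χ ≠ 1` (`sum_mon_residue` and `MulChar.sum_eq_zero_of_ne_one`)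
-/
theorem AA_psi_ne {n : k[X]} (hn : n.Monic) {χ : MulChar (k[X] ⧸ Ideal.span {n}) ℂ} (hχ : χ ≠ 1)
    (ζ : ℂ) {N : ℕ} (hN : n.natDegree ≤ N) : AA (psi χ ζ) N = 0 := by
  have h1 : Finite (k[X] ⧸ Ideal.span {n}) := finite_quot_pol hn.ne_zero
  have h2 : Fintype (k[X] ⧸ Ideal.span {n}) := Fintype.ofFinite _
  rw [d5_AA hn χ ζ hN, MulChar.sum_eq_zero_of_ne_one hχ, mul_zero, mul_zero]

/-- `A_{N+1} = ζ q A_N` for `N ≥ deg n` and `χ = 1` -/
theorem AA_psi_one {n : k[X]} (hn : n.Monic) (ζ : ℂ) {N : ℕ} (hN : n.natDegree ≤ N) :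
    AA (psi (1 : MulChar (k[X] ⧸ Ideal.span {n}) ℂ) ζ) (N + 1) =
      ζ * (Nat.card k : ℂ) * AA (psi (1 : MulChar (k[X] ⧸ Ideal.span {n}) ℂ) ζ) N := by
  have h1 : Finite (k[X] ⧸ Ideal.span {n}) := finite_quot_pol hn.ne_zero
  have h2 : Fintype (k[X] ⧸ Ideal.span {n}) := Fintype.ofFinite _
  rw [d5_AA hn 1 ζ hN, d5_AA hn 1 ζ (hN.trans (Nat.le_succ N)), Nat.succ_sub hN, pow_succ,
    pow_succ]
  ring

end BoomFF
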