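import Pool.Agent.H.MP_4c7af0_al.FF.D5
import Pool.Agent.H.MP_4c7af0_al.FF.D2b

/-! Primes in arithmetic progressions in `𝔽_q[t]` (MP_4c7af0_al, function field case): the trivial character. -/

namespace BoomFF

open Polynomial Filter Topology

variable {k : Type*} [Field k] [Finite k]

omit [Finite k] in
theorem d5b_isUnit {n P : k[X]} (hP : Irreducible P) :
    IsUnit (Ideal.Quotient.mk (Ideal.span {n}) P) ↔ ¬ P ∣ n := by
  constructor
  · rintro h hd
    obtain ⟨b, hb⟩ := h.exists_right_inv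
    obtain ⟨c, rfl⟩ := Ideal.Quotient.mk_surjective b
    rw [← map_mul, ← map_one (Ideal.Quotient.mk (Ideal.span {n})), Ideal.Quotient.eq,
      Ideal.mem_span_singleton] at hb
    have h1 : P ∣ P * c - 1 := hd.trans hb
    have h2 : P ∣ 1 := by
      have := dvd_sub (dvd_mul_right P c) h1
      rwa [sub_sub_cancel] at this
    exact hP.not_isUnit (isUnit_of_dvd_one h2)
  · intro h
    obtain ⟨a, b, hab⟩ := hP.coprime_iff_not_dvd.2 h
    refine IsUnit.of_mul_eq_one (Ideal.Quotient.mk (Ideal.span {n}) a) ?_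
    rw [← map_mul, ← map_one (Ideal.Quotient.mk (Ideal.span {n})), Ideal.Quotient.eq,
      Ideal.mem_span_singleton]
    exact ⟨-b, by linear_combination hab⟩

open Classical in
theorem d5b_psi {n P : k[X]} {ζ : ℂ} {m : ℕ} (hP : P ∈ irr k m) :
    psi (1 : MulChar (k[X] ⧸ Ideal.span {n}) ℂ) ζ P = if P ∣ n then 0 else ζ ^ m := by
  obtain ⟨-, h2, h3⟩ := mem_irr.1 hP
  unfold psi
  rw [h2]
  split_ifs with h
  · rw [MulChar.map_nonunit, zero_mul]
    exact fun hc => (d5b_isUnit h3).1 hc h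
  · rw [MulChar.one_apply ((d5b_isUnit h3).2 h), one_mul]

open Classical in
/-- the sum of the degrees of the monic irreducible divisors -/
theorem d5b_sum_le {n : k[X]} (hn : n.Monic) (j : ℕ) :
    ∑ m ∈ j.divisors, m * ((irr k m).filter (· ∣ n)).card ≤ n.natDegree := by
  have hdisj : (j.divisors : Set ℕ).PairwiseDisjoint fun m => (irr k m).filter (· ∣ n) := by
    intro a _ b _ hab
    refine Finset.disjoint_left.2 fun P hPa hPb => hab ?_
    rw [← (mem_irr.1 (Finset.mem_filter.1 hPa).1).2.1,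
      (mem_irr.1 (Finset.mem_filter.1 hPb).1).2.1]
  have h1 : ∑ m ∈ j.divisors, m * ((irr k m).filter (· ∣ n)).card =
      ∑ P ∈ j.divisors.biUnion fun m => (irr k m).filter (· ∣ n), P.natDegree := by
    rw [Finset.sum_biUnion hdisj]
    refine Finset.sum_congr rfl fun m _ => ?_
    rw [mul_comm, ← smul_eq_mul, ← Finset.sum_const]
    exact Finset.sum_congr rfl fun P hP => (mem_irr.1 (Finset.mem_filter.1 hP).1).2.1.symm
  have h2 : ∀ P ∈ j.divisors.biUnion fun m => (irr k m).filter (· ∣ n),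
      P.Monic ∧ Irreducible P ∧ P ∣ n := by
    intro P hP
    obtain ⟨m, -, hm⟩ := Finset.mem_biUnion.1 hP
    obtain ⟨hm1, hm2⟩ := Finset.mem_filter.1 hm
    obtain ⟨h3, -, h5⟩ := mem_irr.1 hm1
    exact ⟨h3, h5, hm2⟩
  rw [h1, ← Polynomial.natDegree_prod_of_monic _ _ fun P hP => (h2 P hP).1]
  refine Polynomial.natDegree_le_of_dvd ?_ hn.ne_zero
  refine Finset.prod_dvd_of_coprime ?_ fun P hP => (h2 P hP).2.2
  intro P hP Q hQ hPQ
  obtain ⟨a1, a2, -⟩ := h2 P hP
  obtain ⟨b1, b2, -⟩ := h2 Q hQ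
  refine a2.coprime_iff_not_dvd.2 fun hd => hPQ ?_
  exact Polynomial.eq_of_monic_of_associated a1 b1 ((a2.dvd_irreducible_iff_associated b2).1 hd)

/-- `C_j(psi 1 ζ) = (ζ q)^j - ζ^j ∑_{m ∣ j} m #{P ∈ irr m : P ∣ n}` and the last sum is at most
`deg n` (the product of the distinct monic irreducible divisors of `n` divides `n`) -/
theorem CC_psi_one {n : k[X]} (hn : n.Monic) {ζ : ℂ} (hζ : ‖ζ‖ = 1) {j : ℕ} (hj : 0 < j) :
    ‖CC (psi (1 : MulChar (k[X] ⧸ Ideal.span {n}) ℂ) ζ) j - (ζ * (Nat.card k : ℂ)) ^ j‖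
      ≤ n.natDegree := by
  classical
  have key : CC (psi (1 : MulChar (k[X] ⧸ Ideal.span {n}) ℂ) ζ) j =
      (ζ * (Nat.card k : ℂ)) ^ j -
        ζ ^ j * ((∑ m ∈ j.divisors, m * ((irr k m).filter (· ∣ n)).card : ℕ) : ℂ) := by
    have h1 : ∀ m ∈ j.divisors,
        ((m : ℂ) * ∑ P ∈ irr k m, psi (1 : MulChar (k[X] ⧸ Ideal.span {n}) ℂ) ζ P ^ (j / m)) =
          ζ ^ j * ((m * (irr k m).card : ℕ) : ℂ) -
            ζ ^ j * ((m * ((irr k m).filter (· ∣ n)).card : ℕ) : ℂ) := by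
      intro m hm
      have hmj := (Nat.mem_divisors.1 hm).1
      have hm0 : 0 < m := Nat.pos_of_dvd_of_pos hmj hj
      have hjm : j / m ≠ 0 := (Nat.div_pos (Nat.le_of_dvd hj hmj) hm0).ne'
      have h2 : ∑ P ∈ irr k m, psi (1 : MulChar (k[X] ⧸ Ideal.span {n}) ℂ) ζ P ^ (j / m) =
          ∑ P ∈ irr k m, (ζ ^ j - if P ∣ n then ζ ^ j else 0) := by
        refine Finset.sum_congr rfl fun P hP => ?_
        rw [d5b_psi hP]
        split_ifs
        · rw [zero_pow hjm, sub_self]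
        · rw [← pow_mul, Nat.mul_div_cancel' hmj, sub_zero]
      rw [h2, Finset.sum_sub_distrib, ← Finset.sum_filter, Finset.sum_const, Finset.sum_const]
      push_cast
      rw [nsmul_eq_mul, nsmul_eq_mul]
      ring
    unfold CC
    rw [Finset.sum_congr rfl h1, Finset.sum_sub_distrib, ← Finset.mul_sum, ← Finset.mul_sum,
      ← Nat.cast_sum, ← Nat.cast_sum, sum_card_irr hj]
    push_cast
    ring
  rw [key, sub_sub_cancel_left, norm_neg, norm_mul, norm_pow, hζ, one_pow, one_mul,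
    Complex.norm_natCast]
  exact_mod_cast d5b_sum_le hn j

end BoomFF
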