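import Pool.Agent.H.MP_4c7af0_al.FF.D5b
import Pool.Agent.H.MP_4c7af0_al.FF.D3
import Pool.Agent.H.MP_4c7af0_al.FF.D3b
import Pool.Agent.H.MP_4c7af0_al.FF.D4

/-! Primes in arithmetic progressions in `𝔽_q[t]` (MP_4c7af0_al, function field case): limits. -/

namespace BoomFF

open Polynomial Filter Topology

variable {k : Type*} [Field k] [Finite k]

/-- the polynomial with the coefficients `a 0, ..., a (d - 1)` -/
noncomputable def d5c_pol (a : ℕ → ℂ) (d : ℕ) : Polynomial ℂ :=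
  ∑ N ∈ Finset.range d, Polynomial.C (a N) * Polynomial.X ^ N

theorem d5c_coeff {a : ℕ → ℂ} {d : ℕ} (h : ∀ N, d ≤ N → a N = 0) (N : ℕ) :
    (d5c_pol a d).coeff N = a N := by
  rw [d5c_pol, Polynomial.finset_sum_coeff]
  simp only [Polynomial.coeff_C_mul, Polynomial.coeff_X_pow, mul_ite, mul_one, mul_zero]
  rw [Finset.sum_ite_eq]
  split_ifs with h1
  · rfl
  · rw [Finset.mem_range, not_lt] at h1
    exact (h N h1).symm

theorem d5c_eval (a : ℕ → ℂ) (d : ℕ) (z : ℂ) :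
    (d5c_pol a d).eval z = ∑ N ∈ Finset.range d, a N * z ^ N := by
  rw [d5c_pol, Polynomial.eval_finset_sum]
  simp

/-- the limit `(1 - q u) ∑ C_j(psi χ ζ) u^j` for `χ ≠ 1` is `- m`, `m = ord_{1/q} G` with the polynomial
`G = ∑_{N < deg n} A_N X^N` (`lim_poly`, `newton`, `AA_psi_ne`); here `m ∈ ℕ`. -/
theorem lim_psi_ne {n : k[X]} (hn : n.Monic) {χ : MulChar (k[X] ⧸ Ideal.span {n}) ℂ} (hχ : χ ≠ 1)
    {ζ : ℂ} (hζ : ‖ζ‖ = 1) :
    ∃ m : ℕ, Tendsto (fun u : ℝ => ((1 - Nat.card k * u : ℝ) : ℂ) *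
      ∑' j, CC (psi χ ζ) j * (u : ℂ) ^ j) (𝓝[<] ((1 : ℝ) / Nat.card k)) (𝓝 (-(m : ℂ))) ∧
      (m ≠ 0 → ∑ N ∈ Finset.range n.natDegree, AA (psi χ ζ) N * (1 / (Nat.card k : ℂ)) ^ N = 0) := by
  have hq : 1 < Nat.card k := Finite.one_lt_card
  have hCM := CM_psi hn.ne_zero χ hζ
  have hz : ∀ N, n.natDegree ≤ N → AA (psi χ ζ) N = 0 := fun N hN => AA_psi_ne hn hχ ζ hN
  have hco := d5c_coeff hz
  have hG : d5c_pol (AA (psi χ ζ)) n.natDegree ≠ 0 := by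
    intro h0
    have h1 := hco 0
    rw [h0, AA_zero hCM, Polynomial.coeff_zero] at h1
    exact zero_ne_one h1
  refine ⟨_, lim_poly hq (CC_le hCM) hG ?_, ?_⟩
  · intro N
    simp only [hco]
    exact newton hCM N
  · intro hm
    have h1 := (Polynomial.rootMultiplicity_pos hG).1 (Nat.pos_of_ne_zero hm)
    rw [Polynomial.IsRoot, d5c_eval] at h1
    exact h1

/-- the limit for `χ = 1` (`lim_near`, `CC_psi_one`) -/
theorem lim_psi_one {n : k[X]} (hn : n.Monic) {ζ : ℂ} (hζ : ‖ζ‖ = 1) [Decidable (ζ = 1)] :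
    Tendsto (fun u : ℝ => ((1 - Nat.card k * u : ℝ) : ℂ) *
      ∑' j, CC (psi (1 : MulChar (k[X] ⧸ Ideal.span {n}) ℂ) ζ) j * (u : ℂ) ^ j)
      (𝓝[<] ((1 : ℝ) / Nat.card k)) (𝓝 (if ζ = 1 then 1 else 0)) :=
  lim_near Finite.one_lt_card hζ (by simp [CC]) fun _ hj => CC_psi_one hn hζ hj

theorem d5c_unit {n : k[X]} {P : k[X]} (hP : Irreducible P) (hPn : ¬ P ∣ n) :
    IsUnit (Ideal.Quotient.mk (Ideal.span {n}) P) := by
  obtain ⟨a, b, hab⟩ := (hP.coprime_iff_not_dvd).2 hPn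
  have h1 := congrArg (Ideal.Quotient.mk (Ideal.span {n})) hab
  rw [map_add, map_mul, map_mul, map_one] at h1
  have h2 : Ideal.Quotient.mk (Ideal.span {n}) n = 0 :=
    Ideal.Quotient.eq_zero_iff_mem.2 (Ideal.mem_span_singleton_self n)
  rw [h2, mul_zero, add_zero] at h1
  exact IsUnit.of_mul_eq_one_right _ h1

/-- the values of the trivial and of a real character -/
theorem d5c_val {n : k[X]} (hn : n ≠ 0) {χ : MulChar (k[X] ⧸ Ideal.span {n}) ℂ} {ζ : ℂ}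
    (hζ : ‖ζ‖ = 1) (hχr : ∀ a, starRingEnd ℂ (χ a) = χ a) (hζr : starRingEnd ℂ ζ = ζ) (P : k[X]) :
    ∃ x y : ℝ, psi (1 : MulChar (k[X] ⧸ Ideal.span {n}) ℂ) 1 P = x ∧ psi χ ζ P = y ∧
      ((x = 1 ∧ |y| ≤ 1) ∨ (x = 0 ∧ y = 0)) ∧
      (IsUnit (Ideal.Quotient.mk (Ideal.span {n}) P) → x = 1) := by
  have hreal : starRingEnd ℂ (psi χ ζ P) = psi χ ζ P := by
    rw [psi, map_mul, map_pow, hζr, hχr]
  obtain ⟨y, hy⟩ := Complex.conj_eq_iff_real.1 hreal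
  have hle := (CM_psi hn χ hζ).le P
  rw [hy, Complex.norm_real, Real.norm_eq_abs] at hle
  by_cases hu : IsUnit (Ideal.Quotient.mk (Ideal.span {n}) P)
  · refine ⟨1, y, ?_, hy, Or.inl ⟨rfl, hle⟩, fun _ => rfl⟩
    rw [psi, MulChar.one_apply hu, one_pow, mul_one, Complex.ofReal_one]
  · refine ⟨0, y, ?_, hy, Or.inr ⟨rfl, ?_⟩, fun h => absurd h hu⟩
    · rw [psi, MulChar.map_nonunit _ hu, zero_mul, Complex.ofReal_zero]
    · rw [psi, MulChar.map_nonunit _ hu, zero_mul] at hy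
      exact_mod_cast hy.symm

open scoped ComplexOrder in
theorem d5c_nonneg {x y : ℝ} (h : (x = 1 ∧ |y| ≤ 1) ∨ (x = 0 ∧ y = 0)) (i : ℕ) :
    (0 : ℂ) ≤ (x : ℂ) ^ i + (y : ℂ) ^ i := by
  rw [← Complex.ofReal_pow, ← Complex.ofReal_pow, ← Complex.ofReal_add]
  apply Complex.zero_le_real.2
  rcases h with ⟨h1, h2⟩ | ⟨h1, h2⟩
  · have h3 : |y ^ i| ≤ 1 := by
      rw [abs_pow]
      exact pow_le_one₀ (abs_nonneg y) h2
    have h4 := (abs_le.1 h3).1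
    rw [h1, one_pow]
    linarith
  · rw [h1, h2]
    positivity

open scoped ComplexOrder in
/-- A real pair `(χ, ζ)`, `χ ≠ 1` (`χ` has values in `ℝ`, `ζ ∈ ℝ`) has limit `0`: otherwise
`real_contra` applies to `L₀ = A(psi 1 1)`, `L₁ = A(psi χ ζ)`: `C₀ j + C₁ j =
∑_{m ∣ j} m ∑_P (psi₀(P)^(j/m) + psi(P)^(j/m)) ≥ 0` because `psi₀(P) = 1`, `psi(P) ∈ {1, -1}` for `P ∤ n`
and both are `0` for `P ∣ n`; `j₀ = 2 deg P` for some `P ∤ n` (`exists_irr_not_dvd`) with the term `2 deg P`.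
-/
theorem lim_psi_real {n : k[X]} (hn : n.Monic) {χ : MulChar (k[X] ⧸ Ideal.span {n}) ℂ} (hχ : χ ≠ 1)
    {ζ : ℂ} (hζ : ‖ζ‖ = 1) (hχr : ∀ a, starRingEnd ℂ (χ a) = χ a) (hζr : starRingEnd ℂ ζ = ζ) :
    Tendsto (fun u : ℝ => ((1 - Nat.card k * u : ℝ) : ℂ) *
      ∑' j, CC (psi χ ζ) j * (u : ℂ) ^ j) (𝓝[<] ((1 : ℝ) / Nat.card k)) (𝓝 0) := by
  obtain ⟨m, hlim, hm⟩ := lim_psi_ne hn hχ hζ
  rcases eq_or_ne m 0 with h0 | h0
  · rw [h0, Nat.cast_zero, neg_zero] at hlim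
    exact hlim
  exfalso
  have hroot := hm h0
  have hq : 1 < Nat.card k := Finite.one_lt_card
  have hn0 := hn.ne_zero
  have hCM0 := CM_psi hn0 (1 : MulChar (k[X] ⧸ Ideal.span {n}) ℂ) (ζ := 1) norm_one
  have hCM1 := CM_psi hn0 χ hζ
  have hsum : ∀ j, CC (psi (1 : MulChar (k[X] ⧸ Ideal.span {n}) ℂ) 1) j + CC (psi χ ζ) j =
      ∑ m ∈ j.divisors, (m : ℂ) * ∑ P ∈ irr k m,
        (psi (1 : MulChar (k[X] ⧸ Ideal.span {n}) ℂ) 1 P ^ (j / m) + psi χ ζ P ^ (j / m)) := by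
    intro j
    rw [CC, CC, ← Finset.sum_add_distrib]
    refine Finset.sum_congr rfl fun m _ => ?_
    rw [Finset.sum_add_distrib, mul_add]
  have hterm : ∀ (P : k[X]) (i : ℕ), (0 : ℂ) ≤
      psi (1 : MulChar (k[X] ⧸ Ideal.span {n}) ℂ) 1 P ^ i + psi χ ζ P ^ i := by
    intro P i
    obtain ⟨x, y, hx, hy, hxy, _⟩ := d5c_val hn0 hζ hχr hζr P
    rw [hx, hy]
    exact d5c_nonneg hxy i
  have hinner : ∀ j m : ℕ, (0 : ℂ) ≤ (m : ℂ) * ∑ P ∈ irr k m,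
        (psi (1 : MulChar (k[X] ⧸ Ideal.span {n}) ℂ) 1 P ^ (j / m) + psi χ ζ P ^ (j / m)) :=
    fun j m => mul_nonneg (Nat.cast_nonneg m) (Finset.sum_nonneg fun P _ => hterm P _)
  have hnn : ∀ j, (0 : ℂ) ≤ CC (psi (1 : MulChar (k[X] ⧸ Ideal.span {n}) ℂ) 1) j +
      CC (psi χ ζ) j := by
    intro j
    rw [hsum]
    exact Finset.sum_nonneg fun m _ => hinner j m
  obtain ⟨P, hPm, hPi, hPn⟩ := exists_irr_not_dvd hn0
  have hdeg : 0 < P.natDegree := hPi.natDegree_pos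
  have hjpos : 0 < 2 * P.natDegree := by omega
  have hpos : (0 : ℂ) < CC (psi (1 : MulChar (k[X] ⧸ Ideal.span {n}) ℂ) 1) (2 * P.natDegree) +
      CC (psi χ ζ) (2 * P.natDegree) := by
    rw [hsum]
    refine Finset.sum_pos' (fun m _ => hinner _ m) ⟨P.natDegree, ?_, ?_⟩
    · rw [Nat.mem_divisors]
      exact ⟨Dvd.intro_left 2 rfl, hjpos.ne'⟩
    · refine mul_pos (Nat.cast_pos.2 hdeg) ?_
      refine Finset.sum_pos' (fun Q _ => hterm Q _) ⟨P, mem_irr.2 ⟨hPm, rfl, hPi⟩, ?_⟩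
      obtain ⟨x, y, hx, hy, _, hxu⟩ := d5c_val hn0 hζ hχr hζr P
      have hx1 := hxu (d5c_unit hPi hPn)
      rw [hx, hy, hx1, Nat.mul_div_cancel _ hdeg, ← Complex.ofReal_pow, ← Complex.ofReal_pow,
        ← Complex.ofReal_add]
      apply Complex.zero_lt_real.2
      positivity
  refine real_contra hq (AA_zero hCM0) (AA_zero hCM1) (newton hCM0) (newton hCM1) ?_ hjpos
    hpos.ne' (d := n.natDegree) (fun N hN => AA_psi_ne hn hχ ζ hN) ?_ hroot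
  · intro j
    have h1 := Complex.le_def.1 (hnn j)
    refine ⟨_, h1.1, ?_⟩
    apply Complex.ext
    · rw [Complex.ofReal_re]
    · rw [Complex.ofReal_im]
      exact h1.2.symm
  · intro N hN
    have h1 := AA_psi_one hn 1 hN
    rw [one_mul] at h1
    exact h1

end BoomFF
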