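import Mathlib

/-! Primes in arithmetic progressions in `𝔽_q[t]` (MP_4c7af0_al, function field case):
orthogonality. -/

namespace BoomFF

/-- orthogonality of the characters of a finite commutative ring: if `a ≠ 1` the sum of all `χ(a)` is
`0` (for a unit `a ≠ 1` choose `χ'` with `χ'(a) ≠ 1`,
`MulChar.exists_apply_ne_one_of_hasEnoughRootsOfUnity`; for a non-unit all terms are `0`) -/
theorem sum_char {R : Type*} [CommRing R] [Finite R] [Fintype (MulChar R ℂ)] {a : R} (ha : a ≠ 1) :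
    ∑ χ : MulChar R ℂ, χ a = 0 := by
  obtain ⟨χ', hχ'⟩ := MulChar.exists_apply_ne_one_of_hasEnoughRootsOfUnity R ℂ ha
  have h1 : χ' a * ∑ χ : MulChar R ℂ, χ a = ∑ χ : MulChar R ℂ, χ a := by
    rw [Finset.mul_sum, ← Equiv.sum_comp (Equiv.mulLeft χ') fun χ : MulChar R ℂ => χ a]
    exact Finset.sum_congr rfl fun χ _ => rfl
  have h2 : (χ' a - 1) * ∑ χ : MulChar R ℂ, χ a = 0 := by
    rw [sub_mul, h1, one_mul, sub_self]
  exact (mul_eq_zero.1 h2).resolve_left (sub_ne_zero.2 hχ')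

/-- `∑_{i < M} ω^(i e) = M` if `M ∣ e` and `0` otherwise, `ω` a primitive `M`-th root of unity -/
theorem sum_root {M : ℕ} (hM : 0 < M) {ω : ℂ} (hω : IsPrimitiveRoot ω M) (e : ℕ) :
    ∑ i ∈ Finset.range M, (ω ^ i) ^ e = if M ∣ e then (M : ℂ) else 0 := by
  have h0 : ∀ i, (ω ^ i) ^ e = (ω ^ e) ^ i := fun i => by rw [← pow_mul, ← pow_mul, mul_comm]
  simp only [h0]
  by_cases h : M ∣ e
  · rw [if_pos h, (hω.pow_eq_one_iff_dvd e).2 h]
    simp
  · rw [if_neg h]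
    have h1 : ω ^ e ≠ 1 := fun h2 => h ((hω.pow_eq_one_iff_dvd e).1 h2)
    have h2 := mul_geom_sum (ω ^ e) M
    rw [← pow_mul, mul_comm e M, pow_mul, hω.pow_eq_one, one_pow, sub_self] at h2
    exact (mul_eq_zero.1 h2).resolve_left (sub_ne_zero.2 h1)

end BoomFF
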