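import Pool.Agent.H.MP_4c7af0_al.FF.D5
import Pool.Agent.H.MP_4c7af0_al.FF.D6

/-! Primes in arithmetic progressions in `𝔽_q[t]` (MP_4c7af0_al, function field case): orthogonality, part 2. -/

namespace BoomFF

open Polynomial Filter Topology

variable {k : Type*} [Field k] [Finite k]

/-- The function `∑_χ ∑_{i < M} χ(s f) ω^(i (deg f + e))` is `|X| M` if `s f ≡ 1 mod n` and
`M ∣ deg f + e`, and `0` otherwise. -/
theorem sum_psi {n : k[X]} (hn : n ≠ 0) [Fintype (MulChar (k[X] ⧸ Ideal.span {n}) ℂ)] {M : ℕ}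
    (hM : 0 < M) {ω : ℂ} (hω : IsPrimitiveRoot ω M) (s f : k[X]) (e : ℕ)
    [Decidable (n ∣ s * f - 1 ∧ M ∣ f.natDegree + e)] :
    ∑ χ : MulChar (k[X] ⧸ Ideal.span {n}) ℂ, ∑ i ∈ Finset.range M,
      χ (Ideal.Quotient.mk _ s) * (ω ^ i) ^ e * psi χ (ω ^ i) f =
      if n ∣ s * f - 1 ∧ M ∣ f.natDegree + e then
        (Fintype.card (MulChar (k[X] ⧸ Ideal.span {n}) ℂ) : ℂ) * M else 0 := by
  classical
  have hfin : Finite (k[X] ⧸ Ideal.span {n}) := finite_quot_pol hn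
  have h1 : ∀ χ : MulChar (k[X] ⧸ Ideal.span {n}) ℂ, ∑ i ∈ Finset.range M,
      χ (Ideal.Quotient.mk _ s) * (ω ^ i) ^ e * psi χ (ω ^ i) f =
      χ (Ideal.Quotient.mk _ (s * f)) * (if M ∣ f.natDegree + e then (M : ℂ) else 0) := by
    intro χ
    rw [← sum_root hM hω, Finset.mul_sum]
    refine Finset.sum_congr rfl fun i _ => ?_
    rw [psi, map_mul, map_mul, pow_add]
    ring
  rw [Finset.sum_congr rfl fun χ _ => h1 χ, ← Finset.sum_mul]
  have h2 : (Ideal.Quotient.mk (Ideal.span {n}) (s * f) = 1) ↔ n ∣ s * f - 1 := by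
    rw [← map_one (Ideal.Quotient.mk (Ideal.span {n})), Ideal.Quotient.eq,
      Ideal.mem_span_singleton]
  by_cases h3 : n ∣ s * f - 1
  · have h4 : ∀ χ : MulChar (k[X] ⧸ Ideal.span {n}) ℂ,
        χ (Ideal.Quotient.mk (Ideal.span {n}) (s * f)) = 1 := by
      intro χ
      rw [h2.2 h3, map_one]
    rw [Finset.sum_congr rfl fun χ _ => h4 χ, Finset.sum_const, nsmul_eq_mul, mul_one,
      Finset.card_univ]
    by_cases h5 : M ∣ f.natDegree + e
    · rw [if_pos h5, if_pos ⟨h3, h5⟩]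
    · rw [if_neg h5, if_neg fun h => h5 h.2, mul_zero]
  · rw [sum_char (fun h => h3 (h2.1 h)), zero_mul, if_neg fun h => h3 h.1]

/-- the same for the `C_j`: `∑_χ ∑_i χ(s) ω^(i e) C_j(psi χ ω^i)` is `|X| M` times
`∑_{m ∣ j} m #{P ∈ irr m : s P^(j/m) ≡ 1 mod n}` if `M ∣ j + e` and `0` otherwise
(`psi(P)^(j/m) = psi(P^(j/m))`, `deg P^(j/m) = j`; `sum_psi`) -/
theorem sum_CC {n : k[X]} (hn : n ≠ 0) [Fintype (MulChar (k[X] ⧸ Ideal.span {n}) ℂ)] {M : ℕ}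
    (hM : 0 < M) {ω : ℂ} (hω : IsPrimitiveRoot ω M) (s : k[X]) (e j : ℕ)
    [DecidablePred fun x : k[X] => n ∣ x] :
    ∑ χ : MulChar (k[X] ⧸ Ideal.span {n}) ℂ, ∑ i ∈ Finset.range M,
      χ (Ideal.Quotient.mk _ s) * (ω ^ i) ^ e * CC (psi χ (ω ^ i)) j =
      (Fintype.card (MulChar (k[X] ⧸ Ideal.span {n}) ℂ) : ℂ) * M *
        ((if M ∣ j + e then ∑ m ∈ j.divisors,
          m * ((irr k m).filter fun P => n ∣ s * P ^ (j / m) - 1).card else 0 : ℕ) : ℂ) := by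
  have h1 : ∀ (χ : MulChar (k[X] ⧸ Ideal.span {n}) ℂ) (i : ℕ),
      χ (Ideal.Quotient.mk _ s) * (ω ^ i) ^ e * CC (psi χ (ω ^ i)) j =
      ∑ m ∈ j.divisors, ∑ P ∈ irr k m, (m : ℂ) *
        (χ (Ideal.Quotient.mk _ s) * (ω ^ i) ^ e * psi χ (ω ^ i) (P ^ (j / m))) := by
    intro χ i
    rw [CC, Finset.mul_sum]
    refine Finset.sum_congr rfl fun m _ => ?_
    rw [mul_left_comm, Finset.mul_sum, Finset.mul_sum]
    refine Finset.sum_congr rfl fun P _ => ?_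
    have h2 : psi χ (ω ^ i) P ^ (j / m) = psi χ (ω ^ i) (P ^ (j / m)) := by
      rw [psi, psi, mul_pow, map_pow, map_pow, natDegree_pow, mul_comm (j / m), pow_mul (ω ^ i)]
    rw [h2]
  have h3 : ∑ χ : MulChar (k[X] ⧸ Ideal.span {n}) ℂ, ∑ i ∈ Finset.range M,
      χ (Ideal.Quotient.mk _ s) * (ω ^ i) ^ e * CC (psi χ (ω ^ i)) j =
      ∑ m ∈ j.divisors, ∑ P ∈ irr k m, (m : ℂ) *
        ∑ χ : MulChar (k[X] ⧸ Ideal.span {n}) ℂ, ∑ i ∈ Finset.range M,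
        (χ (Ideal.Quotient.mk _ s) * (ω ^ i) ^ e * psi χ (ω ^ i) (P ^ (j / m))) := by
    rw [Finset.sum_congr rfl fun χ _ => Finset.sum_congr rfl fun i _ => h1 χ i]
    rw [Finset.sum_congr rfl fun χ _ => Finset.sum_comm, Finset.sum_comm]
    refine Finset.sum_congr rfl fun m _ => ?_
    rw [Finset.sum_congr rfl fun χ _ => Finset.sum_comm, Finset.sum_comm]
    refine Finset.sum_congr rfl fun P _ => ?_
    rw [Finset.mul_sum]
    refine Finset.sum_congr rfl fun χ _ => ?_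
    rw [Finset.mul_sum]
  rw [h3]
  have hj : ∀ m ∈ j.divisors, ∀ P ∈ irr k m, (P ^ (j / m)).natDegree = j := by
    intro m hm P hP
    rw [natDegree_pow, (mem_irr.1 hP).2.1]
    exact Nat.div_mul_cancel (Nat.dvd_of_mem_divisors hm)
  have h4 : ∀ m ∈ j.divisors, ∀ P ∈ irr k m, (m : ℂ) *
        ∑ χ : MulChar (k[X] ⧸ Ideal.span {n}) ℂ, ∑ i ∈ Finset.range M,
        (χ (Ideal.Quotient.mk _ s) * (ω ^ i) ^ e * psi χ (ω ^ i) (P ^ (j / m))) =
      (m : ℂ) * (if n ∣ s * P ^ (j / m) - 1 then (if M ∣ j + e then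
        (Fintype.card (MulChar (k[X] ⧸ Ideal.span {n}) ℂ) : ℂ) * M else 0) else 0) := by
    intro m hm P hP
    rw [sum_psi hn hM hω s (P ^ (j / m)) e, hj m hm P hP]
    congr 1
    by_cases h5 : n ∣ s * P ^ (j / m) - 1 <;> by_cases h6 : M ∣ j + e <;> simp [h5, h6]
  rw [Finset.sum_congr rfl fun m hm => Finset.sum_congr rfl fun P hP => h4 m hm P hP]
  by_cases h6 : M ∣ j + e
  · simp only [if_pos h6]
    push_cast
    rw [Finset.mul_sum]
    refine Finset.sum_congr rfl fun m _ => ?_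
    rw [← Finset.mul_sum, ← Finset.sum_filter, Finset.sum_const, nsmul_eq_mul]
    ring
  · simp [if_neg h6]

end BoomFF
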