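import Pool.Agent.H.MP_4c7af0_al.FF.D6b
import Pool.Agent.H.MP_4c7af0_al.FF.D5c

/-! Primes in arithmetic progressions in `𝔽_q[t]` (MP_4c7af0_al, function field case): end of the
proof. -/

namespace BoomFF

open Polynomial Filter Topology

variable {k : Type*} [Field k] [Finite k]

/-- the function whose limit is studied -/
noncomputable def d7_F {n : k[X]} (χ : MulChar (k[X] ⧸ Ideal.span {n}) ℂ) (ζ : ℂ) (u : ℝ) : ℂ :=
  ((1 - Nat.card k * u : ℝ) : ℂ) * ∑' j, CC (psi χ ζ) j * (u : ℂ) ^ j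

theorem d7_conj_psi {n : k[X]} (hn : n ≠ 0) (χ : MulChar (k[X] ⧸ Ideal.span {n}) ℂ) {ζ : ℂ}
    (hζ : ‖ζ‖ = 1) (f : k[X]) : psi χ⁻¹ ζ⁻¹ f = starRingEnd ℂ (psi χ ζ f) := by
  have := finite_quot_pol hn
  have h1 : χ⁻¹ (Ideal.Quotient.mk _ f) = starRingEnd ℂ (χ (Ideal.Quotient.mk _ f)) :=
    (MulChar.star_apply' χ _).symm
  rw [psi, psi, map_mul, map_pow, h1, Complex.inv_eq_conj hζ]

theorem d7_conj_CC {n : k[X]} (hn : n ≠ 0) (χ : MulChar (k[X] ⧸ Ideal.span {n}) ℂ) {ζ : ℂ}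
    (hζ : ‖ζ‖ = 1) (j : ℕ) : CC (psi χ⁻¹ ζ⁻¹) j = starRingEnd ℂ (CC (psi χ ζ) j) := by
  rw [CC, CC, map_sum]
  refine Finset.sum_congr rfl fun m _ => ?_
  rw [map_mul, map_natCast, map_sum]
  congr 1
  refine Finset.sum_congr rfl fun P _ => ?_
  rw [map_pow, d7_conj_psi hn χ hζ]

theorem d7_conj_F {n : k[X]} (hn : n ≠ 0) (χ : MulChar (k[X] ⧸ Ideal.span {n}) ℂ) {ζ : ℂ}
    (hζ : ‖ζ‖ = 1) (u : ℝ) : d7_F χ⁻¹ ζ⁻¹ u = starRingEnd ℂ (d7_F χ ζ u) := by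
  rw [d7_F, d7_F, map_mul, Complex.conj_ofReal]
  congr 1
  have h1 : starRingEnd ℂ (∑' j, CC (psi χ ζ) j * (u : ℂ) ^ j) =
      ∑' j, star (CC (psi χ ζ) j * (u : ℂ) ^ j) := tsum_star
  rw [h1]
  refine tsum_congr fun j => ?_
  rw [d7_conj_CC hn χ hζ]
  change _ = starRingEnd ℂ (CC (psi χ ζ) j * (u : ℂ) ^ j)
  rw [map_mul, map_pow, Complex.conj_ofReal]

theorem d7_sum_nonneg {n : k[X]} (hn : n ≠ 0) [Fintype (MulChar (k[X] ⧸ Ideal.span {n}) ℂ)] {M : ℕ}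
    (hM : 0 < M) {ω : ℂ} (hω : IsPrimitiveRoot ω M) {u : ℝ} (hu : 0 < u)
    (hu' : u < 1 / (Nat.card k : ℝ)) :
    0 ≤ (∑ χ : MulChar (k[X] ⧸ Ideal.span {n}) ℂ, ∑ i ∈ Finset.range M, d7_F χ (ω ^ i) u).re := by
  classical
  have hq : 1 < Nat.card k := Finite.one_lt_card
  have hq0 : (0 : ℝ) < Nat.card k := by exact_mod_cast (by omega : 0 < Nat.card k)
  have hnorm : ∀ i, ‖ω ^ i‖ = 1 := fun i => by
    rw [norm_pow, Complex.norm_eq_one_of_pow_eq_one hω.pow_eq_one hM.ne', one_pow]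
  have hsum : ∀ (χ : MulChar (k[X] ⧸ Ideal.span {n}) ℂ) (i : ℕ),
      Summable fun j => CC (psi χ (ω ^ i)) j * (u : ℂ) ^ j := fun χ i =>
    summ_C hq (CC_le (CM_psi hn χ (hnorm i))) hu hu'
  have h1 : ∑ χ : MulChar (k[X] ⧸ Ideal.span {n}) ℂ, ∑ i ∈ Finset.range M, d7_F χ (ω ^ i) u =
      ((1 - Nat.card k * u : ℝ) : ℂ) * ∑' j,
        (∑ χ : MulChar (k[X] ⧸ Ideal.span {n}) ℂ, ∑ i ∈ Finset.range M,
          CC (psi χ (ω ^ i)) j) * (u : ℂ) ^ j := by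
    have h2 : (∑' j, (∑ χ : MulChar (k[X] ⧸ Ideal.span {n}) ℂ, ∑ i ∈ Finset.range M,
          CC (psi χ (ω ^ i)) j) * (u : ℂ) ^ j) =
        ∑ χ : MulChar (k[X] ⧸ Ideal.span {n}) ℂ, ∑ i ∈ Finset.range M,
          ∑' j, CC (psi χ (ω ^ i)) j * (u : ℂ) ^ j := by
      simp only [Finset.sum_mul]
      rw [Summable.tsum_finsetSum fun χ _ => summable_sum fun i _ => hsum χ i]
      refine Finset.sum_congr rfl fun χ _ => ?_
      rw [Summable.tsum_finsetSum fun i _ => hsum χ i]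
    rw [h2, Finset.mul_sum]
    refine Finset.sum_congr rfl fun χ _ => ?_
    rw [Finset.mul_sum]
    rfl
  have h3 : ∀ j, ∃ N : ℕ, (∑ χ : MulChar (k[X] ⧸ Ideal.span {n}) ℂ, ∑ i ∈ Finset.range M,
      CC (psi χ (ω ^ i)) j) = (N : ℂ) := by
    intro j
    have h4 := sum_CC hn hM hω 1 0 j
    simp only [map_one, pow_zero, mul_one, one_mul] at h4
    have h6 : ∀ a b c : ℕ, (a : ℂ) * (b : ℂ) * (c : ℂ) = ((a * b * c : ℕ) : ℂ) := fun a b c => by
      push_cast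
      rfl
    rw [h4, h6]
    exact ⟨_, rfl⟩
  choose N hN using h3
  rw [h1]
  have h5 : (∑' j, (∑ χ : MulChar (k[X] ⧸ Ideal.span {n}) ℂ, ∑ i ∈ Finset.range M,
      CC (psi χ (ω ^ i)) j) * (u : ℂ) ^ j) = ((∑' j, (N j : ℝ) * u ^ j : ℝ) : ℂ) := by
    rw [Complex.ofReal_tsum]
    refine tsum_congr fun j => ?_
    rw [hN]
    push_cast
    rfl
  rw [h5, ← Complex.ofReal_mul, Complex.ofReal_re]
  refine mul_nonneg ?_ (tsum_nonneg fun j => by positivity)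
  rw [lt_div_iff₀ hq0] at hu'
  linarith

/-- All pairs `(χ, ζ) ≠ (1, 1)`, `ζ^M = 1`, have limit `0`. -/
theorem lim_all {n : k[X]} (hn : n.Monic) {M : ℕ} (hM : 0 < M)
    (χ : MulChar (k[X] ⧸ Ideal.span {n}) ℂ) {ζ : ℂ} (hζ : ζ ^ M = 1) (hne : χ ≠ 1 ∨ ζ ≠ 1) :
    Tendsto (fun u : ℝ => ((1 - Nat.card k * u : ℝ) : ℂ) *
      ∑' j, CC (psi χ ζ) j * (u : ℂ) ^ j) (𝓝[<] ((1 : ℝ) / Nat.card k)) (𝓝 0) := by
  classical
  have hn0 : n ≠ 0 := hn.ne_zero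
  have hq : 1 < Nat.card k := Finite.one_lt_card
  have hq0 : (0 : ℝ) < Nat.card k := by exact_mod_cast (by omega : 0 < Nat.card k)
  have := finite_quot_pol hn0
  have : Fintype (MulChar (k[X] ⧸ Ideal.span {n}) ℂ) := Fintype.ofFinite _
  have : NeZero M := ⟨hM.ne'⟩
  have hnζ : ‖ζ‖ = 1 := Complex.norm_eq_one_of_pow_eq_one hζ hM.ne'
  by_cases hχ : χ = 1
  · subst hχ
    have hζ1 : ζ ≠ 1 := by
      rcases hne with h | h
      · exact absurd rfl h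
      · exact h
    have h := lim_psi_one hn hnζ
    rwa [if_neg hζ1] at h
  obtain ⟨m, hm, -⟩ := lim_psi_ne hn hχ hnζ
  by_cases hm0 : m = 0
  · rw [hm0, Nat.cast_zero, neg_zero] at hm
    exact hm
  exfalso
  obtain ⟨ω, hω⟩ : ∃ ω : ℂ, IsPrimitiveRoot ω M := ⟨_, Complex.isPrimitiveRoot_exp M hM.ne'⟩
  have hnorm : ∀ i, ‖ω ^ i‖ = 1 := fun i => by
    rw [norm_pow, Complex.norm_eq_one_of_pow_eq_one hω.pow_eq_one hM.ne', one_pow]
  obtain ⟨i₀, hi₀, hωi₀⟩ := hω.eq_pow_of_pow_eq_one hζ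
  obtain ⟨i₁, hi₁, hωi₁⟩ := hω.eq_pow_of_pow_eq_one (ξ := ζ⁻¹) (by rw [inv_pow, hζ, inv_one])
  -- the limits of all pairs
  have hlim : ∀ p : MulChar (k[X] ⧸ Ideal.span {n}) ℂ × ℕ, ∃ l : ℝ, p.2 < M →
      Tendsto (d7_F p.1 (ω ^ p.2)) (𝓝[<] ((1 : ℝ) / Nat.card k)) (𝓝 (l : ℂ)) ∧
      (p = (1, 0) → l = 1) ∧ (p ≠ (1, 0) → l ≤ 0) := by
    rintro ⟨χ', i⟩
    by_cases hi : i < M
    · by_cases h1 : χ' = 1
      · subst h1
        have h2 := lim_psi_one hn (hnorm i)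
        by_cases h3 : i = 0
        · subst h3
          rw [pow_zero, if_pos rfl] at h2
          refine ⟨1, fun _ => ⟨?_, fun _ => rfl, fun h => absurd rfl h⟩⟩
          rw [pow_zero, Complex.ofReal_one]
          exact h2
        · have h4 : ω ^ i ≠ 1 := hω.pow_ne_one_of_pos_of_lt h3 hi
          rw [if_neg h4] at h2
          refine ⟨0, fun _ => ⟨?_, fun h => ?_, fun _ => le_rfl⟩⟩
          · rw [Complex.ofReal_zero]
            exact h2
          · exact absurd (congrArg Prod.snd h) h3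
      · obtain ⟨m', hm', -⟩ := lim_psi_ne hn h1 (hnorm i)
        refine ⟨-(m' : ℝ), fun _ => ⟨?_, fun h => ?_, fun _ => ?_⟩⟩
        · have h5 : ((-(m' : ℝ) : ℝ) : ℂ) = -(m' : ℂ) := by push_cast; rfl
          rw [h5]
          exact hm'
        · exact absurd (congrArg Prod.fst h) h1
        · exact neg_nonpos.2 (Nat.cast_nonneg _)
    · exact ⟨0, fun h => absurd h hi⟩
  choose l hl using hlim
  have hbot : (𝓝[<] ((1 : ℝ) / Nat.card k)).NeBot := inferInstance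
  -- the sum of all limits is nonnegative
  have hS : 0 ≤ ∑ χ' : MulChar (k[X] ⧸ Ideal.span {n}) ℂ, ∑ i ∈ Finset.range M, l (χ', i) := by
    have h1 : Tendsto (fun u : ℝ => (∑ χ' : MulChar (k[X] ⧸ Ideal.span {n}) ℂ,
        ∑ i ∈ Finset.range M, d7_F χ' (ω ^ i) u).re) (𝓝[<] ((1 : ℝ) / Nat.card k))
        (𝓝 ((∑ χ' : MulChar (k[X] ⧸ Ideal.span {n}) ℂ,
          ∑ i ∈ Finset.range M, (l (χ', i) : ℂ)).re)) := by
      refine (Complex.continuous_re.tendsto _).comp ?_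
      refine tendsto_finsetSum _ fun χ' _ => tendsto_finsetSum _ fun i hi => ?_
      exact (hl (χ', i) (Finset.mem_range.1 hi)).1
    have h2 : (∑ χ' : MulChar (k[X] ⧸ Ideal.span {n}) ℂ,
          ∑ i ∈ Finset.range M, (l (χ', i) : ℂ)).re =
        ∑ χ' : MulChar (k[X] ⧸ Ideal.span {n}) ℂ, ∑ i ∈ Finset.range M, l (χ', i) := by
      rw [← Complex.ofReal_re (∑ χ' : MulChar (k[X] ⧸ Ideal.span {n}) ℂ,
        ∑ i ∈ Finset.range M, l (χ', i))]
      push_cast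
      rfl
    rw [h2] at h1
    refine ge_of_tendsto h1 ?_
    filter_upwards [Ioo_mem_nhdsLT (a := (0 : ℝ)) (b := (1 : ℝ) / Nat.card k) (by positivity)]
      with u hu
    exact d7_sum_nonneg hn0 hM hω hu.1 hu.2
  -- the limit of the pair and of the conjugate pair
  have hl0 : l (χ, i₀) = -(m : ℝ) := by
    have h1 := (hl (χ, i₀) hi₀).1
    have h2 : Tendsto (d7_F χ (ω ^ i₀)) (𝓝[<] ((1 : ℝ) / Nat.card k)) (𝓝 (-(m : ℂ))) := by
      rw [hωi₀]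
      exact hm
    have h3 := tendsto_nhds_unique h1 h2
    exact_mod_cast h3
  have hl1 : l (χ⁻¹, i₁) = -(m : ℝ) := by
    have h1 := (hl (χ⁻¹, i₁) hi₁).1
    have h2 : Tendsto (d7_F χ⁻¹ (ω ^ i₁)) (𝓝[<] ((1 : ℝ) / Nat.card k)) (𝓝 (-(m : ℂ))) := by
      rw [hωi₁]
      have h3 : d7_F χ⁻¹ ζ⁻¹ = fun u => starRingEnd ℂ (d7_F χ ζ u) := by
        funext u
        exact d7_conj_F hn0 χ hnζ u
      rw [h3]
      have h4 : Tendsto (d7_F χ ζ) (𝓝[<] ((1 : ℝ) / Nat.card k)) (𝓝 (-(m : ℂ))) := hm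
      have h5 := (Complex.continuous_conj.tendsto _).comp h4
      rw [map_neg, map_natCast] at h5
      exact h5
    have h3 := tendsto_nhds_unique h1 h2
    exact_mod_cast h3
  have hm1 : (1 : ℝ) ≤ m := by exact_mod_cast Nat.one_le_iff_ne_zero.2 hm0
  have heq : (χ⁻¹, i₁) = (χ, i₀) := by
    by_contra hne'
    rw [← Finset.sum_product'] at hS
    have hχ1 : (χ, i₀) ≠ ((1, 0) : MulChar (k[X] ⧸ Ideal.span {n}) ℂ × ℕ) := fun h =>
      hχ (congrArg Prod.fst h)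
    have hχ2 : (χ⁻¹, i₁) ≠ ((1, 0) : MulChar (k[X] ⧸ Ideal.span {n}) ℂ × ℕ) := fun h =>
      hχ (inv_eq_one.1 (congrArg Prod.fst h))
    have hsub : ({(1, 0), (χ, i₀), (χ⁻¹, i₁)} : Finset (MulChar (k[X] ⧸ Ideal.span {n}) ℂ × ℕ)) ⊆
        Finset.univ ×ˢ Finset.range M := by
      intro p hp
      rw [Finset.mem_product, Finset.mem_range]
      refine ⟨Finset.mem_univ _, ?_⟩
      rw [Finset.mem_insert, Finset.mem_insert, Finset.mem_singleton] at hp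
      rcases hp with rfl | rfl | rfl
      · exact hM
      · exact hi₀
      · exact hi₁
    have h1 := Finset.sum_le_sum_of_subset_of_nonneg (f := fun p => -l p) hsub (by
      intro p hp hp'
      rw [Finset.mem_product, Finset.mem_range] at hp
      have h2 : p ≠ (1, 0) := by
        rintro rfl
        exact hp' (Finset.mem_insert_self _ _)
      have h3 := (hl p hp.2).2.2 h2
      linarith)
    rw [Finset.sum_neg_distrib, Finset.sum_neg_distrib, neg_le_neg_iff] at h1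
    have h2 : ∑ p ∈ ({(1, 0), (χ, i₀), (χ⁻¹, i₁)} :
        Finset (MulChar (k[X] ⧸ Ideal.span {n}) ℂ × ℕ)), l p = 1 + (-(m : ℝ) + -(m : ℝ)) := by
      rw [Finset.sum_insert, Finset.sum_insert, Finset.sum_singleton, hl0, hl1,
        (hl (1, 0) hM).2.1 rfl]
      · rw [Finset.mem_singleton]
        exact fun h => hne' h.symm
      · rw [Finset.mem_insert, Finset.mem_singleton]
        rintro (h | h)
        · exact hχ1 h.symm
        · exact hχ2 h.symm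
    rw [h2] at h1
    have h3 : ∑ i ∈ (Finset.univ : Finset (MulChar (k[X] ⧸ Ideal.span {n}) ℂ)) ×ˢ Finset.range M,
        l i = ∑ x ∈ (Finset.univ : Finset (MulChar (k[X] ⧸ Ideal.span {n}) ℂ)) ×ˢ Finset.range M,
        l (x.1, x.2) := rfl
    rw [h3] at h1
    linarith
  have hχr : χ⁻¹ = χ := congrArg Prod.fst heq
  have hζr : ζ⁻¹ = ζ := by
    have h1 : i₁ = i₀ := congrArg Prod.snd heq
    rw [← hωi₁, ← hωi₀, h1]
  have h1 := lim_psi_real hn hχ hnζ (fun a => by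
    have h2 : starRingEnd ℂ (χ a) = χ⁻¹ a := MulChar.star_apply' χ a
    rw [h2, hχr]) (by rw [← Complex.inv_eq_conj hnζ, hζr])
  have h2 := tendsto_nhds_unique hm h1
  rw [neg_eq_zero, Nat.cast_eq_zero] at h2
  exact hm0 h2

end BoomFF
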