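import Pool.Agent.H.MP_4c7af0_al.FF.G2

/-! Step 1, part b (MP_4c7af0_al, function field case): no cusp is fixed by `D`. -/

namespace BoomFF

set_option linter.unusedSimpArgs false
set_option linter.unusedVariables false

open BoomNF

variable {F : Type*} [Field F] {A : Subring F}

/-- coordinates in which the cusp `z` is at infinity. -/
def g3_t (s : SL2 F) (z : F) : SL2 F := s * (u z * wy)

theorem g3_conj_app (s g : SL2 F) (z : F) : ((g3_t s z)⁻¹ * g * (g3_t s z)) 0 1 =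
    -((s⁻¹ * g * s) 1 0) := by
  have e : (g3_t s z)⁻¹ * g * (g3_t s z) = wy⁻¹ * (u (-z) * (s⁻¹ * g * s) * u z) * wy := by
    unfold g3_t
    rw [← u_inv]; group
  rw [e]
  generalize s⁻¹ * g * s = N
  simp only [mul_app, inv00, inv01, inv10, inv11, wy_00, wy_01, wy_10, wy_11, u_00, u_01, u_10, u_11]
  ring

theorem g3_conj_app' (s g : SL2 F) (z : F) : ((g3_t s z)⁻¹ * g * (g3_t s z)) 1 0 =
    -((s⁻¹ * g * s) 0 1 + ((s⁻¹ * g * s) 0 0 - (s⁻¹ * g * s) 1 1) * z -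
      z ^ 2 * (s⁻¹ * g * s) 1 0) := by
  have e : (g3_t s z)⁻¹ * g * (g3_t s z) = wy⁻¹ * (u (-z) * (s⁻¹ * g * s) * u z) * wy := by
    unfold g3_t
    rw [← u_inv]; group
  rw [e]
  generalize s⁻¹ * g * s = N
  simp only [mul_app, inv00, inv01, inv10, inv11, wy_00, wy_01, wy_10, wy_11, u_00, u_01, u_10, u_11]
  ring

/-- Step 1 (b). As in the number field case, but the conjugator is hyperbolic: in coordinates `s₁` in
which all elements of `D` are lower triangular and `f₀ = diag(E, 1/E)` take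
`H = u(1) dg(Q) u(-1)`, `Q = e^(k n)`; then `(H f₀ H⁻¹) 0 1 = Q (1/Q - Q) (1/E - E) ≠ 0`. -/
theorem GRing.no_fixed (hA : GRing A) {e : F} (hE : InfUnit A e) {D : Subgroup (SL2 F)}
    (hD : D ≤ G A) (hrec : Rec (G A) D) (hnc : NonCentral D) (s : SL2 F) :
    ∃ δ ∈ D, (s⁻¹ * δ * s) 1 0 ≠ 0 := by
  by_contra hcon
  push Not at hcon
  obtain ⟨δ₀, hδ₀, hns⟩ := hnc
  have hN10 : (s⁻¹ * δ₀ * s) 1 0 = 0 := hcon δ₀ hδ₀
  -- choice of the second fixed point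
  obtain ⟨z, hz⟩ : ∃ z : F, ((g3_t s z)⁻¹ * δ₀ * (g3_t s z)) 1 0 ≠ 0 := by
    by_contra hc
    push Not at hc
    have h0 := hc 0
    have h1 := hc 1
    rw [g3_conj_app'] at h0 h1
    rw [hN10] at h0 h1
    have e0 : (s⁻¹ * δ₀ * s) 0 1 = 0 := by linear_combination -h0
    have e1 : (s⁻¹ * δ₀ * s) 0 0 = (s⁻¹ * δ₀ * s) 1 1 := by linear_combination -h1 + h0
    have hcom := central_comm ⟨e0, hN10, e1⟩ s
    have hδ : δ₀ = s⁻¹ * δ₀ * s := by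
      calc δ₀ = s * (s⁻¹ * δ₀ * s) * s⁻¹ := by group
        _ = (s⁻¹ * δ₀ * s) * s * s⁻¹ := by rw [hcom]
        _ = _ := by group
    apply hns
    rw [hδ]
    exact ⟨e0, hN10, e1⟩
  set s₁ := g3_t s z with hs₁
  obtain ⟨l, hl, f₀, hf, f10, f00⟩ := hA.exists_hyp hE hD hrec s₁ hδ₀ hz
  have hE0 : e ^ l ≠ 0 := pow_ne_zero _ hE.ne
  have low : ∀ δ ∈ D, (s₁⁻¹ * δ * s₁) 0 1 = 0 := by
    intro δ hδ
    rw [hs₁, g3_conj_app, hcon δ hδ, neg_zero]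
  have f01 : f₀ 0 1 = 0 := by
    have h := low _ hf
    have e2 : s₁⁻¹ * (s₁ * f₀ * s₁⁻¹) * s₁ = f₀ := by group
    rwa [e2] at h
  have f11 : f₀ 1 1 = (e ^ l)⁻¹ := by
    have hd := det_eq f₀
    rw [f01, f00] at hd
    exact eq_inv_of_mul_eq_one_right (by linear_combination hd)
  obtain ⟨k, hk, hW⟩ := hA.tor hE.ne hE.mem hE.inv_mem (s₁ * u 1)
  obtain ⟨n, hn, hmem⟩ := hrec _ hW _ hf 1
  have h := low _ hmem
  have hek : e ^ k ≠ 0 := pow_ne_zero k hE.ne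
  set Q : F := (e ^ k) ^ n with hQ
  have hQ0 : Q ≠ 0 := pow_ne_zero n hek
  have e3 : s₁⁻¹ * ((s₁ * u 1 * dg (e ^ k) * (s₁ * u 1)⁻¹) ^ n * (s₁ * f₀ * s₁⁻¹) *
      ((s₁ * u 1 * dg (e ^ k) * (s₁ * u 1)⁻¹) ^ n)⁻¹) * s₁ =
      (u 1 * dg Q * (u 1)⁻¹) * f₀ * (u 1 * dg Q * (u 1)⁻¹)⁻¹ := by
    rw [conj_pow, dg_pow hek, hQ]
    group
  rw [e3] at h
  simp only [mul_app, inv00, inv01, inv10, inv11, u_00, u_01, u_10, u_11, dg_00 hQ0, dg_01 hQ0,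
    dg_10 hQ0, dg_11 hQ0, f00, f01, f10, f11] at h
  have hne : ∀ m : ℕ, 0 < m → (e ^ m)⁻¹ - e ^ m ≠ 0 := by
    intro m hm h3
    apply hE.pow_ne (m * 2) (by omega)
    rw [pow_mul]
    have h4 : (e ^ m)⁻¹ = e ^ m := sub_eq_zero.1 h3
    calc (e ^ m) ^ 2 = e ^ m * e ^ m := by ring
      _ = (e ^ m)⁻¹ * e ^ m := by rw [h4]
      _ = 1 := inv_mul_cancel₀ (pow_ne_zero _ hE.ne)
  have h1 : Q⁻¹ - Q ≠ 0 := by
    have := hne (k * n) (by positivity)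
    rwa [pow_mul, ← hQ] at this
  have h2 := hne l hl
  have h5 : Q * (Q⁻¹ - Q) * ((e ^ l)⁻¹ - e ^ l) = 0 := by
    linear_combination h
  exact mul_ne_zero (mul_ne_zero hQ0 h1) h2 h5

/-- If `s f₀ s⁻¹ ∈ D`, `f₀` upper triangular with upper left entry `ρ`, then
`{x | s u(x) s⁻¹ ∈ D}` is stable under multiplication by `ρ²` and `ρ⁻²`
(`f₀ u(x) f₀⁻¹ = u(ρ² x)`). -/
theorem upper_stable {D : Subgroup (SL2 F)} {s f₀ : SL2 F} {ρ : F} (hρ : ρ ≠ 0)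
    (hf : s * f₀ * s⁻¹ ∈ D) (h10 : f₀ 1 0 = 0) (h00 : f₀ 0 0 = ρ) {x : F}
    (hx : s * u x * s⁻¹ ∈ D) :
    s * u (ρ ^ 2 * x) * s⁻¹ ∈ D ∧ s * u ((ρ ^ 2)⁻¹ * x) * s⁻¹ ∈ D := by
  have h11 : f₀ 1 1 = ρ⁻¹ := by
    have hd := det_eq f₀
    rw [h10, h00] at hd
    exact eq_inv_of_mul_eq_one_right (by linear_combination hd)
  constructor
  · have e1 : s * u (ρ ^ 2 * x) * s⁻¹ = (s * f₀ * s⁻¹) * (s * u x * s⁻¹) * (s * f₀ * s⁻¹)⁻¹ := by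
      have e2 : (s * f₀ * s⁻¹) * (s * u x * s⁻¹) * (s * f₀ * s⁻¹)⁻¹ =
        s * (f₀ * u x * f₀⁻¹) * s⁻¹ := by group
      rw [e2, conj_u f₀ x, h00, h10]
      congr 2
      apply ext4 <;> simp
    rw [e1]
    exact D.mul_mem (D.mul_mem hf hx) (D.inv_mem hf)
  · have e1 : s * u ((ρ ^ 2)⁻¹ * x) * s⁻¹ =
        (s * f₀ * s⁻¹)⁻¹ * (s * u x * s⁻¹) * (s * f₀ * s⁻¹) := by
      have e2 : (s * f₀ * s⁻¹)⁻¹ * (s * u x * s⁻¹) * (s * f₀ * s⁻¹) =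
        s * (f₀⁻¹ * u x * (f₀⁻¹)⁻¹) * s⁻¹ := by group
      rw [e2, conj_u f₀⁻¹ x, inv00, inv10, h11, h10]
      congr 2
      apply ext4 <;> simp
    rw [e1]
    exact D.mul_mem (D.mul_mem (D.inv_mem hf) hx) hf

/-- Step 1 (c): stability of `{x | s u(x) s⁻¹ ∈ D}` under a power of `e`. -/
theorem GRing.unit_stable (hA : GRing A) {e : F} (hE : InfUnit A e) {D : Subgroup (SL2 F)}
    (hD : D ≤ G A) (hrec : Rec (G A) D) (hnc : NonCentral D) (s : SL2 F) :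
    ∃ l : ℕ, 0 < l ∧ ∀ x : F, s * u x * s⁻¹ ∈ D →
      s * u (e ^ l * x) * s⁻¹ ∈ D ∧ s * u ((e ^ l)⁻¹ * x) * s⁻¹ ∈ D := by
  obtain ⟨δ, hδ, hmove⟩ := hA.no_fixed hE hD hrec hnc s
  obtain ⟨l, hl, f₀, hf, f10, f00⟩ := hA.exists_hyp hE hD hrec s hδ hmove
  refine ⟨l * 2, by omega, fun x hx => ?_⟩
  have h := upper_stable (pow_ne_zero l hE.ne) hf f10 f00 hx
  rw [pow_mul]
  exact h

end BoomFF
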