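import Pool.Agent.H.MP_4c7af0_al.FF.R1

/-! Places of a function field as valuation subrings (MP_4c7af0_al, function field case): basic facts.

For `z : K` and a valuation subring `V` the condition `z⁻¹ ∉ V` means that `z` is a nonzero element of the
maximal ideal of `V`. -/

namespace BoomFF

open Polynomial

section aux

variable {R K : Type*} [CommRing R] [Field K]

/-- a valuation subring is closed under `m`-th roots -/
theorem p1_root {z : K} (V : ValuationSubring K) {m : ℕ} (hm : 0 < m) (hz : z ^ m ∈ V) :
    z ∈ V := by
  rcases V.mem_or_inv_mem z with h | h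
  · exact h
  · by_cases hz0 : z = 0
    · rw [hz0]
      exact V.zero_mem
    · have h1 : z = z ^ m * z⁻¹ ^ (m - 1) := by
        obtain ⟨l, rfl⟩ := Nat.exists_eq_succ_of_ne_zero hm.ne'
        rw [Nat.succ_sub_one, pow_succ', mul_assoc, ← mul_pow, mul_inv_cancel₀ hz0, one_pow,
          mul_one]
      rw [h1]
      exact V.mul_mem _ _ hz (pow_mem h _)

/-- a valuation subring which contains the image of `f` contains all elements integral over `f` -/
theorem p1_int (f : R →+* K) (V : ValuationSubring K) (hV : ∀ r, f r ∈ V) {z : K}
    (hz : f.IsIntegralElem z) : z ∈ V := by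
  obtain ⟨p, hp, hpz⟩ := hz
  let g : R →+* V := f.codRestrict V hV
  have h1 : IsIntegral V z := by
    refine ⟨p.map g, hp.map g, ?_⟩
    rw [eval₂_map]
    exact hpz
  obtain ⟨y, hy⟩ := IsIntegrallyClosed.isIntegral_iff.1 h1
  rw [← hy]
  exact y.2

/-- an element of all valuation subrings containing the image of `f` is integral over `f` -/
theorem p1_gen (f : R →+* K) {z : K}
    (h : ∀ V : ValuationSubring K, (∀ r, f r ∈ V) → z ∈ V) : f.IsIntegralElem z := by
  have h1 : z ∈ (⨅ V : {V : ValuationSubring K // Set.range f ⊆ V.toSubring}, V.1.toSubring) := by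
    rw [Subring.mem_iInf]
    rintro ⟨V, hV⟩
    exact h V fun r => hV ⟨r, rfl⟩
  rw [iInf_valuationSubring_superset] at h1
  have h2 : IsIntegral (Subring.closure (Set.range f)) z := h1
  obtain ⟨p, hp, hpz⟩ := h2
  let g : R →+* Subring.closure (Set.range f) :=
    f.codRestrict (Subring.closure (Set.range f)) fun r => Subring.subset_closure ⟨r, rfl⟩
  have hg : Function.Surjective g := by
    rintro ⟨x, hx⟩
    have h3 : Subring.closure (Set.range f) ≤ f.range :=
      Subring.closure_le.2 fun y hy => RingHom.mem_range.2 hy
    obtain ⟨r, hr⟩ := RingHom.mem_range.1 (h3 hx)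
    exact ⟨r, Subtype.ext hr⟩
  obtain ⟨p', hp'⟩ := Polynomial.map_surjective g hg p
  obtain ⟨q, hq1, -, hq2⟩ := Polynomial.lifts_and_natDegree_eq_and_monic
    ((Polynomial.mem_lifts p).2 ⟨p', hp'⟩) hp
  refine ⟨q, hq2, ?_⟩
  rw [← hq1, eval₂_map] at hpz
  exact hpz

/-- the constants are in every valuation subring -/
theorem p1_const {k : Type*} [Field k] [Finite k] (f : k →+* K) (V : ValuationSubring K) (c : k) :
    f c ∈ V := by
  by_cases hc : c = 0
  · rw [hc, map_zero]
    exact V.zero_mem
  · have : Fintype k := Fintype.ofFinite k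
    have h1 : 0 < Fintype.card k - 1 := by
      have := Fintype.one_lt_card (α := k)
      omega
    refine p1_root V h1 ?_
    rw [← map_pow, FiniteField.pow_card_sub_one_eq_one c hc, map_one]
    exact V.one_mem

end aux

section general

variable {k K : Type*} [Field k] [Finite k] [Field K] [Algebra k K]

/-- algebraic elements over the finite field `k` are in every valuation subring: such an element is `0` or
a root of unity (`k(z)` is a finite field), so `z` is integral over the prime ring. -/
theorem alg_mem {z : K} (hz : IsAlgebraic k z) (V : ValuationSubring K) : z ∈ V :=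
  p1_int (algebraMap k K) V (fun c => p1_const _ V c) (isAlgebraic_iff_isIntegral.1 hz)

/-- an element of all valuation subrings `≠ ⊤` is algebraic over `k`. Proof:
`iInf_valuationSubring_superset` for `s = Set.range (algebraMap k K)` (every `V` contains `s`, `alg_mem`):
`z` is integral over the closure of `s`, the image of `k`. -/
theorem alg_of_mem {z : K} (hz : ∀ V : ValuationSubring K, V ≠ ⊤ → z ∈ V) : IsAlgebraic k z := by
  refine isAlgebraic_iff_isIntegral.2 (p1_gen (algebraMap k K) fun V _ => ?_)
  by_cases hV : V = ⊤
  · rw [hV]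
    exact ValuationSubring.mem_top z
  · exact hz V hV

/-- a valuation subring is closed under `m`-th roots, `m > 0` (integrally closed) -/
theorem root_mem {z : K} (V : ValuationSubring K) {m : ℕ} (hm : 0 < m) (hz : z ^ m ∈ V) :
    z ∈ V :=
  p1_root V hm hz

end general

variable {Fq K : Type*} [Field Fq] [Finite Fq] [Field K] [Algebra Fq[X] K]

/-- if `t ∈ V` (`t` the image of `X`) then `V` contains all elements integral over `𝔽_q[t]`. Proof: the
constants are `0` or roots of unity, so `V` contains the image of `𝔽_q[X]`; `V` is integrally closed. -/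
theorem pl_int {V : ValuationSubring K} (hX : algebraMap Fq[X] K X ∈ V) {z : K}
    (hz : IsIntegral Fq[X] z) : z ∈ V := by
  refine p1_int (algebraMap Fq[X] K) V (fun p => ?_) hz
  induction p using Polynomial.induction_on' with
  | add p q hp hq =>
    rw [map_add]
    exact V.add_mem _ _ hp hq
  | monomial n c =>
    rw [← C_mul_X_pow_eq_monomial, map_mul, map_pow]
    exact V.mul_mem _ _ (p1_const ((algebraMap Fq[X] K).comp C) V c) (pow_mem hX n)

/-- an element which is in all valuation subrings `V ≠ ⊤` containing `t` is integral over `𝔽_q[t]`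
(`iInf_valuationSubring_superset` for the range of `algebraMap Fq[X] K`) -/
theorem pl_all {z : K}
    (h : ∀ V : ValuationSubring K, V ≠ ⊤ → algebraMap Fq[X] K X ∈ V → z ∈ V) :
    IsIntegral Fq[X] z := by
  refine p1_gen (algebraMap Fq[X] K) fun V hV' => ?_
  by_cases hV : V = ⊤
  · rw [hV]
    exact ValuationSubring.mem_top z
  · exact h V hV (hV' X)

end BoomFF
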