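import Pool.Agent.H.MP_4c7af0_al.FF.P1

/-! Places of a function field as valuation subrings (MP_4c7af0_al, function field case): centers. -/

namespace BoomFF

open Polynomial

variable {Fq K : Type*} [Field Fq] [Finite Fq] [Field K] [Algebra Fq[X] K]
  [Algebra (RatFunc Fq) K] [IsScalarTower Fq[X] (RatFunc Fq) K]
  [FiniteDimensional (RatFunc Fq) K]

/-- the condition `z⁻¹ ∉ V` implies `z ≠ 0` and `z ∈ V` -/
theorem p2_ne {V : ValuationSubring K} {z : K} (hz : z⁻¹ ∉ V) : z ≠ 0 ∧ z ∈ V := by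
  refine ⟨?_, (V.mem_or_inv_mem z).resolve_right hz⟩
  rintro rfl
  exact hz (by rw [inv_zero]; exact V.zero_mem)

/-- the condition `z⁻¹ ∉ V` is stable under multiplication by nonzero elements of `V` -/
theorem p2_mul {V : ValuationSubring K} {z w : K} (hz : z⁻¹ ∉ V) (hw : w ∈ V) (hw0 : w ≠ 0) :
    (z * w)⁻¹ ∉ V := by
  intro h
  apply hz
  have h1 : z⁻¹ = w * (z * w)⁻¹ := by
    rw [mul_inv, mul_comm z⁻¹, ← mul_assoc, mul_inv_cancel₀ hw0, one_mul]
  rw [h1]
  exact V.mul_mem _ _ hw h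

/-- sums of elements of the maximal ideal -/
theorem p2_add {V : ValuationSubring K} {x y : K} (hx : x⁻¹ ∉ V) (hy : y⁻¹ ∉ V)
    (h : x + y ≠ 0) : (x + y)⁻¹ ∉ V := by
  have hx0 := (p2_ne hx).1
  have hy0 := (p2_ne hy).1
  rcases V.mem_or_inv_mem (x / y) with h1 | h1
  · have h2 : x + y = y * (x / y + 1) := by
      field_simp
    rw [h2] at h ⊢
    exact p2_mul hy (V.add_mem _ _ h1 V.one_mem) (right_ne_zero_of_mul h)
  · have h2 : x + y = x * ((x / y)⁻¹ + 1) := by
      field_simp
      ring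
    rw [h2] at h ⊢
    exact p2_mul hx (V.add_mem _ _ h1 V.one_mem) (right_ne_zero_of_mul h)

/-- a unit plus an element of the maximal ideal is a unit -/
theorem p2_unit {V : ValuationSubring K} {c x : K} (hc : c⁻¹ ∈ V) (hc0 : c ≠ 0)
    (hx : x = 0 ∨ x⁻¹ ∉ V) : (c + x)⁻¹ ∈ V := by
  rcases hx with rfl | hx
  · rwa [add_zero]
  · by_contra h
    have h1 : (-x)⁻¹ ∉ V := by
      intro h2
      apply hx
      rw [inv_neg] at h2
      have := V.neg_mem _ h2
      rwa [neg_neg] at this
    have h3 : c + x + -x ≠ 0 := by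
      rwa [add_neg_cancel_right]
    have h4 := p2_add h h1 h3
    rw [add_neg_cancel_right] at h4
    exact h4 hc

/-- The maximal ideal of `V ≠ ⊤`, `t ∈ V`, contains a monic polynomial in `t` of positive degree. Proof: let
`z ≠ 0`, `z⁻¹ ∉ V` (`V ≠ ⊤`). `z⁻¹` is algebraic over `𝔽_q[t]` (`FiniteDimensional`), so there is a relation
`a_0 + a_1 z + ... + a_m z^m = 0` with `a_i ∈ 𝔽_q[t]`, `a_0 ≠ 0` (cancel `z`); `a_0 ∈ z V` is in the maximal ideal, so
it is not a constant; divide by the leading coefficient (a root of unity). -/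
theorem pl_poly {V : ValuationSubring K} (hV : V ≠ ⊤) (hX : algebraMap Fq[X] K X ∈ V) :
    ∃ p : Fq[X], p.Monic ∧ 0 < p.natDegree ∧ (algebraMap Fq[X] K p)⁻¹ ∉ V := by
  obtain ⟨w, hw⟩ : ∃ w : K, w ∉ V := by
    by_contra h
    push Not at h
    exact hV (top_le_iff.1 fun x _ => h x)
  obtain ⟨f, hf, hfw⟩ := ar_den (Fq := Fq) w
  have h1 : algebraMap Fq[X] K f * w ∈ V := pl_int hX hfw
  have hf0 : algebraMap Fq[X] K f ≠ 0 := by
    rw [IsScalarTower.algebraMap_apply Fq[X] (RatFunc Fq) K]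
    intro h
    rw [map_eq_zero_iff _ (algebraMap (RatFunc Fq) K).injective] at h
    exact hf ((map_eq_zero_iff _ (IsFractionRing.injective Fq[X] (RatFunc Fq))).1 h)
  have h2 : (algebraMap Fq[X] K f)⁻¹ ∉ V := by
    intro h
    apply hw
    have h3 : w = (algebraMap Fq[X] K f)⁻¹ * (algebraMap Fq[X] K f * w) := by
      rw [← mul_assoc, inv_mul_cancel₀ hf0, one_mul]
    rw [h3]
    exact V.mul_mem _ _ h h1
  have hp := Polynomial.monic_mul_leadingCoeff_inv hf
  have h4 : (algebraMap Fq[X] K (f * C f.leadingCoeff⁻¹))⁻¹ ∉ V := by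
    rw [map_mul]
    refine p2_mul h2 (p1_const ((algebraMap Fq[X] K).comp C) V _) ?_
    intro h
    have h5 := (map_eq_zero_iff ((algebraMap Fq[X] K).comp C) (RingHom.injective _)).1 h
    exact hf (leadingCoeff_eq_zero.1 (inv_eq_zero.1 h5))
  refine ⟨_, hp, ?_, h4⟩
  rw [pos_iff_ne_zero]
  intro h
  rw [(Polynomial.Monic.natDegree_eq_zero hp).1 h, map_one, inv_one] at h4
  exact h4 V.one_mem

/-- archimedean property: if `t` is in the maximal ideal of `V` then every `z ∈ K` is of the form `v / t^j`,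
`v ∈ V`. Proof: `f z` is integral over `𝔽_q[t]` for some `f ≠ 0` in `𝔽_q[t]` (`ar_den` in `R1.lean`), so `f z ∈ V`
(`pl_int`). Write `f = X^j g` with `g(0) ≠ 0`; `g(t) ≡ g(0)` modulo the maximal ideal, so `g(t)` is a unit of `V` and
`t^j z ∈ V`. -/
theorem pl_arch {V : ValuationSubring K} (hX : (algebraMap Fq[X] K X)⁻¹ ∉ V) (z : K) :
    ∃ j : ℕ, z * algebraMap Fq[X] K X ^ j ∈ V := by
  obtain ⟨f, hf, hfz⟩ := ar_den (Fq := Fq) z
  have hX' := (p2_ne hX).2
  have h1 : algebraMap Fq[X] K f * z ∈ V := pl_int hX' hfz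
  obtain ⟨g, hg, hg0⟩ := Polynomial.exists_eq_pow_rootMultiplicity_mul_and_not_dvd f hf 0
  rw [C_0, sub_zero] at hg hg0
  rw [Polynomial.X_dvd_iff] at hg0
  have h2 : (algebraMap Fq[X] K g)⁻¹ ∈ V := by
    have h3 : algebraMap Fq[X] K g
        = algebraMap Fq[X] K (C (g.coeff 0)) + algebraMap Fq[X] K X * algebraMap Fq[X] K g.divX := by
      rw [← map_mul, ← map_add]
      congr 1
      conv_lhs => rw [← Polynomial.divX_mul_X_add g]
      ring
    rw [h3]
    refine p2_unit ?_ ?_ ?_
    · have h4 : (algebraMap Fq[X] K (C (g.coeff 0)))⁻¹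
          = ((algebraMap Fq[X] K).comp C) (g.coeff 0)⁻¹ := by
        rw [map_inv₀]
        rfl
      rw [h4]
      exact p1_const _ V _
    · intro h
      exact hg0 ((map_eq_zero_iff ((algebraMap Fq[X] K).comp C) (RingHom.injective _)).1 h)
    · by_cases h5 : algebraMap Fq[X] K g.divX = 0
      · left
        rw [h5, mul_zero]
      · right
        exact p2_mul hX (pl_int hX' isIntegral_algebraMap) h5
  have hg1 : algebraMap Fq[X] K g ≠ 0 := by
    intro h
    rw [IsScalarTower.algebraMap_apply Fq[X] (RatFunc Fq) K] at h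
    rw [map_eq_zero_iff _ (algebraMap (RatFunc Fq) K).injective] at h
    have h6 := (map_eq_zero_iff _ (IsFractionRing.injective Fq[X] (RatFunc Fq))).1 h
    exact hg0 (by rw [h6, coeff_zero])
  refine ⟨f.rootMultiplicity 0, ?_⟩
  have h7 : z * algebraMap Fq[X] K X ^ (f.rootMultiplicity 0)
      = (algebraMap Fq[X] K f * z) * (algebraMap Fq[X] K g)⁻¹ := by
    rw [eq_mul_inv_iff_mul_eq₀ hg1]
    conv_rhs => rw [hg, map_mul, map_pow]
    ring
  rw [h7]
  exact V.mul_mem _ _ h1 h2

/-- the center of `V ≠ ⊤`, `t ∈ V`, on the integral closure of `𝔽_q[t]`: a nonzero maximal ideal. Proof: it is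
the preimage of the maximal ideal of `V`, so prime; nonzero by `pl_poly`; nonzero primes of the integral closure
are maximal (integral over `𝔽_q[X]`, dimension one: `Ideal.IsPrime` and `Ring.DimensionLEOne.integralClosure`
or the Dedekind property; or directly: the quotient is integral over a finite field). -/
theorem pl_center {V : ValuationSubring K} (hV : V ≠ ⊤) (hX : algebraMap Fq[X] K X ∈ V) :
    ∃ P : Ideal (integralClosure Fq[X] K), P ≠ ⊥ ∧ P.IsMaximal ∧
      ∀ b : integralClosure Fq[X] K, b ∈ P ↔ (b = 0 ∨ (b : K)⁻¹ ∉ V) := by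
  let φ : integralClosure Fq[X] K →+* V :=
    (algebraMap (integralClosure Fq[X] K) K).codRestrict V fun b => pl_int hX b.2
  have hmem : ∀ b : integralClosure Fq[X] K,
      b ∈ (IsLocalRing.maximalIdeal V).comap φ ↔ (b = 0 ∨ (b : K)⁻¹ ∉ V) := by
    intro b
    rw [Ideal.mem_comap, IsLocalRing.mem_maximalIdeal, mem_nonunits_iff]
    have hφ : ((φ b : V) : K) = b := rfl
    constructor
    · intro h
      by_cases hb : b = 0
      · exact Or.inl hb
      · right
        intro h1
        apply h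
        have hb' : (b : K) ≠ 0 := by
          intro h2
          exact hb (Subtype.ext h2)
        exact IsUnit.of_mul_eq_one (⟨_, h1⟩ : V) (Subtype.ext (by
          change ((φ b : V) : K) * (b : K)⁻¹ = 1
          rw [hφ, mul_inv_cancel₀ hb']))
    · rintro h hu
      obtain ⟨u, hu1⟩ := hu.exists_right_inv
      have h2 : (b : K) * (u : K) = 1 := by
        rw [← hφ]
        exact congrArg Subtype.val hu1
      rcases h with rfl | h
      · rw [ZeroMemClass.coe_zero, zero_mul] at h2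
        exact zero_ne_one h2
      · apply h
        rw [inv_eq_of_mul_eq_one_right h2]
        exact u.2
  have hbot : (IsLocalRing.maximalIdeal V).comap φ ≠ ⊥ := by
    obtain ⟨p, -, -, hp⟩ := pl_poly (Fq := Fq) hV hX
    intro h
    have h1 : algebraMap Fq[X] (integralClosure Fq[X] K) p
        ∈ (IsLocalRing.maximalIdeal V).comap φ := (hmem _).2 (Or.inr hp)
    rw [h, Ideal.mem_bot] at h1
    apply (p2_ne hp).1
    exact congrArg Subtype.val h1
  have : Ring.DimensionLEOne (integralClosure Fq[X] K) := Ring.DimensionLEOne.integralClosure Fq[X] K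
  have hprime : ((IsLocalRing.maximalIdeal V).comap φ).IsPrime := Ideal.comap_isPrime φ _
  exact ⟨_, hbot, hprime.isMaximal hbot, hmem⟩

end BoomFF
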