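import Pool.Agent.H.MP_4c7af0_al.FF.P2

/-! Places of a function field as valuation subrings (MP_4c7af0_al, function field case): different places
have different centers; class group. -/

namespace BoomFF

open Polynomial nonZeroDivisors

section Dedekind

variable {O K : Type*} [CommRing O] [IsDedekindDomain O] [Field K] [Algebra O K]
  [IsFractionRing O K]

/-- elements of the fraction field of a Dedekind domain, seen from a maximal ideal -/
theorem p2b_frac {P : Ideal O} (hP0 : P ≠ ⊥) (hP : P.IsMaximal) {z : K} (hz : z ≠ 0) :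
    (∃ b s : O, s ∉ P ∧ z * algebraMap O K s = algebraMap O K b) ∨
      (∃ b s : O, b ∈ P ∧ s ∉ P ∧ z * algebraMap O K b = algebraMap O K s) := by
  have hPp : P.IsPrime := hP.isPrime
  have hdvr : IsDiscreteValuationRing (Localization.AtPrime P) :=
    IsLocalization.AtPrime.isDiscreteValuationRing_of_dedekind_domain O hP0 _
  have hval : ValuationRing (Localization.AtPrime P) := inferInstance
  have hinj : Function.Injective (algebraMap O (Localization.AtPrime P)) :=
    IsLocalization.injective _ P.primeCompl_le_nonZeroDivisors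
  have key : ∀ x y : O, algebraMap O (Localization.AtPrime P) x ∣
      algebraMap O (Localization.AtPrime P) y → ∃ c s : O, s ∉ P ∧ y * s = x * c := by
    rintro x y ⟨c, hc⟩
    obtain ⟨⟨c', s⟩, hcs⟩ := IsLocalization.surj P.primeCompl c
    refine ⟨c', s, s.2, hinj ?_⟩
    rw [map_mul, map_mul, hc, ← hcs]
    ring
  obtain ⟨x, y, hy, rfl⟩ := IsFractionRing.div_surjective (A := O) z
  have hy0 : y ≠ 0 := nonZeroDivisors.ne_zero hy
  have hyK : algebraMap O K y ≠ 0 := by
    rw [Ne, FaithfulSMul.algebraMap_eq_zero_iff]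
    exact hy0
  have hxK : algebraMap O K x ≠ 0 := by
    intro h
    rw [h, zero_div] at hz
    exact hz rfl
  rcases ValuationRing.dvd_total (algebraMap O (Localization.AtPrime P) x)
    (algebraMap O (Localization.AtPrime P) y) with h | h
  · obtain ⟨c, s, hs, e⟩ := key x y h
    have e' : algebraMap O K y * algebraMap O K s = algebraMap O K x * algebraMap O K c := by
      rw [← map_mul, e, map_mul]
    by_cases hc : c ∈ P
    · right
      refine ⟨c, s, hc, hs, ?_⟩
      rw [div_mul_eq_mul_div, ← e', mul_div_cancel_left₀ _ hyK]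
    · left
      refine ⟨s, c, hc, ?_⟩
      rw [div_mul_eq_mul_div, ← e', mul_div_cancel_left₀ _ hyK]
  · obtain ⟨c, s, hs, e⟩ := key y x h
    have e' : algebraMap O K x * algebraMap O K s = algebraMap O K y * algebraMap O K c := by
      rw [← map_mul, e, map_mul]
    left
    refine ⟨c, s, hs, ?_⟩
    rw [div_mul_eq_mul_div, e', mul_div_cancel_left₀ _ hyK]

/-- two valuation subrings with the same center -/
theorem p2b_le {P : Ideal O} (hP0 : P ≠ ⊥) (hP : P.IsMaximal) {V W : ValuationSubring K}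
    (hOW : ∀ b : O, algebraMap O K b ∈ W) (hOV : ∀ b : O, algebraMap O K b ∈ V)
    (hV : ∀ b : O, b ∈ P ↔ (b = 0 ∨ (algebraMap O K b)⁻¹ ∉ V))
    (hW : ∀ b : O, b ∈ P ↔ (b = 0 ∨ (algebraMap O K b)⁻¹ ∉ W)) : V ≤ W := by
  intro z hz
  by_cases hz0 : z = 0
  · rw [hz0]
    exact W.zero_mem
  rcases p2b_frac (K := K) hP0 hP hz0 with ⟨b, s, hs, e⟩ | ⟨b, s, hb, hs, e⟩
  · rw [hW, not_or, not_not] at hs
    have hs0 : algebraMap O K s ≠ 0 := by
      rw [Ne, FaithfulSMul.algebraMap_eq_zero_iff]
      exact hs.1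
    have e2 : z = algebraMap O K b * (algebraMap O K s)⁻¹ := by
      rw [← e, mul_assoc, mul_inv_cancel₀ hs0, mul_one]
    rw [e2]
    exact W.mul_mem _ _ (hOW b) hs.2
  · exfalso
    rw [hV, not_or, not_not] at hs
    have hs0 : algebraMap O K s ≠ 0 := by
      rw [Ne, FaithfulSMul.algebraMap_eq_zero_iff]
      exact hs.1
    have hbK : algebraMap O K b ≠ 0 := by
      intro h
      rw [h, mul_zero] at e
      exact hs0 e.symm
    rcases (hV b).1 hb with h | h
    · rw [h, map_zero] at hbK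
      exact hbK rfl
    · apply h
      have e2 : (algebraMap O K b)⁻¹ = z * (algebraMap O K s)⁻¹ := by
        rw [← e, mul_inv, ← mul_assoc, mul_inv_cancel₀ hz0, one_mul]
      rw [e2]
      exact V.mul_mem _ _ hz hs.2

/-- some power of a maximal ideal is principal if the class group is finite -/
theorem p2b_pow [Finite (ClassGroup O)] {P : Ideal O} (hP0 : P ≠ ⊥) (hP : P.IsMaximal) :
    ∃ y : O, y ≠ 0 ∧ y ∈ P ∧ ∀ Q : Ideal O, Q.IsPrime → y ∈ Q → P = Q := by
  have : Fintype (ClassGroup O) := Fintype.ofFinite _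
  have hvne : P ∈ nonZeroDivisors (Ideal O) := mem_nonZeroDivisors_of_ne_zero hP0
  obtain ⟨h, hh0, hh⟩ : ∃ h : ℕ, 0 < h ∧ (P ^ h).IsPrincipal := by
    refine ⟨Fintype.card (ClassGroup O), Fintype.card_pos, ?_⟩
    have h1 : ClassGroup.mk0 (⟨P, hvne⟩ ^ Fintype.card (ClassGroup O)) = 1 := by
      rw [map_pow, pow_card_eq_one]
    exact (ClassGroup.mk0_eq_one_iff (pow_mem hvne _)).1 h1
  obtain ⟨y, hy⟩ := hh.principal
  rw [← Ideal.span] at hy
  refine ⟨y, ?_, ?_, ?_⟩
  · rintro rfl
    rw [Ideal.span_singleton_zero] at hy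
    exact hP0 (eq_bot_iff.2 (fun z hz => by
      have h2 : z ^ h ∈ P ^ h := Ideal.pow_mem_pow hz h
      rw [hy, Ideal.mem_bot] at h2
      rw [Ideal.mem_bot]
      exact pow_eq_zero_iff hh0.ne' |>.1 h2))
  · apply Ideal.pow_le_self hh0.ne'
    rw [hy]
    exact Ideal.mem_span_singleton_self y
  · intro Q hQ hyQ
    have h4 : P ^ h ≤ Q := by
      rw [hy, Ideal.span_singleton_le_iff_mem]
      exact hyQ
    have h5 : P ≤ Q := hQ.le_of_pow_le h4
    exact hP.eq_of_le hQ.ne_top h5

end Dedekind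

variable {Fq K : Type*} [Field Fq] [Finite Fq] [Field K] [Algebra Fq[X] K]
  [Algebra (RatFunc Fq) K] [IsScalarTower Fq[X] (RatFunc Fq) K]
  [FiniteDimensional (RatFunc Fq) K] [Algebra.IsSeparable (RatFunc Fq) K]

/-- two places with the same center are equal -/
theorem p2b_eq {V W : ValuationSubring K}
    (hXV : algebraMap Fq[X] K X ∈ V) (hXW : algebraMap Fq[X] K X ∈ W)
    {P : Ideal (integralClosure Fq[X] K)} (hP0 : P ≠ ⊥) (hP : P.IsMaximal)
    (hV : ∀ b : integralClosure Fq[X] K, b ∈ P ↔ (b = 0 ∨ (b : K)⁻¹ ∉ V))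
    (hW : ∀ b : integralClosure Fq[X] K, b ∈ P ↔ (b = 0 ∨ (b : K)⁻¹ ∉ W)) : V = W := by
  have : Fintype Fq := Fintype.ofFinite Fq
  have : FunctionField Fq K := inferInstanceAs (FiniteDimensional (RatFunc Fq) K)
  have i1 : IsDedekindDomain (integralClosure Fq[X] K) :=
    inferInstanceAs (IsDedekindDomain (FunctionField.ringOfIntegers Fq K))
  have i2 : IsFractionRing (integralClosure Fq[X] K) K :=
    inferInstanceAs (IsFractionRing (FunctionField.ringOfIntegers Fq K) K)
  have hOV : ∀ b : integralClosure Fq[X] K, algebraMap (integralClosure Fq[X] K) K b ∈ V :=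
    fun b => pl_int hXV b.2
  have hOW : ∀ b : integralClosure Fq[X] K, algebraMap (integralClosure Fq[X] K) K b ∈ W :=
    fun b => pl_int hXW b.2
  exact le_antisymm (p2b_le hP0 hP hOW hOV hV hW) (p2b_le hP0 hP hOV hOW hW hV)

/-- Different places have different centers: if `V ≠ W`, both `≠ ⊤` and containing `t`, there is an integral
`b` in the maximal ideal of `V` which is a unit of `W`. Proof: `B = integralClosure Fq[X] K` is a Dedekind domain
(`integralClosure.isDedekindDomain`) with fraction field `K`. Let `P, Q` be the centers. If there is no such `b`,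
`P ≤ Q`, so `P = Q` by maximality. For `z ∈ K` either `z = b / s` or `z⁻¹ = b / s` with `b ∈ B`, `s ∈ B`, `s ∉ P`, and
in the second case `b ∈ P` may be assumed if the first case fails (the localization of `B` at `P` is a discrete
valuation ring, `IsLocalization.AtPrime.isDiscreteValuationRing_of_dedekind_domain`, or use
`IsDedekindDomain.HeightOneSpectrum.valuation`). Since `B ∖ P` consists of units of `V` and of `W`, both `V` and
`W` are equal to `{b / s}`: if `z ∈ V` is not of the form `b / s`, then `z⁻¹ = b / s` with `b ∈ P` is in the maximal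
ideal of `V`, a contradiction. So `V = W`. -/
theorem pl_dom {V W : ValuationSubring K} (hV : V ≠ ⊤) (hW : W ≠ ⊤)
    (hXV : algebraMap Fq[X] K X ∈ V) (hXW : algebraMap Fq[X] K X ∈ W) (hVW : V ≠ W) :
    ∃ b : K, IsIntegral Fq[X] b ∧ b⁻¹ ∉ V ∧ b⁻¹ ∈ W := by
  by_contra hno
  push Not at hno
  obtain ⟨P, hP0, hP, hPV⟩ := pl_center hV hXV
  obtain ⟨Q, -, hQ, hQW⟩ := pl_center hW hXW
  have hPQ : P = Q := by
    refine hP.eq_of_le hQ.ne_top fun b hb => ?_
    rcases (hPV b).1 hb with h | h
    · exact (hQW b).2 (Or.inl h)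
    · exact (hQW b).2 (Or.inr (hno b b.2 h))
  subst hPQ
  exact hVW (p2b_eq hXV hXW hP0 hP hPV hQW)

/-- Finiteness of the class group: there is an integral element whose only zero among the places containing `t`
is `V`. Proof: let `P` be the center of `V`, `h` the order of the (finite: `ClassGroup` of
`integralClosure Fq[X] K`, see `Mathlib/NumberTheory/ClassNumber/FunctionField.lean`; compare `exists_sunit`
in `NF/Inst.lean` and `cuspsF_int` in `R10.lean`) class group; `P^h = (y)`. `y ∈ P` so `y⁻¹ ∉ V` (`y ≠ 0`). If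
`W ≠ V`, `W ≠ ⊤`, `t ∈ W` and `y⁻¹ ∉ W` then `y` is in the center `Q` of `W`, so `P^h ≤ Q`, `P ≤ Q`, `P = Q`,
contradicting `pl_dom`. -/
theorem pl_cg {V : ValuationSubring K} (hV : V ≠ ⊤) (hX : algebraMap Fq[X] K X ∈ V) :
    ∃ y : K, IsIntegral Fq[X] y ∧ y⁻¹ ∉ V ∧
      ∀ W : ValuationSubring K, W ≠ ⊤ → W ≠ V → algebraMap Fq[X] K X ∈ W → y⁻¹ ∈ W := by
  have : Fintype Fq := Fintype.ofFinite Fq
  have : FunctionField Fq K := inferInstanceAs (FiniteDimensional (RatFunc Fq) K)
  have i1 : IsDedekindDomain (integralClosure Fq[X] K) :=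
    inferInstanceAs (IsDedekindDomain (FunctionField.ringOfIntegers Fq K))
  have i3 : Finite (ClassGroup (integralClosure Fq[X] K)) :=
    inferInstanceAs (Finite (ClassGroup (FunctionField.ringOfIntegers Fq K)))
  obtain ⟨P, hP0, hP, hPV⟩ := pl_center hV hX
  obtain ⟨y, hy0, hyP, hy⟩ := p2b_pow hP0 hP
  refine ⟨y, y.2, ((hPV y).1 hyP).resolve_left hy0, fun W hW hWV hXW => ?_⟩
  by_contra hyW
  obtain ⟨Q, -, hQ, hQW⟩ := pl_center hW hXW
  have hPQ : P = Q := hy Q hQ.isPrime ((hQW y).2 (Or.inr hyW))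
  subst hPQ
  exact hWV (p2b_eq hXW hX hP0 hP hQW hPV)

end BoomFF
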