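import Pool.Agent.H.MP_4c7af0_al.FF.P1

/-! Places of a function field as valuation subrings (MP_4c7af0_al, function field case): an element with
exactly one pole, preparations. -/

namespace BoomFF

open Polynomial

variable {Fq K : Type*} [Field Fq] [Finite Fq] [Field K] [Algebra Fq[X] K]

/-- if `t ∉ W` then `t ≠ 0` and `1/t ∈ W` -/
theorem p3_inv {W : ValuationSubring K} {t : K} (hX : t ∉ W) : t ≠ 0 ∧ t⁻¹ ∈ W := by
  refine ⟨fun h => hX (h ▸ W.zero_mem), ?_⟩
  rcases W.mem_or_inv_mem t with h | h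
  · exact absurd h hX
  · exact h

/-- if `t ∉ W` and `a ∈ 𝔽_q[X]` has degree `≤ j` then `a(t) / t^j ∈ W` (it is a polynomial in `1 / t ∈ W`;
constants are in `W`) -/
theorem pole_pol {W : ValuationSubring K} (hX : algebraMap Fq[X] K X ∉ W) {a : Fq[X]} {j : ℕ}
    (ha : a.natDegree ≤ j) : algebraMap Fq[X] K a / algebraMap Fq[X] K X ^ j ∈ W := by
  obtain ⟨ht0, ht⟩ := p3_inv hX
  rw [a.as_sum_range_C_mul_X_pow' (Nat.lt_succ_of_le ha), map_sum, Finset.sum_div]
  refine sum_mem fun i hi => ?_
  have hij : i ≤ j := Nat.lt_succ_iff.1 (Finset.mem_range.1 hi)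
  have h1 : algebraMap Fq[X] K (C (a.coeff i) * X ^ i) / algebraMap Fq[X] K X ^ j =
      algebraMap Fq[X] K (C (a.coeff i)) * (algebraMap Fq[X] K X)⁻¹ ^ (j - i) := by
    rw [map_mul, map_pow]
    obtain ⟨l, rfl⟩ := Nat.exists_eq_add_of_le hij
    rw [Nat.add_sub_cancel_left, inv_pow, pow_add]
    field_simp
  rw [h1]
  exact W.mul_mem _ _ (p1_const ((algebraMap Fq[X] K).comp C) W (a.coeff i)) (pow_mem ht _)

/-- if `t ∉ W` and `p` is monic of degree `d` then `t^d / p(t) ∈ W` (`p(t) / t^d = 1 + (polynomial in 1/t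
without constant term)` is a unit of `W`) -/
theorem pole_monic {W : ValuationSubring K} (hX : algebraMap Fq[X] K X ∉ W) {p : Fq[X]}
    (hp : p.Monic) : algebraMap Fq[X] K X ^ p.natDegree / algebraMap Fq[X] K p ∈ W := by
  obtain ⟨ht0, ht⟩ := p3_inv hX
  rcases Nat.eq_zero_or_pos p.natDegree with hd | hd
  · have h1 : p = 1 := by
      exact hp.natDegree_eq_zero.1 hd
    rw [h1]
    simp
  · have hq : (p - X ^ p.natDegree).natDegree ≤ p.natDegree - 1 := by
      have h1 : (p - X ^ p.natDegree).degree < p.degree := by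
        refine degree_sub_lt_left ?_ hp.ne_zero ?_
        · rw [degree_X_pow, degree_eq_natDegree hp.ne_zero]
        · rw [hp.leadingCoeff, leadingCoeff_X_pow]
      by_cases h2 : p - X ^ p.natDegree = 0
      · rw [h2, natDegree_zero]
        exact Nat.zero_le _
      · have h3 := natDegree_lt_natDegree h2 h1
        omega
    have hs := pole_pol hX hq
    set t : K := algebraMap Fq[X] K X with htdef
    set s : K := algebraMap Fq[X] K (p - X ^ p.natDegree) / t ^ (p.natDegree - 1) with hsdef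
    have hu : algebraMap Fq[X] K p / t ^ p.natDegree = 1 + t⁻¹ * s := by
      have h1 : t ^ p.natDegree = t * t ^ (p.natDegree - 1) := by
        rw [← pow_succ', Nat.sub_add_cancel hd]
      have h2 : algebraMap Fq[X] K p = algebraMap Fq[X] K (p - X ^ p.natDegree) +
          t ^ p.natDegree := by
        rw [map_sub, map_pow]
        ring
      have h3 : t ^ (p.natDegree - 1) ≠ 0 := pow_ne_zero _ ht0
      rw [hsdef, h2, h1]
      field_simp
      ring
    have hv : W.valuation (t⁻¹ * s) < 1 := by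
      have h1 : 1 < W.valuation t := by
        rw [← not_le, W.valuation_le_one_iff]
        exact hX
      have h2 : W.valuation s ≤ 1 := (W.valuation_le_one_iff s).2 hs
      rw [map_mul, map_inv₀]
      have h3 : (W.valuation t)⁻¹ < 1 := inv_lt_one_of_one_lt₀ h1
      calc (W.valuation t)⁻¹ * W.valuation s ≤ (W.valuation t)⁻¹ * 1 :=
            mul_le_mul' le_rfl h2
        _ < 1 := by rw [mul_one]; exact h3
    have h4 : W.valuation (algebraMap Fq[X] K p / t ^ p.natDegree) = 1 := by
      rw [hu]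
      exact Valuation.map_one_add_of_lt _ hv
    rw [← inv_div, ← W.valuation_le_one_iff, map_inv₀, h4, inv_one]

/-- an integral element has bounded pole order at the places with `t ∉ W`. Proof: let
`z^m + a_{m-1} z^{m-1} + ... + a_0 = 0` with `a_i ∈ 𝔽_q[t]` and `c ≥ deg a_i` for all `i`, `c ≥ 1`. Then
`z / t^c` is a root of a monic polynomial with coefficients `a_{m-i} / t^{c i} ∈ W` (`pole_pol`), `W` is integrally
closed. -/
theorem pole_int {z : K} (hz : IsIntegral Fq[X] z) : ∃ c : ℕ, ∀ W : ValuationSubring K,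
    algebraMap Fq[X] K X ∉ W → z / algebraMap Fq[X] K X ^ c ∈ W := by
  obtain ⟨p, hp, hpz⟩ := hz
  refine ⟨∑ i ∈ Finset.range p.natDegree, (p.coeff i).natDegree, fun W hX => ?_⟩
  set c : ℕ := ∑ i ∈ Finset.range p.natDegree, (p.coeff i).natDegree with hc
  have hci : ∀ i, i < p.natDegree → (p.coeff i).natDegree ≤ c := fun i hi =>
    Finset.single_le_sum (f := fun i => (p.coeff i).natDegree) (fun _ _ => Nat.zero_le _)
      (Finset.mem_range.2 hi)
  obtain ⟨ht0, ht⟩ := p3_inv hX
  set t : K := algebraMap Fq[X] K X with htdef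
  rcases W.mem_or_inv_mem (z / t ^ c) with h | h
  · exact h
  by_cases hy0 : z / t ^ c = 0
  · rw [hy0]
    exact W.zero_mem
  rcases Nat.eq_zero_or_pos p.natDegree with hd | hd
  · exfalso
    have h1 : p = 1 := by
      exact hp.natDegree_eq_zero.1 hd
    rw [h1, eval₂_one] at hpz
    exact one_ne_zero hpz
  have e1 : ∑ i ∈ Finset.range p.natDegree, algebraMap Fq[X] K (p.coeff i) * z ^ i +
      z ^ p.natDegree = 0 := by
    have h1 := hpz
    rw [eval₂_eq_sum_range, Finset.sum_range_succ, hp.coeff_natDegree, map_one, one_mul] at h1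
    exact h1
  set m : ℕ := p.natDegree with hm
  set y : K := z / t ^ c with hy
  have htc : t ^ c ≠ 0 := pow_ne_zero _ ht0
  have hzy : z = y * t ^ c := by
    rw [hy]
    field_simp
  have e2 : y = -∑ i ∈ Finset.range m,
      (algebraMap Fq[X] K (p.coeff i) / t ^ (c * (m - i))) * y⁻¹ ^ (m - 1 - i) := by
    have e3 : z ^ m = -∑ i ∈ Finset.range m, algebraMap Fq[X] K (p.coeff i) * z ^ i := by
      linear_combination e1
    have e4 : y * (y ^ (m - 1) * t ^ (c * m)) = z ^ m := by
      rw [hzy, mul_pow, ← pow_mul, ← mul_assoc, ← pow_succ', Nat.sub_add_cancel hd]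
    have hne : y ^ (m - 1) * t ^ (c * m) ≠ 0 :=
      mul_ne_zero (pow_ne_zero _ hy0) (pow_ne_zero _ ht0)
    have e5 : y = z ^ m / (y ^ (m - 1) * t ^ (c * m)) := by
      rw [eq_div_iff hne, e4]
    conv_lhs => rw [e5, e3, neg_div, Finset.sum_div]
    congr 1
    refine Finset.sum_congr rfl fun i hi => ?_
    have hi' : i < m := Finset.mem_range.1 hi
    obtain ⟨l, hl⟩ := Nat.exists_eq_add_of_le (Nat.le_sub_one_of_lt hi')
    have h6 : m - 1 - i = l := by omega
    have h7 : m = i + (m - i) := by omega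
    have h8 : t ^ (c * m) = t ^ (c * i) * t ^ (c * (m - i)) := by
      rw [← pow_add, ← mul_add, ← h7]
    have h9 : z ^ i = y ^ i * t ^ (c * i) := by
      rw [hzy, mul_pow, ← pow_mul]
    have ha : t ^ (c * i) ≠ 0 := pow_ne_zero _ ht0
    have hb : t ^ (c * (m - i)) ≠ 0 := pow_ne_zero _ ht0
    rw [h6, hl, h8, h9, pow_add, inv_pow]
    have hyi : y ^ i ≠ 0 := pow_ne_zero _ hy0
    have hyl : y ^ l ≠ 0 := pow_ne_zero _ hy0
    field_simp
  rw [e2]
  refine neg_mem (sum_mem fun i hi => ?_)
  have hi' : i < m := Finset.mem_range.1 hi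
  refine W.mul_mem _ _ (pole_pol hX ?_) (pow_mem h _)
  calc (p.coeff i).natDegree ≤ c := hci i hi'
    _ = c * 1 := (mul_one c).symm
    _ ≤ c * (m - i) := Nat.mul_le_mul_left c (by omega)

end BoomFF
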