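import Pool.Agent.H.MP_4c7af0_al.FF.P3
import Pool.Agent.H.MP_4c7af0_al.FF.P2b

/-! Places of a function field as valuation subrings (MP_4c7af0_al, function field case): an element with
exactly one pole, preparations. -/

namespace BoomFF

open Polynomial

variable {Fq K : Type*} [Field Fq] [Finite Fq] [Field K] [Algebra Fq[X] K]

/-- counting: a map from `{a : Fin n → 𝔽_q[X] of degree < d m - c} × {0,1}^m` to
`{Fin n → 𝔽_q[X] of degree < d m}` is not injective if `m` is large and `c ≤ d m`. The number of polynomials of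
degree `< N` is `q^N` (`Polynomial.degreeLT`, `degreeLTEquiv`), and `2^m > q^(n c)` for large `m`. -/
theorem pole_pig {n d : ℕ} (hd : 0 < d) (c : ℕ) : ∃ m : ℕ, c ≤ d * m ∧
    ∀ f : (Fin n → degreeLT Fq (d * m - c)) × (Fin m → Bool) → (Fin n → degreeLT Fq (d * m)),
      ∃ x y, x ≠ y ∧ f x = f y := by
  have hfin : ∀ N : ℕ, Finite (degreeLT Fq N) := fun N =>
    Finite.of_equiv _ (degreeLTEquiv Fq N).toEquiv.symm
  have hcard : ∀ N : ℕ, Nat.card (degreeLT Fq N) = Nat.card Fq ^ N := fun N => by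
    rw [Nat.card_congr (degreeLTEquiv Fq N).toEquiv, Nat.card_fun, Nat.card_fin]
  have hq : 0 < Nat.card Fq := Nat.card_pos
  obtain ⟨m, hm⟩ : ∃ m : ℕ, m = c + Nat.card Fq ^ (c * n) := ⟨_, rfl⟩
  have hcm : c ≤ d * m := by
    calc c ≤ 1 * m := by omega
      _ ≤ d * m := Nat.mul_le_mul_right _ hd
  refine ⟨m, hcm, fun f => ?_⟩
  by_contra hno
  push Not at hno
  have hinj : Function.Injective f := fun x y hxy => by
    by_contra hne
    exact hno x y hne hxy
  have := hfin (d * m)
  have := hfin (d * m - c)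
  have h1 := Nat.card_le_card_of_injective f hinj
  rw [Nat.card_prod, Nat.card_fun, Nat.card_fun, Nat.card_fun, Nat.card_fin, Nat.card_fin,
    hcard, hcard, Nat.card_eq_fintype_card (α := Bool), Fintype.card_bool, ← pow_mul,
    ← pow_mul] at h1
  have h2 : Nat.card Fq ^ (c * n) < 2 ^ m :=
    calc Nat.card Fq ^ (c * n) ≤ m := by omega
      _ < 2 ^ m := Nat.lt_two_pow_self
  have h3 : Nat.card Fq ^ (d * m * n) =
      Nat.card Fq ^ ((d * m - c) * n) * Nat.card Fq ^ (c * n) := by
    rw [← pow_add, ← add_mul, Nat.sub_add_cancel hcm]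
  rw [h3] at h1
  have h4 : 0 < Nat.card Fq ^ ((d * m - c) * n) := pow_pos hq _
  exact absurd (Nat.le_of_mul_le_mul_left h1 h4) (by omega)

variable [Algebra (RatFunc Fq) K] [IsScalarTower Fq[X] (RatFunc Fq) K]
  [FiniteDimensional (RatFunc Fq) K] [Algebra.IsSeparable (RatFunc Fq) K]

/-- an integral basis: the integral closure is a finite torsion-free module over the PID `𝔽_q[X]`, so free. -/
theorem pole_basis : ∃ (n : ℕ) (ω : Fin n → K), (∀ i, IsIntegral Fq[X] (ω i)) ∧
    (∀ z : K, IsIntegral Fq[X] z → ∃ a : Fin n → Fq[X], z = ∑ i, algebraMap Fq[X] K (a i) * ω i) ∧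
    (∀ a : Fin n → Fq[X], ∑ i, algebraMap Fq[X] K (a i) * ω i = 0 → a = 0) := by
  have : Fintype Fq := Fintype.ofFinite Fq
  have i0 : Module.IsTorsionFree Fq[X] K := by
    rw [Module.isTorsionFree_iff_algebraMap_injective, IsScalarTower.algebraMap_eq Fq[X] (RatFunc Fq) K]
    exact (algebraMap (RatFunc Fq) K).injective.comp (RatFunc.algebraMap_injective Fq)
  have i1 : Module.Finite Fq[X] (integralClosure Fq[X] K) :=
    IsIntegralClosure.finite Fq[X] (RatFunc Fq) K _
  have i2 : Module.Free Fq[X] (integralClosure Fq[X] K) :=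
    IsIntegralClosure.module_free Fq[X] (RatFunc Fq) K _
  let b := Module.finBasis Fq[X] (integralClosure Fq[X] K)
  refine ⟨_, fun i => (b i : K), fun i => (b i).2, fun z hz => ?_, fun a ha => ?_⟩
  · obtain ⟨z', hz'⟩ : ∃ z' : integralClosure Fq[X] K, (z' : K) = z := ⟨⟨z, hz⟩, rfl⟩
    refine ⟨b.repr z', ?_⟩
    have h1 := congrArg (Subtype.val : integralClosure Fq[X] K → K) (b.sum_repr z')
    rw [← hz', ← h1]
    simp [Algebra.smul_def]
  · have h1 : ∑ i, a i • b i = 0 := by
      apply Subtype.val_injective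
      rw [← ha.trans (by simp : (0 : K) = ((0 : integralClosure Fq[X] K) : K))]
      simp [Algebra.smul_def]
    funext i
    exact Fintype.linearIndependent_iff.1 b.linearIndependent a h1 i

/-- Let `p(t)` be in the maximal ideal of `V`. There is an integral `e`, a unit of `V`, with `e / p ∈ W` for all
places `W ≠ V` containing `t`. Proof: `B = integralClosure Fq[X] K` is Dedekind; let `P` be the center of `V`
(`pl_center`). Write the ideal `(p) = P^a J` with `P ∤ J` (finite multiplicity in the unique factorization monoid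
of ideals), so `J ≤ P` fails and there is `e ∈ J`, `e ∉ P`. Let `W ≠ V`, `t ∈ W`, with center `Q`. By `pl_dom` (for
`V, W`) there is `b ∈ P`, `b ∉ Q`. Then `b^a e ∈ P^a J = (p)`, `b^a e = p b'` and `e / p = b' / b^a ∈ W` because `b` is
a unit of `W`. -/
theorem pole_e {V : ValuationSubring K} (hV : V ≠ ⊤) (hX : algebraMap Fq[X] K X ∈ V)
    {p : Fq[X]} (hp : p ≠ 0) : ∃ e : K, IsIntegral Fq[X] e ∧ e ≠ 0 ∧ e⁻¹ ∈ V ∧
      ∀ W : ValuationSubring K, W ≠ ⊤ → W ≠ V → algebraMap Fq[X] K X ∈ W →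
        e / algebraMap Fq[X] K p ∈ W := by
  have : Fintype Fq := Fintype.ofFinite Fq
  have : FunctionField Fq K := inferInstanceAs (FiniteDimensional (RatFunc Fq) K)
  have i1 : IsDedekindDomain (integralClosure Fq[X] K) :=
    inferInstanceAs (IsDedekindDomain (FunctionField.ringOfIntegers Fq K))
  have hpK : algebraMap Fq[X] K p ≠ 0 := by
    rw [IsScalarTower.algebraMap_apply Fq[X] (RatFunc Fq) K]
    exact (_root_.map_ne_zero _).2 (RatFunc.algebraMap_ne_zero hp)
  obtain ⟨P, hP0, hP, hPV⟩ := pl_center hV hX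
  set p' : integralClosure Fq[X] K := algebraMap Fq[X] (integralClosure Fq[X] K) p with hp'
  have hp'K : (p' : K) = algebraMap Fq[X] K p := rfl
  have hp'0 : p' ≠ 0 := by
    intro h
    rw [h] at hp'K
    exact hpK (hp'K.symm.trans (by simp))
  have hfin : FiniteMultiplicity P (Ideal.span {p'}) := by
    refine FiniteMultiplicity.of_not_isUnit ?_ ?_
    · rw [Ideal.isUnit_iff]
      exact hP.ne_top
    · rw [Ne, Ideal.zero_eq_bot, Ideal.span_singleton_eq_bot]
      exact hp'0
  obtain ⟨J, hJ, hJP⟩ := hfin.exists_eq_pow_mul_and_not_dvd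
  rw [Ideal.dvd_iff_le] at hJP
  obtain ⟨e, heJ, heP⟩ := SetLike.not_le_iff_exists.1 hJP
  rw [hPV, not_or, not_not] at heP
  refine ⟨e, e.2, ?_, heP.2, fun W hW hWV hXW => ?_⟩
  · intro h
    exact heP.1 (Subtype.val_injective (h.trans (by simp)))
  obtain ⟨b, hb, hbV, hbW⟩ := pl_dom hV hW hX hXW (Ne.symm hWV)
  have hbP : (⟨b, hb⟩ : integralClosure Fq[X] K) ∈ P := (hPV _).2 (Or.inr hbV)
  have hb0 : b ≠ 0 := by
    rintro rfl
    rw [inv_zero] at hbV
    exact hbV V.zero_mem
  generalize multiplicity P (Ideal.span {p'}) = a at hJ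
  have h1 : (⟨b, hb⟩ : integralClosure Fq[X] K) ^ a * e ∈ Ideal.span {p'} := by
    rw [hJ]
    exact Ideal.mul_mem_mul (Ideal.pow_mem_pow hbP _) heJ
  obtain ⟨r, hr⟩ := Ideal.mem_span_singleton'.1 h1
  have h2 : (r : K) * algebraMap Fq[X] K p = b ^ a * (e : K) := by
    have h3 := congrArg (Subtype.val : integralClosure Fq[X] K → K) hr
    rw [← hp'K]
    simpa using h3
  have h4 : (e : K) / algebraMap Fq[X] K p = r * b⁻¹ ^ a := by
    rw [div_eq_iff hpK, inv_pow, mul_right_comm, h2]
    field_simp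
  rw [h4]
  exact W.mul_mem _ _ (pl_int hXW r.2) (pow_mem hbW _)

end BoomFF
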