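import Pool.Agent.H.MP_4c7af0_al.FF.P3b

/-! Places of a function field as valuation subrings (MP_4c7af0_al, function field case): an element with
exactly one pole. -/

namespace BoomFF

open Polynomial

variable {Fq K : Type*} [Field Fq] [Finite Fq] [Field K] [Algebra Fq[X] K]

theorem p4_aux {V : ValuationSubring K} {p e : K} (hp0 : p ≠ 0) (hp : p⁻¹ ∉ V) (he : e ∈ V)
    (he0 : e ≠ 0) (hei : e⁻¹ ∈ V) (m : ℕ) : ∀ (c : Fin m → K),
    (∀ i, c i = 0 ∨ c i = 1 ∨ c i = -1) → (∃ i, c i ≠ 0) → ∀ b ∈ V,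
      e * ∑ i, c i * p ^ (i : ℕ) ≠ p ^ m * b := by
  have hpV : p ∈ V := (V.mem_or_inv_mem p).resolve_right hp
  induction m with
  | zero =>
    rintro c - ⟨i, -⟩
    exact i.elim0
  | succ m ih =>
    intro c hc hne b hb h
    have hsum : ∑ i, c i * p ^ (i : ℕ) = c 0 + p * ∑ i : Fin m, c i.succ * p ^ (i : ℕ) := by
      rw [Fin.sum_univ_succ, Finset.mul_sum]
      congr 1
      · rw [Fin.val_zero, pow_zero, mul_one]
      · refine Finset.sum_congr rfl fun i _ => ?_
        rw [Fin.val_succ, pow_succ]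
        ring
    have hmem : ∀ i, c i ∈ V := by
      intro i
      rcases hc i with h1 | h1 | h1
      · rw [h1]; exact V.zero_mem
      · rw [h1]; exact V.one_mem
      · rw [h1]; exact V.neg_mem _ V.one_mem
    rw [hsum] at h
    by_cases h0 : c 0 = 0
    · refine ih (fun i => c i.succ) (fun i => hc i.succ) ?_ b hb ?_
      · obtain ⟨i, hi⟩ := hne
        rcases Fin.eq_zero_or_eq_succ i with h1 | ⟨j, rfl⟩
        · rw [h1] at hi
          exact absurd h0 hi
        · exact ⟨j, hi⟩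
      · have h2 : p * (e * ∑ i : Fin m, c i.succ * p ^ (i : ℕ)) = p * (p ^ m * b) := by
          rw [h0, zero_add] at h
          rw [← mul_assoc p (p ^ m) b, ← pow_succ', ← h]
          ring
        exact mul_left_cancel₀ hp0 h2
    · have hS : ∑ i : Fin m, c i.succ * p ^ (i : ℕ) ∈ V :=
        sum_mem fun i _ => V.mul_mem _ _ (hmem _) (pow_mem hpV _)
      have hc2 : c 0 * c 0 = 1 := by
        rcases hc 0 with h1 | h1 | h1
        · exact absurd h1 h0
        · rw [h1, mul_one]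
        · rw [h1, neg_mul_neg, mul_one]
      apply hp
      have h3 : p⁻¹ = c 0 * e⁻¹ * (p ^ m * b - e * ∑ i : Fin m, c i.succ * p ^ (i : ℕ)) := by
        refine (eq_inv_of_mul_eq_one_left ?_).symm
        generalize ∑ i : Fin m, c i.succ * p ^ (i : ℕ) = S at h
        have h4 : p * (p ^ m * b - e * S) = e * c 0 := by
          rw [pow_succ'] at h
          linear_combination -h
        calc c 0 * e⁻¹ * (p ^ m * b - e * S) * p
            = c 0 * e⁻¹ * (p * (p ^ m * b - e * S)) := by ring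
          _ = c 0 * e⁻¹ * (e * c 0) := by rw [h4]
          _ = (c 0 * c 0) * (e⁻¹ * e) := by ring
          _ = 1 := by rw [hc2, inv_mul_cancel₀ he0, one_mul]
      rw [h3]
      refine V.mul_mem _ _ (V.mul_mem _ _ (hmem 0) hei) ?_
      exact sub_mem (V.mul_mem _ _ (pow_mem hpV _) hb) (V.mul_mem _ _ he hS)

/-- Let `p` be in the maximal ideal of `V` and `ε, ε' ∈ {0,1}^m` different. If `e` is a unit of `V` and
`b ∈ V` then `e ∑ (ε_i - ε'_i) p^i ≠ p^m b`. Proof: let `i₀` be the smallest index with `ε_i ≠ ε'_i`, so the sum is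
`p^{i₀} (±1 + p (...))`, where the second factor is a unit of `V`; the equation would give
`unit = p^{m - i₀} b / e`, in the maximal ideal. -/
theorem pole_eps {V : ValuationSubring K} {p e b : K} (hp0 : p ≠ 0) (hp : p⁻¹ ∉ V) (he : e ∈ V)
    (he0 : e ≠ 0) (hei : e⁻¹ ∈ V) (hb : b ∈ V) {m : ℕ} {ε ε' : Fin m → Bool} (hne : ε ≠ ε') :
    e * ∑ i, ((if ε i then 1 else 0) - (if ε' i then 1 else 0)) * p ^ (i : ℕ) ≠ p ^ m * b := by
  refine p4_aux hp0 hp he he0 hei m (fun i => (if ε i then 1 else 0) - (if ε' i then 1 else 0))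
    (fun i => ?_) ?_ b hb
  · rcases ε i with _ | _ <;> rcases ε' i with _ | _ <;> simp
  · obtain ⟨i, hi⟩ := Function.ne_iff.1 hne
    refine ⟨i, ?_⟩
    revert hi
    rcases ε i with _ | _ <;> rcases ε' i with _ | _ <;> simp

variable [Algebra (RatFunc Fq) K] [IsScalarTower Fq[X] (RatFunc Fq) K]
  [FiniteDimensional (RatFunc Fq) K] [Algebra.IsSeparable (RatFunc Fq) K]

/-- For every place `V` containing `t` there is an element whose only pole is `V`. Proof: `p` from `pl_poly`, monic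
of degree `d > 0`; `ω` from `pole_basis`; `c ≥ 1` with `ω_i / t^c ∈ W` for all `i` and all `W ∌ t` (`pole_int`, maximum;
enlarging `c` is harmless as `1 / t ∈ W`); `e` from `pole_e`; `m` from `pole_pig`. Let `f(a, ε)` be the coordinates
modulo `p^m` (`%ₘ`, degree `< d m`) of `∑ a_i ω_i + e^m ∑ ε_i p^i`. `pole_pig`: there are `(a, ε) ≠ (a', ε')`
and an integral `b` with `z + e^m δ = p^m b`, where `z = ∑ (a_i - a_i') ω_i`, `δ = ∑ (ε_i - ε_i') p^i`. If `a = a'` then
`z = 0` and `pole_eps` gives a contradiction. So `a ≠ a'`. Let `x = z / p^m = b - (e / p)^m δ`. For `W ≠ V` with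
`t ∈ W`: `x ∈ W`. For `t ∉ W`: `x = ∑ ((a_i - a_i') / t^{dm - c}) (ω_i / t^c) (t^d / p)^m ∈ W` by `pole_pol`,
`pole_monic`. If `x ∈ V` then `x` is integral (`pl_all`), `x = ∑ b_i ω_i`, so `a_i - a_i' = p^m b_i` by the independence
of the `ω_i`; the degree of the left side is `< d m`, so `b_i = 0` and `a = a'`, a contradiction. -/
theorem pl_pole {V : ValuationSubring K} (hV : V ≠ ⊤) (hX : algebraMap Fq[X] K X ∈ V) :
    ∃ x : K, x ∉ V ∧ ∀ W : ValuationSubring K, W ≠ ⊤ → W ≠ V → x ∈ W := by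
  classical
  obtain ⟨p, hpm, hpd, hpV⟩ := pl_poly hV hX
  obtain ⟨n, ω, hωi, hωs, hω0⟩ := pole_basis (Fq := Fq) (K := K)
  obtain ⟨c, hc⟩ : ∃ c : ℕ, ∀ i, ∀ W : ValuationSubring K, algebraMap Fq[X] K X ∉ W →
      ω i / algebraMap Fq[X] K X ^ c ∈ W := by
    choose c hc using fun i => pole_int (hωi i)
    refine ⟨∑ i, c i, fun i W hW => ?_⟩
    have hle : c i ≤ ∑ i, c i := Finset.single_le_sum (fun _ _ => Nat.zero_le _) (Finset.mem_univ i)
    obtain ⟨r, hr⟩ := Nat.exists_eq_add_of_le hle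
    have hinv : (algebraMap Fq[X] K X)⁻¹ ∈ W := (W.mem_or_inv_mem _).resolve_left hW
    rw [hr, pow_add, ← div_div, div_eq_mul_inv _ (algebraMap Fq[X] K X ^ r), ← inv_pow]
    exact W.mul_mem _ _ (hc i W hW) (pow_mem hinv r)
  obtain ⟨e, hei, he0, heV, heW⟩ := pole_e hV hX hpm.ne_zero
  obtain ⟨m, hcm, hm⟩ := pole_pig (Fq := Fq) (n := n) hpd c
  obtain ⟨T, hT⟩ : ∃ T, T = algebraMap Fq[X] K X := ⟨_, rfl⟩
  obtain ⟨P, hP⟩ : ∃ P, P = algebraMap Fq[X] K p := ⟨_, rfl⟩
  have hPi : IsIntegral Fq[X] P := by rw [hP]; exact isIntegral_algebraMap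
  have hP0 : P ≠ 0 := by
    intro h0
    rw [← hP, h0, inv_zero] at hpV
    exact hpV V.zero_mem
  have hT0 : ∀ W : ValuationSubring K, T ∉ W → T ≠ 0 := by
    rintro W hW rfl
    exact hW W.zero_mem
  -- the elements `e^m ∑ ε_i p^i`
  have hint : ∀ ε : Fin m → Bool,
      IsIntegral Fq[X] (e ^ m * ∑ i, (if ε i then (1 : K) else 0) * P ^ (i : ℕ)) := by
    intro ε
    refine (hei.pow m).mul (IsIntegral.sum _ fun i _ => ?_)
    refine IsIntegral.mul ?_ (hPi.pow _)
    split_ifs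
    · exact isIntegral_one
    · exact isIntegral_zero
  choose g hg using fun ε : Fin m → Bool => hωs _ (hint ε)
  have hpm' : (p ^ m).Monic := hpm.pow m
  have hdeg : (p ^ m).degree = ((p.natDegree * m : ℕ) : WithBot ℕ) := by
    rw [degree_eq_natDegree hpm'.ne_zero, hpm.natDegree_pow, mul_comm]
  obtain ⟨⟨a, ε⟩, ⟨a', ε'⟩, hne, hf⟩ := hm (fun x i => ⟨((x.1 i : Fq[X]) + g x.2 i) %ₘ (p ^ m), by
    rw [mem_degreeLT, ← hdeg]
    exact degree_modByMonic_lt _ hpm'⟩)
  have hdvd : ∀ i, ∃ r : Fq[X], ((a i : Fq[X]) + g ε i) - ((a' i : Fq[X]) + g ε' i) =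
      p ^ m * r := by
    intro i
    have h1 := congrArg Subtype.val (congrFun hf i)
    simp only at h1
    have h2 : (((a i : Fq[X]) + g ε i) - ((a' i : Fq[X]) + g ε' i)) %ₘ (p ^ m) = 0 := by
      rw [sub_modByMonic, h1, sub_self]
    exact (modByMonic_eq_zero_iff_dvd hpm').1 h2
  choose r hr using hdvd
  obtain ⟨b, hb⟩ : ∃ b, b = ∑ i, algebraMap Fq[X] K (r i) * ω i := ⟨_, rfl⟩
  have hbi : IsIntegral Fq[X] b := by
    rw [hb]
    exact IsIntegral.sum _ fun i _ => isIntegral_algebraMap.mul (hωi i)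
  obtain ⟨z, hz⟩ : ∃ z, z = ∑ i, algebraMap Fq[X] K ((a i : Fq[X]) - (a' i : Fq[X])) * ω i :=
    ⟨_, rfl⟩
  obtain ⟨δ, hδ⟩ : ∃ δ, δ = ∑ i : Fin m,
      ((if ε i then (1 : K) else 0) - (if ε' i then 1 else 0)) * P ^ (i : ℕ) := ⟨_, rfl⟩
  have hmain : z + e ^ m * δ = P ^ m * b := by
    have h1 : e ^ m * δ = ∑ i, algebraMap Fq[X] K (g ε i) * ω i -
        ∑ i, algebraMap Fq[X] K (g ε' i) * ω i := by
      rw [← hg ε, ← hg ε', hδ, ← mul_sub, ← Finset.sum_sub_distrib]
      congr 1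
      refine Finset.sum_congr rfl fun i _ => ?_
      ring
    rw [h1, hz, hb, Finset.mul_sum, ← Finset.sum_sub_distrib, ← Finset.sum_add_distrib]
    refine Finset.sum_congr rfl fun i _ => ?_
    have h2 := congrArg (algebraMap Fq[X] K) (hr i)
    simp only [map_sub, map_add, map_mul, map_pow] at h2 ⊢
    rw [← hP] at h2
    linear_combination (ω i) * h2
  have heV' : e ∈ V := pl_int hX hei
  have haa : a ≠ a' := by
    rintro rfl
    have hεε : ε ≠ ε' := fun h => hne (by rw [h])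
    have hz0 : z = 0 := by
      rw [hz]
      refine Finset.sum_eq_zero fun i _ => ?_
      rw [sub_self, map_zero, zero_mul]
    rw [hz0, zero_add, hδ] at hmain
    refine pole_eps hP0 (by rw [hP]; exact hpV) (pow_mem heV' m) (pow_ne_zero m he0) ?_
      (pl_int hX hbi) hεε hmain
    rw [← inv_pow]
    exact pow_mem heV m
  have hx : z / P ^ m = b - (e / P) ^ m * δ := by
    rw [div_eq_iff (pow_ne_zero m hP0), div_pow]
    field_simp
    linear_combination hmain
  have hgood : ∀ W : ValuationSubring K, W ≠ ⊤ → W ≠ V → z / P ^ m ∈ W := by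
    intro W hW hWV
    by_cases htW : T ∈ W
    · rw [hT] at htW
      have hPW : P ∈ W := pl_int htW hPi
      rw [hx]
      refine sub_mem (pl_int htW hbi) (W.mul_mem _ _ (pow_mem ?_ m) ?_)
      · rw [hP]; exact heW W hW hWV htW
      · rw [hδ]
        refine sum_mem fun i _ => W.mul_mem _ _ (sub_mem ?_ ?_) (pow_mem hPW _)
        · split_ifs
          · exact W.one_mem
          · exact W.zero_mem
        · split_ifs
          · exact W.one_mem
          · exact W.zero_mem
    · have hT0' : T ≠ 0 := hT0 W htW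
      rw [hT] at htW
      have hsum : z / P ^ m = ∑ i, (algebraMap Fq[X] K ((a i : Fq[X]) - (a' i : Fq[X])) /
          T ^ (p.natDegree * m - c)) * (ω i / T ^ c) * (T ^ p.natDegree / P) ^ m := by
        rw [hz, Finset.sum_div]
        refine Finset.sum_congr rfl fun i _ => ?_
        have h1 : T ^ (p.natDegree * m - c) * T ^ c = (T ^ p.natDegree) ^ m := by
          rw [← pow_add, Nat.sub_add_cancel hcm, pow_mul]
        rw [div_mul_div_comm, h1, div_pow, div_mul_div_cancel₀ (pow_ne_zero _ (pow_ne_zero _ hT0'))]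
      rw [hsum]
      refine sum_mem fun i _ => W.mul_mem _ _ (W.mul_mem _ _ ?_ ?_) (pow_mem ?_ m)
      · rw [hT]
        refine pole_pol htW ?_
        have h1 : (a i : Fq[X]) - (a' i : Fq[X]) ∈ degreeLT Fq (p.natDegree * m - c) :=
          Submodule.sub_mem _ (a i).2 (a' i).2
        rw [mem_degreeLT] at h1
        exact natDegree_le_of_degree_le h1.le
      · rw [hT]; exact hc i W htW
      · rw [hT, hP]; exact pole_monic htW hpm
  refine ⟨z / P ^ m, fun hxV => haa ?_, hgood⟩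
  have hxi : IsIntegral Fq[X] (z / P ^ m) := by
    refine pl_all fun W hW _ => ?_
    by_cases hWV : W = V
    · rw [hWV]; exact hxV
    · exact hgood W hW hWV
  obtain ⟨q, hq⟩ := hωs _ hxi
  have hzero : ∑ i, algebraMap Fq[X] K (((a i : Fq[X]) - (a' i : Fq[X])) - p ^ m * q i) * ω i =
      0 := by
    have h1 : z = P ^ m * ∑ i, algebraMap Fq[X] K (q i) * ω i := by
      rw [← hq]
      field_simp
    have h2 : z - P ^ m * ∑ i, algebraMap Fq[X] K (q i) * ω i = 0 := by rw [← h1, sub_self]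
    rw [← h2, hz, Finset.mul_sum, ← Finset.sum_sub_distrib]
    refine Finset.sum_congr rfl fun i _ => ?_
    simp only [map_sub, map_mul, map_pow, hP]
    ring
  have hall := hω0 _ hzero
  funext i
  have h3 : (a i : Fq[X]) - (a' i : Fq[X]) = p ^ m * q i := sub_eq_zero.1 (congrFun hall i)
  have h4 : (a i : Fq[X]) - (a' i : Fq[X]) ∈ degreeLT Fq (p.natDegree * m - c) :=
    Submodule.sub_mem _ (a i).2 (a' i).2
  rw [mem_degreeLT] at h4
  have h5 : q i = 0 := by
    by_contra hq0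
    have h6 : (p ^ m).degree ≤ ((a i : Fq[X]) - (a' i : Fq[X])).degree := by
      rw [h3]
      exact degree_le_mul_left _ hq0
    have h7 := lt_of_le_of_lt h6 h4
    rw [hdeg] at h7
    have h8 : p.natDegree * m < p.natDegree * m - c := by exact_mod_cast h7
    omega
  rw [h5, mul_zero] at h3
  exact Subtype.ext (sub_eq_zero.1 h3)

end BoomFF
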