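import Mathlib

/-! Separating elements of a function field (MP_4c7af0_al, function field case). -/

namespace BoomFF

open Polynomial IntermediateField

variable {k K : Type*} [Field k] [Field K] [Algebra k K] [Algebra.EssFiniteType k K]

/-- `K` is finite over `k(x)` for every transcendental `x` if the transcendence degree is one: `{x}` is a
transcendence basis, so `K` is algebraic over `k(x)`, and it is finitely generated. -/
theorem fin_of_tr (htr : Algebra.trdeg k K = 1) {x : K} (hx : Transcendental k x) :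
    FiniteDimensional k⟮x⟯ K := by
  have h1 : AlgebraicIndependent k (fun _ : Unit => x) := algebraicIndependent_unique_type_iff.2 hx
  have h2 : IsTranscendenceBasis k (fun _ : Unit => x) :=
    h1.isTranscendenceBasis_of_lift_trdeg_le_of_finite (by simp [htr])
  have h3 := h2.isAlgebraic_field
  rw [Set.range_const] at h3
  have h4 : Algebra.EssFiniteType k⟮x⟯ K := Algebra.EssFiniteType.of_comp k k⟮x⟯ K
  exact Algebra.finite_of_essFiniteType_of_isAlgebraic

/-- a separating element exists: `exists_isTranscendenceBasis_and_isSeparable_of_perfectField`; the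
transcendence basis has one element. -/
theorem exists_sep [Finite k] (htr : Algebra.trdeg k K = 1) :
    ∃ x : K, Transcendental k x ∧ Algebra.IsSeparable k⟮x⟯ K := by
  obtain ⟨s, hs, hsep⟩ := exists_isTranscendenceBasis_and_isSeparable_of_perfectField k K
  have h1 := hs.cardinalMk_eq_trdeg
  rw [htr, Cardinal.mk_coe_finset] at h1
  have h2 : s.card = 1 := by exact_mod_cast h1
  obtain ⟨x, rfl⟩ := Finset.card_eq_one.1 h2
  rw [Finset.coe_singleton] at hsep
  refine ⟨x, ?_, hsep⟩
  exact hs.1.transcendental ⟨x, Finset.mem_singleton_self x⟩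

omit [Algebra.EssFiniteType k K] in
/-- the set of the sums is the range of a ring homomorphism -/
theorem p5_range (p : ℕ) [hp : Fact p.Prime] [CharP K p] (x₀ : K) (z : K) :
    z ∈ (Polynomial.eval₂RingHom (frobenius K p) x₀).range ↔
      ∃ c : Fin p → K, z = ∑ i, c i ^ p * x₀ ^ (i : ℕ) := by
  constructor
  · rintro ⟨f, rfl⟩
    have hp0 : p ≠ 0 := hp.out.ne_zero
    have hm : (X ^ p - C x₀ : K[X]).Monic := Polynomial.monic_X_pow_sub_C x₀ hp0
    have hr : Polynomial.eval₂ (frobenius K p) x₀ (f %ₘ (X ^ p - C x₀)) =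
        Polynomial.eval₂ (frobenius K p) x₀ f := by
      have h1 := congrArg (Polynomial.eval₂ (frobenius K p) x₀)
        (Polynomial.modByMonic_add_div f (X ^ p - C x₀))
      rw [Polynomial.eval₂_add, Polynomial.eval₂_mul, Polynomial.eval₂_sub, Polynomial.eval₂_X_pow,
        Polynomial.eval₂_C, frobenius_def, sub_self, zero_mul, add_zero] at h1
      exact h1
    have hd : (f %ₘ (X ^ p - C x₀)).natDegree < p := by
      have h1 := Polynomial.natDegree_modByMonic_lt f hm (by
        intro h
        have h2 := Polynomial.natDegree_X_pow_sub_C (n := p) (r := x₀)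
        rw [h, Polynomial.natDegree_one] at h2
        exact hp0 h2.symm)
      rwa [Polynomial.natDegree_X_pow_sub_C] at h1
    refine ⟨fun i => (f %ₘ (X ^ p - C x₀)).coeff i, ?_⟩
    rw [Polynomial.coe_eval₂RingHom, ← hr, Polynomial.eval₂_eq_sum_range' _ hd,
      ← Fin.sum_univ_eq_sum_range
        (fun i => frobenius K p ((f %ₘ (X ^ p - C x₀)).coeff i) * x₀ ^ i) p]
    rfl
  · rintro ⟨c, rfl⟩
    refine ⟨∑ i, C (c i) * X ^ (i : ℕ), ?_⟩
    rw [map_sum]
    refine Finset.sum_congr rfl fun i _ => ?_
    rw [map_mul, map_pow, Polynomial.coe_eval₂RingHom, Polynomial.eval₂_C, Polynomial.eval₂_X,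
      frobenius_def]

/-- `K = K^p(x₀)` for a separating element `x₀`, so `[K : K^p] ≤ p`, in the form: every `z ∈ K` is
`∑_{i < p} c_i^p x₀^i`. Proof: `K = k(x₀)(K^p)` as `K / k(x₀)` is separable. The set of all sums
`∑_{i < p} c_i^p x₀^i` is a subring (the range of the twisted evaluation at `x₀`) and a field
(`z⁻¹ = (z⁻¹)^p z^{p-1}`), contains `k` (perfect), `x₀` and `K^p`. -/
theorem exists_coeff [Finite k] (p : ℕ) [Fact p.Prime] [CharP K p] (htr : Algebra.trdeg k K = 1)
    {x₀ : K} (hx₀ : Transcendental k x₀) (hsep : Algebra.IsSeparable k⟮x₀⟯ K) (z : K) :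
    ∃ c : Fin p → K, z = ∑ i, c i ^ p * x₀ ^ (i : ℕ) := by
  have hp : Fact p.Prime := inferInstance
  have hck : CharP k p := (algebraMap k K).charP (algebraMap k K).injective p
  set R : Subring K := (Polynomial.eval₂RingHom (frobenius K p) x₀).range with hR
  have hpow : ∀ y : K, y ^ p ∈ R := fun y => ⟨C y, by
    rw [Polynomial.coe_eval₂RingHom, Polynomial.eval₂_C, frobenius_def]⟩
  have hx : x₀ ∈ R := ⟨X, by rw [Polynomial.coe_eval₂RingHom, Polynomial.eval₂_X]⟩
  have hinv : ∀ y ∈ R, y⁻¹ ∈ R := by
    intro y hy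
    by_cases h0 : y = 0
    · rw [h0, inv_zero]
      exact R.zero_mem
    · have h1 : y⁻¹ = (y⁻¹) ^ p * y ^ (p - 1) := by
        have h2 : p = (p - 1) + 1 := (Nat.sub_add_cancel hp.out.one_le).symm
        conv_rhs => rw [h2, Nat.add_sub_cancel, pow_succ]
        rw [mul_right_comm, ← mul_pow, inv_mul_cancel₀ h0, one_pow, one_mul]
      rw [h1]
      exact R.mul_mem (hpow _) (R.pow_mem hy _)
  have hk : ∀ a : k, algebraMap k K a ∈ R := by
    intro a
    have h1 : Function.Injective (frobenius k p) := frobenius_inj k p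
    obtain ⟨b, rfl⟩ := (Finite.injective_iff_surjective.1 h1) a
    rw [frobenius_def, map_pow]
    exact hpow _
  let S : IntermediateField k K :=
    { carrier := R
      mul_mem' := R.mul_mem
      one_mem' := R.one_mem
      add_mem' := R.add_mem
      zero_mem' := R.zero_mem
      algebraMap_mem' := hk
      inv_mem' := hinv }
  have hS : k⟮x₀⟯ ≤ S := IntermediateField.adjoin_simple_le_iff.2 hx
  have hT : (⊤ : IntermediateField k⟮x₀⟯ K) ≤ IntermediateField.extendScalars hS := by
    have hcf : CharP k⟮x₀⟯ p := (algebraMap k⟮x₀⟯ K).charP (algebraMap k⟮x₀⟯ K).injective p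
    have h1 := IntermediateField.adjoin_eq_adjoin_pow_expChar_of_isSeparable' k⟮x₀⟯ K
      (Set.univ : Set K) p
    rw [IntermediateField.adjoin_univ] at h1
    rw [h1, IntermediateField.adjoin_le_iff]
    rintro _ ⟨y, -, rfl⟩
    exact hpow y
  exact (p5_range p x₀ z).1 (hT (IntermediateField.mem_top (x := z)))

end BoomFF
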