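import Pool.Agent.H.MP_4c7af0_al.FF.P5

/-! Separating elements of a function field (MP_4c7af0_al, function field case), part 2. -/

namespace BoomFF

open Polynomial IntermediateField

variable {k K : Type*} [Field k] [Field K] [Algebra k K] [Algebra.EssFiniteType k K]

/-- if `x` is not a `p`-th power then `K = K^p(x)` as well: `K` has degree `≤ p` over the subfield `K^p`
(`exists_coeff`), and `K^p(x) ≠ K^p`; as `x^p ∈ K^p` the degree of `x` over `K^p` is `p` (the polynomial
`T^p - x^p` is irreducible over `K^p` when `x^p` is not a `p`-th power of an element of `K^p`, i.e. `x ∉ K^p`: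
`X_pow_sub_C_irreducible_of_prime`), so `K^p(x) = K`. -/
theorem exists_coeff' [Finite k] (p : ℕ) [Fact p.Prime] [CharP K p]
    (htr : Algebra.trdeg k K = 1) {x : K} (hx : ∀ y : K, y ^ p ≠ x) (z : K) :
    ∃ c : Fin p → K, z = ∑ i, c i ^ p * x ^ (i : ℕ) := by
  have hp : Fact p.Prime := inferInstance
  obtain ⟨x₀, hx₀, hsep⟩ := exists_sep (k := k) (K := K) htr
  set F : Subfield K := (frobenius K p).fieldRange with hF
  have hmem : ∀ y : K, y ^ p ∈ F := fun y => ⟨y, frobenius_def p y⟩
  have hmem' : ∀ a : F, ∃ y : K, y ^ p = (a : K) := fun a => by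
    obtain ⟨y, hy⟩ := a.2
    exact ⟨y, by rw [← hy, frobenius_def]⟩
  have hfg : (⊤ : Submodule F K) = Submodule.span F (Set.range fun i : Fin p => x₀ ^ (i : ℕ)) := by
    refine le_antisymm (fun y _ => ?_) le_top
    obtain ⟨c, rfl⟩ := exists_coeff p htr hx₀ hsep y
    refine Submodule.sum_mem _ fun i _ => ?_
    have h1 : c i ^ p * x₀ ^ (i : ℕ) = (⟨c i ^ p, hmem (c i)⟩ : F) • x₀ ^ (i : ℕ) := rfl
    rw [h1]
    exact Submodule.smul_mem _ _ (Submodule.subset_span ⟨i, rfl⟩)
  have hfin : FiniteDimensional F K := by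
    refine ⟨?_⟩
    rw [hfg]
    exact Submodule.fg_span (Set.finite_range _)
  have hle : Module.finrank F K ≤ p := by
    rw [← finrank_top F K, hfg]
    have h1 := finrank_range_le_card (R := F) (b := fun i : Fin p => x₀ ^ (i : ℕ))
    rw [Fintype.card_fin] at h1
    exact h1
  have hirr : Irreducible (X ^ p - C (⟨x ^ p, hmem x⟩ : F)) := by
    refine X_pow_sub_C_irreducible_of_prime hp.out ?_
    rintro b hb
    obtain ⟨y, hy⟩ := hmem' b
    have h1 : (b : K) ^ p = x ^ p := congrArg Subtype.val hb
    rw [← frobenius_def, ← frobenius_def] at h1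
    exact hx y (hy.trans (frobenius_inj K p h1))
  have hmin : minpoly F x = X ^ p - C (⟨x ^ p, hmem x⟩ : F) := by
    refine (minpoly.eq_of_irreducible_of_monic hirr ?_
      (Polynomial.monic_X_pow_sub_C _ hp.out.ne_zero)).symm
    rw [map_sub, map_pow, aeval_X, aeval_C]
    exact sub_self _
  have hli : LinearIndependent F fun i : Fin p => x ^ (i : ℕ) := by
    have h1 := linearIndependent_pow (K := F) x
    have h2 : (minpoly F x).natDegree = p := by rw [hmin, Polynomial.natDegree_X_pow_sub_C]
    rw [h2] at h1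
    exact h1
  have hcard : Fintype.card (Fin p) = Module.finrank F K := by
    rw [Fintype.card_fin]
    refine le_antisymm ?_ hle
    have h1 := hli.fintype_card_le_finrank
    rwa [Fintype.card_fin] at h1
  have htop := hli.span_eq_top_of_card_eq_finrank' hcard
  have hz : z ∈ Submodule.span F (Set.range fun i : Fin p => x ^ (i : ℕ)) := by
    rw [htop]
    exact Submodule.mem_top
  obtain ⟨c, hc⟩ := (Submodule.mem_span_range_iff_exists_fun F).1 hz
  choose d hd using fun i => hmem' (c i)
  refine ⟨d, ?_⟩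
  rw [← hc]
  refine Finset.sum_congr rfl fun i _ => ?_
  rw [hd i]
  rfl

/-- a transcendental element which is not a `p`-th power is separating: by `exists_coeff'` every derivation of `K`
over `k(x)` is zero, so `K / k(x)` is formally unramified, hence separable. -/
theorem sep_of_not_pow [Finite k] (p : ℕ) [Fact p.Prime] [CharP K p]
    (htr : Algebra.trdeg k K = 1) {x : K} (hx : Transcendental k x) (hxp : ∀ y : K, y ^ p ≠ x) :
    Algebra.IsSeparable k⟮x⟯ K := by
  have hfin := fin_of_tr htr hx
  have hD : ∀ z : K, KaehlerDifferential.D k⟮x⟯ K z = 0 := by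
    intro z
    obtain ⟨c, rfl⟩ := exists_coeff' p htr hxp z
    have hx0 : KaehlerDifferential.D k⟮x⟯ K x = 0 := by
      have h1 := (KaehlerDifferential.D k⟮x⟯ K).map_algebraMap (AdjoinSimple.gen k x)
      rwa [AdjoinSimple.algebraMap_gen] at h1
    have hp0 : ∀ y : K, KaehlerDifferential.D k⟮x⟯ K (y ^ p) = 0 := by
      intro y
      rw [Derivation.leibniz_pow, ← Nat.cast_smul_eq_nsmul K, CharP.cast_eq_zero, zero_smul]
    rw [map_sum]
    refine Finset.sum_eq_zero fun i _ => ?_
    rw [Derivation.leibniz, Derivation.leibniz_pow, hx0, hp0, smul_zero, smul_zero, smul_zero,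
      smul_zero, add_zero]
  have hsub : Subsingleton (Ω[K⁄k⟮x⟯]) := by
    have h1 : (⊤ : Submodule K (Ω[K⁄k⟮x⟯])) ≤ ⊥ := by
      rw [← KaehlerDifferential.span_range_derivation, Submodule.span_le]
      rintro _ ⟨z, rfl⟩
      exact hD z
    exact (subsingleton_iff_forall_eq 0).2 fun y => h1 trivial
  have hunr : Algebra.FormallyUnramified k⟮x⟯ K := ⟨hsub⟩
  exact Algebra.FormallyUnramified.isSeparable k⟮x⟯ K

/-- a transcendental element has only finitely many iterated `p`-th roots: if `y^(p^r) = x` then the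
fields `k(x) ⊂ k(y^(p^(r-1))) ⊂ ... ⊂ k(y)` are strictly increasing and `K / k(x)` is finite. -/
theorem root_bound [Finite k] (p : ℕ) [Fact p.Prime] [CharP K p] (htr : Algebra.trdeg k K = 1)
    {x : K} (hx : Transcendental k x) : ∃ R : ℕ, ∀ r : ℕ, ∀ y : K, y ^ (p ^ r) = x → r ≤ R := by
  have hp : Fact p.Prime := inferInstance
  have hstep : ∀ w : K, Transcendental k w →
      Module.finrank k⟮w⟯ K < Module.finrank k⟮w ^ p⟯ K := by
    intro w hw
    have hwp : Transcendental k (w ^ p) := hw.pow hp.out.pos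
    have hf1 := fin_of_tr htr hw
    have hf2 := fin_of_tr htr hwp
    have hle : k⟮w ^ p⟯ ≤ k⟮w⟯ :=
      IntermediateField.adjoin_simple_le_iff.2 (pow_mem (mem_adjoin_simple_self k w) p)
    have h1 := IntermediateField.relfinrank_mul_finrank_top hle
    have h2 : 0 < Module.finrank k⟮w ^ p⟯ K := Module.finrank_pos
    have h3 : 0 < Module.finrank k⟮w⟯ K := Module.finrank_pos
    have h4 : IntermediateField.relfinrank k⟮w ^ p⟯ k⟮w⟯ ≠ 1 := by
      intro h
      have h5 := IntermediateField.relfinrank_eq_one_iff.1 h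
      refine hw (Field.isAlgebraic_of_adjoin_eq_adjoin k K (m := 1) (n := p) hp.out.one_lt.ne ?_)
      rw [pow_one]
      exact (le_antisymm hle h5).symm
    have h5 : IntermediateField.relfinrank k⟮w ^ p⟯ k⟮w⟯ ≠ 0 := by
      intro h
      rw [h, zero_mul] at h1
      exact h2.ne h1
    have h6 : 2 ≤ IntermediateField.relfinrank k⟮w ^ p⟯ k⟮w⟯ := by omega
    calc Module.finrank k⟮w⟯ K < 2 * Module.finrank k⟮w⟯ K := by omega
      _ ≤ _ := by
        rw [← h1]
        exact Nat.mul_le_mul_right _ h6
  have hall : ∀ y : K, Transcendental k y → ∀ r : ℕ, r ≤ Module.finrank k⟮y ^ (p ^ r)⟯ K := by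
    intro y hy r
    induction r with
    | zero => exact Nat.zero_le _
    | succ r ih =>
      have hw : Transcendental k (y ^ (p ^ r)) := hy.pow (pow_pos hp.out.pos r)
      have h1 := hstep _ hw
      rw [← pow_mul, ← pow_succ] at h1
      omega
  refine ⟨Module.finrank k⟮x⟯ K, fun r y hy => ?_⟩
  have hyt : Transcendental k y := by
    intro h
    exact hx (hy ▸ h.pow _)
  have h1 := hall y hyt r
  rwa [hy] at h1

/-- every transcendental element has an iterated `p`-th root which is separating (`root_bound`, take `r` maximal,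
`sep_of_not_pow`) -/
theorem exists_root_sep [Finite k] (p : ℕ) [Fact p.Prime] [CharP K p]
    (htr : Algebra.trdeg k K = 1) {x : K} (hx : Transcendental k x) :
    ∃ r : ℕ, ∃ y : K, y ^ (p ^ r) = x ∧ Transcendental k y ∧ Algebra.IsSeparable k⟮y⟯ K := by
  by_contra hcon
  push Not at hcon
  have hall : ∀ r : ℕ, ∃ y : K, y ^ (p ^ r) = x := by
    intro r
    induction r with
    | zero => exact ⟨x, by rw [pow_zero, pow_one]⟩
    | succ r ih =>
      obtain ⟨y, hy⟩ := ih
      have hyt : Transcendental k y := fun h => hx (hy ▸ h.pow _)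
      by_contra hno
      push Not at hno
      refine hcon r y hy hyt (sep_of_not_pow p htr hyt fun z hz => hno z ?_)
      rw [pow_succ', pow_mul, hz, hy]
  obtain ⟨R, hR⟩ := root_bound p htr hx
  obtain ⟨y, hy⟩ := hall (R + 1)
  have := hR (R + 1) y hy
  omega

end BoomFF
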