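import Mathlib

/-! Places of a function field as valuation subrings (MP_4c7af0_al, function field case): intrinsic
statements. -/

namespace BoomFF

open Polynomial IntermediateField

variable {k K : Type*} [Field k] [Field K] [Algebra k K]

/-- the algebra structures given by a transcendental element `x`: `i1` is `(aeval x).toAlgebra`, `i2` its extension
to `RatFunc k` (`IsFractionRing.lift` or `RatFunc.liftAlgHom`), whose range is `k(x)`, so `K` is finite and
separable over `RatFunc k`. -/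
theorem bridge {x : K} (hx : Transcendental k x) (hfin : FiniteDimensional k⟮x⟯ K)
    (hsep : Algebra.IsSeparable k⟮x⟯ K) :
    ∃ (i1 : Algebra k[X] K) (i2 : Algebra (RatFunc k) K),
      @IsScalarTower k[X] (RatFunc k) K _ i2.toSMul i1.toSMul ∧
      @FiniteDimensional (RatFunc k) K _ _ i2.toModule ∧
      @Algebra.IsSeparable (RatFunc k) K _ _ i2 ∧
      ∀ f : k[X], @algebraMap k[X] K _ _ i1 f = aeval x f := by
  let e := RatFunc.algEquivOfTranscendental (K := k) x hx
  let φ : RatFunc k →+* K := (algebraMap k⟮x⟯ K).comp (e : RatFunc k ≃+* k⟮x⟯).toRingHom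
  let i1 : Algebra k[X] K := ((aeval x : k[X] →ₐ[k] K) : k[X] →+* K).toAlgebra
  let i2 : Algebra (RatFunc k) K := φ.toAlgebra
  have he : RingHom.comp (@algebraMap (RatFunc k) K _ _ i2) ((e : RatFunc k ≃+* k⟮x⟯).symm : k⟮x⟯ →+* RatFunc k) =
      RingHom.comp ((RingEquiv.refl K : K ≃+* K) : K →+* K) (algebraMap k⟮x⟯ K) := by
    ext u
    change (algebraMap k⟮x⟯ K) (e ((e : RatFunc k ≃+* k⟮x⟯).symm u)) = (algebraMap k⟮x⟯ K) u
    congr 1
    exact (e : RatFunc k ≃+* k⟮x⟯).apply_symm_apply u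
  refine ⟨i1, i2, ?_, ?_, ?_, ?_⟩
  · refine @IsScalarTower.of_algebraMap_eq k[X] (RatFunc k) K _ _ _ _ i2 i1 ?_
    intro f
    change aeval x f = (algebraMap k⟮x⟯ K) (e (algebraMap k[X] (RatFunc k) f))
    rw [show e (algebraMap k[X] (RatFunc k) f) = aeval (AdjoinSimple.gen k x) f from
      RatFunc.algEquivOfTranscendental_algebraMap x hx f]
    rw [← aeval_algebraMap_apply]
    rfl
  · exact @Module.Finite.of_equiv_equiv k⟮x⟯ K (RatFunc k) K _ _ _ _ _ i2
      (e : RatFunc k ≃+* k⟮x⟯).symm (RingEquiv.refl K) he hfin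
  · exact @Algebra.IsSeparable.of_equiv_equiv k⟮x⟯ K (RatFunc k) K _ _ _ _ _ i2
      (e : RatFunc k ≃+* k⟮x⟯).symm (RingEquiv.refl K) he _
  · intro f
    rfl

end BoomFF
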