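import Pool.Agent.H.MP_4c7af0_al.FF.P4
import Pool.Agent.H.MP_4c7af0_al.FF.P5b
import Pool.Agent.H.MP_4c7af0_al.FF.P6

/-! Places of a function field as valuation subrings (MP_4c7af0_al, function field case): intrinsic
statements, part 2. -/

namespace BoomFF

open Polynomial IntermediateField

variable {k K : Type*} [Field k] [Field K] [Algebra k K]

variable [Finite k]

/-- `pl_cg` for the structures of `bridge` (and `pl_int`) -/
theorem ab_cg {x : K} (hx : Transcendental k x) (hfin : FiniteDimensional k⟮x⟯ K)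
    (hsep : Algebra.IsSeparable k⟮x⟯ K) {V : ValuationSubring K} (hV : V ≠ ⊤) (hxV : x ∈ V) :
    ∃ y : K, (∀ W : ValuationSubring K, x ∈ W → y ∈ W) ∧ y⁻¹ ∉ V ∧
      ∀ W : ValuationSubring K, W ≠ ⊤ → W ≠ V → x ∈ W → y⁻¹ ∈ W := by
  obtain ⟨i1, i2, htow, hfd, hs, hmap⟩ := bridge hx hfin hsep
  have hX : algebraMap k[X] K X = x := by rw [hmap, aeval_X]
  obtain ⟨y, hy, hyV, hyW⟩ := pl_cg (Fq := k) (K := K) hV (by rw [hX]; exact hxV)
  refine ⟨y, fun W hW => pl_int (Fq := k) (by rw [hX]; exact hW) hy, hyV, fun W h1 h2 h3 => ?_⟩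
  exact hyW W h1 h2 (by rw [hX]; exact h3)

theorem p6b_pole {x : K} (hx : Transcendental k x) (hfin : FiniteDimensional k⟮x⟯ K)
    (hsep : Algebra.IsSeparable k⟮x⟯ K) {V : ValuationSubring K} (hV : V ≠ ⊤) (hxV : x ∈ V) :
    ∃ z : K, z ∉ V ∧ ∀ W : ValuationSubring K, W ≠ ⊤ → W ≠ V → z ∈ W := by
  obtain ⟨i1, i2, htow, hfd, hs, hmap⟩ := bridge hx hfin hsep
  have hX : algebraMap k[X] K X = x := by rw [hmap, aeval_X]
  exact pl_pole (Fq := k) (K := K) hV (by rw [hX]; exact hxV)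

/-- every place `V ≠ ⊤` has an element with a pole exactly at `V`: let `x` be separating (`exists_sep`). If `x ∈ V` use
`pl_pole` with `bridge` for `x`, otherwise for `x⁻¹` (`x⁻¹ ∈ V`, `k(x⁻¹) = k(x)`). -/
theorem ab_pole [Algebra.EssFiniteType k K] (htr : Algebra.trdeg k K = 1)
    {V : ValuationSubring K} (hV : V ≠ ⊤) :
    ∃ x : K, x ∉ V ∧ ∀ W : ValuationSubring K, W ≠ ⊤ → W ≠ V → x ∈ W := by
  obtain ⟨x, hx, hsep⟩ := exists_sep (k := k) (K := K) htr
  rcases V.mem_or_inv_mem x with hxV | hxV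
  · exact p6b_pole hx (fin_of_tr htr hx) hsep hV hxV
  · have hx' : Transcendental k x⁻¹ := fun h => hx (by
      have h1 := h.inv
      rw [inv_inv] at h1
      exact h1)
    have he : k⟮x⁻¹⟯ = k⟮x⟯ := by
      apply le_antisymm
      · rw [IntermediateField.adjoin_simple_le_iff]
        exact inv_mem (IntermediateField.mem_adjoin_simple_self k x)
      · rw [IntermediateField.adjoin_simple_le_iff]
        have h1 := inv_mem (IntermediateField.mem_adjoin_simple_self k x⁻¹)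
        rw [inv_inv] at h1
        exact h1
    have hsep' : Algebra.IsSeparable k⟮x⁻¹⟯ K := by
      rw [he]
      exact hsep
    exact p6b_pole hx' (fin_of_tr htr hx') hsep' hV hxV

/-- the same with a separating element `x`: replace the `x` of `ab_pole` (transcendental by `alg_mem`) by an
iterated `p`-th root (`exists_root_sep`, `root_mem`), `p` the characteristic. -/
theorem ab_pole_sep [Algebra.EssFiniteType k K] (htr : Algebra.trdeg k K = 1)
    {V : ValuationSubring K} (hV : V ≠ ⊤) :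
    ∃ x : K, Transcendental k x ∧ Algebra.IsSeparable k⟮x⟯ K ∧ x ∉ V ∧
      ∀ W : ValuationSubring K, W ≠ ⊤ → W ≠ V → x ∈ W := by
  obtain ⟨x, hxV, hxW⟩ := ab_pole (k := k) (K := K) htr hV
  have hx : Transcendental k x := fun h => hxV (alg_mem h V)
  obtain ⟨p, hp⟩ := CharP.exists k
  have : Fact p.Prime := ⟨CharP.char_is_prime k p⟩
  have : CharP K p := charP_of_injective_algebraMap (algebraMap k K).injective p
  obtain ⟨r, y, hyx, hy, hsep⟩ := exists_root_sep p htr hx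
  refine ⟨y, hy, hsep, fun h => hxV ?_, fun W h1 h2 => ?_⟩
  · rw [← hyx]
    exact pow_mem h _
  · have hpr : 0 < p ^ r := pow_pos (Nat.Prime.pos (Fact.out : p.Prime)) r
    refine root_mem W hpr ?_
    rw [hyx]
    exact hxW W h1 h2

/-- For a finite set `S` of at least two places there is a separating element `t` which is a unit exactly at the
places outside of `S`. Proof: choose `w ∈ S` and `x` from `ab_pole_sep` for `w`. For `v ∈ S`, `v ≠ w`: `x ∈ v`, and
`ab_cg` gives `y_v` with `y_v⁻¹ ∉ v`, `y_v ∈ W` for all `W ≠ w` and `y_v⁻¹ ∈ W` for all `W ≠ v, w`. Let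
`t = ∏_{v ∈ S, v ≠ w} y_v ≠ 0`. For `W ∉ S`: `t, t⁻¹ ∈ W`. For `v ∈ S`, `v ≠ w`: `t⁻¹ ∉ v` (the other factors are units of
`v`). If `t ∈ w` then `t` is in all places, so `t` is algebraic over `k` (`alg_of_mem`), so is `t⁻¹`, which is then
in `v` for all `v`, a contradiction (there is some `v ∈ S`, `v ≠ w`). So `t ∉ w`, and `t` is transcendental
(`alg_mem`). Finally replace `t` by an iterated `p`-th root which is separating. -/
theorem exists_t [Algebra.EssFiniteType k K] (htr : Algebra.trdeg k K = 1)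
    (S : Set (ValuationSubring K)) (hS : S.Finite) (h2 : 2 ≤ S.ncard) (hT : ⊤ ∉ S) :
    ∃ t : K, Transcendental k t ∧ FiniteDimensional k⟮t⟯ K ∧ Algebra.IsSeparable k⟮t⟯ K ∧
      ∀ V : ValuationSubring K, V ≠ ⊤ → (V ∈ S ↔ ¬ (t ∈ V ∧ t⁻¹ ∈ V)) := by
  classical
  have hS' : S.Nonempty := by
    rw [← Set.ncard_pos hS]
    omega
  obtain ⟨w, hw⟩ := hS'
  have hwT : w ≠ ⊤ := fun h => hT (h ▸ hw)
  obtain ⟨x, hx, hsep, hxw, hxW⟩ := ab_pole_sep (k := k) (K := K) htr hwT
  have hfin := fin_of_tr htr hx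
  have hx' : ∀ W : ValuationSubring K, W ≠ w → x ∈ W := by
    intro W hW
    by_cases h : W = ⊤
    · rw [h]
      trivial
    · exact hxW W h hW
  have hy0 : ∀ v : ValuationSubring K, ∃ y : K, v ∈ S → v ≠ w →
      (∀ W : ValuationSubring K, x ∈ W → y ∈ W) ∧ y⁻¹ ∉ v ∧
      ∀ W : ValuationSubring K, W ≠ ⊤ → W ≠ v → x ∈ W → y⁻¹ ∈ W := by
    intro v
    by_cases h : v ∈ S ∧ v ≠ w
    · obtain ⟨y, hy⟩ := ab_cg hx hfin hsep (fun h' => hT (h' ▸ h.1) : v ≠ ⊤) (hx' v h.2)
      exact ⟨y, fun _ _ => hy⟩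
    · exact ⟨0, fun h1 h2 => absurd ⟨h1, h2⟩ h⟩
  choose y hy using hy0
  obtain ⟨T, hTdef⟩ : ∃ T : Finset (ValuationSubring K), T = hS.toFinset.erase w := ⟨_, rfl⟩
  have hmT : ∀ v, v ∈ T ↔ v ≠ w ∧ v ∈ S := by
    intro v
    rw [hTdef, Finset.mem_erase, Set.Finite.mem_toFinset]
  obtain ⟨v0, hv0⟩ : ∃ v, v ∈ T := by
    obtain ⟨v, hv, hvw⟩ := Set.exists_ne_of_one_lt_ncard (by omega : 1 < S.ncard) w
    exact ⟨v, (hmT v).2 ⟨hvw, hv⟩⟩
  obtain ⟨t, ht⟩ : ∃ t : K, t = ∏ v ∈ T, y v := ⟨_, rfl⟩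
  have htW : ∀ W : ValuationSubring K, W ≠ w → t ∈ W := by
    intro W hW
    rw [ht]
    refine prod_mem (fun v hv => ?_)
    rw [hmT] at hv
    exact (hy v hv.2 hv.1).1 W (hx' W hW)
  have htS : ∀ W : ValuationSubring K, W ≠ ⊤ → W ∉ S → t⁻¹ ∈ W := by
    intro W hWT hW
    rw [ht, ← Finset.prod_inv_distrib]
    refine prod_mem (fun v hv => ?_)
    rw [hmT] at hv
    exact (hy v hv.2 hv.1).2.2 W hWT (fun h => hW (h ▸ hv.2)) (hx' W (fun h => hW (h ▸ hw)))
  have htv : ∀ v ∈ T, t⁻¹ ∉ v := by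
    intro v hv hcon
    have hv' := (hmT v).1 hv
    refine (hy v hv'.2 hv'.1).2.1 ?_
    have h1 : t = y v * ∏ u ∈ T.erase v, y u := by
      rw [ht, Finset.mul_prod_erase T y hv]
    have h2 : ∏ u ∈ T.erase v, y u ∈ v := by
      refine prod_mem (fun u hu => ?_)
      have hu' := (hmT u).1 (Finset.mem_of_mem_erase hu)
      exact (hy u hu'.2 hu'.1).1 v (hx' v hv'.1)
    have h3 : ∀ u ∈ T, y u ≠ 0 := by
      intro u hu h0
      have hu' := (hmT u).1 hu
      refine (hy u hu'.2 hu'.1).2.1 ?_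
      rw [h0, inv_zero]
      exact zero_mem u
    have h4 : ∏ u ∈ T.erase v, y u ≠ 0 :=
      Finset.prod_ne_zero_iff.2 (fun u hu => h3 u (Finset.mem_of_mem_erase hu))
    have h5 : (y v)⁻¹ = t⁻¹ * ∏ u ∈ T.erase v, y u := by
      rw [h1, mul_inv, mul_assoc, inv_mul_cancel₀ h4, mul_one]
    rw [h5]
    exact mul_mem hcon h2
  have htw : t ∉ w := by
    intro hcon
    have h1 : IsAlgebraic k t := by
      refine alg_of_mem (fun V _ => ?_)
      by_cases h : V = w
      · rw [h]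
        exact hcon
      · exact htW V h
    exact htv v0 hv0 (alg_mem h1.inv v0)
  have htt : Transcendental k t := fun h => htw (alg_mem h w)
  obtain ⟨p, hp⟩ := CharP.exists k
  have : Fact p.Prime := ⟨CharP.char_is_prime k p⟩
  have : CharP K p := charP_of_injective_algebraMap (algebraMap k K).injective p
  obtain ⟨r, s, hst, hs, hssep⟩ := exists_root_sep p htr htt
  have hpr : 0 < p ^ r := pow_pos (Nat.Prime.pos Fact.out) r
  have e1 : ∀ V : ValuationSubring K, s ∈ V ↔ t ∈ V := by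
    intro V
    constructor
    · intro h
      rw [← hst]
      exact pow_mem h _
    · intro h
      exact root_mem V hpr (by rw [hst]; exact h)
  have e2 : ∀ V : ValuationSubring K, s⁻¹ ∈ V ↔ t⁻¹ ∈ V := by
    intro V
    have h0 : s⁻¹ ^ (p ^ r) = t⁻¹ := by rw [inv_pow, hst]
    constructor
    · intro h
      rw [← h0]
      exact pow_mem h _
    · intro h
      exact root_mem V hpr (by rw [h0]; exact h)
  refine ⟨s, hs, fin_of_tr htr hs, hssep, fun V hV => ?_⟩
  rw [e1, e2]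
  constructor
  · rintro h ⟨h1, h2⟩
    by_cases hVw : V = w
    · exact htw (hVw ▸ h1)
    · exact htv V ((hmT V).2 ⟨hVw, h⟩) h2
  · intro h
    by_contra hVS
    exact h ⟨htW V (fun h' => hVS (h' ▸ hw)), htS V hV hVS⟩

end BoomFF
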