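import Pool.Agent.H.MP_4c7af0_al.FF.P6b
import Pool.Agent.H.MP_4c7af0_al.FF.C8

/-! The ring of `S`-integers of a global function field (MP_4c7af0_al, function field case). -/

namespace BoomFF

open Polynomial IntermediateField BoomNF

/-- the ring of `S`-integers: the elements of `K` which belong to all valuation subrings `V ≠ ⊤` of `K` which
are not in `S` -/
def OS {K : Type*} [Field K] (S : Set (ValuationSubring K)) : Subring K :=
  ⨅ V : {V : ValuationSubring K // V ≠ ⊤ ∧ V ∉ S}, V.1.toSubring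

theorem mem_OS {K : Type*} [Field K] {S : Set (ValuationSubring K)} {z : K} :
    z ∈ OS S ↔ ∀ V : ValuationSubring K, V ≠ ⊤ → V ∉ S → z ∈ V := by
  rw [OS, Subring.mem_iInf]
  exact ⟨fun h V hV hVS => h ⟨V, hV, hVS⟩, fun h V => h V.1 V.2.1 V.2.2⟩

/-- `O_S` is the integral closure of `𝔽_q[t, 1/t]` if the image `t` of `X` is a unit exactly at the places outside
of `S`. Proof: if `x t^j` is integral over `𝔽_q[t]` and `V ∉ S` then `t, t⁻¹ ∈ V` so `x t^j ∈ V` (`pl_int`) and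
`x ∈ V`. Conversely let `x ∈ O_S`. For every `V ∈ S` with `t ∈ V` we have `t⁻¹ ∉ V` and `x t^j ∈ V` for some `j`
(`pl_arch`), hence for all larger `j`. As `S` is finite there is one `j` with `x t^j ∈ V` for all `V ∈ S` with
`t ∈ V`; also `x t^j ∈ V` for `V ∉ S`. By `pl_all`, `x t^j` is integral. -/
theorem os_fring {k K : Type*} [Field k] [Finite k] [Field K] [Algebra k[X] K]
    [Algebra (RatFunc k) K] [IsScalarTower k[X] (RatFunc k) K] [FiniteDimensional (RatFunc k) K]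
    (S : Set (ValuationSubring K)) (hS : S.Finite)
    (ht : ∀ V : ValuationSubring K, V ≠ ⊤ →
      (V ∈ S ↔ ¬ (algebraMap k[X] K X ∈ V ∧ (algebraMap k[X] K X)⁻¹ ∈ V))) :
    FRing k (OS S) := by
  classical
  obtain ⟨T, hT⟩ : ∃ T, T = algebraMap k[X] K X := ⟨_, rfl⟩
  have hT0 : T ≠ 0 := by
    rw [hT]
    intro h0
    rw [← map_zero (algebraMap k[X] K)] at h0
    exact X_ne_zero (ar_inj (Fq := k) (K := K) h0)
  rw [← hT] at ht
  refine ⟨fun x => ?_⟩
  rw [← hT, mem_OS]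
  constructor
  · intro hx
    have harch : ∀ V : ValuationSubring K, ∃ j : ℕ, T⁻¹ ∉ V → x * T ^ j ∈ V := by
      intro V
      by_cases h : T⁻¹ ∉ V
      · obtain ⟨j, hj⟩ := pl_arch (Fq := k) (V := V) (by rw [← hT]; exact h) x
        rw [← hT] at hj
        exact ⟨j, fun _ => hj⟩
      · exact ⟨0, fun h' => absurd h' h⟩
    choose f hf using harch
    refine ⟨hS.toFinset.sup f, pl_all fun V hV hTV => ?_⟩
    rw [← hT] at hTV
    by_cases hVS : V ∈ S
    · have h1 : T⁻¹ ∉ V := fun h => (ht V hV).1 hVS ⟨hTV, h⟩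
      have h2 : f V ≤ hS.toFinset.sup f := Finset.le_sup (f := f) (hS.mem_toFinset.2 hVS)
      have h3 : x * T ^ (hS.toFinset.sup f) = x * T ^ f V * T ^ (hS.toFinset.sup f - f V) := by
        rw [mul_assoc, ← pow_add, Nat.add_sub_cancel' h2]
      rw [h3]
      exact V.mul_mem _ _ (hf V h1) (pow_mem hTV _)
    · exact V.mul_mem _ _ (hx V hV hVS) (pow_mem hTV _)
  · rintro ⟨j, hj⟩ V hV hVS
    have h1 : T ∈ V ∧ T⁻¹ ∈ V := by
      by_contra h
      exact hVS ((ht V hV).2 h)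
    have h2 : x * T ^ j ∈ V := pl_int (Fq := k) (by rw [← hT]; exact h1.1) hj
    have h3 : x = x * T ^ j * T⁻¹ ^ j := by
      rw [mul_assoc, ← mul_pow, mul_inv_cancel₀ hT0, one_pow, mul_one]
    rw [h3]
    exact V.mul_mem _ _ h2 (pow_mem h1.2 _)

/-- Main theorem (`exists_t`, `bridge`, `os_fring`, `FRing.fr` in `R11.lean`, `FR.main_abs` in `C8.lean`). -/
theorem main_FF (k K : Type*) [Field k] [Finite k] [Field K] [Algebra k K]
    [Algebra.EssFiniteType k K] (htr : Algebra.trdeg k K = 1) (S : Set (ValuationSubring K))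
    (hS : S.Finite) (h2 : 2 ≤ S.ncard) (hT : ⊤ ∉ S)
    (Γ : Type*) [Group Γ] (H : Subgroup Γ) (hH : H.FiniteIndex)
    (φ : H →* SL2 K) (hφ : Finite φ.ker)
    (h₁ : (G (OS S)).relIndex φ.range ≠ 0) (h₂ : φ.range.relIndex (G (OS S)) ≠ 0)
    (D : Subgroup Γ) (hD : Boom4c.IsBoomerang D) :
    D.FiniteIndex ∨ (Finite D ∧ ∀ x : H, (x : Γ) ∈ D → φ x = 1 ∨ φ x = -1) := by
  obtain ⟨t, ht, hfin, hsep, hSt⟩ := exists_t (k := k) htr S hS h2 hT
  obtain ⟨i1, i2, htower, hfd, hsep', hmap⟩ := bridge ht hfin hsep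
  letI := i1
  letI := i2
  have e : algebraMap k[X] K X = t := by
    rw [hmap]
    simp
  have hF : FRing k (OS S) := by
    refine os_fring S hS ?_
    rw [e]
    exact hSt
  exact hF.fr.main_abs H hH φ hφ h₁ h₂ D hD

end BoomFF
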