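import Pool.Agent.H.MP_4c7af0_al.FF.F0

/-! The ring `A` = integral closure of `𝔽_q[t, 1/t]` in `K` (MP_4c7af0_al, function field case):
denominators. -/

namespace BoomFF

open BoomNF Polynomial

/-- `A` is the integral closure of `𝔽_q[t, 1/t]` in `K`, `t` the image of `X` -/
structure FRing (Fq : Type*) {K : Type*} [Field Fq] [Field K] [Algebra Fq[X] K] (A : Subring K) :
    Prop where
  ex : ∀ x : K, x ∈ A ↔ ∃ k : ℕ, IsIntegral Fq[X] (x * algebraMap Fq[X] K X ^ k)

variable {Fq K : Type*} [Field Fq] [Field K] [Algebra Fq[X] K] [Algebra (RatFunc Fq) K]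
  [IsScalarTower Fq[X] (RatFunc Fq) K]

/-- `𝔽_q[t] → K` is injective -/
theorem ar_inj : Function.Injective (algebraMap Fq[X] K) := by
  rw [IsScalarTower.algebraMap_eq Fq[X] (RatFunc Fq) K]
  exact (algebraMap (RatFunc Fq) K).injective.comp (RatFunc.algebraMap_injective Fq)

theorem ar_ne {f : Fq[X]} (hf : f ≠ 0) : algebraMap Fq[X] K f ≠ 0 := by
  intro h
  exact hf (ar_inj (K := K) (by rw [h, map_zero]))

variable {A : Subring K}

/-- integral elements are in `A` -/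
theorem FRing.int_mem (hA : FRing Fq A) {x : K} (hx : IsIntegral Fq[X] x) : x ∈ A := by
  rw [hA.ex]
  exact ⟨0, by simpa using hx⟩

theorem FRing.mem (hA : FRing Fq A) (f : Fq[X]) : algebraMap Fq[X] K f ∈ A :=
  hA.int_mem isIntegral_algebraMap

theorem FRing.tinv (hA : FRing Fq A) : (algebraMap Fq[X] K X)⁻¹ ∈ A := by
  rw [hA.ex]
  refine ⟨1, ?_⟩
  rw [pow_one, inv_mul_cancel₀ (ar_ne X_ne_zero)]
  exact isIntegral_one

variable [FiniteDimensional (RatFunc Fq) K]

/-- denominators: `K` is algebraic over `𝔽_q[X]` (`exists_integral_multiple`; template `rng1_den` in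
`NF/Rng1.lean`) -/
theorem ar_den (x : K) : ∃ f : Fq[X], f ≠ 0 ∧ IsIntegral Fq[X] (algebraMap Fq[X] K f * x) := by
  have halg : IsAlgebraic Fq[X] x := (IsFractionRing.isAlgebraic_iff Fq[X] (RatFunc Fq) K).mpr
    (Algebra.IsAlgebraic.isAlgebraic (R := RatFunc Fq) x)
  obtain ⟨m, hm, hi⟩ := halg.exists_integral_multiple
  exact ⟨m, hm, by rwa [Algebra.smul_def] at hi⟩

/-- every nonzero `α ∈ K` divides a nonzero polynomial -/
theorem FRing.dvd (hA : FRing Fq A) {α : K} (h0 : α ≠ 0) :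
    ∃ f : Fq[X], f ≠ 0 ∧ algebraMap Fq[X] K f / α ∈ A := by
  obtain ⟨f, hf, h1⟩ := ar_den (Fq := Fq) α⁻¹
  exact ⟨f, hf, by rw [div_eq_mul_inv]; exact hA.int_mem h1⟩

end BoomFF
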