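import Pool.Agent.H.MP_4c7af0_al.FF.R1

/-! The ring `A` = integral closure of `𝔽_q[t, 1/t]` in `K` (MP_4c7af0_al, function field case):
finite quotients. -/

namespace BoomFF

open BoomNF Polynomial

variable {Fq K : Type*} [Field Fq] [Field K] [Algebra Fq[X] K] [Algebra (RatFunc Fq) K]
  [IsScalarTower Fq[X] (RatFunc Fq) K] [FiniteDimensional (RatFunc Fq) K]
  [Algebra.IsSeparable (RatFunc Fq) K] {A : Subring K}

/-- The integral closure of `𝔽_q[X]` in `K` is a finitely generated `𝔽_q[X]`-module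
(`FunctionField.ringOfIntegers Fq K` is a Noetherian `𝔽_q[X]`-module: instance in
`Mathlib/NumberTheory/FunctionField.lean`). -/
theorem ar_gen (Fq K : Type*) [Field Fq] [Field K] [Algebra Fq[X] K] [Algebra (RatFunc Fq) K]
    [IsScalarTower Fq[X] (RatFunc Fq) K] [FiniteDimensional (RatFunc Fq) K]
    [Algebra.IsSeparable (RatFunc Fq) K] :
    ∃ Ω : Finset K, (∀ ω ∈ Ω, IsIntegral Fq[X] ω) ∧
      ∀ x : K, IsIntegral Fq[X] x → x ∈ Submodule.span Fq[X] (Ω : Set K) := by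
  classical
  have hN : IsNoetherian Fq[X] (FunctionField.ringOfIntegers Fq K) := inferInstance
  obtain ⟨S, hS⟩ := hN.noetherian ⊤
  refine ⟨S.image Subtype.val, ?_, fun x hx => ?_⟩
  · intro ω hω
    obtain ⟨s, -, rfl⟩ := Finset.mem_image.1 hω
    exact s.2
  · have h1 : (⟨x, hx⟩ : FunctionField.ringOfIntegers Fq K) ∈ Submodule.span Fq[X]
        (S : Set (FunctionField.ringOfIntegers Fq K)) := by
      rw [hS]
      exact Submodule.mem_top
    have h2 := Submodule.mem_map_of_mem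
      (f := (FunctionField.ringOfIntegers Fq K).val.toLinearMap) h1
    rw [Submodule.map_span] at h2
    rw [Finset.coe_image]
    exact h2

variable [Finite Fq]

/-- finite quotients of the integral closure: for `f ≠ 0` and `x = ∑ c_i ω_i` (`ar_gen`) reduce the
coefficients `c_i` mod `f` (remainders have degree `< deg f`, finitely many; make `f` monic first or
use `EuclideanDomain.mod`). -/
theorem ar_fin {f : Fq[X]} (hf : f ≠ 0) : ∃ T : Finset K, (∀ t ∈ T, IsIntegral Fq[X] t) ∧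
    ∀ x : K, IsIntegral Fq[X] x → ∃ t ∈ T, ∃ w : K, IsIntegral Fq[X] w ∧
      x - t = algebraMap Fq[X] K f * w := by
  classical
  obtain ⟨Ω, hΩ, hspan⟩ := ar_gen Fq K
  have hfin : Finite (degreeLT Fq (f.natDegree + 1)) :=
    Finite.of_equiv _ (degreeLTEquiv Fq (f.natDegree + 1)).toEquiv.symm
  let _ := Fintype.ofFinite (Ω → degreeLT Fq (f.natDegree + 1))
  have hint : ∀ c : Ω → Fq[X], IsIntegral Fq[X] (∑ ω : Ω, c ω • (ω : K)) := fun c =>
    IsIntegral.sum _ fun ω _ => (hΩ ω ω.2).smul (c ω)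
  refine ⟨Finset.univ.image fun g : Ω → degreeLT Fq (f.natDegree + 1) =>
    ∑ ω : Ω, ((g ω : Fq[X])) • (ω : K), ?_, fun x hx => ?_⟩
  · intro t ht
    obtain ⟨g, -, rfl⟩ := Finset.mem_image.1 ht
    exact hint fun ω => (g ω : Fq[X])
  · obtain ⟨c, hc⟩ := Submodule.mem_span_finset'.1 (hspan x hx)
    have hlt : ∀ ω : Ω, c ω % f ∈ degreeLT Fq (f.natDegree + 1) := by
      intro ω
      rw [mem_degreeLT]
      refine (EuclideanDomain.mod_lt (c ω) hf).trans_le ?_
      rw [degree_eq_natDegree hf]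
      exact_mod_cast Nat.le_succ _
    refine ⟨_, Finset.mem_image_of_mem _ (Finset.mem_univ fun ω => ⟨c ω % f, hlt ω⟩),
      ∑ ω : Ω, (c ω / f) • (ω : K), hint _, ?_⟩
    rw [← hc, Finset.mul_sum, ← Finset.sum_sub_distrib]
    refine Finset.sum_congr rfl fun ω _ => ?_
    simp only [Algebra.smul_def]
    have h1 := congrArg (algebraMap Fq[X] K) (EuclideanDomain.div_add_mod (c ω) f)
    rw [map_add, map_mul] at h1
    rw [← h1]
    ring

/-- every `x ∈ A` is congruent mod `f A` to an integral element. Proof (template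
`SRing.exists_int_rep` in `NF/Rng1.lean`): by `ar_fin` and pigeonhole for the powers of `t` there are
`i`, `l ≥ 1` with `t^i (1 - t^l) ∈ f O`, so `(1 - t^l) / f ∈ A` as `t` is a unit; hence
`x ≡ x t^(l k) mod f A` for all `k`, and `x t^(l k) ∈ O` for large `k`. -/
theorem FRing.exists_int_rep (hA : FRing Fq A) {f : Fq[X]} (hf : f ≠ 0) {x : K} (hx : x ∈ A) :
    ∃ z : K, IsIntegral Fq[X] z ∧ (x - z) / algebraMap Fq[X] K f ∈ A := by
  obtain ⟨T, -, hT⟩ := ar_fin (K := K) hf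
  have hfK : algebraMap Fq[X] K f ≠ 0 := ar_ne hf
  set y : K := algebraMap Fq[X] K X with hy
  have hyi : IsIntegral Fq[X] y := isIntegral_algebraMap
  have hpow : ∀ k : ℕ, IsIntegral Fq[X] (y ^ k) := fun k => hyi.pow k
  choose g hg using fun k : ℕ => hT (y ^ k) (hpow k)
  obtain ⟨i, j, hij, he⟩ := Finite.exists_ne_map_eq_of_infinite
    (fun k : ℕ => (⟨g k, (hg k).1⟩ : T))
  have he' : g i = g j := congrArg Subtype.val he
  clear he
  wlog hlt : i < j generalizing i j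
  · exact this j i hij.symm he'.symm (lt_of_le_of_ne (not_lt.mp hlt) hij.symm)
  obtain ⟨l, hl, rfl⟩ : ∃ l, 0 < l ∧ j = i + l := ⟨j - i, by omega, by omega⟩
  obtain ⟨-, w, hw, hww⟩ := hg i
  obtain ⟨-, w', hw', hww'⟩ := hg (i + l)
  have h1 : (y ^ l - 1) / algebraMap Fq[X] K f ∈ A := by
    refine (hA.ex _).2 ⟨i, ?_⟩
    have e : (y ^ l - 1) / algebraMap Fq[X] K f * y ^ i = w' - w := by
      rw [div_mul_eq_mul_div, div_eq_iff hfK]
      have e1 : algebraMap Fq[X] K f * w' - algebraMap Fq[X] K f * w = y ^ (i + l) - y ^ i := by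
        rw [← hww, ← hww', he']
        ring
      calc (y ^ l - 1) * y ^ i = y ^ (i + l) - y ^ i := by ring
        _ = _ := by rw [← e1]; ring
    rw [e]
    exact hw'.sub hw
  obtain ⟨k, hk⟩ := (hA.ex x).1 hx
  have hkl : k ≤ l * k := Nat.le_mul_of_pos_left k hl
  refine ⟨x * (y ^ l) ^ k, ?_, ?_⟩
  · have e : x * (y ^ l) ^ k = x * y ^ k * y ^ (l * k - k) := by
      rw [mul_assoc, ← pow_add, Nat.add_sub_cancel' hkl, pow_mul]
    rw [e]
    exact hk.mul (hpow _)
  · have e2 : (x - x * (y ^ l) ^ k) / algebraMap Fq[X] K f =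
        -(x * ((y ^ l - 1) / algebraMap Fq[X] K f * ∑ i ∈ Finset.range k, (y ^ l) ^ i)) := by
      rw [div_mul_eq_mul_div, mul_geom_sum]
      ring
    rw [e2]
    refine A.neg_mem (A.mul_mem hx (A.mul_mem h1 (A.sum_mem fun i _ => ?_)))
    exact A.pow_mem (A.pow_mem (hA.mem X) l) i

/-- finite quotients of `A` (`dvd`, `exists_int_rep`, `ar_fin`; template `SRing.finite_quot`) -/
theorem FRing.fin (hA : FRing Fq A) {α : K} (hα : α ∈ A) (h0 : α ≠ 0) :
    ∃ T : Finset K, (∀ t ∈ T, t ∈ A) ∧ ∀ x ∈ A, ∃ t ∈ T, (x - t) / α ∈ A := by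
  obtain ⟨f, hf, hfα⟩ := hA.dvd h0
  have hfK : algebraMap Fq[X] K f ≠ 0 := ar_ne hf
  obtain ⟨T, hTi, hT⟩ := ar_fin (K := K) hf
  refine ⟨T, fun t ht => hA.int_mem (hTi t ht), fun x hx => ?_⟩
  obtain ⟨z, hz, hxz⟩ := hA.exists_int_rep hf hx
  obtain ⟨t, ht, w, hw, hzt⟩ := hT z hz
  refine ⟨t, ht, ?_⟩
  have e : (x - t) / α = ((x - z) / algebraMap Fq[X] K f + w) * (algebraMap Fq[X] K f / α) := by
    have e1 : t = z - algebraMap Fq[X] K f * w := by rw [← hzt]; ring
    rw [e1]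
    field_simp
    ring
  rw [e]
  exact A.mul_mem (A.add_mem hxz (hA.int_mem hw)) hfα

/-- `A` is a finite module over `𝔽_p[t^m, t^(-m)]`: generators `a t^r ω`, `a ∈ 𝔽_q`, `r < m`,
`ω ∈ Ω` (`ar_gen`). Let `B` be the ring generated by `t^m, t^(-m)`. For `x ∈ A` take `k` with
`x t^(m k) ∈ O`, `x t^(m k) = ∑ c_ω ω`, `c_ω ∈ 𝔽_q[X]`; a monomial `a X^j = a X^(j % m) (X^m)^(j / m)`
gives `a t^(j % m) ω` times an element of `B`; multiply by `t^(- m k) ∈ B`. -/
theorem FRing.fg (hA : FRing Fq A) {m : ℕ} (hm : 0 < m) : ∃ Ω : Finset K, (∀ ω ∈ Ω, ω ∈ A) ∧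
    ∀ x ∈ A, x ∈ Submodule.span (Subring.closure ({algebraMap Fq[X] K X ^ m,
      (algebraMap Fq[X] K X ^ m)⁻¹} : Set K)) (Ω : Set K) := by
  classical
  obtain ⟨Ω, hΩ, hspan⟩ := ar_gen Fq K
  let _ := Fintype.ofFinite Fq
  set y : K := algebraMap Fq[X] K X with hy
  have hy0 : y ≠ 0 := ar_ne X_ne_zero
  set B : Subring K := Subring.closure ({y ^ m, (y ^ m)⁻¹} : Set K) with hB
  have hB1 : y ^ m ∈ B := Subring.subset_closure (by simp)
  have hB2 : (y ^ m)⁻¹ ∈ B := Subring.subset_closure (by simp)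
  let Ω' : Finset K := ((Finset.univ : Finset Fq) ×ˢ (Finset.range m ×ˢ Ω)).image
    fun p => algebraMap Fq[X] K (C p.1 * X ^ p.2.1) * p.2.2
  have hmem : ∀ (a : Fq) (r : ℕ) (ω : K), r < m → ω ∈ Ω →
      algebraMap Fq[X] K (C a * X ^ r) * ω ∈ Submodule.span B (Ω' : Set K) := by
    intro a r ω hr hω
    refine Submodule.subset_span ?_
    rw [Finset.mem_coe]
    exact Finset.mem_image.2 ⟨(a, r, ω), Finset.mem_product.2 ⟨Finset.mem_univ _,
      Finset.mem_product.2 ⟨Finset.mem_range.2 hr, hω⟩⟩, rfl⟩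
  have hpoly : ∀ (c : Fq[X]) (ω : K), ω ∈ Ω →
      algebraMap Fq[X] K c * ω ∈ Submodule.span B (Ω' : Set K) := by
    intro c ω hω
    induction c using Polynomial.induction_on' with
    | add p q hp hq =>
      rw [map_add, add_mul]
      exact Submodule.add_mem _ hp hq
    | monomial j a =>
      have h1 := (Submodule.span B (Ω' : Set K)).smul_mem
        (⟨(y ^ m) ^ (j / m), B.pow_mem hB1 _⟩ : B) (hmem a (j % m) ω (Nat.mod_lt j hm) hω)
      have e : (⟨(y ^ m) ^ (j / m), B.pow_mem hB1 _⟩ : B) •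
          (algebraMap Fq[X] K (C a * X ^ (j % m)) * ω) =
          algebraMap Fq[X] K (monomial j a) * ω := by
        rw [Subring.smul_def, smul_eq_mul, ← C_mul_X_pow_eq_monomial]
        conv_rhs => rw [← Nat.mod_add_div j m, pow_add, pow_mul]
        simp only [map_mul, map_pow, ← hy]
        ring
      rw [e] at h1
      exact h1
  refine ⟨Ω', ?_, fun x hx => ?_⟩
  · intro ω hω
    obtain ⟨p, hp, rfl⟩ := Finset.mem_image.1 hω
    have hp2 := (Finset.mem_product.1 (Finset.mem_product.1 hp).2).2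
    exact A.mul_mem (hA.mem _) (hA.int_mem (hΩ _ hp2))
  · obtain ⟨k, hk⟩ := (hA.ex x).1 hx
    have hkm : k ≤ m * k := Nat.le_mul_of_pos_left k hm
    have h1 : IsIntegral Fq[X] (x * (y ^ m) ^ k) := by
      have e : x * (y ^ m) ^ k = x * y ^ k * y ^ (m * k - k) := by
        rw [mul_assoc, ← pow_add, Nat.add_sub_cancel' hkm, pow_mul]
      rw [e]
      exact hk.mul (isIntegral_algebraMap.pow _)
    obtain ⟨c, hc⟩ := Submodule.mem_span_finset'.1 (hspan _ h1)
    have h2 : x * (y ^ m) ^ k ∈ Submodule.span B (Ω' : Set K) := by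
      rw [← hc]
      refine Submodule.sum_mem _ fun ω _ => ?_
      rw [Algebra.smul_def]
      exact hpoly _ _ ω.2
    have h3 := (Submodule.span B (Ω' : Set K)).smul_mem
      (⟨(y ^ m)⁻¹ ^ k, B.pow_mem hB2 _⟩ : B) h2
    have e : (⟨(y ^ m)⁻¹ ^ k, B.pow_mem hB2 _⟩ : B) • (x * (y ^ m) ^ k) = x := by
      rw [Subring.smul_def, smul_eq_mul, mul_left_comm, ← mul_pow,
        inv_mul_cancel₀ (pow_ne_zero m hy0), one_pow, mul_one]
    rw [e] at h3
    exact h3

end BoomFF
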