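import Pool.Agent.H.MP_4c7af0_al.FF.R2

/-! Good elements, part 1 (MP_4c7af0_al, function field case). Template `NF/Good1.lean`. -/

namespace BoomFF

open BoomNF Polynomial

variable {Fq K : Type*} [Field Fq] [Field K] [Algebra Fq[X] K] [Algebra (RatFunc Fq) K]
  [IsScalarTower Fq[X] (RatFunc Fq) K] [FiniteDimensional (RatFunc Fq) K]
  [Algebra.IsSeparable (RatFunc Fq) K] {A : Subring K}

omit [FiniteDimensional (RatFunc Fq) K] [Algebra.IsSeparable (RatFunc Fq) K] in
theorem r4_mem (L : IntermediateField (RatFunc Fq) K) (c : Fq[X]) : algebraMap Fq[X] K c ∈ L := by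
  rw [IsScalarTower.algebraMap_apply Fq[X] (RatFunc Fq) K]
  exact L.algebraMap_mem _

/-- template `exists_prim` in `NF/Good1.lean`: primitive element theorem (`K / 𝔽_q(X)` is separable,
`𝔽_q(X)` is infinite), finitely many intermediate fields, pigeonhole over `s ∈ 𝔽_q[X]`. -/
theorem ar_prim (x : K) {M : Fq[X]} (hM : M ≠ 0) : ∃ θ : K, IsIntegral Fq[X] θ ∧
    IntermediateField.adjoin (RatFunc Fq) {x + algebraMap Fq[X] K M * θ} = ⊤ := by
  obtain ⟨α, hα⟩ := Field.exists_primitive_element (RatFunc Fq) K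
  obtain ⟨f, hf, hint⟩ := ar_den (Fq := Fq) α
  have : Finite (IntermediateField (RatFunc Fq) K) :=
    (Field.exists_primitive_element_iff_finite_intermediateField (RatFunc Fq) K).1
      ⟨inferInstance, α, hα⟩
  obtain ⟨s, s', hne, heq⟩ := Finite.exists_ne_map_eq_of_infinite
    (fun s : Fq[X] => IntermediateField.adjoin (RatFunc Fq)
      {x + algebraMap Fq[X] K M * (algebraMap Fq[X] K s * (algebraMap Fq[X] K f * α))})
  refine ⟨algebraMap Fq[X] K s * (algebraMap Fq[X] K f * α), isIntegral_algebraMap.mul hint, ?_⟩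
  rw [eq_top_iff, ← hα, IntermediateField.adjoin_simple_le_iff]
  obtain ⟨L, hL⟩ : ∃ L, L = IntermediateField.adjoin (RatFunc Fq)
      {x + algebraMap Fq[X] K M * (algebraMap Fq[X] K s * (algebraMap Fq[X] K f * α))} := ⟨_, rfl⟩
  have h1 : x + algebraMap Fq[X] K M * (algebraMap Fq[X] K s * (algebraMap Fq[X] K f * α)) ∈ L := by
    rw [hL]
    exact IntermediateField.mem_adjoin_simple_self (RatFunc Fq) _
  have h2 : x + algebraMap Fq[X] K M * (algebraMap Fq[X] K s' * (algebraMap Fq[X] K f * α)) ∈ L := by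
    rw [hL, heq]
    exact IntermediateField.mem_adjoin_simple_self (RatFunc Fq) _
  rw [← hL]
  have h3 := L.sub_mem h1 h2
  have e : (x + algebraMap Fq[X] K M * (algebraMap Fq[X] K s * (algebraMap Fq[X] K f * α))) -
      (x + algebraMap Fq[X] K M * (algebraMap Fq[X] K s' * (algebraMap Fq[X] K f * α))) =
      algebraMap Fq[X] K ((s - s') * M * f) * α := by
    rw [map_mul, map_mul, map_sub]
    ring
  rw [e] at h3
  have hne0 : algebraMap Fq[X] K ((s - s') * M * f) ≠ 0 :=
    ar_ne (mul_ne_zero (mul_ne_zero (sub_ne_zero.2 hne) hM) hf)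
  have h6 : (algebraMap Fq[X] K ((s - s') * M * f))⁻¹ *
      (algebraMap Fq[X] K ((s - s') * M * f) * α) ∈ L :=
    L.mul_mem (L.inv_mem (r4_mem L _)) h3
  rwa [← mul_assoc, inv_mul_cancel₀ hne0, one_mul] at h6

omit [Algebra.IsSeparable (RatFunc Fq) K] [Algebra Fq[X] K] [IsScalarTower Fq[X] (RatFunc Fq) K] in
/-- rational combinations of powers. -/
theorem r4_rat {a b : K} (hb0 : b ≠ 0)
    (hgen : IntermediateField.adjoin (RatFunc Fq) {a / b} = ⊤) (x : K) :
    ∃ p : ℕ → RatFunc Fq, x = ∑ i ∈ Finset.range (Module.finrank (RatFunc Fq) K),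
      algebraMap (RatFunc Fq) K (p i) * (a ^ i * b ^ (Module.finrank (RatFunc Fq) K - 1 - i)) := by
  have hn := (Field.primitive_element_iff_minpoly_natDegree_eq (RatFunc Fq) (a / b)).1 hgen
  have hmem : x / b ^ (Module.finrank (RatFunc Fq) K - 1) ∈
      Algebra.adjoin (RatFunc Fq) {a / b} := by
    rw [← IntermediateField.adjoin_toSubalgebra, hgen]
    exact Algebra.mem_top
  rw [Algebra.adjoin_singleton_eq_range_aeval] at hmem
  obtain ⟨q, hq⟩ := hmem
  have hint : IsIntegral (RatFunc Fq) (a / b) := Algebra.IsIntegral.isIntegral _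
  obtain ⟨r, hr⟩ : ∃ r, r = q %ₘ minpoly (RatFunc Fq) (a / b) := ⟨_, rfl⟩
  have hr1 : Polynomial.aeval (a / b) r = x / b ^ (Module.finrank (RatFunc Fq) K - 1) := by
    rw [hr, minpoly.aeval_modByMonic_minpoly]
    exact hq
  have hr2 : r.natDegree < Module.finrank (RatFunc Fq) K := by
    rw [hr, ← hn]
    exact Polynomial.natDegree_modByMonic_lt _ (minpoly.monic hint)
      (minpoly.ne_one (RatFunc Fq) (a / b))
  refine ⟨fun i => r.coeff i, ?_⟩
  have hx : x = b ^ (Module.finrank (RatFunc Fq) K - 1) * Polynomial.aeval (a / b) r := by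
    rw [hr1, mul_div_cancel₀ _ (pow_ne_zero _ hb0)]
  rw [hx, Polynomial.aeval_eq_sum_range' hr2, Finset.mul_sum]
  refine Finset.sum_congr rfl ?_
  intro i hi
  have hi' := Finset.mem_range.1 hi
  have e : b ^ (Module.finrank (RatFunc Fq) K - 1) =
      b ^ i * b ^ (Module.finrank (RatFunc Fq) K - 1 - i) := by
    rw [← pow_add]
    congr 1
    omega
  rw [e, Algebra.smul_def, div_pow]
  have hbi : b ^ i ≠ 0 := pow_ne_zero _ hb0
  field_simp

omit [Algebra.IsSeparable (RatFunc Fq) K] in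
/-- some multiple is an integral combination. -/
theorem r4_int {a b : K} (hb0 : b ≠ 0)
    (hgen : IntermediateField.adjoin (RatFunc Fq) {a / b} = ⊤) (x : K) :
    ∃ D : Fq[X], D ≠ 0 ∧ algebraMap Fq[X] K D * x ∈ Submodule.span Fq[X]
      {w : K | ∃ i < Module.finrank (RatFunc Fq) K,
        w = a ^ i * b ^ (Module.finrank (RatFunc Fq) K - 1 - i)} := by
  obtain ⟨p, hp⟩ := r4_rat hb0 hgen x
  classical
  obtain ⟨D, hD⟩ := IsLocalization.exist_integer_multiples_of_finset (nonZeroDivisors Fq[X])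
    ((Finset.range (Module.finrank (RatFunc Fq) K)).image p)
  refine ⟨D, nonZeroDivisors.ne_zero D.2, ?_⟩
  rw [hp, Finset.mul_sum]
  refine Submodule.sum_mem _ ?_
  intro i hi
  obtain ⟨c, hc⟩ := hD (p i) (Finset.mem_image_of_mem p hi)
  have e : algebraMap Fq[X] K D * (algebraMap (RatFunc Fq) K (p i) *
      (a ^ i * b ^ (Module.finrank (RatFunc Fq) K - 1 - i))) =
      c • (a ^ i * b ^ (Module.finrank (RatFunc Fq) K - 1 - i)) := by
    have h1 : algebraMap Fq[X] K D * algebraMap (RatFunc Fq) K (p i) = algebraMap Fq[X] K c := by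
      rw [IsScalarTower.algebraMap_apply Fq[X] (RatFunc Fq) K,
        IsScalarTower.algebraMap_apply Fq[X] (RatFunc Fq) K, ← map_mul, hc, Algebra.smul_def]
    rw [Algebra.smul_def, ← h1]
    ring
  rw [e]
  exact Submodule.smul_mem _ _ (Submodule.subset_span ⟨i, Finset.mem_range.1 hi, rfl⟩)

/-- one multiple for all integral elements. -/
theorem r4_all {a b : K} (hb0 : b ≠ 0)
    (hgen : IntermediateField.adjoin (RatFunc Fq) {a / b} = ⊤) :
    ∃ D : Fq[X], D ≠ 0 ∧ ∀ x : K, IsIntegral Fq[X] x → algebraMap Fq[X] K D * x ∈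
      Submodule.span Fq[X] {w : K | ∃ i < Module.finrank (RatFunc Fq) K,
        w = a ^ i * b ^ (Module.finrank (RatFunc Fq) K - 1 - i)} := by
  obtain ⟨S, -, hS⟩ := ar_gen Fq K
  choose D hD0 hD using fun x : K => r4_int hb0 hgen x
  refine ⟨∏ s ∈ S, D s, Finset.prod_ne_zero_iff.2 (fun s _ => hD0 s), ?_⟩
  intro x hx
  have key : ∀ x ∈ Submodule.span Fq[X] (S : Set K), algebraMap Fq[X] K (∏ s ∈ S, D s) * x ∈
      Submodule.span Fq[X] {w : K | ∃ i < Module.finrank (RatFunc Fq) K,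
        w = a ^ i * b ^ (Module.finrank (RatFunc Fq) K - 1 - i)} := by
    intro x hx'
    induction hx' using Submodule.span_induction with
    | mem s hs =>
      obtain ⟨c, hc⟩ := Finset.dvd_prod_of_mem D (Finset.mem_coe.1 hs)
      have e : algebraMap Fq[X] K (∏ s ∈ S, D s) * s = c • (algebraMap Fq[X] K (D s) * s) := by
        rw [hc, Algebra.smul_def, map_mul]
        ring
      rw [e]
      exact Submodule.smul_mem _ _ (hD s)
    | zero =>
      rw [mul_zero]
      exact Submodule.zero_mem _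
    | add u v _ _ hu hv =>
      rw [mul_add]
      exact Submodule.add_mem _ hu hv
    | smul r u _ hu =>
      rw [mul_smul_comm]
      exact Submodule.smul_mem _ _ hu
  exact key x (hS x hx)

omit [Algebra (RatFunc Fq) K] [IsScalarTower Fq[X] (RatFunc Fq) K]
  [FiniteDimensional (RatFunc Fq) K] [Algebra.IsSeparable (RatFunc Fq) K] in
/-- the residue of a monomial. -/
theorem r4_mono (hA : ∀ f : Fq[X], algebraMap Fq[X] K f ∈ A) {a b : K} (ha : a ∈ A) (hb : b ∈ A)
    (t : Fq[X]) {n i : ℕ} (hi : i < n) :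
    (a ^ i * b ^ (n - 1 - i) - b ^ (n - 1) * algebraMap Fq[X] K ((-t) ^ i)) /
      (a + b * algebraMap Fq[X] K t) ∈ A := by
  have h1 : (⟨a, ha⟩ : A) - (-(⟨b, hb⟩ * (⟨_, hA t⟩ : A))) ∣
      (⟨a, ha⟩ : A) ^ i - (-(⟨b, hb⟩ * (⟨_, hA t⟩ : A))) ^ i := sub_dvd_pow_sub_pow _ _ i
  obtain ⟨c, hc⟩ := h1
  have h2 : a ^ i - (-(b * algebraMap Fq[X] K t)) ^ i =
      (a + b * algebraMap Fq[X] K t) * (c : K) := by
    have h3 := congrArg A.subtype hc
    rw [map_sub, map_mul, map_sub, map_pow, map_pow, map_neg, map_mul, sub_neg_eq_add] at h3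
    exact h3
  have e : a ^ i * b ^ (n - 1 - i) - b ^ (n - 1) * algebraMap Fq[X] K ((-t) ^ i) =
      b ^ (n - 1 - i) * ((a + b * algebraMap Fq[X] K t) * (c : K)) := by
    have e1 : b ^ (n - 1) = b ^ (n - 1 - i) * b ^ i := by
      rw [← pow_add]
      congr 1
      omega
    rw [← h2, e1, map_pow, map_neg]
    have e2 : (-(b * algebraMap Fq[X] K t)) ^ i = b ^ i * (-algebraMap Fq[X] K t) ^ i := by
      rw [← mul_pow]
      congr 1
      ring
    rw [e2]
    ring
  rw [e]
  rcases eq_or_ne (a + b * algebraMap Fq[X] K t) 0 with h0 | h0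
  · rw [h0, div_zero]
    exact A.zero_mem
  · have e3 : b ^ (n - 1 - i) * ((a + b * algebraMap Fq[X] K t) * (c : K)) /
        (a + b * algebraMap Fq[X] K t) = b ^ (n - 1 - i) * (c : K) := by
      field_simp
    rw [e3]
    exact A.mul_mem (A.pow_mem hb _) c.2

/-- template `SRing.lattice` in `NF/Good1.lean`: with `n = [K : 𝔽_q(X)]` the elements
`a^i b^(n-1-i)` (`i < n`) form a basis of `K` over `𝔽_q(X)`, so `D O ⊆ ∑_i 𝔽_q[X] a^i b^(n-1-i)` for some
`D ≠ 0` (`ar_gen`). Modulo `c = a + b t` we have `a ≡ - b t`. (If `a + b t = 0` the claim is trivial, as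
`x / 0 = 0`.) -/
theorem FRing.lattice (hA : FRing Fq A) {a b : K} (ha : a ∈ A) (hb : b ∈ A) (hb0 : b ≠ 0)
    (hgen : IntermediateField.adjoin (RatFunc Fq) {a / b} = ⊤) :
    ∃ D : Fq[X], D ≠ 0 ∧ ∀ t : Fq[X], ∀ x : K, IsIntegral Fq[X] x → ∃ z : Fq[X],
      (algebraMap Fq[X] K D * x - b ^ (Module.finrank (RatFunc Fq) K - 1) * algebraMap Fq[X] K z) /
        (a + b * algebraMap Fq[X] K t) ∈ A := by
  obtain ⟨D, hD0, hD⟩ := r4_all hb0 hgen
  refine ⟨D, hD0, ?_⟩
  intro t x hx
  have key : ∀ w ∈ Submodule.span Fq[X] {w : K | ∃ i < Module.finrank (RatFunc Fq) K,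
        w = a ^ i * b ^ (Module.finrank (RatFunc Fq) K - 1 - i)}, ∃ z : Fq[X],
      (w - b ^ (Module.finrank (RatFunc Fq) K - 1) * algebraMap Fq[X] K z) /
        (a + b * algebraMap Fq[X] K t) ∈ A := by
    intro w hw
    induction hw using Submodule.span_induction with
    | mem w hw =>
      obtain ⟨i, hi, rfl⟩ := hw
      exact ⟨(-t) ^ i, r4_mono hA.mem ha hb t hi⟩
    | zero =>
      refine ⟨0, ?_⟩
      rw [map_zero, mul_zero, sub_zero, zero_div]
      exact A.zero_mem
    | add u v _ _ hu hv =>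
      obtain ⟨z1, h1⟩ := hu
      obtain ⟨z2, h2⟩ := hv
      refine ⟨z1 + z2, ?_⟩
      have e : (u + v - b ^ (Module.finrank (RatFunc Fq) K - 1) * algebraMap Fq[X] K (z1 + z2)) /
          (a + b * algebraMap Fq[X] K t) =
          (u - b ^ (Module.finrank (RatFunc Fq) K - 1) * algebraMap Fq[X] K z1) /
            (a + b * algebraMap Fq[X] K t) +
          (v - b ^ (Module.finrank (RatFunc Fq) K - 1) * algebraMap Fq[X] K z2) /
            (a + b * algebraMap Fq[X] K t) := by
        rw [← add_div, map_add]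
        congr 1
        ring
      rw [e]
      exact A.add_mem h1 h2
    | smul r u _ hu =>
      obtain ⟨z1, h1⟩ := hu
      refine ⟨r * z1, ?_⟩
      have e : (r • u - b ^ (Module.finrank (RatFunc Fq) K - 1) * algebraMap Fq[X] K (r * z1)) /
          (a + b * algebraMap Fq[X] K t) = algebraMap Fq[X] K r *
          ((u - b ^ (Module.finrank (RatFunc Fq) K - 1) * algebraMap Fq[X] K z1) /
            (a + b * algebraMap Fq[X] K t)) := by
        rw [Algebra.smul_def, map_mul, mul_div_assoc']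
        congr 1
        ring
      rw [e]
      exact A.mul_mem (hA.mem r) h1
  exact key _ (hD x hx)

end BoomFF
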