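import Pool.Agent.H.MP_4c7af0_al.FF.R2

/-! Good elements, part 2 (MP_4c7af0_al, function field case). Template `NF/Good2a.lean`. -/

namespace BoomFF

open BoomNF Polynomial

variable {Fq K : Type*} [Field Fq] [Field K] [Algebra Fq[X] K] [Algebra (RatFunc Fq) K]
  [IsScalarTower Fq[X] (RatFunc Fq) K] [FiniteDimensional (RatFunc Fq) K]
  [Algebra.IsSeparable (RatFunc Fq) K] {A : Subring K} [Finite Fq]

omit [FiniteDimensional (RatFunc Fq) K] [Algebra.IsSeparable (RatFunc Fq) K] [Finite Fq] in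
/-- coprimality with all prime divisors gives coprimality -/
theorem r5_cop_of_primes (hA : FRing Fq A) {x : K} (hx : x ∈ A) (D : Fq[X]) :
    D ≠ 0 → (∀ P : Fq[X], Irreducible P → P ∣ D → Cop A x (algebraMap Fq[X] K P)) →
      Cop A x (algebraMap Fq[X] K D) := by
  induction D using UniqueFactorizationMonoid.induction_on_prime with
  | h₁ => intro h; exact absurd rfl h
  | h₂ D hD =>
    intro _ _
    obtain ⟨u, rfl⟩ := hD
    refine ⟨0, A.zero_mem, algebraMap Fq[X] K ((u⁻¹ : Fq[X]ˣ) : Fq[X]), hA.mem _, ?_⟩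
    rw [mul_zero, zero_add, ← map_mul, Units.mul_inv, map_one]
  | h₃ a p ha hp ih =>
    intro _ h
    have h1 := ih ha (fun q hq hqa => h q hq (Dvd.dvd.mul_left hqa p))
    have h2 := h p hp.irreducible (dvd_mul_right p a)
    rw [map_mul]
    exact Cop.mul_right hx (hA.mem p) (hA.mem a) h2 h1

omit [FiniteDimensional (RatFunc Fq) K] [Algebra.IsSeparable (RatFunc Fq) K] [Finite Fq] in
/-- the Chinese remainder theorem -/
theorem r5_crt (hA : FRing Fq A) {a b : K} (hb : b ∈ A)
    (hP : ∀ P : Fq[X], Irreducible P →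
      ∃ t : Fq[X], Cop A (a + b * algebraMap Fq[X] K t) (algebraMap Fq[X] K P)) (D : Fq[X]) :
    D ≠ 0 → ∃ t : Fq[X], ∀ P : Fq[X], Irreducible P → P ∣ D →
      Cop A (a + b * algebraMap Fq[X] K t) (algebraMap Fq[X] K P) := by
  induction D using UniqueFactorizationMonoid.induction_on_prime with
  | h₁ => intro h; exact absurd rfl h
  | h₂ D hD =>
    intro _
    exact ⟨0, fun P hPi h => absurd (isUnit_of_dvd_unit h hD) hPi.not_isUnit⟩
  | h₃ D q hD0 hq ih =>
    intro _
    obtain ⟨t, ht⟩ := ih hD0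
    have hqi : Irreducible q := hq.irreducible
    by_cases hqD : q ∣ D
    · refine ⟨t, fun P hPi h => ?_⟩
      rcases hPi.prime.dvd_or_dvd h with h1 | h1
      · exact ht P hPi (h1.trans hqD)
      · exact ht P hPi h1
    · obtain ⟨s, hs⟩ := hP q hqi
      obtain ⟨v, u, huv⟩ := (Irreducible.coprime_iff_not_dvd hqi).2 hqD
      -- `t + D u (s - t) = s - q v (s - t)`
      refine ⟨t + D * (u * (s - t)), fun P hPi h => ?_⟩
      rcases hPi.prime.dvd_or_dvd h with h1 | ⟨e, he⟩
      · obtain ⟨e, he⟩ := hPi.dvd_symm hqi h1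
        have h2 := Cop.add_mul (t := b * algebraMap Fq[X] K (-(v * (s - t))))
          (A.mul_mem hb (hA.mem _)) hs
        have e1 : t + D * (u * (s - t)) = s + q * (-(v * (s - t))) := by
          linear_combination (s - t) * huv
        have e2 : a + b * algebraMap Fq[X] K (s + q * (-(v * (s - t)))) =
            a + b * algebraMap Fq[X] K s +
              algebraMap Fq[X] K q * (b * algebraMap Fq[X] K (-(v * (s - t)))) := by
          rw [map_add, map_mul]
          ring
        rw [← e2, ← e1] at h2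
        obtain ⟨g, hg⟩ := h1
        rw [hg, map_mul] at h2
        exact Cop.of_mul_right_left (hA.mem g) h2
      · have h2 := Cop.add_mul (t := b * algebraMap Fq[X] K (e * (u * (s - t))))
          (A.mul_mem hb (hA.mem _)) (ht P hPi ⟨e, he⟩)
        have e2 : a + b * algebraMap Fq[X] K (t + D * (u * (s - t))) =
            a + b * algebraMap Fq[X] K t +
              algebraMap Fq[X] K P * (b * algebraMap Fq[X] K (e * (u * (s - t)))) := by
          rw [he]
          simp only [map_add, map_mul]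
          ring
        rw [e2]
        exact h2

/-- template `choose_t` in `NF/Good2a.lean`: Chinese remainder theorem in `𝔽_q[X]` over the irreducible
divisors of `D` (induction on the factorisation of `D`). For `P` of degree `≤ B` take `t ≡ 0 mod P`, for
the others the pigeonhole property. Adding a multiple of `D` to `t` keeps coprimality, and
`a + b t = 0` for at most one `t`. -/
theorem FRing.choose_t (hA : FRing Fq A) {a b : K} (ha : a ∈ A) (hb : b ∈ A) (hb0 : b ≠ 0)
    (hab : Cop A a b) {B : ℕ}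
    (hB : ∀ P : Fq[X], Irreducible P → B < P.natDegree →
      ∀ a ∈ A, ∀ b ∈ A, (∃ x ∈ A, ∃ y ∈ A, ∃ z ∈ A, a * x + b * y + algebraMap Fq[X] K P * z = 1) →
      ∃ j : Fq[X], j ≠ 0 ∧ j.natDegree ≤ B ∧
        Cop A (a + b * algebraMap Fq[X] K j) (algebraMap Fq[X] K P))
    (haB : ∀ P : Fq[X], Irreducible P → P.natDegree ≤ B → Cop A a (algebraMap Fq[X] K P))
    {D : Fq[X]} (hD : D ≠ 0) :
    ∃ t : Fq[X], a + b * algebraMap Fq[X] K t ≠ 0 ∧
      Cop A (a + b * algebraMap Fq[X] K t) (algebraMap Fq[X] K D) := by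
  obtain ⟨t, ht⟩ := r5_crt hA (a := a) (b := b) hb (fun P hPi => by
    rcases Nat.lt_or_ge B P.natDegree with h | h
    · obtain ⟨x, hx, y, hy, e⟩ := hab
      obtain ⟨j, -, -, hj⟩ := hB P hPi h a ha b hb ⟨x, hx, y, hy, 0, A.zero_mem, by
        rw [mul_zero, add_zero]; exact e⟩
      exact ⟨j, hj⟩
    · exact ⟨0, by rw [map_zero, mul_zero, add_zero]; exact haB P hPi h⟩) D hD
  have hmem : ∀ t : Fq[X], a + b * algebraMap Fq[X] K t ∈ A := fun t =>
    A.add_mem ha (A.mul_mem hb (hA.mem t))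
  have h1 := r5_cop_of_primes hA (hmem t) D hD ht
  by_cases h0 : a + b * algebraMap Fq[X] K t = 0
  · refine ⟨t + D, ?_, ?_⟩
    · have e : a + b * algebraMap Fq[X] K (t + D) = b * algebraMap Fq[X] K D := by
        rw [map_add]
        linear_combination h0
      rw [e]
      exact mul_ne_zero hb0 (ar_ne hD)
    · have h2 := Cop.add_mul (t := b) hb h1
      have e : a + b * algebraMap Fq[X] K (t + D) =
          a + b * algebraMap Fq[X] K t + algebraMap Fq[X] K D * b := by
        rw [map_add]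
        ring
      rw [e]
      exact h2
  · exact ⟨t, h0, h1⟩

/-- a polynomial that is invertible modulo `c` has a polynomial inverse modulo `c` -/
theorem r5_inv (hA : FRing Fq A) {c : K} (hc : c ∈ A) (hc0 : c ≠ 0) (z : Fq[X]) {w : K}
    (hw : w ∈ A) (h : (algebraMap Fq[X] K z * w - 1) / c ∈ A) :
    ∃ z' : Fq[X], (algebraMap Fq[X] K z * algebraMap Fq[X] K z' - 1) / c ∈ A := by
  obtain ⟨T, -, hT⟩ := hA.fin hc hc0
  have hzA : algebraMap Fq[X] K z ∈ A := hA.mem z
  choose g hg using fun i : ℕ => hT (algebraMap Fq[X] K z ^ i) (A.pow_mem hzA i)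
  obtain ⟨i, j, hij, he⟩ := Finite.exists_ne_map_eq_of_infinite
    (fun i : ℕ => (⟨g i, (hg i).1⟩ : T))
  have he' : g i = g j := congrArg Subtype.val he
  clear he
  wlog hlt : i < j generalizing i j
  · exact this j i hij.symm he'.symm (lt_of_le_of_ne (not_lt.mp hlt) hij.symm)
  obtain ⟨l, rfl⟩ : ∃ l, j = i + (l + 1) := ⟨j - i - 1, by omega⟩
  have h1 : (algebraMap Fq[X] K z ^ (i + (l + 1)) - algebraMap Fq[X] K z ^ i) / c ∈ A := by
    have e : (algebraMap Fq[X] K z ^ (i + (l + 1)) - algebraMap Fq[X] K z ^ i) / c =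
        (algebraMap Fq[X] K z ^ (i + (l + 1)) - g (i + (l + 1))) / c -
          (algebraMap Fq[X] K z ^ i - g i) / c := by
      rw [he']
      ring
    rw [e]
    exact A.sub_mem (hg _).2 (hg _).2
  have hpow : ∀ i : ℕ, ((algebraMap Fq[X] K z * w) ^ i - 1) / c ∈ A := by
    intro i
    induction i with
    | zero => simp [A.zero_mem]
    | succ i ih =>
      have e : ((algebraMap Fq[X] K z * w) ^ (i + 1) - 1) / c =
          ((algebraMap Fq[X] K z * w) ^ i - 1) / c * (algebraMap Fq[X] K z * w) +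
            (algebraMap Fq[X] K z * w - 1) / c := by
        rw [pow_succ]
        ring
      rw [e]
      exact A.add_mem (A.mul_mem ih (A.mul_mem hzA hw)) h
  refine ⟨z ^ l, ?_⟩
  have e : (algebraMap Fq[X] K z * algebraMap Fq[X] K (z ^ l) - 1) / c =
      w ^ i * ((algebraMap Fq[X] K z ^ (i + (l + 1)) - algebraMap Fq[X] K z ^ i) / c) -
      ((algebraMap Fq[X] K z * w) ^ i - 1) / c *
        (algebraMap Fq[X] K z * algebraMap Fq[X] K z ^ l - 1) := by
    rw [map_pow, mul_pow, pow_add, pow_succ]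
    ring
  rw [e]
  exact A.sub_mem (A.mul_mem (A.pow_mem hw i) h1)
    (A.mul_mem (hpow i) (A.sub_mem (A.mul_mem hzA (A.pow_mem hzA l)) A.one_mem))

/-- the inverse modulo `c` of an element congruent to a polynomial is congruent to a polynomial -/
theorem r5_inv' (hA : FRing Fq A) {c : K} (hc : c ∈ A) (hc0 : c ≠ 0) {x w : K}
    (hw : w ∈ A) (z : Fq[X]) (hz : (x - algebraMap Fq[X] K z) / c ∈ A)
    (h : (x * w - 1) / c ∈ A) : ∃ z' : Fq[X], (w - algebraMap Fq[X] K z') / c ∈ A := by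
  have h1 : (algebraMap Fq[X] K z * w - 1) / c ∈ A := by
    have e : (algebraMap Fq[X] K z * w - 1) / c =
        (x * w - 1) / c - w * ((x - algebraMap Fq[X] K z) / c) := by ring
    rw [e]
    exact A.sub_mem h (A.mul_mem hw hz)
  obtain ⟨z', h2⟩ := r5_inv hA hc hc0 z hw h1
  refine ⟨z', ?_⟩
  have e : (w - algebraMap Fq[X] K z') / c =
      algebraMap Fq[X] K z' * ((algebraMap Fq[X] K z * w - 1) / c) -
        w * ((algebraMap Fq[X] K z * algebraMap Fq[X] K z' - 1) / c) := by
    ring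
  rw [e]
  exact A.sub_mem (A.mul_mem (hA.mem z') h1) (A.mul_mem hw h2)

/-- template `SRing.onto_of` in `NF/Good2a.lean`. Let `Z'` be the image of `𝔽_q[X]` in the finite ring
`A / c A`. An element of `Z'` which is a unit has its inverse in `Z'` (it is a power; `FRing.fin` and
`FRing.dvd` give `n ≠ 0` in `𝔽_q[X]` with `n / c ∈ A`, and `𝔽_q[X] / n` is finite). `D` is a unit, so every
integral `x` is `≡ b^k z`, `z ∈ Z'`; for `x = 1` we get `b^k ∈ Z'`; so the integral elements map into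
`Z'`; the element `t` is in `Z'` and a unit, so `t⁻¹ ∈ Z'` and `A` maps into `Z'`. -/
theorem FRing.onto_of (hA : FRing Fq A) {b c : K} (hb : b ∈ A) (hc : c ∈ A) (hc0 : c ≠ 0)
    {D : Fq[X]} (hDc : Cop A (algebraMap Fq[X] K D) c) {k : ℕ}
    (h : ∀ x : K, IsIntegral Fq[X] x → ∃ z : Fq[X],
      (algebraMap Fq[X] K D * x - b ^ k * algebraMap Fq[X] K z) / c ∈ A) :
    OntoF (algebraMap Fq[X] K) A c := by
  -- `D` has a polynomial inverse
  obtain ⟨x₀, hx₀, y₀, hy₀, e₀⟩ := hDc
  obtain ⟨d, hd⟩ := r5_inv hA hc hc0 D hx₀ (by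
    have e : (algebraMap Fq[X] K D * x₀ - 1) / c = -y₀ := by
      field_simp
      linear_combination e₀
    rw [e]
    exact A.neg_mem hy₀)
  have hbk : b ^ k ∈ A := A.pow_mem hb k
  have h1 : ∀ x : K, IsIntegral Fq[X] x → ∃ z : Fq[X],
      (x - b ^ k * algebraMap Fq[X] K z) / c ∈ A := by
    intro x hx
    obtain ⟨z, hz⟩ := h x hx
    refine ⟨z * d, ?_⟩
    have e : (x - b ^ k * algebraMap Fq[X] K (z * d)) / c =
        algebraMap Fq[X] K d * ((algebraMap Fq[X] K D * x - b ^ k * algebraMap Fq[X] K z) / c) -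
          x * ((algebraMap Fq[X] K D * algebraMap Fq[X] K d - 1) / c) := by
      rw [map_mul]
      ring
    rw [e]
    exact A.sub_mem (A.mul_mem (hA.mem d) hz) (A.mul_mem (hA.int_mem hx) hd)
  obtain ⟨z₁, hz₁⟩ := h1 1 isIntegral_one
  -- `b ^ k` is congruent to a polynomial
  obtain ⟨e, he⟩ : ∃ e : Fq[X], (b ^ k - algebraMap Fq[X] K e) / c ∈ A := by
    refine r5_inv' hA hc hc0 (x := algebraMap Fq[X] K z₁) hbk z₁
      (by rw [sub_self, zero_div]; exact A.zero_mem) ?_
    have e : (algebraMap Fq[X] K z₁ * b ^ k - 1) / c =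
        -((1 - b ^ k * algebraMap Fq[X] K z₁) / c) := by
      ring
    rw [e]
    exact A.neg_mem hz₁
  have h2 : ∀ x : K, IsIntegral Fq[X] x → ∃ z : Fq[X], (x - algebraMap Fq[X] K z) / c ∈ A := by
    intro x hx
    obtain ⟨z, hz⟩ := h1 x hx
    refine ⟨e * z, ?_⟩
    have e' : (x - algebraMap Fq[X] K (e * z)) / c =
        (x - b ^ k * algebraMap Fq[X] K z) / c +
          algebraMap Fq[X] K z * ((b ^ k - algebraMap Fq[X] K e) / c) := by
      rw [map_mul]
      ring
    rw [e']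
    exact A.add_mem hz (A.mul_mem (hA.mem z) he)
  have hX0 : algebraMap Fq[X] K X ≠ 0 := ar_ne X_ne_zero
  intro x hx
  obtain ⟨j, hj⟩ := (hA.ex x).1 hx
  have hyj : (algebraMap Fq[X] K X)⁻¹ ^ j ∈ A := A.pow_mem hA.tinv j
  obtain ⟨f, hf⟩ := r5_inv' hA hc hc0 (x := algebraMap Fq[X] K (X ^ j)) hyj (X ^ j)
    (by rw [sub_self, zero_div]; exact A.zero_mem) (by
      have e : (algebraMap Fq[X] K (X ^ j) * (algebraMap Fq[X] K X)⁻¹ ^ j - 1) / c = 0 := by
        rw [map_pow, ← mul_pow, mul_inv_cancel₀ hX0, one_pow, sub_self, zero_div]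
      rw [e]
      exact A.zero_mem)
  obtain ⟨g, hg⟩ := h2 _ hj
  refine ⟨g * f, ?_⟩
  have hx' : x = x * algebraMap Fq[X] K X ^ j * (algebraMap Fq[X] K X)⁻¹ ^ j := by
    rw [mul_assoc, ← mul_pow, mul_inv_cancel₀ hX0, one_pow, mul_one]
  have e' : (x - algebraMap Fq[X] K (g * f)) / c =
      (algebraMap Fq[X] K X)⁻¹ ^ j * ((x * algebraMap Fq[X] K X ^ j - algebraMap Fq[X] K g) / c) +
        algebraMap Fq[X] K g * (((algebraMap Fq[X] K X)⁻¹ ^ j - algebraMap Fq[X] K f) / c) := by
    conv_lhs => rw [hx']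
    rw [map_mul]
    ring
  rw [e']
  exact A.add_mem (A.mul_mem hyj hg) (A.mul_mem (hA.mem g) hf)

end BoomFF
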