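import Pool.Agent.H.MP_4c7af0_al.FF.R3
import Pool.Agent.H.MP_4c7af0_al.FF.R4
import Pool.Agent.H.MP_4c7af0_al.FF.R5
import Pool.Agent.H.MP_4c7af0_al.FF.G1

/-! Lemma G (MP_4c7af0_al, function field case). Template `NF/Good2.lean`. -/

namespace BoomFF

open BoomNF Polynomial

variable {Fq K : Type*} [Field Fq] [Field K] [Algebra Fq[X] K] [Algebra (RatFunc Fq) K]
  [IsScalarTower Fq[X] (RatFunc Fq) K] [FiniteDimensional (RatFunc Fq) K]
  [Algebra.IsSeparable (RatFunc Fq) K] {A : Subring K} [Finite Fq]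

theorem FRing.gring (hA : FRing Fq A) : GRing A := by
  refine ⟨fun x => ?_, fun α hα h0 => hA.fin hα h0⟩
  obtain ⟨f, hf, h1⟩ := ar_den (Fq := Fq) x
  exact ⟨algebraMap Fq[X] K f, hA.mem f, ar_ne hf, hA.int_mem h1⟩

/-- there are finitely many polynomials of degree `≤ B` over a finite field -/
theorem r6_finite_small (Fq : Type*) [Field Fq] [Finite Fq] (B : ℕ) :
    {P : Fq[X] | P.natDegree ≤ B}.Finite := by
  have h : Finite (degreeLT Fq (B + 1)) :=
    Finite.of_equiv (Fin (B + 1) → Fq) (degreeLTEquiv Fq (B + 1)).symm.toEquiv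
  refine Set.Finite.subset (Set.toFinite (degreeLT Fq (B + 1) : Set Fq[X])) ?_
  intro P hP
  have hP' : P.natDegree ≤ B := hP
  rw [SetLike.mem_coe, mem_degreeLT]
  calc P.degree ≤ (P.natDegree : WithBot ℕ) := degree_le_natDegree
    _ ≤ (B : WithBot ℕ) := by exact_mod_cast hP'
    _ < ((B + 1 : ℕ) : WithBot ℕ) := by exact_mod_cast Nat.lt_succ_self B

/-- a nonzero polynomial divisible by all irreducible polynomials of degree `≤ B` (the product of all
nonzero polynomials of degree `≤ B`; finitely many as `𝔽_q` is finite) -/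
theorem ar_all_small (Fq : Type*) [Field Fq] [Finite Fq] (B : ℕ) :
    ∃ M : Fq[X], M ≠ 0 ∧ ∀ P : Fq[X], Irreducible P → P.natDegree ≤ B → P ∣ M := by
  classical
  refine ⟨∏ P ∈ (r6_finite_small Fq B).toFinset.erase 0, P, ?_, ?_⟩
  · rw [Finset.prod_ne_zero_iff]
    intro P hP
    exact (Finset.mem_erase.1 hP).1
  · intro P hP hB
    refine Finset.dvd_prod_of_mem (fun Q : Fq[X] => Q) ?_
    rw [Finset.mem_erase, Set.Finite.mem_toFinset]
    exact ⟨hP.ne_zero, hB⟩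

/-- Lemma G. Template `SRing.good` in `NF/Good2.lean`: (i) by `GRing.coprime_lift` (with `M` from
`ar_all_small`, `B` from `pig`) we may assume `a` coprime to `M`; (ii) `ar_prim` for `x = a / b`, `M`:
replace `a` by `a + b M θ`; (iii) `lattice` gives `D`; (iv) `choose_t`; (v) `onto_of`. -/
theorem FRing.good (hA : FRing Fq A) {a b : K} (ha : a ∈ A) (hb : b ∈ A) (hb0 : b ≠ 0)
    (hab : Cop A a b) : ∃ t ∈ A, a + b * t ≠ 0 ∧ OntoF (algebraMap Fq[X] K) A (a + b * t) := by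
  obtain ⟨B, hB⟩ := hA.pig
  obtain ⟨M, hM0, hM⟩ := ar_all_small Fq B
  have hMK0 : algebraMap Fq[X] K M ≠ 0 := ar_ne hM0
  have hMA : algebraMap Fq[X] K M ∈ A := hA.mem M
  obtain ⟨t0, ht0, -, hc0⟩ := hA.gring.coprime_lift ha hb hMA hMK0 hab
  obtain ⟨a1, ha1⟩ : ∃ a1, a1 = a + b * t0 := ⟨_, rfl⟩
  rw [← ha1] at hc0
  have ha1A : a1 ∈ A := by rw [ha1]; exact A.add_mem ha (A.mul_mem hb ht0)
  have hab1 : Cop A a1 b := by rw [ha1]; exact Cop.add_mul ht0 hab
  obtain ⟨θ, hθi, hθ⟩ := ar_prim (Fq := Fq) (a1 / b) hM0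
  have hθA : θ ∈ A := hA.int_mem hθi
  obtain ⟨a2, ha2⟩ : ∃ a2, a2 = a1 + b * (algebraMap Fq[X] K M * θ) := ⟨_, rfl⟩
  have hMθ : algebraMap Fq[X] K M * θ ∈ A := A.mul_mem hMA hθA
  have ha2A : a2 ∈ A := by rw [ha2]; exact A.add_mem ha1A (A.mul_mem hb hMθ)
  have hab2 : Cop A a2 b := by rw [ha2]; exact Cop.add_mul hMθ hab1
  have hgen : IntermediateField.adjoin (RatFunc Fq) {a2 / b} = ⊤ := by
    have e : a2 / b = a1 / b + algebraMap Fq[X] K M * θ := by
      rw [ha2]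
      field_simp
    rw [e]
    exact hθ
  obtain ⟨D, hD, hlat⟩ := hA.lattice ha2A hb hb0 hgen
  have haB : ∀ P : Fq[X], Irreducible P → P.natDegree ≤ B → Cop A a2 (algebraMap Fq[X] K P) := by
    intro P hP hPB
    obtain ⟨m, hm⟩ := hM P hP hPB
    have hmA : algebraMap Fq[X] K m ∈ A := hA.mem m
    have h1 : Cop A a1 (algebraMap Fq[X] K P) := by
      rw [hm, map_mul] at hc0
      exact Cop.of_mul_right_left hmA hc0
    have e : a2 = a1 + algebraMap Fq[X] K P * (algebraMap Fq[X] K m * θ * b) := by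
      rw [ha2, hm, map_mul]
      ring
    rw [e]
    exact Cop.add_mul (A.mul_mem (A.mul_mem hmA hθA) hb) h1
  obtain ⟨t, ht0', htD⟩ := hA.choose_t ha2A hb hb0 hab2 hB haB hD
  have htA : algebraMap Fq[X] K t ∈ A := hA.mem t
  have hcA : a2 + b * algebraMap Fq[X] K t ∈ A := A.add_mem ha2A (A.mul_mem hb htA)
  have honto := hA.onto_of hb hcA ht0' htD.symm (k := Module.finrank (RatFunc Fq) K - 1) (hlat t)
  have e : a2 + b * algebraMap Fq[X] K t =
      a + b * (t0 + algebraMap Fq[X] K M * θ + algebraMap Fq[X] K t) := by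
    rw [ha2, ha1]
    ring
  rw [e] at ht0' honto
  exact ⟨t0 + algebraMap Fq[X] K M * θ + algebraMap Fq[X] K t,
    A.add_mem (A.add_mem ht0 hMθ) htA, ht0', honto⟩

end BoomFF
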